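import Pool.Agent.H16.KN.TTc
import Pool.Agent.H71.FQ.Nu
import Pool.Agent.H71.FQ.HG

/-!
# Project KN: products of cochains, the cochains of the measures

PROOFS.  `dl_pL`, `dl_pE`: split off the last (two) indices of the sum (`Fin.sum_univ_castSucc`).
`meas_of_exp`: `ν` from `exists_nu_tuple`, `H` from `exists_homotopy` for `A = ν`, `B v = μ • (point mass of π (v 0))`,
`b v = π (v 0)` (`μ = orderOf c * p ^ r`, as in `HG.ev_vmap` of `FQ/HG.lean`);
`ψ v = linearCombination φ (tens ν (n + 1) v)`, `β v = linearCombination φ (H n (single v 1))`;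
apply `linearCombination φ` to `bd (H (n+1) (single v)) + μ H n (bd (single v)) = vmap ν - vmap B`: the first term
vanishes (`φ` is a cocycle), so `μ dl β = ψ - μ ^ (n + 2) φ(π ..)`.
-/

set_option autoImplicit false

open Matrix

universe u v w

namespace Pool.Agent.H16.KN

open Pool.Agent.H71.FQ

section

variable {X : Type u} {B : Type v} [CommRing B] {k : ℕ}

/-- the product of `ψ` with a function of the last two variables -/
def pL (ψ : (Fin (k + 1) → X) → B) (l : X → X → B) (v : Fin (k + 2) → X) : B :=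
  ψ (fun j => v j.castSucc) * l (v (Fin.last k).castSucc) (v (Fin.last (k + 1)))

/-- the product of `ψ` with a function of the last variable -/
def pE (ψ : (Fin (k + 1) → X) → B) (e : X → B) (v : Fin (k + 1) → X) : B :=
  ψ v * e (v (Fin.last k))

private theorem sa_last {m : ℕ} (i : Fin (m + 1)) :
    (Fin.castSucc i).succAbove (Fin.last m) = Fin.last (m + 1) := by
  rw [Fin.succAbove_of_le_castSucc _ _ (Fin.castSucc_le_castSucc_iff.2 (Fin.le_last i)), Fin.succ_last]

private theorem sa_cast {m : ℕ} (i : Fin (m + 1)) (j : Fin m) :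
    (Fin.castSucc i).succAbove (Fin.castSucc j) = Fin.castSucc (i.succAbove j) :=
  (Fin.castSucc_succAbove_castSucc (i := i) (j := j))

theorem dl_pL (ψ : (Fin (k + 1) → X) → B) (l : X → X → B) (hl : ∀ a b c, l a b + l b c = l a c)
    (v : Fin (k + 3) → X) : dl (pL ψ l) v = pL (dl ψ) l v := by
  have h1 : ∀ i : Fin (k + 2), pL ψ l (fun j => v ((Fin.castSucc i).succAbove j)) =
      ψ (fun j => v (Fin.castSucc (i.succAbove j))) *
        l (v (Fin.castSucc (i.succAbove (Fin.last k)))) (v (Fin.last (k + 2))) := by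
    intro i
    unfold pL
    simp only [sa_cast, sa_last]
  have h2 : pL ψ l (fun j => v ((Fin.last (k + 2)).succAbove j)) =
      ψ (fun j => v (Fin.castSucc (Fin.castSucc j))) *
        l (v (Fin.castSucc (Fin.castSucc (Fin.last k)))) (v (Fin.castSucc (Fin.last (k + 1)))) := by
    unfold pL
    simp only [Fin.succAbove_last]
  have h3 : dl (pL ψ l) v = (∑ i : Fin (k + 1), (-1 : ℤ) ^ (i : ℕ) •
      (ψ (fun j => v (Fin.castSucc ((Fin.castSucc i).succAbove j))) *
        l (v (Fin.castSucc (Fin.last (k + 1)))) (v (Fin.last (k + 2))))) +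
      (-1 : ℤ) ^ (k + 1) • (ψ (fun j => v (Fin.castSucc (Fin.castSucc j))) *
        l (v (Fin.castSucc (Fin.castSucc (Fin.last k)))) (v (Fin.last (k + 2)))) +
      (-1 : ℤ) ^ (k + 2) • (ψ (fun j => v (Fin.castSucc (Fin.castSucc j))) *
        l (v (Fin.castSucc (Fin.castSucc (Fin.last k)))) (v (Fin.castSucc (Fin.last (k + 1))))) := by
    unfold dl
    rw [Fin.sum_univ_castSucc, h2]
    have h4 : ∀ i : Fin (k + 2), (-1 : ℤ) ^ ((Fin.castSucc i : Fin (k + 3)) : ℕ) •
        pL ψ l (fun j => v ((Fin.castSucc i).succAbove j)) = (-1 : ℤ) ^ (i : ℕ) •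
        (ψ (fun j => v (Fin.castSucc (i.succAbove j))) *
        l (v (Fin.castSucc (i.succAbove (Fin.last k)))) (v (Fin.last (k + 2)))) := fun i => by
      rw [h1, Fin.val_castSucc]
    rw [Finset.sum_congr rfl fun i _ => h4 i, Fin.sum_univ_castSucc]
    congr 1
    congr 1
    · refine Finset.sum_congr rfl fun i _ => ?_
      rw [Fin.val_castSucc, sa_last]
    · simp only [Fin.succAbove_last, Fin.val_last]
  have h5 : pL (dl ψ) l v = (∑ i : Fin (k + 1), (-1 : ℤ) ^ (i : ℕ) •
      (ψ (fun j => v (Fin.castSucc ((Fin.castSucc i).succAbove j))) *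
        l (v (Fin.castSucc (Fin.last (k + 1)))) (v (Fin.last (k + 2))))) +
      (-1 : ℤ) ^ (k + 1) • (ψ (fun j => v (Fin.castSucc (Fin.castSucc j))) *
        l (v (Fin.castSucc (Fin.last (k + 1)))) (v (Fin.last (k + 2)))) := by
    show (∑ i : Fin (k + 2), (-1 : ℤ) ^ (i : ℕ) • ψ (fun j => v (Fin.castSucc (i.succAbove j)))) *
      l (v (Fin.castSucc (Fin.last (k + 1)))) (v (Fin.last (k + 2))) = _
    rw [Finset.sum_mul, Fin.sum_univ_castSucc]
    congr 1
    · refine Finset.sum_congr rfl fun i _ => ?_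
      rw [Fin.val_castSucc, smul_mul_assoc]
    · rw [smul_mul_assoc]
      simp only [Fin.succAbove_last, Fin.val_last]
  rw [h3, h5, add_assoc]
  congr 1
  rw [← hl (v (Fin.castSucc (Fin.castSucc (Fin.last k)))) (v (Fin.castSucc (Fin.last (k + 1))))
    (v (Fin.last (k + 2)))]
  simp only [zsmul_eq_mul, Int.cast_pow, Int.cast_neg, Int.cast_one]
  ring

theorem dl_pE (ψ : (Fin (k + 1) → X) → B) (e : X → B) (v : Fin (k + 2) → X) :
    dl (pE ψ e) v = dl ψ v * e (v (Fin.last (k + 1))) +
      (-1) ^ (k + 1) * pL ψ (fun a b => e a - e b) v := by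
  have h1 : dl (pE ψ e) v = (∑ i : Fin (k + 1), (-1 : ℤ) ^ (i : ℕ) •
      (ψ (fun j => v ((Fin.castSucc i).succAbove j)) * e (v (Fin.last (k + 1))))) +
      (-1 : ℤ) ^ (k + 1) • (ψ (fun j => v (Fin.castSucc j)) * e (v (Fin.castSucc (Fin.last k)))) := by
    unfold dl pE
    rw [Fin.sum_univ_castSucc]
    congr 1
    · refine Finset.sum_congr rfl fun i _ => ?_
      rw [Fin.val_castSucc]
      show _ • (_ * e (v ((Fin.castSucc i).succAbove (Fin.last k)))) = _
      rw [sa_last]
    · simp only [Fin.succAbove_last, Fin.val_last]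
  have h2 : dl ψ v * e (v (Fin.last (k + 1))) = (∑ i : Fin (k + 1), (-1 : ℤ) ^ (i : ℕ) •
      (ψ (fun j => v ((Fin.castSucc i).succAbove j)) * e (v (Fin.last (k + 1))))) +
      (-1 : ℤ) ^ (k + 1) • (ψ (fun j => v (Fin.castSucc j)) * e (v (Fin.last (k + 1)))) := by
    unfold dl
    rw [Finset.sum_mul, Fin.sum_univ_castSucc]
    congr 1
    · refine Finset.sum_congr rfl fun i _ => ?_
      rw [Fin.val_castSucc, smul_mul_assoc]
    · rw [smul_mul_assoc]
      simp only [Fin.succAbove_last, Fin.val_last]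
  rw [h1, h2, add_assoc]
  congr 1
  unfold pL
  simp only [zsmul_eq_mul, Int.cast_pow, Int.cast_neg, Int.cast_one]
  ring

end

section

variable {G : Type u} [Group G] {B : Type v} [CommRing B] {n : ℕ}

/-- equivariant maps to the centralizer -/
theorem exists_pi (c : G) : ∃ π : G → Subgroup.centralizer ({c} : Set G),
    ∀ (z : Subgroup.centralizer ({c} : Set G)) (g : G), π (z * g) = z * π g := by
  classical
  have h0 : ∀ g : G, g * (Quotient.out (Quotient.mk
      (QuotientGroup.rightRel (Subgroup.centralizer ({c} : Set G))) g))⁻¹ ∈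
      Subgroup.centralizer ({c} : Set G) := by
    intro g
    have h1 := Quotient.mk_out (s := QuotientGroup.rightRel (Subgroup.centralizer ({c} : Set G))) g
    exact QuotientGroup.rightRel_apply.1 h1
  refine ⟨fun g => ⟨_, h0 g⟩, fun z g => ?_⟩
  apply Subtype.ext
  show (z : G) * g * (Quotient.out (Quotient.mk
      (QuotientGroup.rightRel (Subgroup.centralizer ({c} : Set G))) ((z : G) * g)))⁻¹ =
    (z : G) * (g * (Quotient.out (Quotient.mk
      (QuotientGroup.rightRel (Subgroup.centralizer ({c} : Set G))) g))⁻¹)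
  have h2 : Quotient.mk (QuotientGroup.rightRel (Subgroup.centralizer ({c} : Set G))) ((z : G) * g) =
      Quotient.mk (QuotientGroup.rightRel (Subgroup.centralizer ({c} : Set G))) g := by
    refine Quotient.sound (QuotientGroup.rightRel_apply.2 ?_)
    rw [_root_.mul_inv_rev, mul_inv_cancel_left]
    exact Subgroup.inv_mem _ z.2
  rw [h2, mul_assoc]

private theorem lc_smul_bd {X : Type*} {Z : Type*} (φ : (Fin (n + 2) → Z) → B) (f : (Fin (n + 1) → Z) → B)
    (hf : ∀ x : Fin (n + 2) → Z, ∑ i : Fin (n + 2), (-1 : ℤ) ^ (i : ℕ) • f (fun j => x (i.succAbove j)) = φ x)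
    (ν : X → Z →₀ ℤ) (μ : ℤ) (hμ : ∀ x, mass (ν x) = μ) (c : Cx ℤ X (n + 2)) :
    Finsupp.linearCombination ℤ φ (vmap ν (n + 1) (bd ℤ X (n + 1) c)) = 0 := by
  have h1 : ∀ d : Cx ℤ Z (n + 1), Finsupp.linearCombination ℤ φ d =
      Finsupp.linearCombination ℤ f (bd ℤ Z n d) := by
    intro d
    rw [lc_bd]
    congr 1
    congr 1
    funext x
    exact (hf x).symm
  rw [h1, bd_vmap ν μ hμ, bd_bd, map_zero, smul_zero, map_zero]

private theorem lc_single_bd {X : Type*} {m : ℕ} (ψ : (Fin (m + 1) → X) → B) (v : Fin (m + 2) → X) :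
    Finsupp.linearCombination ℤ ψ (bd ℤ X m (Finsupp.single v 1)) = dl ψ v := by
  rw [lc_bd, Finsupp.linearCombination_single, one_smul]
  rfl

/-- The cochains of the measures: for all `m` the cochain of `φ` on the first coordinates is cohomologous, up to `μ`,
to a rotation invariant cocycle. -/
def Meas (p : ℕ) (c : G) (π : G → Subgroup.centralizer ({c} : Set G))
    (φ : (Fin (n + 2) → Subgroup.centralizer ({c} : Set G)) → B) : Prop :=
  ∃ μ : ℕ, μ ≠ 0 ∧ ∀ m, ∃ (ψ : (Fin (n + 2) → Fin (p ^ m) → G) → B)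
    (β : (Fin (n + 1) → Fin (p ^ m) → G) → B),
    (∀ g : G, g * c = c * g → ∀ v, ψ (fun j b => g * v j b) = ψ v) ∧
    (∀ v, ψ (fun j => sig (p ^ m) c (v j)) = ψ v) ∧ (∀ v, dl ψ v = 0) ∧
    (∀ g : G, g * c = c * g → ∀ v, β (fun j b => g * v j b) = β v) ∧
    ∀ (h0 : 0 < p ^ m) v, (μ : B) ^ (n + 2) * φ (fun j => π (v j ⟨0, h0⟩)) = ψ v - (μ : B) * dl β v

theorem meas_of_exp {p : ℕ} (hp : p.Prime) (r : ℕ)
    (hG : ∀ g : G, (∃ j : ℕ, g ^ p ^ j = 1) → g ^ p ^ r = 1) {c : G} (hc : IsOfFinOrder c)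
    (π : G → Subgroup.centralizer ({c} : Set G))
    (hπ : ∀ (z : Subgroup.centralizer ({c} : Set G)) (g : G), π (z * g) = z * π g)
    {φ : (Fin (n + 2) → Subgroup.centralizer ({c} : Set G)) → B}
    (hφ : IsCoc (Subgroup.centralizer ({c} : Set G)) n φ) : Meas p c π φ := by
  refine ⟨orderOf c * p ^ r, Nat.mul_ne_zero hc.orderOf_pos.ne' (pow_ne_zero _ hp.ne_zero), fun m => ?_⟩
  obtain ⟨ν, hν1, hν2, hν3⟩ := exists_nu_tuple hp r hG m c hc
  set μ : ℤ := ((orderOf c * p ^ r : ℕ) : ℤ) with hμ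
  have h0 : 0 < p ^ m := Nat.pow_pos hp.pos
  obtain ⟨H, h1, h2⟩ := exists_homotopy (R := ℤ) ν
    (fun v : Fin (p ^ m) → G => Finsupp.single (π (v ⟨0, h0⟩)) μ) μ hν1
    (fun v => mass_single' _ _) (fun v => π (v ⟨0, h0⟩))
  have hlc : ∀ (k : ℕ) (φ' : (Fin (k + 1) → Subgroup.centralizer ({c} : Set G)) → B)
      (hφ' : ∀ (z : Subgroup.centralizer ({c} : Set G)) x, φ' (fun j => z * x j) = φ' x)
      (z : Subgroup.centralizer ({c} : Set G)) (d : Cx ℤ (Subgroup.centralizer ({c} : Set G)) k),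
      Finsupp.linearCombination ℤ φ' (push ℤ (fun y => z * y) k d) =
        Finsupp.linearCombination ℤ φ' d := by
    intro k φ' hφ' z d
    rw [lc_push]
    congr 1
    congr 1
    funext x
    exact hφ' z x
  refine ⟨fun v => Finsupp.linearCombination ℤ φ (tens ν (n + 1) v),
    fun v => Finsupp.linearCombination ℤ φ (H n (Finsupp.single v 1)), ?_, ?_, ?_, ?_, ?_⟩
  · intro g hg v
    have hz : g ∈ Subgroup.centralizer ({c} : Set G) := Subgroup.mem_centralizer_singleton_iff.2 hg
    show Finsupp.linearCombination ℤ φ (tens ν (n + 1) (fun j => lmul g (v j))) =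
      Finsupp.linearCombination ℤ φ (tens ν (n + 1) v)
    have h3 : tens ν (n + 1) (fun j => lmul g (v j)) =
        push ℤ (fun y => (⟨g, hz⟩ : Subgroup.centralizer ({c} : Set G)) * y) (n + 1)
          (tens ν (n + 1) v) := by
      rw [← vmap_single ν (n + 1) v, push_vmap, vmap_single, tens_eq_tenf, tens_eq_tenf]
      congr 1
      funext j
      exact hν2 ⟨g, hz⟩ (v j)
    rw [h3, hlc _ φ hφ.inv]
  · intro v
    show Finsupp.linearCombination ℤ φ (tens ν (n + 1) (fun j => sig (p ^ m) c (v j))) =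
      Finsupp.linearCombination ℤ φ (tens ν (n + 1) v)
    congr 1
    rw [tens_eq_tenf, tens_eq_tenf]
    congr 1
    funext j
    exact hν3 (v j)
  · intro v
    rw [← lc_single_bd, ← lc_vmap]
    refine lc_smul_bd φ (fun x => φ (Fin.cons 1 x)) ?_ ν μ hν1 _
    intro x
    have h3 := hφ.coc (Fin.cons 1 x)
    rw [Fin.sum_univ_succ] at h3
    have h4 : (fun j => (Fin.cons 1 x : Fin (n + 3) → Subgroup.centralizer ({c} : Set G))
        ((0 : Fin (n + 3)).succAbove j)) = x := by
      funext j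
      rw [Fin.succAbove_zero, Fin.cons_succ]
    have h5 : ∀ i : Fin (n + 2), (fun j => (Fin.cons 1 x : Fin (n + 3) → Subgroup.centralizer ({c} : Set G))
        (i.succ.succAbove j)) = Fin.cons 1 fun j => x (i.succAbove j) := by
      intro i
      funext j
      refine Fin.cases ?_ (fun j => ?_) j
      · rw [Fin.succ_succAbove_zero, Fin.cons_zero, Fin.cons_zero]
      · rw [Fin.succ_succAbove_succ, Fin.cons_succ, Fin.cons_succ]
    rw [h4] at h3
    simp only [h5, Fin.val_zero, pow_zero, one_smul, Fin.val_succ, pow_succ, mul_neg, mul_one,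
      neg_smul, Finset.sum_neg_distrib] at h3
    exact (sub_eq_zero.1 (by rw [sub_eq_add_neg]; exact h3)).symm
  · intro g hg v
    have hz : g ∈ Subgroup.centralizer ({c} : Set G) := Subgroup.mem_centralizer_singleton_iff.2 hg
    show Finsupp.linearCombination ℤ φ (H n (Finsupp.single (fun j => lmul g (v j)) 1)) =
      Finsupp.linearCombination ℤ φ (H n (Finsupp.single v 1))
    have h3 := h2 (fun y => lmul g y) (fun y => (⟨g, hz⟩ : Subgroup.centralizer ({c} : Set G)) * y)
      (fun y => (hν2 ⟨g, hz⟩ y).symm) (fun y => by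
        show (Finsupp.single (π (y ⟨0, h0⟩)) μ).mapDomain _ = Finsupp.single (π (g * y ⟨0, h0⟩)) μ
        rw [Finsupp.mapDomain_single]
        congr 1
        exact (hπ ⟨g, hz⟩ _).symm) (fun y => (hπ ⟨g, hz⟩ _).symm) n (Finsupp.single v 1)
    rw [push_single] at h3
    rw [h3, hlc _ φ hφ.inv]
  · intro h0' v
    have h3 := congrArg (Finsupp.linearCombination ℤ φ) (h1 n (Finsupp.single v 1))
    rw [map_add, map_smul, map_sub, lc_bd, vmap_single, vmap_smul_point, push_single, map_smul,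
      Finsupp.linearCombination_single, one_smul] at h3
    have h4 : (fun x : Fin (n + 3) → Subgroup.centralizer ({c} : Set G) =>
        ∑ i : Fin (n + 3), (-1 : ℤ) ^ (i : ℕ) • φ (fun j => x (i.succAbove j))) = fun _ => 0 :=
      funext fun x => hφ.coc x
    have h5 : ∀ d : Cx ℤ (Subgroup.centralizer ({c} : Set G)) (n + 2), Finsupp.linearCombination ℤ
        (fun _ : Fin (n + 3) → Subgroup.centralizer ({c} : Set G) => (0 : B)) d = 0 := fun d => by
      simp [Finsupp.linearCombination_apply]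
    have h6 : Finsupp.linearCombination ℤ φ (H n (bd ℤ (Fin (p ^ m) → G) n (Finsupp.single v 1))) =
        dl (fun v => Finsupp.linearCombination ℤ φ (H n (Finsupp.single v 1))) v := by
      rw [bd_single, map_sum, map_sum]
      refine Finset.sum_congr rfl fun i _ => ?_
      rw [map_smul, map_smul]
    rw [h4, h5, zero_add, h6, hμ] at h3
    simp only [zsmul_eq_mul, Int.cast_pow, Int.cast_natCast] at h3
    show _ = Finsupp.linearCombination ℤ φ (tens ν (n + 1) v) - _
    rw [h3]
    ring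

end

end Pool.Agent.H16.KN
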