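import Pool.Agent.H16.KN.TTc

/-!
# Project KN: degrees in `G × ℤ`

`QC0 G B k` is generated by the tuples `x` with all `x_i⁻¹ x_j` supported in degrees `≥ 0`, or all in degrees `≤ 0`.

PROOF of `TT_half`.  `TM_eq`: for a word `g` with non-zero coefficients all `dg (g j) ≥ 0` (or all `≤ 0`) and
`u (∏ g) u⁻¹ = (c, 1)` gives `∑ dg (g j) = 0`, so all `dg (g j) = 0` and the vertices have the same degree; the value of
`φ` is zero.  `TQ_half`, `TR_half`: `QC.induction`-like on the closure; the letters of a half tuple are `x_j⁻¹ x_{j+1}`,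
the letters of `rep q x` are letters of `x`.
-/

set_option autoImplicit false

open Matrix

universe u v w

namespace Pool.Agent.H16.KN

open Pool.Agent.H71.FQ

section

variable {G : Type u} [Group G] {B : Type v} [CommRing B]

/-- the degree -/
def dg (x : G × Multiplicative ℤ) : ℤ := Multiplicative.toAdd x.2

/-- supported in degrees `≥ 0` -/
def DP {N : ℕ} (a : Matrix (Fin N) (Fin N) (MonoidAlgebra B (G × Multiplicative ℤ))) : Prop :=
  ∀ x, cof a x ≠ 0 → 0 ≤ dg x

/-- supported in degrees `≤ 0` -/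
def DN {N : ℕ} (a : Matrix (Fin N) (Fin N) (MonoidAlgebra B (G × Multiplicative ℤ))) : Prop :=
  ∀ x, cof a x ≠ 0 → dg x ≤ 0

omit [CommRing B] in
private theorem dg_mul (x y : G × Multiplicative ℤ) : dg (x * y) = dg x + dg y := rfl

private theorem dg_one : dg (1 : G × Multiplicative ℤ) = 0 := rfl

private theorem dg_inv (x : G × Multiplicative ℤ) : dg x⁻¹ = -dg x := rfl

private theorem dg_prod (L : List (G × Multiplicative ℤ)) : dg L.prod = (L.map dg).sum := by
  induction L with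
  | nil => rfl
  | cons a L ih => rw [List.prod_cons, dg_mul, ih, List.map_cons, List.sum_cons]

private theorem exists_of_cof_mul {N : ℕ}
    {a b : Matrix (Fin N) (Fin N) (MonoidAlgebra B (G × Multiplicative ℤ))}
    {x : G × Multiplicative ℤ} (hx : cof (a * b) x ≠ 0) :
    ∃ y, cof a y ≠ 0 ∧ cof b (y⁻¹ * x) ≠ 0 := by
  classical
  by_contra hcon
  push Not at hcon
  apply hx
  ext i j
  simp only [cof, Matrix.map_apply, Matrix.mul_apply, Matrix.zero_apply]
  rw [MonoidAlgebra.coeff_sum, Finsupp.finsetSum_apply]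
  refine Finset.sum_eq_zero fun l _ => ?_
  rw [MonoidAlgebra.coeff_mul_apply_left]
  refine Finset.sum_eq_zero fun y _ => ?_
  by_cases hy : cof a y = 0
  · have h1 : (a i l).coeff y = 0 := congrFun (congrFun hy i) l
    change (a i l).coeff y * (b l j).coeff (y⁻¹ * x) = 0
    rw [h1, zero_mul]
  · have h1 : (b l j).coeff (y⁻¹ * x) = 0 := congrFun (congrFun (hcon y hy) l) j
    change (a i l).coeff y * (b l j).coeff (y⁻¹ * x) = 0
    rw [h1, mul_zero]

theorem DP.mul {N : ℕ} {a b : Matrix (Fin N) (Fin N) (MonoidAlgebra B (G × Multiplicative ℤ))}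
    (ha : DP a) (hb : DP b) : DP (a * b) := by
  intro x hx
  obtain ⟨y, h1, h2⟩ := exists_of_cof_mul hx
  have h3 := ha _ h1
  have h4 := hb _ h2
  rw [dg_mul, dg_inv] at h4
  omega

theorem DN.mul {N : ℕ} {a b : Matrix (Fin N) (Fin N) (MonoidAlgebra B (G × Multiplicative ℤ))}
    (ha : DN a) (hb : DN b) : DN (a * b) := by
  intro x hx
  obtain ⟨y, h1, h2⟩ := exists_of_cof_mul hx
  have h3 := ha _ h1
  have h4 := hb _ h2
  rw [dg_mul, dg_inv] at h4
  omega

/-- half tuples -/
def Half {N k : ℕ} (x : Fin (k + 1) → GLm N (MonoidAlgebra B (G × Multiplicative ℤ))) : Prop :=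
  (∀ i j, DP ((x i)⁻¹ * x j).val) ∨ ∀ i j, DN ((x i)⁻¹ * x j).val

variable (G B) in
/-- the subgroup generated by the half tuples -/
noncomputable def QC0 (k : ℕ) : AddSubgroup (QC (MonoidAlgebra B (G × Multiplicative ℤ)) k) :=
  AddSubgroup.closure {w | ∃ (N : ℕ) (x : Fin (k + 1) → GLm N _), Half x ∧ w = QC.t N x}

private theorem vtx_const {K : ℕ} (u : G × Multiplicative ℤ) (g : Fin K → G × Multiplicative ℤ)
    (hg : ∀ j, dg (g j) = 0) (j : Fin K) : dg (vtx u g j) = dg u := by
  rw [vtx, dg_mul, dg_prod]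
  have h : (List.map dg (List.take (j : ℕ) (List.ofFn g))).sum = 0 := by
    apply List.sum_eq_zero
    intro z hz
    rw [List.mem_map] at hz
    obtain ⟨w, hw, rfl⟩ := hz
    have hw' := List.mem_of_mem_take hw
    rw [List.mem_ofFn] at hw'
    obtain ⟨i, rfl⟩ := hw'
    exact hg i
  rw [h, add_zero]

private theorem wv_half {K : ℕ} {c : G} {φ : (Fin K → G × Multiplicative ℤ) → B}
    (h0 : ∀ v, (∀ i j, dg (v i) = dg (v j)) → φ v = 0) (g : Fin K → G × Multiplicative ℤ)
    (hg : (∀ j, 0 ≤ dg (g j)) ∨ ∀ j, dg (g j) ≤ 0) :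
    wv ((c, 1) : G × Multiplicative ℤ) φ g = 0 := by
  classical
  rw [wv]
  split_ifs with h
  · apply h0
    have h1 := h.choose_spec
    have h2 : ∑ j, dg (g j) = 0 := by
      have h3 := congrArg dg h1
      rw [dg_mul, dg_mul, dg_inv, dg_prod, List.map_ofFn, List.sum_ofFn] at h3
      have h4 : dg ((c, 1) : G × Multiplicative ℤ) = 0 := rfl
      rw [h4] at h3
      have h5 : ∑ i, (dg ∘ g) i = ∑ j, dg (g j) := rfl
      rw [h5] at h3
      omega
    have h3 : ∀ j, dg (g j) = 0 := by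
      rcases hg with hg | hg
      · intro j
        exact (Finset.sum_eq_zero_iff_of_nonneg fun i _ => hg i).1 h2 j (Finset.mem_univ j)
      · intro j
        exact (Finset.sum_eq_zero_iff_of_nonpos fun i _ => hg i).1 h2 j (Finset.mem_univ j)
    intro i j
    rw [vtx_const _ _ h3, vtx_const _ _ h3]
  · rfl

theorem TT_half {K N : ℕ} [NeZero K] {c : G} {φ : (Fin K → G × Multiplicative ℤ) → B}
    (hφ : CI ((c, 1) : G × Multiplicative ℤ) φ) (h0 : ∀ v, (∀ i j, dg (v i) = dg (v j)) → φ v = 0)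
    (x : Fin K → GLm N (MonoidAlgebra B (G × Multiplicative ℤ)))
    (hx : (∀ j, DP (lts x j)) ∨ ∀ j, DN (lts x j)) :
    TT ((c, 1) : G × Multiplicative ℤ) φ x = 0 := by
  classical
  obtain ⟨S, hS⟩ := exists_supp (lts x)
  rw [TT, TM_eq hφ _ S hS]
  refine Finset.sum_eq_zero fun g _ => ?_
  by_cases hg : ∀ j, cof (lts x j) (g j : G × Multiplicative ℤ) ≠ 0
  · rw [wv_half h0, mul_zero]
    rcases hx with hx | hx
    · exact Or.inl fun j => hx j _ (hg j)
    · exact Or.inr fun j => hx j _ (hg j)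
  · push Not at hg
    obtain ⟨j, hj⟩ := hg
    have h1 : (List.ofFn fun j => cof (lts x j) (g j : G × Multiplicative ℤ)).prod = 0 := by
      apply List.prod_eq_zero
      rw [List.mem_ofFn]
      exact ⟨j, hj⟩
    rw [h1, Matrix.trace_zero, zero_mul]

theorem TQ_half {k : ℕ} {c : G} {φ : (Fin (k + 1) → G × Multiplicative ℤ) → B}
    (hφ : CI ((c, 1) : G × Multiplicative ℤ) φ) (h0 : ∀ v, (∀ i j, dg (v i) = dg (v j)) → φ v = 0)
    {w : QC (MonoidAlgebra B (G × Multiplicative ℤ)) k} (hw : w ∈ QC0 G B k) :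
    TQ ((c, 1) : G × Multiplicative ℤ) φ w = 0 := by
  have h1 : QC0 G B k ≤ (TQ ((c, 1) : G × Multiplicative ℤ) φ).ker := by
    rw [QC0, AddSubgroup.closure_le]
    rintro _ ⟨N, x, hx, rfl⟩
    rw [SetLike.mem_coe, AddMonoidHom.mem_ker, TQ_t]
    apply TT_half hφ h0
    rcases hx with hx | hx
    · exact Or.inl fun j => hx j (j + 1)
    · exact Or.inr fun j => hx j (j + 1)
  exact h1 hw

theorem TR_half {k : ℕ} (q : ℕ) [NeZero q] {c : G}
    {Φ : (Fin (k + 1) → Fin q → G × Multiplicative ℤ) → B}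
    (hΦ : CIq ((c, 1) : G × Multiplicative ℤ) q Φ)
    (h0 : ∀ v, (∀ i j b b', dg (v i b) = dg (v j b')) → Φ v = 0)
    {w : QC (MonoidAlgebra B (G × Multiplicative ℤ)) k} (hw : w ∈ QC0 G B k) :
    TR q ((c, 1) : G × Multiplicative ℤ) Φ w = 0 := by
  have h1 : QC0 G B k ≤ (TR q ((c, 1) : G × Multiplicative ℤ) Φ).ker := by
    rw [QC0, AddSubgroup.closure_le]
    rintro _ ⟨N, x, hx, rfl⟩
    rw [SetLike.mem_coe, AddMonoidHom.mem_ker, TR_t]
    apply TT_half
    · intro g hg y
      exact hΦ g hg fun j b => y (finProdFinEquiv (b, j))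
    · intro v hv
      exact h0 _ fun i j b b' => hv _ _
    · rcases hx with hx | hx
      · exact Or.inl fun j => hx _ _
      · exact Or.inr fun j => hx _ _
  exact h1 hw

private theorem cof_map_ne {B' : Type w} [CommRing B'] (f : B →+* B') {N : ℕ}
    (a : Matrix (Fin N) (Fin N) (MonoidAlgebra B (G × Multiplicative ℤ)))
    {x : G × Multiplicative ℤ}
    (hx : cof (a.map (MonoidAlgebra.mapRingHom (G × Multiplicative ℤ) f)) x ≠ 0) :
    cof a x ≠ 0 := by
  intro h
  apply hx
  ext i j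
  have h1 : (a i j).coeff x = 0 := congrFun (congrFun h i) j
  simp only [cof, Matrix.map_apply, Matrix.zero_apply]
  simp [h1]

/-- ring homomorphisms of the coefficients respect the half tuples -/
theorem QC0_map {B' : Type w} [CommRing B'] (f : B →+* B') {k : ℕ}
    {w : QC (MonoidAlgebra B (G × Multiplicative ℤ)) k} (hw : w ∈ QC0 G B k) :
    QC.map (MonoidAlgebra.mapRingHom (G × Multiplicative ℤ) f) w ∈ QC0 G B' k := by
  have h1 : QC0 G B k ≤
      (QC0 G B' k).comap (QC.map (MonoidAlgebra.mapRingHom (G × Multiplicative ℤ) f)) := by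
    rw [QC0, AddSubgroup.closure_le]
    rintro _ ⟨N, x, hx, rfl⟩
    rw [SetLike.mem_coe, AddSubgroup.mem_comap, QC.map_t]
    apply AddSubgroup.subset_closure
    refine ⟨N, _, ?_, rfl⟩
    have h2 : ∀ i j, ((mapGL (MonoidAlgebra.mapRingHom (G × Multiplicative ℤ) f) N (x i))⁻¹ *
        mapGL (MonoidAlgebra.mapRingHom (G × Multiplicative ℤ) f) N (x j)).val =
        ((x i)⁻¹ * x j).val.map (MonoidAlgebra.mapRingHom (G × Multiplicative ℤ) f) := by
      intro i j
      rw [← map_inv, ← map_mul]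
      rfl
    rcases hx with hx | hx
    · refine Or.inl fun i j y hy => ?_
      rw [h2] at hy
      exact hx i j y (cof_map_ne f _ hy)
    · refine Or.inr fun i j y hy => ?_
      rw [h2] at hy
      exact hx i j y (cof_map_ne f _ hy)
  exact h1 hw

end

end Pool.Agent.H16.KN
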