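import Pool.Agent.H16.KN.Sy
import Pool.Agent.H16.KN.GZ
import Pool.Agent.H16.KN.Deg

/-!
# Project KN: a relation in `LKQ` gives a chain

`map_pos_mem`: `KQ_map_map`, `ofKQ_map` for `(gz B id).comp (posHom _)`; `QC.map` of this homomorphism has values
in `QC0` (for a tuple `x` over `B[G][T]` the matrices `(x i)⁻¹ * x j` are matrices over `B[G][T]`, their
images are supported in degrees `≥ 0`).  `map_neg_mem` similarly.
`exists_chain`: `LKQ.mk_eq_zero_iff`; apply `KQ.map (gz B id)` and `ofKQ`; `map_asm`, `asm_congr'`, `gz_lau`, `gz_lgrp`,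
`ofKQ_asm`; `QH.mk_eq_zero`.
-/

set_option autoImplicit false

open Matrix
open scoped LaurentPolynomial

universe u v w

namespace Pool.Agent.H16.KN

open Pool.Agent.H71.FQ
open Pool.Agent.H95.KM (lau posHom negHom)
open Pool.Agent.H71.FJ (K0 K0.mk IdemMat)

section

variable {B : Type} [CommRing B] {G : Type u} [Group G] {k : ℕ}

private theorem chn_coeff_add {A : Type*} [Semiring A] {M : Type*} (x y : MonoidAlgebra A M) (t : M) :
    (x + y).coeff t = x.coeff t + y.coeff t := by
  rw [MonoidAlgebra.coeff_add, Finsupp.add_apply]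

/-- the values of `gz ∘ posHom` are supported in degrees `≥ 0` -/
private theorem chn_pos (p : Polynomial (MonoidAlgebra B G)) (t : G × Multiplicative ℤ)
    (ht : dg t < 0) :
    (gz B (MonoidHom.id G) (posHom (MonoidAlgebra B G) p)).coeff t = 0 := by
  classical
  induction p using Polynomial.induction_on' with
  | add p q hp hq => rw [map_add, map_add, chn_coeff_add, hp, hq, add_zero]
  | monomial n r =>
    rw [Pool.Agent.H95.KM.posHom_monomial]
    induction r using MonoidAlgebra.induction_linear with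
    | zero => rw [AddMonoidAlgebra.single_zero, map_zero, MonoidAlgebra.coeff_zero,
        Finsupp.coe_zero, Pi.zero_apply]
    | add x y hx hy => rw [AddMonoidAlgebra.single_add, map_add, chn_coeff_add, hx, hy, add_zero]
    | single a r =>
      rw [gz_single, MonoidAlgebra.coeff_single, Finsupp.single_apply, if_neg]
      rintro rfl
      change (n : ℤ) < 0 at ht
      omega

/-- the values of `gz ∘ negHom` are supported in degrees `≤ 0` -/
private theorem chn_neg (p : Polynomial (MonoidAlgebra B G)) (t : G × Multiplicative ℤ)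
    (ht : 0 < dg t) :
    (gz B (MonoidHom.id G) (negHom (MonoidAlgebra B G) p)).coeff t = 0 := by
  classical
  induction p using Polynomial.induction_on' with
  | add p q hp hq => rw [map_add, map_add, chn_coeff_add, hp, hq, add_zero]
  | monomial n r =>
    rw [Pool.Agent.H95.KM.negHom_monomial]
    induction r using MonoidAlgebra.induction_linear with
    | zero => rw [AddMonoidAlgebra.single_zero, map_zero, MonoidAlgebra.coeff_zero,
        Finsupp.coe_zero, Pi.zero_apply]
    | add x y hx hy => rw [AddMonoidAlgebra.single_add, map_add, chn_coeff_add, hx, hy, add_zero]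
    | single a r =>
      rw [gz_single, MonoidAlgebra.coeff_single, Finsupp.single_apply, if_neg]
      rintro rfl
      change 0 < -(n : ℤ) at ht
      omega

private theorem chn_QC0 (f : Polynomial (MonoidAlgebra B G) →+*
    MonoidAlgebra B (G × Multiplicative ℤ))
    (hf : (∀ p t, dg t < 0 → (f p).coeff t = 0) ∨ ∀ p t, 0 < dg t → (f p).coeff t = 0)
    (a : QC (Polynomial (MonoidAlgebra B G)) k) : QC.map f a ∈ QC0 G B k := by
  induction a using QC.induction with
  | h0 =>
    rw [map_zero]
    exact zero_mem _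
  | ht N x =>
    rw [QC.map_t]
    apply AddSubgroup.subset_closure
    refine ⟨N, _, ?_, rfl⟩
    have h2 : ∀ i j, ((mapGL f N (x i))⁻¹ * mapGL f N (x j)).val = ((x i)⁻¹ * x j).val.map f := by
      intro i j
      rw [← map_inv, ← map_mul]
      rfl
    rcases hf with hf | hf
    · left
      intro i j t ht
      change cof ((mapGL f N (x i))⁻¹ * mapGL f N (x j)).val t ≠ 0 at ht
      rw [h2] at ht
      by_contra hcon
      apply ht
      ext a b
      exact hf (((x i)⁻¹ * x j).val a b) t (by omega)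
    · right
      intro i j t ht
      change cof ((mapGL f N (x i))⁻¹ * mapGL f N (x j)).val t ≠ 0 at ht
      rw [h2] at ht
      by_contra hcon
      apply ht
      ext a b
      exact hf (((x i)⁻¹ * x j).val a b) t (by omega)
  | ha a b ha hb =>
    rw [map_add]
    exact add_mem ha hb
  | hn a ha =>
    rw [map_neg]
    exact neg_mem ha

theorem map_pos_mem (a : KQ (Polynomial (MonoidAlgebra B G)) k) :
    ∃ a' ∈ QC0 G B (k + 1),
      ofKQ (KQ.map (gz B (MonoidHom.id G)) (KQ.map (posHom (MonoidAlgebra B G)) a)) = QH.mk a' := by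
  rw [KQ_map_map]
  obtain ⟨a', ha'⟩ := ofKQ_map ((gz B (MonoidHom.id G)).comp (posHom (MonoidAlgebra B G))) a
  exact ⟨_, chn_QC0 _ (Or.inl fun p t ht => chn_pos p t ht) a', ha'⟩

theorem map_neg_mem (a : KQ (Polynomial (MonoidAlgebra B G)) k) :
    ∃ a' ∈ QC0 G B (k + 1),
      ofKQ (KQ.map (gz B (MonoidHom.id G)) (KQ.map (negHom (MonoidAlgebra B G)) a)) = QH.mk a' := by
  rw [KQ_map_map]
  obtain ⟨a', ha'⟩ := ofKQ_map ((gz B (MonoidHom.id G)).comp (negHom (MonoidAlgebra B G))) a
  exact ⟨_, chn_QC0 _ (Or.inr fun p t ht => chn_neg p t ht) a', ha'⟩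

/-- the chain of the symbol `[C, E, z]` -/
noncomputable def syC (B : Type) [CommRing B] (C : Subgroup G)
    (E : IdemMat (MonoidAlgebra B C)[T;T⁻¹])
    (z : Cx ℤ (Subgroup.centralizer (C : Set G)) k) :
    QC (MonoidAlgebra B (G × Multiplicative ℤ)) k :=
  sy (gz B C.subtype) (gk B (Subgroup.centralizer (C : Set G)).subtype)
    (gz_comm B C.subtype (Subgroup.centralizer (C : Set G)).subtype (cent_comm C)) E z

private theorem chn_asm (C : Subgroup G) (E : IdemMat (MonoidAlgebra B C)[T;T⁻¹])
    (z : cyc (Subgroup.centralizer (C : Set G)) k) :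
    ofKQ (KQ.map (gz B (MonoidHom.id G)) (asm k (lau (MonoidAlgebra.mapDomainRingHom B C.subtype))
      ((lgrp B G).comp (Subgroup.centralizer (C : Set G)).subtype)
      (lgrp_comm B C.subtype (Subgroup.centralizer (C : Set G)).subtype (cent_comm C))
      (K0.mk E - K0.mk (oneE _)) (HG.mk z))) =
      QH.mk (syC B C E (z : Cx ℤ _ (k + 1))) := by
  have h1 : ∀ γ b, ((gz B (MonoidHom.id G)).comp (lau (MonoidAlgebra.mapDomainRingHom B C.subtype))) b *
      (((Units.map ((gz B (MonoidHom.id G) : (MonoidAlgebra B G)[T;T⁻¹] →+*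
      MonoidAlgebra B (G × Multiplicative ℤ)) : (MonoidAlgebra B G)[T;T⁻¹] →*
        MonoidAlgebra B (G × Multiplicative ℤ))).comp ((lgrp B G).comp
          (Subgroup.centralizer (C : Set G)).subtype)) γ : MonoidAlgebra B (G × Multiplicative ℤ)) =
      ((Units.map ((gz B (MonoidHom.id G) : (MonoidAlgebra B G)[T;T⁻¹] →+*
      MonoidAlgebra B (G × Multiplicative ℤ)) : (MonoidAlgebra B G)[T;T⁻¹] →*
        MonoidAlgebra B (G × Multiplicative ℤ))).comp ((lgrp B G).comp
          (Subgroup.centralizer (C : Set G)).subtype)) γ *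
        ((gz B (MonoidHom.id G)).comp (lau (MonoidAlgebra.mapDomainRingHom B C.subtype))) b := by
    intro γ b
    rw [gz_lau, gz_lgrp]
    exact gz_comm B C.subtype _ (cent_comm C) γ b
  rw [map_asm _ _ _ _ h1, asm_congr' (gz_lau B C.subtype) (gz_lgrp B _) h1
    (gz_comm B C.subtype (Subgroup.centralizer (C : Set G)).subtype (cent_comm C))]
  exact ofKQ_asm _ _ _ E z

theorem exists_chain {ι : Type} [Fintype ι] (C : ι → Subgroup G)
    (E : ∀ i, IdemMat (MonoidAlgebra B (C i))[T;T⁻¹])
    (z : ∀ i, cyc (Subgroup.centralizer (C i : Set G)) k)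
    (h : LKQ.mk (∑ i, asm k (lau (MonoidAlgebra.mapDomainRingHom B (C i).subtype))
      ((lgrp B G).comp (Subgroup.centralizer (C i : Set G)).subtype)
      (lgrp_comm B (C i).subtype (Subgroup.centralizer (C i : Set G)).subtype (cent_comm (C i)))
      (K0.mk (E i) - K0.mk (oneE _)) (HG.mk (z i))) = 0) :
    ∃ w : QC (MonoidAlgebra B (G × Multiplicative ℤ)) (k + 2),
      qbd w - ∑ i, syC B (C i) (E i) (z i : Cx ℤ _ (k + 1)) ∈ QC0 G B (k + 1) := by
  obtain ⟨a, b, hab⟩ := LKQ.mk_eq_zero_iff.1 h
  obtain ⟨a', ha', ha⟩ := map_pos_mem (B := B) (G := G) a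
  obtain ⟨b', hb', hb⟩ := map_neg_mem (B := B) (G := G) b
  have h1 := congrArg (fun x => ofKQ (KQ.map (gz B (MonoidHom.id G)) x)) hab
  simp only [map_add, map_sum] at h1
  rw [ha, hb] at h1
  simp only [chn_asm] at h1
  have h2 : QH.mk ((∑ i, syC B (C i) (E i) (z i : Cx ℤ _ (k + 1))) - (a' + b')) = 0 := by
    rw [map_sub, map_add, map_sum, h1, sub_self]
  obtain ⟨v, hv⟩ := QH.mk_eq_zero.1 h2
  refine ⟨v, ?_⟩
  rw [hv, sub_sub_cancel_left]
  exact neg_mem (add_mem ha' hb')

theorem map_syC {B' : Type} [CommRing B'] (j : B →+* B') (C : Subgroup G)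
    (E : IdemMat (MonoidAlgebra B C)[T;T⁻¹])
    (z : Cx ℤ (Subgroup.centralizer (C : Set G)) k) :
    QC.map (MonoidAlgebra.mapRingHom (G × Multiplicative ℤ) j) (syC B C E z) =
      syC B' C (E.map (lau (MonoidAlgebra.mapRingHom C j))) z :=
  map_sy _ _ _ _ _ _ (lau (MonoidAlgebra.mapRingHom C j)) _ (fun b => map_gz j C.subtype b)
    (fun γ => map_gk j (Subgroup.centralizer (C : Set G)).subtype γ) E z

end

end Pool.Agent.H16.KN
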