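import Pool.Agent.H71.FQ.HG

/-!
# Project KN: prisms

`prism a b k` is the chain homotopy between the chain maps of two vertex maps `a`, `b`: the tuple `x` goes to
`∑_i (-1)^i (a x_0, …, a x_i, b x_i, …, b x_k)`.

PROOFS.  Recursion: `prism a b 0 x = (a x_0, b x_0)`,
`prism a b (k+1) x = cone (a x_0) (push b x) - cone (a x_0) (prism a b k (x_1, …, x_{k+1}))` (this can be the definition).
`bd_prism`: induction on `k` with `bd_cone` and `bd x = (x_1, …) - cone x_0 (bd (x_1, …))`.
`prism_equiv`: `push_cone`.  `prism_last`: induction on `k` for all `F` (for the second term use `F (Fin.cons (a x_0) ·)`).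
`homotopy_unique`: `K 0 x = cone (b x_0) (D 0 x)`, `K (k+1) x = cone (b x_0) (D (k+1) x + K k (bd x))` (model: `hom` in
`FQ/Cx.lean`).
`prism_tri`: `homotopy_unique` for `D = prism a b + prism b c - prism a c`.
-/

set_option autoImplicit false

universe u v w

namespace Pool.Agent.H16.KN

open Pool.Agent.H71.FQ

section

variable {X : Type u} {Y : Type v}

/-- the prism operator -/
noncomputable def prism (a b : X → Y) : ∀ k : ℕ, Cx ℤ X k →ₗ[ℤ] Cx ℤ Y (k + 1)
  | 0 => Finsupp.linearCombination ℤ fun x : Fin 1 → X => Finsupp.single ![a (x 0), b (x 0)] 1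
  | k + 1 => Finsupp.linearCombination ℤ fun x : Fin (k + 2) → X =>
      cone ℤ (a (x 0)) (k + 1) (Finsupp.single (fun j => b (x j)) 1) -
        cone ℤ (a (x 0)) (k + 1) (prism a b k (Finsupp.single (fun j => x j.succ) 1))

private theorem prism_zero_single (a b : X → Y) (x : Fin 1 → X) :
    prism a b 0 (Finsupp.single x 1) = cone ℤ (a (x 0)) 0 (Finsupp.single (fun j => b (x j)) 1) := by
  rw [prism, Finsupp.linearCombination_single, one_smul, cone_single]
  congr 1
  funext j
  refine Fin.cases ?_ (fun i => ?_) j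
  · rfl
  · rw [Subsingleton.elim (α := Fin 1) i 0]
    rfl

private theorem prism_succ_single (a b : X → Y) (k : ℕ) (x : Fin (k + 2) → X) :
    prism a b (k + 1) (Finsupp.single x 1) =
      cone ℤ (a (x 0)) (k + 1) (Finsupp.single (fun j => b (x j)) 1) -
        cone ℤ (a (x 0)) (k + 1) (prism a b k (Finsupp.single (fun j => x j.succ) 1)) := by
  rw [prism, Finsupp.linearCombination_single, one_smul]

/-- a tuple is the cone over its tail -/
private theorem single_eq_cone {Z : Type w} (n : ℕ) (x : Fin (n + 2) → Z) :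
    (Finsupp.single x 1 : Cx ℤ Z (n + 1)) =
      cone ℤ (x 0) n (Finsupp.single (fun j => x j.succ) 1) := by
  rw [cone_single]
  congr 1
  exact (Fin.cons_self_tail x).symm

/-- the prism of a cone -/
private theorem prism_cone (a b : X → Y) (k : ℕ) (x : X) (c : Cx ℤ X k) :
    prism a b (k + 1) (cone ℤ x k c) = cone ℤ (a x) (k + 1) (push ℤ b (k + 1) (cone ℤ x k c)) -
      cone ℤ (a x) (k + 1) (prism a b k c) := by
  refine cx_ext (f := (prism a b (k + 1)).comp (cone ℤ x k))
    (g := ((cone ℤ (a x) (k + 1)).comp ((push ℤ b (k + 1)).comp (cone ℤ x k))) -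
      (cone ℤ (a x) (k + 1)).comp (prism a b k)) ?_ c
  intro z
  simp only [LinearMap.comp_apply, LinearMap.sub_apply]
  rw [cone_single, prism_succ_single, push_single]
  rfl

/-- the chain map of a map of the vertices commutes with the cones -/
private theorem push_cone' {Z : Type w} (t : Y → Z) (y : Y) (n : ℕ) (c : Cx ℤ Y n) :
    push ℤ t (n + 1) (cone ℤ y n c) = cone ℤ (t y) n (push ℤ t n c) := by
  refine cx_ext (f := (push ℤ t (n + 1)).comp (cone ℤ y n))
    (g := (cone ℤ (t y) n).comp (push ℤ t n)) ?_ c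
  intro z
  rw [LinearMap.comp_apply, LinearMap.comp_apply, push_single, cone_single, cone_single, push_single]
  congr 1
  funext j
  refine Fin.cases ?_ (fun k => ?_) j
  · rfl
  · rfl

theorem bd_prism_zero (a b : X → Y) (c : Cx ℤ X 0) :
    bd ℤ Y 0 (prism a b 0 c) = push ℤ b 0 c - push ℤ a 0 c := by
  refine cx_ext (f := (bd ℤ Y 0).comp (prism a b 0)) (g := push ℤ b 0 - push ℤ a 0) ?_ c
  intro x
  rw [LinearMap.comp_apply, LinearMap.sub_apply, prism_zero_single, bd_cone_zero, push_single,
    push_single, Finsupp.linearCombination_single, one_smul, one_smul]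
  congr 2
  funext j
  rw [Subsingleton.elim (α := Fin 1) j 0]

theorem bd_prism (a b : X → Y) (k : ℕ) (c : Cx ℤ X (k + 1)) :
    bd ℤ Y (k + 1) (prism a b (k + 1) c) + prism a b k (bd ℤ X k c) =
      push ℤ b (k + 1) c - push ℤ a (k + 1) c := by
  induction k with
  | zero =>
    refine cx_ext (f := (bd ℤ Y 1).comp (prism a b 1) + (prism a b 0).comp (bd ℤ X 0))
      (g := push ℤ b 1 - push ℤ a 1) ?_ c
    intro x
    simp only [LinearMap.comp_apply, LinearMap.sub_apply, LinearMap.add_apply]
    have h1 : (Finsupp.single x 1 : Cx ℤ X 1) =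
      cone ℤ (x 0) 0 (Finsupp.single (fun j => x j.succ) 1) := single_eq_cone 0 x
    rw [h1]
    generalize (Finsupp.single (fun j => x j.succ) 1 : Cx ℤ X 0) = c
    have h2 : prism a b 0 (Finsupp.single (fun _ => x 0) 1) =
        cone ℤ (a (x 0)) 0 (Finsupp.single (fun _ => b (x 0)) 1) := prism_zero_single a b fun _ => x 0
    rw [prism_cone, bd_cone_zero, map_sub (prism a b 0), map_sub, bd_cone, bd_cone, bd_prism_zero,
      bd_push, bd_cone_zero, push_cone' a, map_smul, map_sub (push ℤ b 0), map_smul, push_single, h2]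
    simp only [map_sub, map_smul]
    abel
  | succ k ih =>
    refine cx_ext (f := (bd ℤ Y (k + 2)).comp (prism a b (k + 2)) +
      (prism a b (k + 1)).comp (bd ℤ X (k + 1)))
      (g := push ℤ b (k + 2) - push ℤ a (k + 2)) ?_ c
    intro x
    simp only [LinearMap.comp_apply, LinearMap.sub_apply, LinearMap.add_apply]
    have h1 : (Finsupp.single x 1 : Cx ℤ X (k + 2)) =
      cone ℤ (x 0) (k + 1) (Finsupp.single (fun j => x j.succ) 1) := single_eq_cone (k + 1) x
    rw [h1]
    generalize (Finsupp.single (fun j => x j.succ) 1 : Cx ℤ X (k + 1)) = c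
    rw [prism_cone, bd_cone, map_sub (prism a b (k + 1)), prism_cone, map_sub, bd_cone, bd_cone]
    have h2 := ih c
    have h3 : bd ℤ Y (k + 1) (push ℤ b (k + 2) (cone ℤ (x 0) (k + 1) c)) =
        push ℤ b (k + 1) c - push ℤ b (k + 1) (cone ℤ (x 0) k (bd ℤ X k c)) := by
      rw [bd_push, bd_cone, map_sub]
    have h4 : bd ℤ Y (k + 1) (prism a b (k + 1) c) = push ℤ b (k + 1) c - push ℤ a (k + 1) c -
        prism a b k (bd ℤ X k c) := by
      rw [← h2, add_sub_cancel_right]
    rw [h3, h4, push_cone' a]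
    simp only [map_sub]
    abel

/-- naturality in `Y` -/
theorem push_prism {Z : Type w} (a b : X → Y) (t : Y → Z) (k : ℕ) (c : Cx ℤ X k) :
    push ℤ t (k + 1) (prism a b k c) = prism (fun x => t (a x)) (fun x => t (b x)) k c := by
  induction k with
  | zero =>
    refine cx_ext (f := (push ℤ t 1).comp (prism a b 0))
      (g := prism (fun x => t (a x)) (fun x => t (b x)) 0) ?_ c
    intro x
    rw [LinearMap.comp_apply, prism_zero_single, prism_zero_single, push_cone', push_single]
  | succ k ih =>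
    refine cx_ext (f := (push ℤ t (k + 2)).comp (prism a b (k + 1)))
      (g := prism (fun x => t (a x)) (fun x => t (b x)) (k + 1)) ?_ c
    intro x
    rw [LinearMap.comp_apply, prism_succ_single, prism_succ_single, map_sub, push_cone', push_cone',
      push_single, ih]

/-- naturality in `X` -/
private theorem prism_pre {W : Type w} (a b : X → Y) (s : W → X) (k : ℕ) (c : Cx ℤ W k) :
    prism a b k (push ℤ s k c) = prism (fun x => a (s x)) (fun x => b (s x)) k c := by
  induction k with
  | zero =>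
    refine cx_ext (f := (prism a b 0).comp (push ℤ s 0))
      (g := prism (fun x => a (s x)) (fun x => b (s x)) 0) ?_ c
    intro x
    rw [LinearMap.comp_apply, push_single, prism_zero_single, prism_zero_single]
  | succ k ih =>
    refine cx_ext (f := (prism a b (k + 1)).comp (push ℤ s (k + 1)))
      (g := prism (fun x => a (s x)) (fun x => b (s x)) (k + 1)) ?_ c
    intro x
    rw [LinearMap.comp_apply, push_single, prism_succ_single, prism_succ_single, ← ih, push_single]

theorem prism_push (a b : X → Y) (s : X → X) (t : Y → Y) (ha : ∀ x, t (a x) = a (s x))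
    (hb : ∀ x, t (b x) = b (s x)) (k : ℕ) (c : Cx ℤ X k) :
    prism a b k (push ℤ s k c) = push ℤ t (k + 1) (prism a b k c) := by
  have h1 : (fun x => t (a x)) = fun x => a (s x) := funext ha
  have h2 : (fun x => t (b x)) = fun x => b (s x) := funext hb
  rw [push_prism, h1, h2, prism_pre]

private theorem lc_cone {M : Type w} [AddCommGroup M] (y : Y) (k : ℕ) (F : (Fin (k + 2) → Y) → M)
    (c : Cx ℤ Y k) : Finsupp.linearCombination ℤ F (cone ℤ y k c) =
      Finsupp.linearCombination ℤ (fun z : Fin (k + 1) → Y => F (Fin.cons y z)) c := by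
  refine cx_ext (f := (Finsupp.linearCombination ℤ F).comp (cone ℤ y k))
    (g := Finsupp.linearCombination ℤ fun z : Fin (k + 1) → Y => F (Fin.cons y z)) ?_ c
  intro z
  rw [LinearMap.comp_apply, cone_single, Finsupp.linearCombination_single,
    Finsupp.linearCombination_single]

/-- If a function of `k + 2` variables vanishes on the tuples whose last two entries are in the image of `b`, only the
last term of the prism contributes. -/
theorem prism_last {M : Type w} [AddCommGroup M] (a b : X → Y) (k : ℕ) (F : (Fin (k + 2) → Y) → M)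
    (hF : ∀ y : Fin (k + 2) → Y, (∃ x, y (Fin.last k).castSucc = b x) →
      (∃ x, y (Fin.last (k + 1)) = b x) → F y = 0) (c : Cx ℤ X k) :
    Finsupp.linearCombination ℤ F (prism a b k c) = (-1 : ℤ) ^ k •
      Finsupp.linearCombination ℤ (fun x : Fin (k + 1) → X =>
        F (Fin.snoc (α := fun _ => Y) (fun j => a (x j)) (b (x (Fin.last k))))) c := by
  induction k with
  | zero =>
    refine cx_ext (f := (Finsupp.linearCombination ℤ F).comp (prism a b 0))
      (g := (-1 : ℤ) ^ 0 • Finsupp.linearCombination ℤ (fun x : Fin 1 → X =>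
        F (Fin.snoc (α := fun _ => Y) (fun j => a (x j)) (b (x (Fin.last 0)))))) ?_ c
    intro x
    rw [LinearMap.comp_apply, LinearMap.smul_apply, prism_zero_single, cone_single,
      Finsupp.linearCombination_single, Finsupp.linearCombination_single, pow_zero, one_smul,
      one_smul, one_smul]
    congr 1
    funext j
    refine Fin.cases ?_ (fun i => ?_) j
    · rfl
    · rw [Subsingleton.elim (α := Fin 1) i 0]
      rfl
  | succ k ih =>
    refine cx_ext (f := (Finsupp.linearCombination ℤ F).comp (prism a b (k + 1)))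
      (g := (-1 : ℤ) ^ (k + 1) • Finsupp.linearCombination ℤ (fun x : Fin (k + 2) → X =>
        F (Fin.snoc (α := fun _ => Y) (fun j => a (x j)) (b (x (Fin.last (k + 1))))))) ?_ c
    intro x
    have h1 : F (Fin.cons (a (x 0)) fun j => b (x j)) = 0 := by
      refine hF _ ⟨x (Fin.last k).castSucc, ?_⟩ ⟨x (Fin.last (k + 1)), ?_⟩
      · rw [← Fin.succ_last, Fin.castSucc_succ, Fin.cons_succ]
      · rw [← Fin.succ_last, Fin.cons_succ]
    have h2 := ih (fun y => F (Fin.cons (a (x 0)) y)) (by
      intro y hy1 hy2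
      refine hF _ ?_ ?_
      · rw [← Fin.succ_last, Fin.castSucc_succ, Fin.cons_succ]
        exact hy1
      · rw [← Fin.succ_last, Fin.cons_succ]
        exact hy2) (Finsupp.single (fun j => x j.succ) 1)
    rw [Finsupp.linearCombination_single, one_smul] at h2
    rw [LinearMap.comp_apply, LinearMap.smul_apply, prism_succ_single, map_sub, cone_single,
      Finsupp.linearCombination_single, one_smul, h1, zero_sub, lc_cone, h2,
      Finsupp.linearCombination_single, one_smul, pow_succ, mul_neg_one, neg_smul]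
    congr 3
    rw [Fin.cons_snoc_eq_snoc_cons]
    congr 1
    funext j
    refine Fin.cases ?_ (fun i => ?_) j
    · rfl
    · rfl

/-- the homotopy of `homotopy_unique` -/
private noncomputable def hunK (b : X → Y) (D : ∀ k, Cx ℤ X k →ₗ[ℤ] Cx ℤ Y (k + 1)) :
    ∀ k, Cx ℤ X k →ₗ[ℤ] Cx ℤ Y (k + 2)
  | 0 => Finsupp.linearCombination ℤ fun x : Fin 1 → X =>
      cone ℤ (b (x 0)) 1 (D 0 (Finsupp.single x 1))
  | k + 1 => Finsupp.linearCombination ℤ fun x : Fin (k + 2) → X =>
      cone ℤ (b (x 0)) (k + 2) (D (k + 1) (Finsupp.single x 1) +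
        hunK b D k (bd ℤ X k (Finsupp.single x 1)))

private theorem hunK_zero (b : X → Y) (D : ∀ k, Cx ℤ X k →ₗ[ℤ] Cx ℤ Y (k + 1)) (x : Fin 1 → X) :
    hunK b D 0 (Finsupp.single x 1) = cone ℤ (b (x 0)) 1 (D 0 (Finsupp.single x 1)) := by
  rw [hunK, Finsupp.linearCombination_single, one_smul]

private theorem hunK_succ (b : X → Y) (D : ∀ k, Cx ℤ X k →ₗ[ℤ] Cx ℤ Y (k + 1)) (k : ℕ)
    (x : Fin (k + 2) → X) : hunK b D (k + 1) (Finsupp.single x 1) =
      cone ℤ (b (x 0)) (k + 2) (D (k + 1) (Finsupp.single x 1) +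
        hunK b D k (bd ℤ X k (Finsupp.single x 1))) := by
  rw [hunK, Finsupp.linearCombination_single, one_smul]

/-- Chain homotopies between the same maps are homotopic. -/
theorem homotopy_unique (b : X → Y) (D : ∀ k, Cx ℤ X k →ₗ[ℤ] Cx ℤ Y (k + 1))
    (h0 : ∀ c, bd ℤ Y 0 (D 0 c) = 0)
    (h1 : ∀ k (c : Cx ℤ X (k + 1)), bd ℤ Y (k + 1) (D (k + 1) c) + D k (bd ℤ X k c) = 0) :
    ∃ K : ∀ k, Cx ℤ X k →ₗ[ℤ] Cx ℤ Y (k + 2),
      (∀ k (c : Cx ℤ X (k + 1)), bd ℤ Y (k + 2) (K (k + 1) c) - K k (bd ℤ X k c) = D (k + 1) c) ∧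
      ∀ (s : X → X) (t : Y → Y), (∀ x, t (b x) = b (s x)) →
        (∀ k c, D k (push ℤ s k c) = push ℤ t (k + 1) (D k c)) →
        ∀ k (c : Cx ℤ X k), K k (push ℤ s k c) = push ℤ t (k + 2) (K k c) := by
  have k0 : ∀ c, bd ℤ Y 1 (hunK b D 0 c) = D 0 c := by
    intro c
    refine cx_ext (f := (bd ℤ Y 1).comp (hunK b D 0)) (g := D 0) ?_ c
    intro x
    rw [LinearMap.comp_apply, hunK_zero, bd_cone, h0, map_zero, sub_zero]
  have k1 : ∀ k (c : Cx ℤ X (k + 1)),
      bd ℤ Y (k + 2) (hunK b D (k + 1) c) - hunK b D k (bd ℤ X k c) = D (k + 1) c := by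
    intro k
    induction k with
    | zero =>
      intro c
      refine cx_ext (f := (bd ℤ Y 2).comp (hunK b D 1) - (hunK b D 0).comp (bd ℤ X 0))
        (g := D 1) ?_ c
      intro x
      have hw : bd ℤ Y 1 (D 1 (Finsupp.single x 1) +
          hunK b D 0 (bd ℤ X 0 (Finsupp.single x 1))) = 0 := by
        rw [map_add, k0]
        exact h1 0 _
      rw [LinearMap.sub_apply, LinearMap.comp_apply, LinearMap.comp_apply, hunK_succ, bd_cone, hw,
        map_zero, sub_zero, add_sub_cancel_right]
    | succ k ih =>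
      intro c
      refine cx_ext (f := (bd ℤ Y (k + 3)).comp (hunK b D (k + 2)) -
        (hunK b D (k + 1)).comp (bd ℤ X (k + 1))) (g := D (k + 2)) ?_ c
      intro x
      have h2 := ih (bd ℤ X (k + 1) (Finsupp.single x 1))
      rw [bd_bd, map_zero, sub_zero] at h2
      have hw : bd ℤ Y (k + 2) (D (k + 2) (Finsupp.single x 1) +
          hunK b D (k + 1) (bd ℤ X (k + 1) (Finsupp.single x 1))) = 0 := by
        rw [map_add, h2]
        exact h1 (k + 1) _
      rw [LinearMap.sub_apply, LinearMap.comp_apply, LinearMap.comp_apply, hunK_succ, bd_cone, hw,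
        map_zero, sub_zero, add_sub_cancel_right]
  refine ⟨hunK b D, k1, ?_⟩
  intro s t hb hD k
  induction k with
  | zero =>
    intro c
    refine cx_ext (f := (hunK b D 0).comp (push ℤ s 0)) (g := (push ℤ t 2).comp (hunK b D 0)) ?_ c
    intro x
    rw [LinearMap.comp_apply, LinearMap.comp_apply, push_single, hunK_zero, hunK_zero, push_cone,
      hb, ← hD, push_single]
  | succ k ih =>
    intro c
    refine cx_ext (f := (hunK b D (k + 1)).comp (push ℤ s (k + 1)))
      (g := (push ℤ t (k + 3)).comp (hunK b D (k + 1))) ?_ c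
    intro x
    rw [LinearMap.comp_apply, LinearMap.comp_apply, push_single, hunK_succ, hunK_succ, push_cone,
      hb, ← push_single, hD, bd_push, ih, ← map_add]

end

section

variable {Γ : Type u} [Group Γ] {Γ' : Type v} [Group Γ'] {n : ℕ}

/-- **The triangle of the prisms.** -/
theorem prism_tri (f : Γ →* Γ') (a b c : Γ → Γ') (ha : ∀ g x, a (g * x) = f g * a x)
    (hb : ∀ g x, b (g * x) = f g * b x) (hc : ∀ g x, c (g * x) = f g * c x)
    {z : Cx ℤ Γ (n + 1)} (hz : z ∈ cyc Γ n) :
    ∃ y : Cx ℤ Γ' (n + 3), prism a b (n + 1) z + prism b c (n + 1) z - prism a c (n + 1) z -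
      bd ℤ Γ' (n + 2) y ∈ coi Γ' (n + 2) := by
  obtain ⟨K, hK1, hK2⟩ := homotopy_unique a (fun k => prism a b k + prism b c k - prism a c k)
    (by
      intro d
      rw [LinearMap.sub_apply, LinearMap.add_apply, map_sub, map_add, bd_prism_zero, bd_prism_zero,
        bd_prism_zero]
      abel)
    (by
      intro k d
      have e1 := bd_prism a b k d
      have e2 := bd_prism b c k d
      have e3 := bd_prism a c k d
      rw [LinearMap.sub_apply, LinearMap.add_apply, LinearMap.sub_apply, LinearMap.add_apply,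
        map_sub, map_add]
      have e4 : bd ℤ Γ' (k + 1) (prism a b (k + 1) d) + bd ℤ Γ' (k + 1) (prism b c (k + 1) d) -
          bd ℤ Γ' (k + 1) (prism a c (k + 1) d) +
          (prism a b k (bd ℤ Γ k d) + prism b c k (bd ℤ Γ k d) - prism a c k (bd ℤ Γ k d)) =
          (bd ℤ Γ' (k + 1) (prism a b (k + 1) d) + prism a b k (bd ℤ Γ k d)) +
          (bd ℤ Γ' (k + 1) (prism b c (k + 1) d) + prism b c k (bd ℤ Γ k d)) -
          (bd ℤ Γ' (k + 1) (prism a c (k + 1) d) + prism a c k (bd ℤ Γ k d)) := by
        abel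
      rw [e4, e1, e2, e3]
      abel)
  refine ⟨K (n + 1) z, ?_⟩
  have h1 := hK1 n z
  have h2 : K n (bd ℤ Γ n z) ∈ coi Γ' (n + 2) := by
    refine equi_coi f (K n) ?_ hz
    intro g d
    refine hK2 (fun y => g * y) (fun y => f g * y) (fun x => (ha g x).symm) ?_ n d
    intro k e
    have t1 := prism_push a b (fun y => g * y) (fun y => f g * y) (fun x => (ha g x).symm)
      (fun x => (hb g x).symm) k e
    have t2 := prism_push b c (fun y => g * y) (fun y => f g * y) (fun x => (hb g x).symm)
      (fun x => (hc g x).symm) k e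
    have t3 := prism_push a c (fun y => g * y) (fun y => f g * y) (fun x => (ha g x).symm)
      (fun x => (hc g x).symm) k e
    rw [LinearMap.sub_apply, LinearMap.add_apply, LinearMap.sub_apply, LinearMap.add_apply,
      map_sub, map_add, t1, t2, t3]
  rw [LinearMap.sub_apply, LinearMap.add_apply] at h1
  rw [← h1, sub_sub_cancel_left]
  exact Submodule.neg_mem _ h2

/-- the boundary of the prism of a cycle -/
theorem bd_prism_cyc (f : Γ →* Γ') (a b : Γ → Γ') (ha : ∀ g x, a (g * x) = f g * a x)
    (hb : ∀ g x, b (g * x) = f g * b x) {z : Cx ℤ Γ (n + 1)} (hz : z ∈ cyc Γ n) :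
    bd ℤ Γ' (n + 1) (prism a b (n + 1) z) - (push ℤ b (n + 1) z - push ℤ a (n + 1) z) ∈
      coi Γ' (n + 1) := by
  have h1 : prism a b n (bd ℤ Γ n z) ∈ coi Γ' (n + 1) := by
    refine equi_coi f (prism a b n) ?_ hz
    intro g d
    exact prism_push a b (fun y => g * y) (fun y => f g * y) (fun x => (ha g x).symm)
      (fun x => (hb g x).symm) n d
  rw [← bd_prism, sub_add_cancel_left]
  exact Submodule.neg_mem _ h1

end

end Pool.Agent.H16.KN
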