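import Pool.Agent.H16.KN.Sy
import Pool.Agent.H16.KN.Pris

/-!
# Project KN: the prism of a trivialization

Let `E = Y X`, `X Y = 1` over `P`.  `MX` is the image in `GL_{N+1}(A)` of the involution `(1 - E, Y; X, 0)`,
`SE γ = diag (rho E γ, 1)`, `RE γ = diag (1, κ γ)`, and `MX * RE γ = SE γ * MX`.  `PM z` is the chain of the prism
between the vertex maps `SE` and `SE * MX = MX * RE`.

PROOFS.  `MX_conj`: model `rho_equiv` in `FQ/Asm.lean` (`bmat_mul_map`, `map_mul_bmat` are private there: copy them).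
`ch_prism_blk`: `push_prism` for `blk` and the two projections, `ch_push_blk`.
`qbd_PM`: `ch_bd`, `bd_prism_cyc` with `f = SE` and `ch_coi`; `SE * MX = MX * RE`, `ch_push_left`, `ch_push_blk`.
`PM_cmp`: `prism_tri` for `SE`, `SE * MX`, `SE * MX'`; `MX' = MX * blk (D, V)` (`MX` is an involution,
`MX * MX' = blk (1 - E + Y X', X Y')`); `push_prism`, `ch_push_left`, `ch_prism_blk`; `v = - ch y`.
`map_PM`: `map_ch`, `push_prism`.
-/

set_option autoImplicit false

open Matrix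

universe u v w

namespace Pool.Agent.H16.KN

open Pool.Agent.H71.FQ
open Pool.Agent.H71.FJ (K0 K0.mk IdemMat)
open Pool.Agent.H71.DB (bmat bU bmat_mul bmat_one map_mul_map comm_sub_one)

section

variable {P : Type u} [Ring P] {A : Type v} [Ring A] {Γ : Type w} [Group Γ] {k : ℕ}

theorem mx_sq {N : ℕ} {e : Matrix (Fin N) (Fin N) P} {X : Matrix (Fin 1) (Fin N) P}
    {Y : Matrix (Fin N) (Fin 1) P} (he : e * e = e) (hXY : X * Y = 1) (hYX : Y * X = e) :
    fromBlocks (1 - e) Y X 0 * fromBlocks (1 - e) Y X 0 = 1 := by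
  have h1 : e * Y = Y := by rw [← hYX, Matrix.mul_assoc, hXY, Matrix.mul_one]
  have h2 : X * e = X := by rw [← hYX, ← Matrix.mul_assoc, hXY, Matrix.one_mul]
  rw [fromBlocks_multiply, ← fromBlocks_one]
  congr 1
  · rw [sub_mul, mul_sub, mul_sub, one_mul, mul_one, one_mul, he, hYX]
    abel
  · rw [Matrix.sub_mul, Matrix.one_mul, h1, Matrix.mul_zero, sub_self, add_zero]
  · rw [Matrix.mul_sub, Matrix.mul_one, h2, Matrix.zero_mul, sub_self, add_zero]
  · rw [hXY, Matrix.mul_zero, add_zero]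

/-- the matrix `(1 - E, Y; X, 0)` -/
def MX (φ : P →+* A) (E : IdemMat P) (X : Matrix (Fin 1) (Fin E.n) P)
    (Y : Matrix (Fin E.n) (Fin 1) P) (hXY : X * Y = 1) (hYX : Y * X = E.mat) :
    GLm (E.n + 1) A where
  val := ((fromBlocks (1 - E.mat) Y X 0).submatrix finSumFinEquiv.symm finSumFinEquiv.symm).map φ
  inv := ((fromBlocks (1 - E.mat) Y X 0).submatrix finSumFinEquiv.symm finSumFinEquiv.symm).map φ
  val_inv := by
    rw [← Matrix.map_mul, submatrix_mul_equiv, mx_sq E.idem hXY hYX, submatrix_one_equiv,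
      Matrix.map_one φ (map_zero φ) (map_one φ)]
  inv_val := by
    rw [← Matrix.map_mul, submatrix_mul_equiv, mx_sq E.idem hXY hYX, submatrix_one_equiv,
      Matrix.map_one φ (map_zero φ) (map_one φ)]

variable (φ : P →+* A) (κ : Γ →* Aˣ) (hκ : ∀ γ b, φ b * (κ γ : A) = κ γ * φ b) (E : IdemMat P)

/-- the `1 × 1` matrix `κ γ` (this is `rho` of the idempotent `1`, used in `sy`) -/
noncomputable def kp : Γ →* GLm 1 A := rho φ κ hκ (oneE P)

theorem kp_val (γ : Γ) (i j : Fin 1) : (kp φ κ hκ γ).val i j = (κ γ : A) := by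
  rw [Subsingleton.elim i 0, Subsingleton.elim j 0]
  show (1 : Matrix (Fin 1) (Fin 1) A) 0 0 + φ ((1 : Matrix (Fin 1) (Fin 1) P) 0 0) *
    ((κ γ : A) - 1) = (κ γ : A)
  rw [Matrix.one_apply_eq, Matrix.one_apply_eq, map_one, one_mul, add_sub_cancel]

/-- `diag (rho E γ, 1)` -/
noncomputable def SE : Γ →* GLm (E.n + 1) A := (blk E.n 1 A).comp ((rho φ κ hκ E).prod 1)

/-- `diag (1, κ γ)` -/
noncomputable def RE : Γ →* GLm (E.n + 1) A :=
  (blk E.n 1 A).comp (MonoidHom.prod 1 (kp φ κ hκ))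

private theorem cmp_bmat_mul {ι κ' : Type*} [Fintype ι] [DecidableEq ι] (e : Matrix ι ι P)
    (X : Matrix ι κ' P) (w : A) (hw : ∀ b, φ b * w = w * φ b) :
    bmat φ e w * X.map φ = X.map φ + (e * X).map fun b => φ b * (w - 1) := by
  have h := map_mul_map φ e X (w - 1) 1 (comm_sub_one hw)
  simp only [mul_one] at h
  change bmat φ e w * X.map (fun b => φ b) = _
  rw [bmat, Matrix.add_mul, Matrix.one_mul, h]

private theorem cmp_mx_val (X : Matrix (Fin 1) (Fin E.n) P) (Y : Matrix (Fin E.n) (Fin 1) P)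
    (hXY : X * Y = 1) (hYX : Y * X = E.mat) : (MX φ E X Y hXY hYX).val =
      (fromBlocks ((1 - E.mat).map φ) (Y.map φ) (X.map φ) 0).submatrix finSumFinEquiv.symm
        finSumFinEquiv.symm := by
  show ((fromBlocks (1 - E.mat) Y X 0).submatrix finSumFinEquiv.symm finSumFinEquiv.symm).map φ = _
  rw [← submatrix_map, fromBlocks_map, Matrix.map_zero φ (map_zero φ)]

theorem MX_conj (X : Matrix (Fin 1) (Fin E.n) P) (Y : Matrix (Fin E.n) (Fin 1) P)
    (hXY : X * Y = 1) (hYX : Y * X = E.mat) (γ : Γ) :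
    MX φ E X Y hXY hYX * RE φ κ hκ E γ = SE φ κ hκ E γ * MX φ E X Y hXY hYX := by
  have h1 : E.mat * Y = Y := by rw [← hYX, Matrix.mul_assoc, hXY, Matrix.mul_one]
  have h2 : E.mat * (1 - E.mat) = 0 := by rw [mul_sub, mul_one, E.idem, sub_self]
  apply Units.ext
  rw [Units.val_mul, Units.val_mul, cmp_mx_val]
  change (fromBlocks ((1 - E.mat).map φ) (Y.map φ) (X.map φ) 0).submatrix finSumFinEquiv.symm
      finSumFinEquiv.symm * (fromBlocks (1 : Matrix (Fin E.n) (Fin E.n) A) 0 0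
        (kp φ κ hκ γ).val).submatrix finSumFinEquiv.symm finSumFinEquiv.symm =
    (fromBlocks (bmat φ E.mat (κ γ : A)) 0 0 (1 : Matrix (Fin 1) (Fin 1) A)).submatrix
      finSumFinEquiv.symm finSumFinEquiv.symm *
      (fromBlocks ((1 - E.mat).map φ) (Y.map φ) (X.map φ) 0).submatrix finSumFinEquiv.symm
        finSumFinEquiv.symm
  rw [submatrix_mul_equiv, submatrix_mul_equiv, fromBlocks_multiply, fromBlocks_multiply]
  congr 2
  · rw [Matrix.mul_one, Matrix.mul_zero, add_zero, Matrix.zero_mul, add_zero,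
      cmp_bmat_mul φ E.mat _ _ (hκ γ), h2]
    refine Matrix.ext fun i j => ?_
    simp
  · rw [Matrix.mul_zero, zero_add, Matrix.mul_zero, add_zero, cmp_bmat_mul φ E.mat _ _ (hκ γ), h1]
    refine Matrix.ext fun i j => ?_
    rw [Matrix.mul_apply, Fin.sum_univ_one, Matrix.add_apply, Matrix.map_apply, Matrix.map_apply,
      Matrix.map_apply, kp_val, Subsingleton.elim j 0, mul_sub, mul_one, add_sub_cancel]
  · rw [Matrix.mul_one, Matrix.mul_zero, add_zero, Matrix.zero_mul, zero_add, Matrix.one_mul]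
  · rw [Matrix.mul_zero, Matrix.zero_mul, Matrix.zero_mul, Matrix.one_mul]

/-- **The prism.** -/
noncomputable def PM (X : Matrix (Fin 1) (Fin E.n) P) (Y : Matrix (Fin E.n) (Fin 1) P)
    (hXY : X * Y = 1) (hYX : Y * X = E.mat) (z : Cx ℤ Γ k) : QC A (k + 1) :=
  ch (E.n + 1) (prism (fun y => SE φ κ hκ E y) (fun y => SE φ κ hκ E y * MX φ E X Y hXY hYX) k z)

theorem ch_prism_blk {X : Type*} (N M : ℕ) (a a' : X → GLm N A) (b b' : X → GLm M A)
    (c : Cx ℤ X k) :
    ch (N + M) (prism (fun y => blk N M A (a y, b y)) (fun y => blk N M A (a' y, b' y)) k c) =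
      ch N (prism a a' k c) + ch M (prism b b' k c) := by
  have h1 := push_prism (fun y => (a y, b y)) (fun y => (a' y, b' y))
    (fun w : GLm N A × GLm M A => blk N M A w) k c
  have h2 := ch_push_blk N M (fun w : GLm N A × GLm M A => w.1) (fun w => w.2)
    (prism (fun y => (a y, b y)) (fun y => (a' y, b' y)) k c)
  have h3 := push_prism (fun y => (a y, b y)) (fun y => (a' y, b' y))
    (fun w : GLm N A × GLm M A => w.1) k c
  have h4 := push_prism (fun y => (a y, b y)) (fun y => (a' y, b' y))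
    (fun w : GLm N A × GLm M A => w.2) k c
  rw [h3, h4] at h2
  exact (congrArg (ch (N + M)) h1.symm).trans h2

theorem qbd_PM (X : Matrix (Fin 1) (Fin E.n) P) (Y : Matrix (Fin E.n) (Fin 1) P)
    (hXY : X * Y = 1) (hYX : Y * X = E.mat) (z : cyc Γ k) :
    qbd (PM φ κ hκ E X Y hXY hYX (z : Cx ℤ Γ (k + 1))) + sy φ κ hκ E (z : Cx ℤ Γ (k + 1)) =
      ch E.n (push ℤ (fun _ => 1) (k + 1) (z : Cx ℤ Γ (k + 1))) -
        ch 1 (push ℤ (fun _ => 1) (k + 1) (z : Cx ℤ Γ (k + 1))) := by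
  have h1 := bd_prism_cyc (SE φ κ hκ E) (fun y => SE φ κ hκ E y)
    (fun y => SE φ κ hκ E y * MX φ E X Y hXY hYX) (fun g x => map_mul _ g x)
    (fun g x => by rw [map_mul, mul_assoc]) z.2
  have h2 := ch_coi (E.n + 1) h1
  rw [map_sub, map_sub, sub_eq_zero] at h2
  have h3 : ch (E.n + 1) (push ℤ (fun y => SE φ κ hκ E y) (k + 1) (z : Cx ℤ Γ (k + 1))) =
      ch E.n (push ℤ (rho φ κ hκ E) (k + 1) (z : Cx ℤ Γ (k + 1))) +
        ch 1 (push ℤ (fun _ => 1) (k + 1) (z : Cx ℤ Γ (k + 1))) :=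
    ch_push_blk E.n 1 (fun y => rho φ κ hκ E y) (fun _ => 1) _
  have h4 : ch (E.n + 1) (push ℤ (fun y => SE φ κ hκ E y * MX φ E X Y hXY hYX) (k + 1)
      (z : Cx ℤ Γ (k + 1))) = ch E.n (push ℤ (fun _ => 1) (k + 1) (z : Cx ℤ Γ (k + 1))) +
        ch 1 (push ℤ (rho φ κ hκ (oneE P)) (k + 1) (z : Cx ℤ Γ (k + 1))) := by
    have e1 : (fun y => SE φ κ hκ E y * MX φ E X Y hXY hYX) =
        fun y => MX φ E X Y hXY hYX * RE φ κ hκ E y :=
      funext fun y => (MX_conj φ κ hκ E X Y hXY hYX y).symm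
    have e2 := push_push (R := ℤ) (fun y => RE φ κ hκ E y) (fun y => MX φ E X Y hXY hYX * y) (k + 1)
      (z : Cx ℤ Γ (k + 1))
    have e3 := ch_push_left (E.n + 1) (MX φ E X Y hXY hYX)
      (push ℤ (fun y => RE φ κ hκ E y) (k + 1) (z : Cx ℤ Γ (k + 1)))
    rw [e1]
    refine (congrArg (ch (E.n + 1)) e2.symm).trans (e3.trans ?_)
    exact ch_push_blk E.n 1 (fun _ => 1) (fun y => kp φ κ hκ y) _
  rw [PM, ch_bd, h2, h3, h4, sy]
  abel

private theorem cmp_mx_mul (X : Matrix (Fin 1) (Fin E.n) P) (Y : Matrix (Fin E.n) (Fin 1) P)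
    (hXY : X * Y = 1) (hYX : Y * X = E.mat) (X' : Matrix (Fin 1) (Fin E.n) P)
    (Y' : Matrix (Fin E.n) (Fin 1) P) (hXY' : X' * Y' = 1) (hYX' : Y' * X' = E.mat)
    (V : GLm 1 A) (hV : V.val = (X * Y').map φ) (D : GLm E.n A)
    (hD : D.val = (1 - E.mat + Y * X').map φ) :
    MX φ E X' Y' hXY' hYX' = MX φ E X Y hXY hYX * blk E.n 1 A (D, V) := by
  have h1 : E.mat * Y' = Y' := by rw [← hYX', Matrix.mul_assoc, hXY', Matrix.mul_one]
  have h2 : X * E.mat = X := by rw [← hYX, ← Matrix.mul_assoc, hXY, Matrix.one_mul]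
  have h3 : MX φ E X Y hXY hYX * MX φ E X Y hXY hYX = 1 := by
    apply Units.ext
    exact (MX φ E X Y hXY hYX).val_inv
  have h4 : MX φ E X Y hXY hYX * MX φ E X' Y' hXY' hYX' = blk E.n 1 A (D, V) := by
    apply Units.ext
    rw [Units.val_mul, blk_val, blkM]
    show ((fromBlocks (1 - E.mat) Y X 0).submatrix finSumFinEquiv.symm finSumFinEquiv.symm).map φ *
      ((fromBlocks (1 - E.mat) Y' X' 0).submatrix finSumFinEquiv.symm finSumFinEquiv.symm).map φ =
      (fromBlocks D.val 0 0 V.val).submatrix finSumFinEquiv.symm finSumFinEquiv.symm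
    rw [← Matrix.map_mul, submatrix_mul_equiv, fromBlocks_multiply, hD, hV, ← submatrix_map,
      fromBlocks_map]
    congr 2
    · rw [sub_mul, mul_sub, mul_sub, one_mul, mul_one, one_mul, E.idem, sub_self, sub_zero]
    · rw [Matrix.sub_mul, Matrix.one_mul, h1, Matrix.mul_zero, sub_self, add_zero]
      exact Matrix.map_zero φ (map_zero φ)
    · rw [Matrix.mul_sub, Matrix.mul_one, h2, Matrix.zero_mul, sub_self, add_zero]
      exact Matrix.map_zero φ (map_zero φ)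
    · rw [Matrix.mul_zero, add_zero]
  rw [← h4, ← mul_assoc, h3, one_mul]

/-- **Comparison of two trivializations.** -/
theorem PM_cmp (X : Matrix (Fin 1) (Fin E.n) P) (Y : Matrix (Fin E.n) (Fin 1) P)
    (hXY : X * Y = 1) (hYX : Y * X = E.mat) (X' : Matrix (Fin 1) (Fin E.n) P)
    (Y' : Matrix (Fin E.n) (Fin 1) P) (hXY' : X' * Y' = 1) (hYX' : Y' * X' = E.mat)
    (V : GLm 1 A) (hV : V.val = (X * Y').map φ) (D : GLm E.n A)
    (hD : D.val = (1 - E.mat + Y * X').map φ) (z : cyc Γ k) :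
    ∃ v : QC A (k + 3),
      PM φ κ hκ E X' Y' hXY' hYX' (z : Cx ℤ Γ (k + 1)) -
        PM φ κ hκ E X Y hXY hYX (z : Cx ℤ Γ (k + 1)) -
        ch E.n (prism (fun _ => 1) (fun _ => D) (k + 1) (z : Cx ℤ Γ (k + 1))) -
        ch 1 (prism (fun y => kp φ κ hκ y) (fun y => kp φ κ hκ y * V) (k + 1)
          (z : Cx ℤ Γ (k + 1))) = qbd v := by
  obtain ⟨y, hy⟩ := prism_tri (SE φ κ hκ E) (fun y => SE φ κ hκ E y)
    (fun y => SE φ κ hκ E y * MX φ E X Y hXY hYX) (fun y => SE φ κ hκ E y * MX φ E X' Y' hXY' hYX')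
    (fun g x => map_mul _ g x) (fun g x => by rw [map_mul, mul_assoc])
    (fun g x => by rw [map_mul, mul_assoc]) z.2
  have h1 := ch_coi (E.n + 1) hy
  rw [map_sub, map_sub, map_add, ← ch_bd] at h1
  have h2 : ch (E.n + 1) (prism (fun y => SE φ κ hκ E y * MX φ E X Y hXY hYX)
      (fun y => SE φ κ hκ E y * MX φ E X' Y' hXY' hYX') (k + 1) (z : Cx ℤ Γ (k + 1))) =
      ch E.n (prism (fun _ => 1) (fun _ => D) (k + 1) (z : Cx ℤ Γ (k + 1))) +
        ch 1 (prism (fun y => kp φ κ hκ y) (fun y => kp φ κ hκ y * V) (k + 1)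
          (z : Cx ℤ Γ (k + 1))) := by
    have e1 : (fun y => SE φ κ hκ E y * MX φ E X Y hXY hYX) =
        fun y => MX φ E X Y hXY hYX * blk E.n 1 A (1, kp φ κ hκ y) :=
      funext fun y => (MX_conj φ κ hκ E X Y hXY hYX y).symm
    have e2 : (fun y => SE φ κ hκ E y * MX φ E X' Y' hXY' hYX') =
        fun y => MX φ E X Y hXY hYX * blk E.n 1 A (D, kp φ κ hκ y * V) := by
      funext y
      rw [cmp_mx_mul φ E X Y hXY hYX X' Y' hXY' hYX' V hV D hD, ← mul_assoc,
        ← MX_conj φ κ hκ E X Y hXY hYX y, mul_assoc]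
      refine congrArg (fun a => MX φ E X Y hXY hYX * a) ?_
      show blk E.n 1 A (1, kp φ κ hκ y) * blk E.n 1 A (D, V) = _
      rw [← map_mul, Prod.mk_mul_mk, one_mul]
    rw [e1, e2]
    have e3 := push_prism (fun y => blk E.n 1 A (1, kp φ κ hκ y))
      (fun y => blk E.n 1 A (D, kp φ κ hκ y * V)) (fun a => MX φ E X Y hXY hYX * a) (k + 1)
      (z : Cx ℤ Γ (k + 1))
    refine (congrArg (ch (E.n + 1)) e3.symm).trans ((ch_push_left _ _ _).trans ?_)
    exact ch_prism_blk E.n 1 (fun _ => 1) (fun _ => D) (fun y => kp φ κ hκ y)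
      (fun y => kp φ κ hκ y * V) (z : Cx ℤ Γ (k + 1))
  refine ⟨- ch (E.n + 1) y, ?_⟩
  rw [h2] at h1
  rw [map_neg, PM, PM]
  rw [sub_eq_zero, sub_eq_iff_eq_add] at h1
  rw [← sub_eq_zero]
  have h3 : ∀ a b c d e : QC A (k + 2), a + (c + d) - b = e → b - a - c - d - -e = 0 := by
    intro a b c d e h
    rw [← h]
    abel
  exact h3 _ _ _ _ _ (sub_eq_iff_eq_add.2 h1)

private theorem cmp_map_rho {P' : Type*} [Ring P'] {A' : Type*} [Ring A'] (φ' : P' →+* A')
    (κ' : Γ →* A'ˣ) (hκ' : ∀ γ b, φ' b * (κ' γ : A') = κ' γ * φ' b) (g : P →+* P') (f : A →+* A')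
    (h : ∀ b, f (φ b) = φ' (g b)) (h' : ∀ γ, f (κ γ : A) = κ' γ) (γ : Γ) :
    (rho φ κ hκ E γ).val.map f = (rho φ' κ' hκ' (E.map g) γ).val := by
  refine Matrix.ext fun i j => ?_
  change f ((1 : Matrix (Fin E.n) (Fin E.n) A) i j + φ (E.mat i j) * ((κ γ : A) - 1)) =
    (1 : Matrix (Fin E.n) (Fin E.n) A') i j + φ' (g (E.mat i j)) * ((κ' γ : A') - 1)
  rw [map_add, map_mul, map_sub, map_one, h, h']
  refine congrArg (fun a => a + φ' (g (E.mat i j)) * ((κ' γ : A') - 1)) ?_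
  by_cases hij : i = j
  · rw [hij, Matrix.one_apply_eq, Matrix.one_apply_eq, map_one]
  · rw [Matrix.one_apply_ne hij, Matrix.one_apply_ne hij, map_zero]

theorem map_PM {P' : Type*} [Ring P'] {A' : Type*} [Ring A'] (φ' : P' →+* A') (κ' : Γ →* A'ˣ)
    (hκ' : ∀ γ b, φ' b * (κ' γ : A') = κ' γ * φ' b) (g : P →+* P') (f : A →+* A')
    (h : ∀ b, f (φ b) = φ' (g b)) (h' : ∀ γ, f (κ γ : A) = κ' γ)
    (X : Matrix (Fin 1) (Fin E.n) P) (Y : Matrix (Fin E.n) (Fin 1) P) (hXY : X * Y = 1)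
    (hYX : Y * X = E.mat) (hXY' : X.map g * Y.map g = 1) (hYX' : Y.map g * X.map g = (E.map g).mat)
    (z : Cx ℤ Γ k) :
    QC.map f (PM φ κ hκ E X Y hXY hYX z) =
      PM φ' κ' hκ' (E.map g) (X.map g) (Y.map g) hXY' hYX' z := by
  have h1 : ∀ y, mapGL f (E.n + 1) (SE φ κ hκ E y) = SE φ' κ' hκ' (E.map g) y := by
    intro y
    apply Units.ext
    rw [mapGL_val]
    show (blkM (rho φ κ hκ E y).val 1).map f = blkM (rho φ' κ' hκ' (E.map g) y).val 1
    rw [blkM_map, cmp_map_rho φ κ hκ E φ' κ' hκ' g f h h', Matrix.map_one f (map_zero f) (map_one f)]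
    rfl
  have h2 : mapGL f (E.n + 1) (MX φ E X Y hXY hYX) =
      MX φ' (E.map g) (X.map g) (Y.map g) hXY' hYX' := by
    apply Units.ext
    rw [mapGL_val]
    show (((fromBlocks (1 - E.mat) Y X 0).submatrix finSumFinEquiv.symm
      finSumFinEquiv.symm).map φ).map f = ((fromBlocks
        ((1 : Matrix (Fin E.n) (Fin E.n) P') - (E.mat.map g : Matrix (Fin E.n) (Fin E.n) P'))
        (Y.map g : Matrix (Fin E.n) (Fin 1) P') (X.map g : Matrix (Fin 1) (Fin E.n) P')
        (0 : Matrix (Fin 1) (Fin 1) P')).submatrix (finSumFinEquiv (m := E.n) (n := 1)).symm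
        (finSumFinEquiv (m := E.n) (n := 1)).symm).map φ'
    have e1 : fromBlocks
        ((1 : Matrix (Fin E.n) (Fin E.n) P') - (E.mat.map g : Matrix (Fin E.n) (Fin E.n) P'))
        (Y.map g : Matrix (Fin E.n) (Fin 1) P') (X.map g : Matrix (Fin 1) (Fin E.n) P')
        (0 : Matrix (Fin 1) (Fin 1) P') = (fromBlocks (1 - E.mat) Y X 0).map g := by
      rw [fromBlocks_map, Matrix.map_zero g (map_zero g)]
      refine congrArg (fun a => fromBlocks a (Y.map g) (X.map g) 0) ?_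
      refine Matrix.ext fun i j => ?_
      rw [Matrix.sub_apply, Matrix.map_apply, Matrix.map_apply, Matrix.sub_apply, map_sub]
      refine congrArg (fun a => a - g (E.mat i j)) ?_
      by_cases hij : i = j
      · rw [hij, Matrix.one_apply_eq, Matrix.one_apply_eq, map_one]
      · rw [Matrix.one_apply_ne hij, Matrix.one_apply_ne hij, map_zero]
    rw [e1]
    refine Matrix.ext fun i j => ?_
    exact h _
  rw [PM, map_ch, push_prism, PM]
  have h3 : (fun y => mapGL f (E.n + 1) (SE φ κ hκ E y)) = fun y => SE φ' κ' hκ' (E.map g) y :=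
    funext h1
  have h4 : (fun y => mapGL f (E.n + 1) (SE φ κ hκ E y * MX φ E X Y hXY hYX)) =
      fun y => SE φ' κ' hκ' (E.map g) y * MX φ' (E.map g) (X.map g) (Y.map g) hXY' hYX' := by
    funext y
    rw [map_mul, h1, h2]
    rfl
  rw [h3, h4]
  rfl

end

end Pool.Agent.H16.KN
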