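import Mathlib

/-!
# Project KN: sums of cyclically invariant functions

PROOF of `cyc_sum_dvd`.  The cyclic group of order `q = p ^ m` acts on the functions `w : Fin q → S` by rotation
(`finRotate q`).  The sum over an orbit of `w` is (length of the orbit) * `F w`.  The length is `p ^ (m - j)`, where
`p ^ j` is the order of the stabilizer.  If `F w ≠ 0` then `w` is not fixed by the rotation by `p ^ a`, so the
length of the orbit does not divide `p ^ a`, so it is divisible by `p ^ (a + 1)`.
-/

set_option autoImplicit false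

universe u v

namespace Pool.Agent.H16.KN

/-- rotation of a function on `Fin q` by `d` places -/
def rotF {q : ℕ} {S : Type u} (d : ℕ) (w : Fin q → S) : Fin q → S := fun i => w ((finRotate q)^[d] i)

/-- the iterates of the rotation of `Fin (n + 1)` -/
private theorem rot_iter (n k : ℕ) (i : Fin (n + 1)) :
    (((finRotate (n + 1))^[k] i : Fin (n + 1)) : ℕ) = ((i : ℕ) + k) % (n + 1) := by
  induction k with
  | zero => simp [Nat.mod_eq_of_lt i.2]
  | succ k ih =>
    rw [Function.iterate_succ_apply', finRotate_apply, Fin.val_add, ih, Fin.val_one', ← Nat.add_mod, add_assoc]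

/-- the rotation of `Fin q` has period `q` -/
private theorem rot_self (q : ℕ) (i : Fin q) : (finRotate q)^[q] i = i := by
  cases q with
  | zero => exact i.elim0
  | succ n =>
    apply Fin.ext
    rw [rot_iter, Nat.add_mod_right, Nat.mod_eq_of_lt i.2]

/-- the rotation of functions as a permutation -/
private def rotP (q : ℕ) (S : Type u) : Equiv.Perm (Fin q → S) :=
  Equiv.arrowCongr (finRotate q).symm (Equiv.refl S)

private theorem rotP_apply {q : ℕ} {S : Type u} (w : Fin q → S) : rotP q S w = rotF 1 w := by
  funext i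
  simp [rotP, rotF]

private theorem rotP_iter {q : ℕ} {S : Type u} (k : ℕ) (w : Fin q → S) : (rotP q S)^[k] w = rotF k w := by
  induction k with
  | zero => rfl
  | succ k ih =>
    rw [Function.iterate_succ_apply', ih, rotP_apply]
    funext i
    simp [rotF, Function.iterate_succ_apply]

/-- **Sums of cyclically invariant functions.** -/
theorem cyc_sum_dvd {p : ℕ} (hp : p.Prime) (m a : ℕ) (ha : a ≤ m) {S : Type u} [Fintype S]
    {B : Type v} [CommRing B] (F : (Fin (p ^ m) → S) → B) (hF : ∀ w, F (rotF 1 w) = F w)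
    (h0 : ∀ w, rotF (p ^ a) w = w → F w = 0) : (p : B) ^ (a + 1) ∣ ∑ w, F w := by
  classical
  set T : Equiv.Perm (Fin (p ^ m) → S) := rotP (p ^ m) S with hT
  -- the function is invariant under the group generated by the rotation
  have hinv : ∀ (g : Subgroup.zpowers T) (w : Fin (p ^ m) → S), F (g • w) = F w := by
    rintro ⟨g, hg⟩ w
    obtain ⟨k, rfl⟩ := Subgroup.mem_zpowers_iff.1 hg
    change F ((T ^ k) w) = F w
    have h1 : ∀ w, F (T w) = F w := fun w => by rw [hT, rotP_apply]; exact hF w
    have hn : ∀ (n : ℕ) (w : Fin (p ^ m) → S), F ((T ^ n) w) = F w := by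
      intro n
      induction n with
      | zero => intro w; rfl
      | succ n ih => intro w; rw [pow_succ, Equiv.Perm.mul_apply, ih, h1]
    cases k with
    | ofNat n => exact hn n w
    | negSucc n =>
      rw [zpow_negSucc]
      have := hn (n + 1) ((T ^ (n + 1))⁻¹ w)
      rw [← Equiv.Perm.mul_apply, mul_inv_cancel, Equiv.Perm.one_apply] at this
      exact this.symm
  rw [← (MulAction.selfEquivSigmaOrbits (Subgroup.zpowers T) (Fin (p ^ m) → S)).symm.sum_comp]
  rw [Fintype.sum_sigma]
  refine Finset.dvd_sum fun ω _ => ?_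
  have hc : ∀ x : MulAction.orbit (Subgroup.zpowers T) ω.out,
      F ((MulAction.selfEquivSigmaOrbits (Subgroup.zpowers T) (Fin (p ^ m) → S)).symm ⟨ω, x⟩) = F ω.out := by
    rintro ⟨x, hx⟩
    obtain ⟨g, rfl⟩ := hx
    exact hinv g _
  rw [Finset.sum_congr rfl fun x _ => hc x, Finset.sum_const, Finset.card_univ, nsmul_eq_mul]
  by_cases hz : F ω.out = 0
  · rw [hz, mul_zero]
    exact dvd_zero _
  refine Dvd.dvd.mul_right ?_ _
  rw [← Nat.cast_pow]
  refine Nat.cast_dvd_cast ?_
  have hcard : Fintype.card (MulAction.orbit (Subgroup.zpowers T) ω.out)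
      = Function.minimalPeriod (T • ·) ω.out := by
    rw [MulAction.minimalPeriod_eq_card]
  rw [hcard]
  have hper : Function.IsPeriodicPt (T • ·) (p ^ m) ω.out := by
    change (fun w => T w)^[p ^ m] ω.out = ω.out
    have := rotP_iter (q := p ^ m) (S := S) (p ^ m) ω.out
    rw [← hT] at this
    refine this.trans ?_
    funext i
    change ω.out ((finRotate (p ^ m))^[p ^ m] i) = ω.out i
    rw [rot_self]
  obtain ⟨k, -, hk⟩ := (Nat.dvd_prime_pow hp).1 hper.minimalPeriod_dvd
  rw [hk]
  refine pow_dvd_pow p ?_
  by_contra hlt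
  apply hz
  apply h0
  have hdvd : Function.minimalPeriod (T • ·) ω.out ∣ p ^ a := by
    rw [hk]
    exact pow_dvd_pow p (by omega)
  have h2 := (Function.isPeriodicPt_iff_minimalPeriod_dvd.2 hdvd)
  rw [← rotP_iter, ← hT]
  exact h2

end Pool.Agent.H16.KN
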