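import Pool.Agent.H71.FQ.Defs
import Pool.Agent.H95.KM.Defs

/-!
# Project KN: the `K₋₁`-part of the rational source of the assembly map in degree `n`

For a ring `R`, a group `G` and `n`, `HnKm1 R G n` is the abelian group generated by the symbols `[F, x, z]` with
`F` a finite subgroup of `G`, `x ∈ K₋₁(R[F])` and `z ∈ H_{n+1}(Z_G(F); ℤ)`, modulo additivity in `x` and in `z` and
`[F', c_g(x), z'] = [F, x, c_{g⁻¹}(z')]` for `g F g⁻¹ ⊆ F'`, `z' ∈ H_{n+1}(Z_G(F'); ℤ)`.
-/

set_option autoImplicit false

universe u v w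

namespace Pool.Agent.H16.KN

open Pool.Agent.H95.KM (Km1 ind)
open Pool.Agent.H95.WH (FamSub conjHom FinSub)
open Pool.Agent.H71.FQ (HG HG.map centConj)

variable (R : Type u) [Ring R] (G : Type v) [Group G] (n : ℕ)

/-- The symbols `[F, x, z]`. -/
structure SymN where
  /-- a finite subgroup -/
  F : FamSub G FinSub
  /-- a class in `K₋₁` of its group ring -/
  x : Km1 (MonoidAlgebra R F.1)
  /-- a homology class of its centralizer -/
  z : HG (Subgroup.centralizer (F.1 : Set G)) n

/-- The symbol `[F, x, z]`. -/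
noncomputable def symOf (F : FamSub G FinSub) (x : Km1 (MonoidAlgebra R F.1))
    (z : HG (Subgroup.centralizer (F.1 : Set G)) n) : FreeAbelianGroup (SymN R G n) :=
  FreeAbelianGroup.of ⟨F, x, z⟩

/-- The relation of additivity in `x`. -/
noncomputable def symX (F : FamSub G FinSub) (x y : Km1 (MonoidAlgebra R F.1))
    (z : HG (Subgroup.centralizer (F.1 : Set G)) n) : FreeAbelianGroup (SymN R G n) :=
  symOf R G n F (x + y) z - (symOf R G n F x z + symOf R G n F y z)

/-- The relation of additivity in `z`. -/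
noncomputable def symZ (F : FamSub G FinSub) (x : Km1 (MonoidAlgebra R F.1))
    (z z' : HG (Subgroup.centralizer (F.1 : Set G)) n) : FreeAbelianGroup (SymN R G n) :=
  symOf R G n F x (z + z') - (symOf R G n F x z + symOf R G n F x z')

/-- The relation `[F', c_g(x), z'] = [F, x, c_{g⁻¹}(z')]`. -/
noncomputable def symC (F F' : FamSub G FinSub) (g : G) (h : ∀ x ∈ F.1, g * x * g⁻¹ ∈ F'.1)
    (x : Km1 (MonoidAlgebra R F.1)) (z : HG (Subgroup.centralizer (F'.1 : Set G)) n) :
    FreeAbelianGroup (SymN R G n) :=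
  symOf R G n F' (ind R (conjHom g F.1 F'.1 h) x) z -
    symOf R G n F x (HG.map n (centConj g F.1 F'.1 h) z)

/-- The relations. -/
noncomputable def SymRel : AddSubgroup (FreeAbelianGroup (SymN R G n)) :=
  AddSubgroup.closure
    ({w | ∃ F x y z, w = symX R G n F x y z} ∪ {w | ∃ F x z z', w = symZ R G n F x z z'} ∪
      {w | ∃ F F' g h x z, w = symC R G n F F' g h x z})

/-- The group generated by the symbols `[F, x, z]`. -/
def HnKm1 : Type (max u v) := FreeAbelianGroup (SymN R G n) ⧸ SymRel R G n

noncomputable instance instHnKm1 : AddCommGroup (HnKm1 R G n) :=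
  QuotientAddGroup.Quotient.addCommGroup (SymRel R G n)

end Pool.Agent.H16.KN
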