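import Pool.Agent.H95.KM.DetOne
import Pool.Agent.H71.FJ.K0

/-!
# Project KN: the trivializations of `KM/DetOne.lean`, in the form used here

`exists_triv` is `det_one` of `Pool/Agent/H95/KM/DetOne.lean` for the representation of `uN n` given by
`exists_isRep_repH` (index `Unit ⊕ Unit`), reindexed to `Fin 1`, `Fin E.n`, with two additions: the value of `dl (uN n)`
(`Sq.dl_eq`, `K0.cls_congr`, `K0.mk_eq_cls`) and `yA * xA = E` over `L` (apply the injective `F = lau (fou fL C)`
and `matrix_map_injective`: `F(yA) F(xA)` is the image of `y * x = H.map φ`; model: `hxA`, `hyA` and the use of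
`fou_mapRing` in the proof of `det_one`; copy that proof).
-/

set_option autoImplicit false

open Matrix
open scoped LaurentPolynomial

universe u v w

namespace Pool.Agent.H16.KN

open Pool.Agent.H71.FJ (K0 K0.mk K0.cls IdemMat)
open Pool.Agent.H95.KM

/-- the idempotent `1` -/
def oneE (P : Type u) [Ring P] : IdemMat P := ⟨1, 1, one_mul 1⟩

theorem detL_matEquiv_aux {P : Type u} [Ring P] :
    Pool.Agent.H71.FJ.MatEquiv (1 : Matrix Unit Unit P) (1 : Matrix (Fin 1) (Fin 1) P) := by
  refine ⟨Matrix.of fun _ _ => 1, Matrix.of fun _ _ => 1, ?_, ?_⟩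
  · ext i j : 1
    rw [Subsingleton.elim i j, Matrix.one_apply_eq, Matrix.mul_apply]
    simp
  · ext i j : 1
    rw [Subsingleton.elim i j, Matrix.one_apply_eq, Matrix.mul_apply]
    simp

theorem detL_matEquiv_one {P : Type u} [Ring P] :
    Pool.Agent.H71.FJ.MatEquiv (1 : Matrix Unit Unit P) (oneE P).mat :=
  detL_matEquiv_aux

open Classical in
theorem detL_one {O : Type} [CommRing O] [IsDomain O] [CharZero O] (N : ℕ) [NeZero N]
    [HasEnoughRootsOfUnity O N] [Finite (Amod O N)] {L : Type} [Field L] [CharZero L]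
    (fL : O →+* L) (hfL : Function.Injective fL)
    (C : Type v) [Group C] [Fintype C] [Fintype (C →* Oˣ)] (hC : ∀ a b : C, a * b = b * a)
    (hN : Nat.card C ∣ N) (n : (C →* Oˣ) → Pr O N → ℤ) {ν : Type} [Fintype ν] [DecidableEq ν]
    {x : Matrix Unit ν ((C →* Oˣ) → O)[T;T⁻¹]} {y : Matrix ν Unit ((C →* Oˣ) → O)[T;T⁻¹]}
    {H : Matrix ν ν (MonoidAlgebra O C)[T;T⁻¹]}
    (h : (sqC (RingHom.id O) N C hC hN).lauSq.IsRep (uN n) x y H) :
    ∃ (xA : Matrix Unit ν (MonoidAlgebra L C)[T;T⁻¹])
      (yA : Matrix ν Unit (MonoidAlgebra L C)[T;T⁻¹]), xA * yA = 1 ∧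
      yA * xA = H.map (lau (MonoidAlgebra.mapRingHom C fL)) ∧
      ∀ (m : Pr O N) (Om : Type) [CommRing Om] [IsDomain Om] [CharZero Om] (f : O →+* Om)
        (j : Om →+* L), j.comp f = fL → Function.Injective j →
        (∀ (m' : Pr O N) (r : O), Ideal.Quotient.mk (Ideal.span {(N : O)}) r = kappa O N m' →
          Ideal.Quotient.mk (Ideal.span {(N : Om)}) (f r) = if m' = m then 1 else 0) →
        ∃ (xB : Matrix Unit ν (MonoidAlgebra Om C)[T;T⁻¹])
          (yB : Matrix ν Unit (MonoidAlgebra Om C)[T;T⁻¹]), xB * yB = 1 ∧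
          yB * xB = H.map (lau (MonoidAlgebra.mapRingHom C f)) ∧
          (∀ i k, (xB.map (lau (MonoidAlgebra.mapRingHom C j))) i k =
            vL fL (fun χ => - n χ m) * xA i k) ∧
          (∀ k i, (yB.map (lau (MonoidAlgebra.mapRingHom C j))) k i =
            yA k i * vL fL (fun χ => n χ m)) := by
  have hinj : Function.Injective (lau (fou fL C)) := lau_injective (detOne_inj fL hC hN)
  have hsurj : Function.Surjective (lau (fou fL C)) := by
    apply lau_surjective
    intro F
    obtain ⟨z, hz⟩ := exists_fou fL (C := C) (fun χ => (Nat.card C : L)⁻¹ * F χ)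
    refine ⟨z, ?_⟩
    rw [hz]
    funext χ
    have hcard : (Nat.card C : L) ≠ 0 := by exact_mod_cast Nat.card_pos.ne'
    rw [mul_inv_cancel_left₀ hcard]
  obtain ⟨xA, hxA⟩ := exists_matrix_lift (lau (fou fL C)) (x.map (lau (fL.compLeft (C →* Oˣ))))
    (fun i j => hsurj _)
  obtain ⟨yA, hyA⟩ := exists_matrix_lift (lau (fou fL C)) (y.map (lau (fL.compLeft (C →* Oˣ))))
    (fun i j => hsurj _)
  refine ⟨xA, yA, ?_, ?_, ?_⟩
  · apply matrix_map_injective hinj
    rw [Matrix.map_mul, hxA, hyA, ← Matrix.map_mul, h.1,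
      Matrix.map_one _ (map_zero _) (map_one _), Matrix.map_one _ (map_zero _) (map_one _)]
  · apply matrix_map_injective hinj
    rw [Matrix.map_mul, hxA, hyA, ← Matrix.map_mul, h.2.1]
    ext i l : 1
    rw [Matrix.map_apply, Matrix.map_apply, Matrix.map_apply, Matrix.map_apply]
    change lau (fL.compLeft (C →* Oˣ)) (lau (fou (RingHom.id O) C) (H i l)) =
      lau (fou fL C) (lau (MonoidAlgebra.mapRingHom C fL) (H i l))
    rw [← RingHom.comp_apply, ← lau_comp, ← RingHom.comp_apply, ← lau_comp,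
      detOne_fou_comp (RingHom.id O) fL fL (RingHom.comp_id fL) C]
  intro m Om _ _ _ f j hjf hj hκ
  have h' := Sq.IsRep.map (detOneHom N f C hC hN) h
  set k : (C →* Oˣ) → ℤ := fun χ => n χ m with hk
  have hk0 : k + -k = 0 := add_neg_cancel k
  have hk1 : -k + k = 0 := neg_add_cancel k
  have hvv' : (Matrix.of fun _ _ : Unit => detOneW Om k) * (Matrix.of fun _ _ : Unit => detOneW Om (-k)) = 1 := by
    ext i l : 1
    simp [Matrix.mul_apply, detOne_W_mul, detOne_W_zero, Matrix.one_apply, Subsingleton.elim i l]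
  have hv'v : (Matrix.of fun _ _ : Unit => detOneW Om (-k)) * (Matrix.of fun _ _ : Unit => detOneW Om k) = 1 := by
    ext i l : 1
    simp [Matrix.mul_apply, detOne_W_mul, detOne_W_zero, Matrix.one_apply, Subsingleton.elim i l]
  have hv : (Matrix.of fun _ _ : Unit => detOneW Om k).map (sqC f N C hC hN).lauSq.π =
      ((mapU (detOneHom N f C hC hN).c (uN n) : (Matrix Unit Unit _)ˣ) : Matrix Unit Unit _) := by
    ext i l : 1
    change lau (sqC f N C hC hN).π (detOneW Om k) =
      lau ((Ideal.quotientMap (Ideal.span {(N : Om)}) f (detOne_N_le N f)).compLeft (C →* Oˣ)) (un n)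
    apply cmp_ext
    intro χ
    rw [detOne_cmp_lau, cmp_un]
    have e1 : cmp χ (lau (sqC f N C hC hN).π (detOneW Om k)) =
        lau (Ideal.Quotient.mk (Ideal.span {(N : Om)})) (cmp χ (detOneW Om k)) := by
      apply ext_coeff
      intro l
      rw [cmp_coeff, lau_coeff, lau_coeff, cmp_coeff]
      rfl
    rw [e1, detOne_cmp_W, lau_single, map_one]
    unfold unComp
    rw [map_sum, Finset.sum_eq_single m]
    · rw [lau_single]
      obtain ⟨r, hr⟩ := Ideal.Quotient.mk_surjective (kappa O N m)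
      rw [← hr, Ideal.quotientMap_mk, hκ m r hr, if_pos rfl]
    · intro m' _ hm'
      rw [lau_single]
      obtain ⟨r, hr⟩ := Ideal.Quotient.mk_surjective (kappa O N m')
      rw [← hr, Ideal.quotientMap_mk, hκ m' r hr, if_neg hm', AddMonoidAlgebra.single_zero]
    · intro hm
      exact absurd (Finset.mem_univ _) hm
  obtain ⟨xB, yB, hxB, hyB, hxy, hyx⟩ := Sq.loc_rep h' _ _ hvv' hv'v hv
  have hcomp : ∀ z : (MonoidAlgebra Om C)[T;T⁻¹], lau (fou fL C) (lau (MonoidAlgebra.mapRingHom C j) z) =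
      lau (j.compLeft (C →* Oˣ)) (lau (fou f C) z) := by
    intro z
    rw [← RingHom.comp_apply, ← lau_comp, ← RingHom.comp_apply, ← lau_comp,
      detOne_fou_comp f j fL hjf C]
  have hfl : ∀ z : ((C →* Oˣ) → O)[T;T⁻¹], lau (j.compLeft (C →* Oˣ)) (lau (f.compLeft (C →* Oˣ)) z) =
      lau (fL.compLeft (C →* Oˣ)) z := by
    intro z
    rw [← RingHom.comp_apply, ← lau_comp]
    congr 2
    rw [← hjf]
    rfl
  refine ⟨xB, yB, hxy, hyx, ?_, ?_⟩
  · intro i l
    apply hinj
    rw [Matrix.map_apply, hcomp, map_mul, show (fun χ => - n χ m) = -k from rfl, detOne_fou_vL]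
    have e1 : lau (fou f C) (xB i l) = detOneW Om (-k) * lau (f.compLeft (C →* Oˣ)) (x i l) := by
      have t := congrFun (congrFun hxB i) l
      rw [Matrix.mul_apply, Finset.univ_unique, Finset.sum_singleton] at t
      exact t
    have e2 : lau (fou fL C) (xA i l) = lau (fL.compLeft (C →* Oˣ)) (x i l) :=
      congrFun (congrFun hxA i) l
    rw [e1, e2, map_mul, detOne_lau_W, hfl]
  · intro l i
    apply hinj
    rw [Matrix.map_apply, hcomp, map_mul, detOne_fou_vL]
    have e1 : lau (fou f C) (yB l i) = lau (f.compLeft (C →* Oˣ)) (y l i) * detOneW Om k := by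
      have t := congrFun (congrFun hyB l) i
      rw [Matrix.mul_apply, Finset.univ_unique, Finset.sum_singleton] at t
      exact t
    have e2 : lau (fou fL C) (yA l i) = lau (fL.compLeft (C →* Oˣ)) (y l i) :=
      congrFun (congrFun hyA l) i
    rw [e1, e2, map_mul, detOne_lau_W, hfl]

open Classical in
theorem exists_triv {O : Type} [CommRing O] [IsDomain O] [CharZero O] (N : ℕ) [NeZero N]
    [HasEnoughRootsOfUnity O N] [Finite (Amod O N)] {L : Type} [Field L] [CharZero L]
    (fL : O →+* L) (hfL : Function.Injective fL)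
    (C : Type v) [Group C] [Fintype C] [Fintype (C →* Oˣ)] (hC : ∀ a b : C, a * b = b * a)
    (hN : Nat.card C ∣ N) (n : (C →* Oˣ) → Pr O N → ℤ) :
    ∃ (E : IdemMat (MonoidAlgebra O C)[T;T⁻¹])
      (xA : Matrix (Fin 1) (Fin E.n) (MonoidAlgebra L C)[T;T⁻¹])
      (yA : Matrix (Fin E.n) (Fin 1) (MonoidAlgebra L C)[T;T⁻¹]),
      (sqC (RingHom.id O) N C hC hN).lauSq.dl (uN n) = K0.mk E - K0.mk (oneE _) ∧
      xA * yA = 1 ∧ yA * xA = E.mat.map (lau (MonoidAlgebra.mapRingHom C fL)) ∧
      ∀ (m : Pr O N) (Om : Type) [CommRing Om] [IsDomain Om] [CharZero Om] (f : O →+* Om)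
        (j : Om →+* L), j.comp f = fL → Function.Injective j →
        (∀ (m' : Pr O N) (r : O), Ideal.Quotient.mk (Ideal.span {(N : O)}) r = kappa O N m' →
          Ideal.Quotient.mk (Ideal.span {(N : Om)}) (f r) = if m' = m then 1 else 0) →
        ∃ (xB : Matrix (Fin 1) (Fin E.n) (MonoidAlgebra Om C)[T;T⁻¹])
          (yB : Matrix (Fin E.n) (Fin 1) (MonoidAlgebra Om C)[T;T⁻¹]), xB * yB = 1 ∧
          yB * xB = E.mat.map (lau (MonoidAlgebra.mapRingHom C f)) ∧
          (∀ i k, (xB.map (lau (MonoidAlgebra.mapRingHom C j))) i k =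
            vL fL (fun χ => - n χ m) * xA i k) ∧
          (∀ k i, (yB.map (lau (MonoidAlgebra.mapRingHom C j))) k i =
            yA k i * vL fL (fun χ => n χ m)) := by
  obtain ⟨x, y, h⟩ := (sqC (RingHom.id O) N C hC hN).lauSq.exists_isRep_repH (uN n)
  set H := (sqC (RingHom.id O) N C hC hN).lauSq.repH (uN n) with hH
  obtain ⟨xA, yA, hxy, hyx, hloc⟩ := detL_one N fL hfL C hC hN n h
  set e := Fintype.equivFin (Unit ⊕ Unit) with he
  set o : Fin 1 ≃ Unit := Equiv.ofUnique (Fin 1) Unit with ho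
  refine ⟨K0.toFin H h.idem, xA.submatrix o e.symm, yA.submatrix e.symm o, ?_, ?_, ?_, ?_⟩
  · rw [Sq.dl_eq h]
    congr 1
    rw [K0.mk_eq_cls]
    apply K0.cls_congr
    exact detL_matEquiv_one
  · have t : xA.submatrix o e.symm * yA.submatrix e.symm o = (xA * yA).submatrix o o :=
      Matrix.submatrix_mul_equiv xA yA o e.symm o
    rw [hxy, Matrix.submatrix_one_equiv o] at t
    exact t
  · have t : yA.submatrix e.symm o * xA.submatrix o e.symm = (yA * xA).submatrix e.symm e.symm :=
      Matrix.submatrix_mul_equiv yA xA e.symm o e.symm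
    rw [hyx] at t
    exact t
  · intro m Om _ _ _ f j hjf hj hκ
    obtain ⟨xB, yB, hxyB, hyxB, h1, h2⟩ := hloc m Om f j hjf hj hκ
    refine ⟨xB.submatrix o e.symm, yB.submatrix e.symm o, ?_, ?_, ?_, ?_⟩
    · have t : xB.submatrix o e.symm * yB.submatrix e.symm o = (xB * yB).submatrix o o :=
        Matrix.submatrix_mul_equiv xB yB o e.symm o
      rw [hxyB, Matrix.submatrix_one_equiv o] at t
      exact t
    · have t : yB.submatrix e.symm o * xB.submatrix o e.symm = (yB * xB).submatrix e.symm e.symm :=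
        Matrix.submatrix_mul_equiv yB xB e.symm o e.symm
      rw [hyxB] at t
      exact t
    · intro i k
      exact h1 (o i) (e.symm k)
    · intro k i
      exact h2 (e.symm k) (o i)

end Pool.Agent.H16.KN
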