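import Mathlib

/-!
# Project KN, module LinSN: `p`-integral homomorphisms determine all homomorphisms (additive form)

The additive version of `Pool/Agent/H8/KZ/LinS.lean`.
-/

set_option autoImplicit false

universe u v w

namespace Pool.Agent.H16.KN

/-- every element killed by all homomorphisms with values in the rational numbers with denominator prime to `p`
has finite order -/
def PSepA (p : ℕ) (X : Type v) [AddCommGroup X] : Prop :=
  ∀ x : X, (∀ f : X →+ ℚ, (∀ y, ¬ p ∣ (f y).den) → f x = 0) → ∃ r : ℕ, r ≠ 0 ∧ r • x = 0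

private theorem linS_rat {p : ℕ} {X : Type v} [AddCommGroup X] (hX : PSepA p X) {L : Type} [Field L]
    [CharZero L] {K : Type*} [Fintype K] (q : K → ℚ) (a : K → X)
    (h0 : ∀ lam : X →+ ℚ, (∀ y, ¬ p ∣ (lam y).den) → ∑ k, q k * lam (a k) = 0) (h : X →+ L) :
    ∑ k, (q k : L) * h (a k) = 0 := by
  classical
  set M : ℕ := ∏ k, (q k).den with hM
  have hM0 : M ≠ 0 := Finset.prod_ne_zero_iff.2 fun k _ => (q k).den_nz
  have hdiv : ∀ k, (q k).den ∣ M := fun k => Finset.dvd_prod_of_mem _ (Finset.mem_univ k)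
  have hm : ∀ k, ∃ m : ℤ, (m : ℚ) = M * q k := by
    intro k
    obtain ⟨c, hc⟩ := hdiv k
    refine ⟨c * (q k).num, ?_⟩
    have h1 : ((q k).den : ℚ) * q k = (q k).num := by
      rw [mul_comm]
      exact Rat.mul_den_eq_num (q k)
    rw [hc]
    push_cast
    rw [← h1]
    ring
  choose m hm using hm
  have hker : ∀ f : X →+ ℚ, (∀ y, ¬ p ∣ (f y).den) → f (∑ k, m k • a k) = 0 := by
    intro f hf
    rw [map_sum]
    have h2 : ∀ k, f (m k • a k) = (M : ℚ) * (q k * f (a k)) := by
      intro k
      rw [map_zsmul, zsmul_eq_mul, hm k]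
      ring
    rw [Finset.sum_congr rfl fun k _ => h2 k, ← Finset.mul_sum, h0 f hf, mul_zero]
  obtain ⟨r, hr, hxr⟩ := hX _ hker
  have h4 : r • h (∑ k, m k • a k) = 0 := by
    rw [← map_nsmul, hxr, map_zero]
  have h5 : h (∑ k, m k • a k) = 0 := by
    rw [nsmul_eq_mul] at h4
    rcases mul_eq_zero.1 h4 with h | h
    · exact absurd (Nat.cast_eq_zero.1 h) hr
    · exact h
  rw [map_sum] at h5
  have h6 : ∀ k, h (m k • a k) = (M : L) * ((q k : L) * h (a k)) := by
    intro k
    have h7 : ((m k : ℚ) : L) = ((M * q k : ℚ) : L) := by rw [hm k]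
    push_cast at h7
    rw [map_zsmul, zsmul_eq_mul, h7]
    ring
  rw [Finset.sum_congr rfl fun k _ => h6 k, ← Finset.mul_sum] at h5
  rcases mul_eq_zero.1 h5 with h | h
  · exact absurd (Nat.cast_eq_zero.1 h) hM0
  · exact h

theorem sep_homA {p : ℕ} {X : Type v} [AddCommGroup X] (hX : PSepA p X) {L : Type} [Field L]
    [CharZero L] {K : Type*} [Fintype K] (w : K → L) (a : K → X)
    (h0 : ∀ lam : X →+ ℚ, (∀ y, ¬ p ∣ (lam y).den) → ∑ k, w k * ((lam (a k) : ℚ) : L) = 0)
    (h : X →+ L) : ∑ k, w k * h (a k) = 0 := by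
  classical
  let b := Module.Basis.ofVectorSpace ℚ L
  have hq : ∀ β, ∑ k, ((b.repr (w k) β : ℚ) : L) * h (a k) = 0 := by
    intro β
    refine linS_rat hX (fun k => b.repr (w k) β) a (fun lam hlam => ?_) h
    have h1 := congrArg (fun z => b.repr z β) (h0 lam hlam)
    simp only [map_zero, Finsupp.coe_zero, Pi.zero_apply] at h1
    rw [← h1, map_sum, Finsupp.finsetSum_apply]
    refine Finset.sum_congr rfl fun k _ => ?_
    have h2 : w k * ((lam (a k) : ℚ) : L) = (lam (a k) : ℚ) • w k := by
      rw [Algebra.smul_def, mul_comm]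
      rfl
    rw [h2, map_smul, Finsupp.smul_apply, smul_eq_mul, mul_comm]
  set s : Finset (Module.Basis.ofVectorSpaceIndex ℚ L) :=
    Finset.univ.biUnion (fun k : K => (b.repr (w k)).support) with hs
  have hw : ∀ k, w k = ∑ β ∈ s, ((b.repr (w k) β : ℚ) : L) * b β := by
    intro k
    conv_lhs => rw [← b.linearCombination_repr (w k), Finsupp.linearCombination_apply]
    rw [Finsupp.sum_of_support_subset (s := s)]
    · refine Finset.sum_congr rfl fun β _ => ?_
      rw [Algebra.smul_def]
      rfl
    · exact Finset.subset_biUnion_of_mem (fun k : K => (b.repr (w k)).support)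
        (Finset.mem_univ k)
    · intro β _
      exact zero_smul _ _
  calc ∑ k, w k * h (a k)
      = ∑ k, ∑ β ∈ s, b β * (((b.repr (w k) β : ℚ) : L) * h (a k)) := by
        refine Finset.sum_congr rfl fun k _ => ?_
        conv_lhs => rw [hw k]
        rw [Finset.sum_mul]
        refine Finset.sum_congr rfl fun β _ => ?_
        ring
    _ = ∑ β ∈ s, b β * ∑ k, (((b.repr (w k) β : ℚ) : L) * h (a k)) := by
        rw [Finset.sum_comm]
        refine Finset.sum_congr rfl fun β _ => ?_
        rw [Finset.mul_sum]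
    _ = 0 := by
        refine Finset.sum_eq_zero fun β _ => ?_
        rw [hq β, mul_zero]

/-- additive form of `class_zero` -/
theorem class_zeroA {X : Type v} [AddCommGroup X] {L : Type} [Field L] [CharZero L] {Γ : Type}
    [Group Γ] [Fintype Γ] (aL : Γ → L →+* L) (hmul : ∀ g g' x, aL (g * g') x = aL g (aL g' x))
    {P : Type} [Fintype P] (hh : P → (X →+ L))
    (hsum : ∀ y, ∑ m, hh m y = 0) {K J : Type*} [Fintype K] [Fintype J]
    (u : K → P → L) (b : K → X) (w : J → L) (a : J → X)
    (hrel : ∀ m : P, (∀ y, hh m y = 0) ∨ ∃ (p : ℕ) (T : Type) (_ : Fintype T) (_ : Nonempty T)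
      (σ : T → Γ), PSepA p X ∧ (∀ t y, aL (σ t) (hh m y) = hh m y) ∧
        ∀ lam : X →+ ℚ, (∀ y, ¬ p ∣ (lam y).den) →
          ∑ t, aL (σ t) (∑ k, u k m * ((lam (b k) : ℚ) : L)) =
          ∑ t, aL (σ t) (∑ j, w j * ((lam (a j) : ℚ) : L))) :
    ∑ g, aL g (∑ m, ∑ k, u k m * hh m (b k)) = 0 := by
  classical
  have hkey : ∀ m : P, ∑ g, aL g (∑ k, u k m * hh m (b k)) =
      ∑ g, aL g (∑ j, w j * hh m (a j)) := by
    intro m
    rcases hrel m with h1 | ⟨p, T, hT, hTn, σ, hp, hfix, hlam⟩
    · refine Finset.sum_congr rfl fun g _ => ?_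
      simp [h1]
    · have hshift : ∀ X' : L, (Fintype.card T : L) * ∑ g, aL g X' =
          ∑ g, aL g (∑ t, aL (σ t) X') := by
        intro X'
        have h3 : ∀ t : T, ∑ g, aL g X' = ∑ g, aL g (aL (σ t) X') := by
          intro t
          rw [← Equiv.sum_comp (Equiv.mulRight (σ t)) (fun g => aL g X')]
          refine Finset.sum_congr rfl fun g _ => ?_
          exact hmul g (σ t) X'
        calc (Fintype.card T : L) * ∑ g, aL g X' = ∑ t : T, ∑ g, aL g X' := by
              rw [Finset.sum_const, Finset.card_univ, nsmul_eq_mul]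
          _ = ∑ t : T, ∑ g, aL g (aL (σ t) X') := Finset.sum_congr rfl fun t _ => h3 t
          _ = ∑ g, aL g (∑ t, aL (σ t) X') := by
              rw [Finset.sum_comm]
              refine Finset.sum_congr rfl fun g _ => ?_
              rw [map_sum]
      have hsep := sep_homA hp (Sum.elim (fun k => ∑ t, aL (σ t) (u k m))
        (fun j => - ∑ t, aL (σ t) (w j))) (Sum.elim b a) (fun lam hl => by
          have h4 := hlam lam hl
          rw [Fintype.sum_sum_type]
          simp only [Sum.elim_inl, Sum.elim_inr]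
          have h5 : ∀ (Q : Type _) [Fintype Q] (c : Q → L) (z : Q → X),
              ∑ t, aL (σ t) (∑ k, c k * ((lam (z k) : ℚ) : L)) =
              ∑ k, (∑ t, aL (σ t) (c k)) * ((lam (z k) : ℚ) : L) := by
            intro Q _ c z
            simp only [map_sum, map_mul, map_ratCast]
            rw [Finset.sum_comm]
            refine Finset.sum_congr rfl fun k _ => ?_
            rw [Finset.sum_mul]
          have h6 : ∀ (Q : Type _) [Fintype Q] (c : Q → L) (z : Q → X),
              ∑ t, aL (σ t) (∑ k, c k * ((lam (z k) : ℚ) : L)) =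
              ∑ k, (∑ t, aL (σ t) (c k)) * ((lam (z k) : ℚ) : L) := by
            intro Q _ c z
            simp only [map_sum, map_mul, map_ratCast]
            rw [Finset.sum_comm]
            refine Finset.sum_congr rfl fun k _ => ?_
            rw [Finset.sum_mul]
          rw [h5 K (fun k => u k m) b, h6 J w a] at h4
          rw [h4]
          simp only [neg_mul, Finset.sum_neg_distrib]
          exact add_neg_cancel _) (hh m)
      have hXY : ∑ t, aL (σ t) (∑ k, u k m * hh m (b k)) =
          ∑ t, aL (σ t) (∑ j, w j * hh m (a j)) := by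
        rw [Fintype.sum_sum_type] at hsep
        simp only [Sum.elim_inl, Sum.elim_inr, neg_mul, Finset.sum_neg_distrib] at hsep
        have h7 := add_neg_eq_zero.1 hsep
        simp only [map_sum, map_mul, hfix]
        refine (Finset.sum_comm).trans (Eq.trans ?_ Finset.sum_comm)
        simp only [← Finset.sum_mul]
        exact h7
      have hc : (Fintype.card T : L) ≠ 0 := Nat.cast_ne_zero.2 Fintype.card_ne_zero
      apply mul_left_cancel₀ hc
      rw [hshift, hshift, hXY]
  have h8 : ∑ g, aL g (∑ m, ∑ k, u k m * hh m (b k)) =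
      ∑ m, ∑ g, aL g (∑ k, u k m * hh m (b k)) := by
    simp only [map_sum]
    exact Finset.sum_comm
  have h9 : ∑ m, ∑ g, aL g (∑ j, w j * hh m (a j)) =
      ∑ g, aL g (∑ j, w j * ∑ m, hh m (a j)) := by
    simp only [Finset.mul_sum, map_sum]
    refine (Finset.sum_comm).trans (Finset.sum_congr rfl fun g _ => ?_)
    exact Finset.sum_comm
  rw [h8, Finset.sum_congr rfl fun m _ => hkey m, h9]
  simp only [hsum, mul_zero, Finset.sum_const_zero, map_zero]

end Pool.Agent.H16.KN
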