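import Pool.Agent.H8.KZ.LocP
import Pool.Agent.H95.KM.LinAlg
import Pool.Agent.H71.DB.CocC
import Pool.Agent.H71.FQ.Defs
import Pool.Agent.H16.KN.LinSN

/-!
# Project KN, module LinDN: functionals on the symbols, definitions

`FunN` : rational functionals on the symbols `[D, Θ(n), z]`, `z ∈ H_{k+1}(Z_G(D); ℤ)`.
`cnj c x D h` : the homomorphism `Z_G(D) → Z_G(c)`, `z ↦ x⁻¹ z x`, for `x c x⁻¹ ∈ D`.
`trc k c D d` : the homomorphism `H_{k+1}(Z_G(D)) → H_{k+1}(Z_G(c))` induced by it for `x c x⁻¹ = d`, zero if `d` is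
not conjugate to `c`.
-/

set_option autoImplicit false

open NumberField

universe u v w

namespace Pool.Agent.H16.KN

open Pool.Agent.H95.KM
open Pool.Agent.H95.WH (conjHom)
open Pool.Agent.H8.KZ (galN gO)
open Pool.Agent.H71.DB (xc)
open Pool.Agent.H71.FQ (HG HG.map centConj)

section cnj

variable {G : Type v} [Group G]

theorem cnj_mem (c x : G) (D : Subgroup G) (h : x * c * x⁻¹ ∈ D)
    (z : Subgroup.centralizer (D : Set G)) :
    x⁻¹ * z * x ∈ Subgroup.centralizer ({c} : Set G) := by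
  rw [Subgroup.mem_centralizer_iff]
  intro a ha
  rw [Set.mem_singleton_iff] at ha
  subst ha
  have h1 := Subgroup.mem_centralizer_iff.1 z.2 _ h
  calc a * (x⁻¹ * z * x) = x⁻¹ * (x * a * x⁻¹ * z) * x := by group
    _ = x⁻¹ * (z * (x * a * x⁻¹)) * x := by rw [h1]
    _ = _ := by group

/-- The homomorphism `Z_G(D) → Z_G(c)`, `z ↦ x⁻¹ z x`, for `x c x⁻¹ ∈ D`. -/
def cnj (c x : G) (D : Subgroup G) (h : x * c * x⁻¹ ∈ D) :
    Subgroup.centralizer (D : Set G) →* Subgroup.centralizer ({c} : Set G) where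
  toFun z := ⟨x⁻¹ * z * x, cnj_mem c x D h z⟩
  map_one' := by
    apply Subtype.ext
    change x⁻¹ * 1 * x = 1
    group
  map_mul' a b := by
    apply Subtype.ext
    change x⁻¹ * (a * b : G) * x = x⁻¹ * a * x * (x⁻¹ * b * x)
    group

@[simp] theorem cnj_coe (c x : G) (D : Subgroup G) (h : x * c * x⁻¹ ∈ D)
    (z : Subgroup.centralizer (D : Set G)) : (cnj c x D h z : G) = x⁻¹ * z * x := rfl

/-- the induced map in homology depends on `x c x⁻¹` only -/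
theorem map_cnj_eq (k : ℕ) (c x y : G) (D : Subgroup G) (h : x * c * x⁻¹ ∈ D)
    (h' : y * c * y⁻¹ ∈ D) (hxy : x * c * x⁻¹ = y * c * y⁻¹)
    (z : HG (Subgroup.centralizer (D : Set G)) k) :
    HG.map k (cnj c x D h) z = HG.map k (cnj c y D h') z := by
  have h1 : x⁻¹ * y ∈ Subgroup.centralizer ({c} : Set G) := by
    rw [Subgroup.mem_centralizer_iff]
    intro a ha
    rw [Set.mem_singleton_iff] at ha
    subst ha
    calc a * (x⁻¹ * y) = x⁻¹ * (x * a * x⁻¹) * y := by group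
      _ = x⁻¹ * (y * a * y⁻¹) * y := by rw [hxy]
      _ = _ := by group
  refine Pool.Agent.H71.FQ.HG.map_conj (cnj c y D h') (cnj c x D h) ⟨x⁻¹ * y, h1⟩ ?_ z
  intro a
  apply Subtype.ext
  change x⁻¹ * (a : G) * x = x⁻¹ * y * (y⁻¹ * (a : G) * y) * (x⁻¹ * y)⁻¹
  group

theorem cnj_mem_of_isConj {c : G} {D : Subgroup G} (d : D) (h : IsConj c (d : G)) :
    xc c (d : G) * c * (xc c (d : G))⁻¹ ∈ D := by
  rw [Pool.Agent.H71.DB.xc_spec c h]
  exact d.2

open Classical in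
/-- The transport `H_{k+1}(Z_G(D)) → H_{k+1}(Z_G(c))` along `x c x⁻¹ = d`; zero if there is no such `x`. -/
noncomputable def trc (k : ℕ) (c : G) (D : Subgroup G) (d : D) :
    HG (Subgroup.centralizer (D : Set G)) k →+ HG (Subgroup.centralizer ({c} : Set G)) k :=
  if h : IsConj c (d : G) then HG.map k (cnj c (xc c (d : G)) D (cnj_mem_of_isConj d h)) else 0

theorem trc_of_not {k : ℕ} {c : G} {D : Subgroup G} {d : D} (h : ¬ IsConj c (d : G)) :
    trc k c D d = 0 := by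
  unfold trc
  rw [dif_neg h]

theorem trc_eq {k : ℕ} {c : G} {D : Subgroup G} {d : D} (x : G) (hx : x * c * x⁻¹ = d)
    (hm : x * c * x⁻¹ ∈ D) (z : HG (Subgroup.centralizer (D : Set G)) k) :
    trc k c D d z = HG.map k (cnj c x D hm) z := by
  have h : IsConj c (d : G) := isConj_iff.2 ⟨x, hx⟩
  unfold trc
  rw [dif_pos h]
  refine map_cnj_eq k c _ x D _ hm ?_ z
  rw [Pool.Agent.H71.DB.xc_spec c h, hx]

end cnj

/-- Rational functionals on the symbols `[D, Θ(n), z]` (averaged over the Galois group). -/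
structure FunN (L : Type) [Field L] [NumberField L] (N : ℕ) [NeZero N] (G : Type v) [Group G]
    (k : ℕ) (pr : Pr (𝓞 L) N → ℕ) where
  /-- the functional -/
  F : ∀ D : Good G N, ((D.1 →* (𝓞 L)ˣ) → Pr (𝓞 L) N → ℤ) →
    HG (Subgroup.centralizer (D.1 : Set G)) k → ℚ
  add : ∀ D n n' z, F D (n + n') z = F D n z + F D n' z
  addz : ∀ D n z z', F D n (z + z') = F D n z + F D n z'
  nat : ∀ (D D' : Good G N) (g : G) (h : ∀ x ∈ D.1, g * x * g⁻¹ ∈ D'.1)
    (n : (D.1 →* (𝓞 L)ˣ) → Pr (𝓞 L) N → ℤ) (z : HG (Subgroup.centralizer (D'.1 : Set G)) k),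
    F D' (fun χ m => n (χ.comp (conjHom g D.1 D'.1 h)) m) z =
      F D n (HG.map k (centConj g D.1 D'.1 h) z)
  const : ∀ (D : Good G N) (f : (D.1 →* (𝓞 L)ˣ) → ℤ) z, F D (fun χ _ => f χ) z = 0
  van : ∀ (D : Good G N) (n : (D.1 →* (𝓞 L)ˣ) → Pr (𝓞 L) N → ℤ) z,
    (∀ χ m, n χ m ≠ 0 → ¬ pr m ∣ Nat.card D.1) → F D n z = 0
  gal : ∀ (D : Good G N) (σ : L ≃ₐ[ℚ] L) (n : (D.1 →* (𝓞 L)ˣ) → Pr (𝓞 L) N → ℤ) z,
    F D (galN N (gO σ) n) z = F D n z

end Pool.Agent.H16.KN
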