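import Pool.Agent.H16.KN.EvA
import Pool.Agent.H16.KN.Cmp
import Pool.Agent.H16.KN.GZ
import Pool.Agent.H16.KN.LinDN
import Pool.Agent.H95.KM.DetOne

/-!
# Project KN: evaluation of the prism of a unit of `B[C][T;T⁻¹]`

`wq c φ C d` is the cochain of `Z_G(C)` given by the transport along `c ~ d` (`trc` of `KN/LinDN.lean`).

PROOFS.
`lc_wq`: `trc`, `HG.map_mk`, `HG.ev_mk`, `lc_push`.
`TT_unit`: the letters are `κ (y_j⁻¹ y_{j+1})` (`j ≤ n`), `V`, `V⁻¹ κ (y_{n+1}⁻¹ y_0)`.  Both sides are bilinear in
`(v, v')` if the letters `V`, `V⁻¹ κ` are replaced by the `1 × 1` matrices `gz v`, `gz v' * κ` (prove this general form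
by linearity, e.g. from the explicit formula `TM_eq` with a common support); for `v = T ^ k a`, `v' = T ^ l b` there
is one word, its product is `(a b, k + l)` (`C` commutes with `Z_G(C)`); it is conjugate to `(c, 1)` iff `k + l = 0` and
`a b ~ c`; for `d = a b ~ c` take `u = (cx π d)⁻¹`, `π u = 1`, `u d u⁻¹ = c` (`wv_eq`); the first `n + 2` vertices are
`u y_0⁻¹ y_j = (ζ_0⁻¹ ζ_j) u` with `ζ_j = u y_j u⁻¹ = cnj c (cx π d) C _ (y_j)`, so `π` of them is `ζ_0⁻¹ ζ_j`, and `φ` is
invariant; the difference of the degrees of the last two vertices is `k`.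
`TQ_unit`: `TQ_prism`, `TT_unit`, `lc_wq`.
`der_coeff_vL`: `der_vL` of `KM/DetOne.lean` for `-k`, `oneChi`.
-/

set_option autoImplicit false

open Matrix
open scoped LaurentPolynomial

universe u v w

namespace Pool.Agent.H16.KN

open Pool.Agent.H71.FQ
open Pool.Agent.H95.KM (lau der oneChi vL cst cst_apply der_vL)
open Pool.Agent.H71.FJ (K0 K0.mk IdemMat)
open Pool.Agent.H71.DB (xc xc_spec)

section tools

variable {G : Type u} [Group G] {B : Type v} [CommRing B] {K : ℕ}

private theorem ub_add_at {N : ℕ} {c : G} {φ : (Fin K → G) → B} (hφ : CI c φ) (j0 : Fin K)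
    (b b1 b2 : Fin K → Matrix (Fin N) (Fin N) (MonoidAlgebra B G))
    (h1 : ∀ j, j ≠ j0 → b j = b1 j) (h2 : ∀ j, j ≠ j0 → b j = b2 j) (h0 : b j0 = b1 j0 + b2 j0) :
    TM c φ b = TM c φ b1 + TM c φ b2 := by
  classical
  obtain ⟨S, hS⟩ := exists_supp b
  obtain ⟨S1, hS1⟩ := exists_supp b1
  obtain ⟨S2, hS2⟩ := exists_supp b2
  rw [TM_eq hφ b (S ∪ S1 ∪ S2) fun j x hx => Finset.mem_union_left _ (Finset.mem_union_left _ (hS j x hx)),
    TM_eq hφ b1 (S ∪ S1 ∪ S2) fun j x hx =>
      Finset.mem_union_left _ (Finset.mem_union_right _ (hS1 j x hx)),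
    TM_eq hφ b2 (S ∪ S1 ∪ S2) fun j x hx => Finset.mem_union_right _ (hS2 j x hx),
    ← Finset.sum_add_distrib]
  refine Finset.sum_congr rfl fun g _ => ?_
  rw [← add_mul, ← Matrix.trace_add]
  congr 2
  have e1 : (fun j => cof (b1 j) (g j : G)) =
      Function.update (fun j => cof (b j) (g j : G)) j0 (cof (b1 j0) (g j0 : G)) := by
    funext j
    by_cases hj : j = j0
    · subst hj
      rw [Function.update_self]
    · rw [Function.update_of_ne hj, h1 j hj]
  have e2 : (fun j => cof (b2 j) (g j : G)) =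
      Function.update (fun j => cof (b j) (g j : G)) j0 (cof (b2 j0) (g j0 : G)) := by
    funext j
    by_cases hj : j = j0
    · subst hj
      rw [Function.update_self]
    · rw [Function.update_of_ne hj, h2 j hj]
  have e0 : (fun j => cof (b j) (g j : G)) =
      Function.update (fun j => cof (b j) (g j : G)) j0
        (cof (b1 j0) (g j0 : G) + cof (b2 j0) (g j0 : G)) := by
    have : cof (b1 j0) (g j0 : G) + cof (b2 j0) (g j0 : G) = cof (b j0) (g j0 : G) := by
      rw [h0]
      ext i i'
      rfl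
    rw [this, Function.update_eq_self]
  have h := MultilinearMap.map_update_add
    (MultilinearMap.mkPiAlgebraFin ℕ K (Matrix (Fin N) (Fin N) B))
    (fun j => cof (b j) (g j : G)) j0 (cof (b1 j0) (g j0 : G)) (cof (b2 j0) (g j0 : G))
  simp only [MultilinearMap.mkPiAlgebraFin_apply] at h
  rw [← e0, ← e1, ← e2] at h
  exact h

private theorem ub_zero_at {N : ℕ} {c : G} {φ : (Fin K → G) → B} (hφ : CI c φ) (j0 : Fin K)
    (b : Fin K → Matrix (Fin N) (Fin N) (MonoidAlgebra B G)) (h0 : b j0 = 0) : TM c φ b = 0 := by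
  have h := ub_add_at hφ j0 b b b (fun _ _ => rfl) (fun _ _ => rfl) (by rw [h0, add_zero])
  rwa [left_eq_add] at h

/-- the `1 × 1` matrix -/
private def ub_m {A : Type*} (a : A) : Matrix (Fin 1) (Fin 1) A := fun _ _ => a

private theorem ub_trace {n : ℕ} (r : Fin n → B) :
    ((List.ofFn fun j => ub_m (r j)).prod).trace = (List.ofFn r).prod := by
  have h : ∀ n (r : Fin n → B), (List.ofFn fun j => ub_m (r j)).prod = ub_m (List.ofFn r).prod := by
    intro n
    induction n with
    | zero =>
      intro r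
      rw [List.ofFn_zero, List.ofFn_zero, List.prod_nil, List.prod_nil]
      ext i j
      rw [Subsingleton.elim i j, Matrix.one_apply_eq]
      rfl
    | succ n ih =>
      intro r
      rw [List.ofFn_succ, List.ofFn_succ, List.prod_cons, List.prod_cons, ih]
      ext i j
      rw [Matrix.mul_apply, Fin.sum_univ_one]
      rfl
  rw [h, Matrix.trace_fin_one]
  rfl

private theorem ub_mono {c : G} {φ : (Fin K → G) → B} (hφ : CI c φ) (h : Fin K → G) (r : Fin K → B) :
    TM c φ (fun j => ub_m (MonoidAlgebra.single (h j) (r j))) =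
      (List.ofFn r).prod * wv c φ h := by
  classical
  rw [TM_eq hφ _ (Finset.univ.image h)]
  · rw [Finset.sum_eq_single (fun j => (⟨h j, Finset.mem_image_of_mem h (Finset.mem_univ j)⟩ :
      (Finset.univ.image h : Finset G)))]
    · congr 1
      rw [← ub_trace]
      congr 3
      funext j
      ext i i'
      show (MonoidAlgebra.single (h j) (r j) : MonoidAlgebra B G).coeff (h j) = r j
      rw [MonoidAlgebra.coeff_single, Finsupp.single_eq_same]
    · intro g _ hg
      obtain ⟨j, hj⟩ := Function.ne_iff.1 hg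
      rw [List.prod_eq_zero, Matrix.trace_zero, zero_mul]
      rw [List.mem_ofFn]
      refine ⟨j, ?_⟩
      ext i i'
      show (MonoidAlgebra.single (h j) (r j) : MonoidAlgebra B G).coeff (g j : G) = 0
      rw [MonoidAlgebra.coeff_single, Finsupp.single_eq_of_ne]
      intro h'
      exact hj (Subtype.ext h')
    · intro hn
      exact absurd (Finset.mem_univ _) hn
  · intro j x hx
    have : x = h j := by
      by_contra hne
      apply hx
      ext i i'
      show (MonoidAlgebra.single (h j) (r j) : MonoidAlgebra B G).coeff x = 0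
      rw [MonoidAlgebra.coeff_single, Finsupp.single_eq_of_ne hne]
    rw [this]
    exact Finset.mem_image_of_mem h (Finset.mem_univ j)

private theorem ub_tel {Γ : Type*} [Group Γ] {m : ℕ} (y : Fin (m + 1) → Γ) :
    (List.ofFn fun i : Fin m => (y i.castSucc)⁻¹ * y i.succ).prod = (y 0)⁻¹ * y (Fin.last m) := by
  induction m with
  | zero =>
    rw [List.ofFn_zero, List.prod_nil]
    exact (inv_mul_cancel (y 0)).symm
  | succ m ih =>
    rw [List.ofFn_succ', List.concat_eq_append, List.prod_append, List.prod_singleton]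
    have h := ih fun i => y i.castSucc
    simp only [Fin.succ_castSucc]
    rw [h, Fin.succ_last]
    group
    rfl

private theorem ub_vtx_succ (u : G) (g : Fin K → G) (j t : Fin K)
    (h : (t : ℕ) = (j : ℕ) + 1) : vtx u g t = vtx u g j * g j := by
  unfold vtx
  rw [h, List.take_succ_eq_append_getElem (by rw [List.length_ofFn]; exact j.2), List.prod_append,
    List.prod_singleton, List.getElem_ofFn, mul_assoc]

private theorem ub_prod_last {M : Type*} [Monoid M] {m : ℕ} (g : Fin (m + 1) → M) :
    (List.ofFn g).prod = (List.ofFn fun j : Fin m => g j.castSucc).prod * g (Fin.last m) := by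
  rw [List.ofFn_succ', List.concat_eq_append, List.prod_append, List.prod_singleton]

end tools

section

variable {G : Type u} [Group G] {B : Type} [CommRing B] {n : ℕ} {c : G}
  {π : G → Subgroup.centralizer ({c} : Set G)}
  {φ : (Fin (n + 2) → Subgroup.centralizer ({c} : Set G)) → B}

/-- the conjugator with `π = 1` -/
noncomputable def cx (π : G → Subgroup.centralizer ({c} : Set G)) (d : G) : G :=
  (((π (xc c d)⁻¹)⁻¹ : Subgroup.centralizer ({c} : Set G)) * (xc c d)⁻¹ : G)⁻¹

theorem cx_spec (π : G → Subgroup.centralizer ({c} : Set G)) {d : G} (h : IsConj c d) :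
    cx π d * c * (cx π d)⁻¹ = d := by
  set ζ : Subgroup.centralizer ({c} : Set G) := (π (xc c d)⁻¹)⁻¹ with hζ
  have h1 : (ζ : G)⁻¹ * c * ζ = c := by
    have h2 := Subgroup.mem_centralizer_iff.1 ζ.2 c rfl
    rw [mul_assoc, h2, inv_mul_cancel_left]
  have h3 : cx π d = xc c d * (ζ : G)⁻¹ := by
    rw [cx, ← hζ, _root_.mul_inv_rev, inv_inv]
  rw [h3, _root_.mul_inv_rev, inv_inv]
  calc xc c d * (ζ : G)⁻¹ * c * (ζ * (xc c d)⁻¹) = xc c d * ((ζ : G)⁻¹ * c * ζ) * (xc c d)⁻¹ := by group
    _ = d := by rw [h1, xc_spec c h]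

theorem cx_mem (π : G → Subgroup.centralizer ({c} : Set G)) (C : Subgroup G) (d : C)
    (h : IsConj c (d : G)) : cx π (d : G) * c * (cx π (d : G))⁻¹ ∈ C := by
  rw [cx_spec π h]
  exact d.2

theorem pi_cx (hπ : ∀ (z : Subgroup.centralizer ({c} : Set G)) (g : G), π (z * g) = z * π g)
    (d : G) : π (cx π d)⁻¹ = 1 := by
  rw [cx, inv_inv, hπ, inv_mul_cancel]

open Classical in
/-- the transported cochain -/
noncomputable def wq (π : G → Subgroup.centralizer ({c} : Set G))
    (φ : (Fin (n + 2) → Subgroup.centralizer ({c} : Set G)) → B) (C : Subgroup G) (d : C)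
    (y : Fin (n + 2) → Subgroup.centralizer (C : Set G)) : B :=
  if h : IsConj c (d : G) then φ fun j => cnj c (cx π (d : G)) C (cx_mem π C d h) (y j) else 0

theorem lc_wq (hφ : IsCoc (Subgroup.centralizer ({c} : Set G)) n φ) (C : Subgroup G) (d : C)
    (z : cyc (Subgroup.centralizer (C : Set G)) n) :
    Finsupp.linearCombination ℤ (wq π φ C d) (z : Cx ℤ _ (n + 1)) =
      HG.ev hφ (trc n c C d (HG.mk z)) := by
  by_cases h : IsConj c (d : G)
  · rw [trc_eq (cx π (d : G)) (cx_spec π h) (cx_mem π C d h), HG.map_mk, HG.ev_mk, lc_push]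
    congr 2
    funext y
    rw [wq, dif_pos h]
  · rw [trc_of_not h, AddMonoidHom.zero_apply, map_zero]
    have h1 : wq π φ C d = fun _ => 0 := by
      funext y
      rw [wq, dif_neg h]
    rw [h1]
    induction (z : Cx ℤ (Subgroup.centralizer (C : Set G)) (n + 1)) using Finsupp.induction_linear with
    | zero => rw [map_zero]
    | add a b ha hb => rw [map_add, ha, hb, add_zero]
    | single x r => rw [Finsupp.linearCombination_single, smul_zero]

/-- the elements of the centralizer of `C` as `1 × 1` matrices -/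
noncomputable def kC (B : Type) [CommRing B] (C : Subgroup G) :
    Subgroup.centralizer (C : Set G) →* GLm 1 (MonoidAlgebra B (G × Multiplicative ℤ)) :=
  kp (gz B C.subtype) (gk B (Subgroup.centralizer (C : Set G)).subtype)
    (gz_comm B C.subtype (Subgroup.centralizer (C : Set G)).subtype (cent_comm C))

private def ub_l {α : Type*} (s : Fin (n + 1) → α) (a b : α) : Fin (n + 3) → α :=
  Fin.snoc (α := fun _ => α) (Fin.snoc (α := fun _ => α) s a) b

private theorem ub_l_cc {α : Type*} (s : Fin (n + 1) → α) (a b : α) (i : Fin (n + 1)) :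
    ub_l s a b i.castSucc.castSucc = s i := by
  rw [ub_l, Fin.snoc_castSucc, Fin.snoc_castSucc]

private theorem ub_l_lc {α : Type*} (s : Fin (n + 1) → α) (a b : α) :
    ub_l s a b (Fin.last (n + 1)).castSucc = a := by
  rw [ub_l, Fin.snoc_castSucc, Fin.snoc_last]

private theorem ub_l_l {α : Type*} (s : Fin (n + 1) → α) (a b : α) :
    ub_l s a b (Fin.last (n + 2)) = b := by
  rw [ub_l, Fin.snoc_last]

private theorem ub_l_ext {α : Type*} (f : Fin (n + 3) → α) (s : Fin (n + 1) → α) (a b : α)
    (h1 : ∀ i : Fin (n + 1), f i.castSucc.castSucc = s i) (h2 : f (Fin.last (n + 1)).castSucc = a)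
    (h3 : f (Fin.last (n + 2)) = b) : f = ub_l s a b := by
  funext j
  refine Fin.lastCases ?_ (fun j => ?_) j
  · rw [h3, ub_l_l]
  · refine Fin.lastCases ?_ (fun j => ?_) j
    · rw [h2, ub_l_lc]
    · rw [h1, ub_l_cc]

/-- the elements of the centralizer in `G × ℤ` -/
private def ub_i (C : Subgroup G) :
    Subgroup.centralizer (C : Set G) →* G × Multiplicative ℤ :=
  (MonoidHom.inl G (Multiplicative ℤ)).comp (Subgroup.centralizer (C : Set G)).subtype

private theorem ub_i_comm (C : Subgroup G) (z : Subgroup.centralizer (C : Set G)) (a : C)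
    (t : Multiplicative ℤ) : ub_i C z * ((a : G), t) = ((a : G), t) * ub_i C z :=
  Prod.ext (cent_comm C z a).symm (mul_comm _ _)

private theorem ub_kC (C : Subgroup G) (z : Subgroup.centralizer (C : Set G)) :
    (kC B C z).val = ub_m (MonoidAlgebra.single (ub_i C z) 1) := by
  ext i j
  unfold kC
  rw [kp_val, gk_val]
  rfl

/-- the word -/
private def ub_h (C : Subgroup G) (y : Fin (n + 2) → Subgroup.centralizer (C : Set G)) (a b : C)
    (k l : ℤ) : Fin (n + 3) → G × Multiplicative ℤ :=
  ub_l (fun i => (ub_i C (y i.castSucc))⁻¹ * ub_i C (y i.succ)) ((a : G), Multiplicative.ofAdd k)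
    (((b : G), Multiplicative.ofAdd l) * ((ub_i C (y (Fin.last (n + 1))))⁻¹ * ub_i C (y 0)))

private theorem ub_prod (C : Subgroup G) (y : Fin (n + 2) → Subgroup.centralizer (C : Set G))
    (a b : C) (k l : ℤ) :
    (List.ofFn (ub_h C y a b k l)).prod = (((a * b : C) : G), Multiplicative.ofAdd (k + l)) := by
  rw [ub_prod_last, ub_prod_last]
  simp only [ub_h, ub_l_cc, ub_l_lc, ub_l_l]
  rw [ub_tel fun j => ub_i C (y j)]
  have h1 := ub_i_comm C (y (Fin.last (n + 1))) a (Multiplicative.ofAdd k)
  have h2 := ub_i_comm C (y (Fin.last (n + 1))) b (Multiplicative.ofAdd l)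
  have h3 := ub_i_comm C (y 0) (a * b) (Multiplicative.ofAdd (k + l))
  have h4 : (((a * b : C) : G), Multiplicative.ofAdd (k + l)) =
      ((a : G), Multiplicative.ofAdd k) * ((b : G), Multiplicative.ofAdd l) := rfl
  rw [h4] at h3 ⊢
  generalize ub_i C (y (Fin.last (n + 1))) = z at h1 h2 ⊢
  generalize ub_i C (y 0) = w at h3 ⊢
  generalize ((a : G), Multiplicative.ofAdd k) = α at h1 h3 ⊢
  generalize ((b : G), Multiplicative.ofAdd l) = β at h2 h3 ⊢
  calc w⁻¹ * z * α * (β * (z⁻¹ * w)) = w⁻¹ * (z * α) * β * z⁻¹ * w := by group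
    _ = w⁻¹ * α * (z * β) * z⁻¹ * w := by rw [h1]; group
    _ = w⁻¹ * (α * β * w) := by rw [h2]; group
    _ = α * β := by rw [← h3]; group

private theorem ub_vtx (C : Subgroup G) (y : Fin (n + 2) → Subgroup.centralizer (C : Set G))
    (a b : C) (k l : ℤ) (u : G × Multiplicative ℤ) (j : Fin (n + 2)) :
    vtx u (ub_h C y a b k l) j.castSucc = u * ((ub_i C (y 0))⁻¹ * ub_i C (y j)) := by
  induction j using Fin.induction with
  | zero =>
    rw [inv_mul_cancel, mul_one]
    show u * ((List.ofFn (ub_h C y a b k l)).take 0).prod = u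
    rw [List.take_zero, List.prod_nil, mul_one]
  | succ i ih =>
    rw [ub_vtx_succ u (ub_h C y a b k l) i.castSucc.castSucc i.succ.castSucc rfl, ih]
    rw [ub_h, ub_l_cc]
    group

private theorem ub_wv (hπ : ∀ (z : Subgroup.centralizer ({c} : Set G)) (g : G), π (z * g) = z * π g)
    (hφ : IsCoc (Subgroup.centralizer ({c} : Set G)) n φ) (C : Subgroup G)
    (y : Fin (n + 2) → Subgroup.centralizer (C : Set G)) (a b : C) (k l : ℤ) :
    wv ((c, 1) : G × Multiplicative ℤ) (fL π φ) (ub_h C y a b k l) =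
      if k + l = 0 then (k : B) * wq π φ C (a * b) y else 0 := by
  by_cases hkl : k + l = 0
  · rw [if_pos hkl]
    by_cases hc : IsConj c ((a * b : C) : G)
    · have hx := cx_spec π hc
      have hm := cx_mem π C (a * b) hc
      have hw : wq π φ C (a * b) y = φ fun j => cnj c (cx π ((a * b : C) : G)) C hm (y j) :=
        dif_pos hc
      have hp := pi_cx hπ ((a * b : C) : G)
      rw [hw]
      generalize hX : cx π ((a * b : C) : G) = x at hx hm hp ⊢
      have hu : ((x⁻¹, 1) : G × Multiplicative ℤ) * (List.ofFn (ub_h C y a b k l)).prod *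
            ((x⁻¹, 1) : G × Multiplicative ℤ)⁻¹ = (c, 1) := by
        rw [ub_prod, hkl]
        refine Prod.ext ?_ ?_
        · show x⁻¹ * ((a * b : C) : G) * (x⁻¹)⁻¹ = c
          rw [← hx]
          group
        · show (1 : Multiplicative ℤ) * Multiplicative.ofAdd 0 * 1⁻¹ = 1
          rw [ofAdd_zero, inv_one, mul_one, mul_one]
      rw [wv_eq (CI_fL hπ hφ.1) _ _ hu]
      show (φ fun j : Fin (n + 2) => π (vtx ((x⁻¹, 1) : G × Multiplicative ℤ) (ub_h C y a b k l) j.castSucc).1) *
        ldg B (vtx ((x⁻¹, 1) : G × Multiplicative ℤ) (ub_h C y a b k l) (Fin.last (n + 1)).castSucc)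
          (vtx ((x⁻¹, 1) : G × Multiplicative ℤ) (ub_h C y a b k l) (Fin.last (n + 2))) = _
      have h1 : (fun j : Fin (n + 2) =>
          π (vtx ((x⁻¹, 1) : G × Multiplicative ℤ) (ub_h C y a b k l) j.castSucc).1) =
          fun j => (cnj c x C hm (y 0))⁻¹ * cnj c x C hm (y j) := by
        funext j
        rw [ub_vtx]
        have h2 : (((x⁻¹, 1) : G × Multiplicative ℤ) * ((ub_i C (y 0))⁻¹ * ub_i C (y j))).1 =
            (((cnj c x C hm (y 0))⁻¹ * cnj c x C hm (y j) : Subgroup.centralizer ({c} : Set G)) : G) *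
              x⁻¹ := by
          show x⁻¹ * ((y 0 : G)⁻¹ * (y j : G)) = (x⁻¹ * (y 0 : G) * x)⁻¹ * (x⁻¹ * (y j : G) * x) * x⁻¹
          group
        rw [h2, hπ, hp, mul_one]
      rw [h1, hφ.1, mul_comm]
      congr 1
      rw [ub_vtx_succ ((x⁻¹, 1) : G × Multiplicative ℤ) (ub_h C y a b k l)
        (Fin.last (n + 1)).castSucc (Fin.last (n + 2)) rfl]
      show ((dg _ - dg _ : ℤ) : B) = (k : B)
      have h3 : ub_h C y a b k l (Fin.last (n + 1)).castSucc = ((a : G), Multiplicative.ofAdd k) :=
        ub_l_lc _ _ _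
      rw [h3]
      congr 1
      generalize vtx ((x⁻¹, 1) : G × Multiplicative ℤ) (ub_h C y a b k l)
        (Fin.last (n + 1)).castSucc = z
      show dg z + k - dg z = k
      ring
    · have hw : wq π φ C (a * b) y = 0 := dif_neg hc
      rw [hw, mul_zero]
      refine wv_zero _ _ _ fun u hu => hc ?_
      rw [ub_prod] at hu
      have h2 := congrArg Prod.fst hu
      refine (isConj_iff.2 ⟨u.1, ?_⟩ : IsConj ((a * b : C) : G) c).symm
      exact h2
  · rw [if_neg hkl]
    refine wv_zero _ _ _ fun u hu => hkl ?_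
    rw [ub_prod] at hu
    have h2 : u.2 * Multiplicative.ofAdd (k + l) * u.2⁻¹ = 1 := congrArg Prod.snd hu
    rw [mul_comm u.2, mul_assoc, mul_inv_cancel, mul_one] at h2
    exact h2

private theorem ub_lts (C : Subgroup G) (y : Fin (n + 2) → Subgroup.centralizer (C : Set G))
    (V : GLm 1 (MonoidAlgebra B (G × Multiplicative ℤ)))
    (v v' : MonoidAlgebra B (G × Multiplicative ℤ))
    (hV : ∀ i j, V.val i j = v) (hV' : ∀ i j, (V⁻¹).val i j = v') :
    lts (Fin.snoc (α := fun _ => GLm 1 (MonoidAlgebra B (G × Multiplicative ℤ)))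
        (fun j => kC B C (y j)) (kC B C (y (Fin.last (n + 1))) * V)) =
      ub_l (fun i => ub_m (MonoidAlgebra.single
        ((ub_i C (y i.castSucc))⁻¹ * ub_i C (y i.succ)) (1 : B))) (ub_m v)
        (ub_m (v' * MonoidAlgebra.single ((ub_i C (y (Fin.last (n + 1))))⁻¹ * ub_i C (y 0)) (1 : B))) := by
  have hk : ∀ z z' : Subgroup.centralizer (C : Set G), ((kC B C z)⁻¹ * kC B C z').val =
      ub_m (MonoidAlgebra.single ((ub_i C z)⁻¹ * ub_i C z') (1 : B)) := by
    intro z z'
    rw [← map_inv, ← map_mul, ub_kC, map_mul, map_inv]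
  refine ub_l_ext _ _ _ _ ?_ ?_ ?_
  · intro i
    unfold lts
    have h1 : (i.castSucc.castSucc + 1 : Fin (n + 3)) = i.succ.castSucc := by
      apply Fin.ext
      rw [Fin.val_add_one, if_neg]
      · rfl
      · intro h
        have := congrArg Fin.val h
        have h2 := i.2
        rw [Fin.val_castSucc, Fin.val_castSucc, Fin.val_last] at this
        omega
    rw [h1, Fin.snoc_castSucc, Fin.snoc_castSucc, hk]
  · unfold lts
    have h1 : ((Fin.last (n + 1)).castSucc + 1 : Fin (n + 3)) = Fin.last (n + 2) := by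
      apply Fin.ext
      rw [Fin.val_add_one, if_neg]
      · rfl
      · intro h
        have := congrArg Fin.val h
        rw [Fin.val_castSucc, Fin.val_last, Fin.val_last] at this
        omega
    rw [h1, Fin.snoc_castSucc, Fin.snoc_last, inv_mul_cancel_left]
    funext i j
    exact hV i j
  · unfold lts
    have h1 : (Fin.last (n + 2) + 1 : Fin (n + 3)) = (0 : Fin (n + 2)).castSucc := by
      rw [Fin.last_add_one]
      rfl
    rw [h1, Fin.snoc_castSucc, Fin.snoc_last, _root_.mul_inv_rev, mul_assoc, Units.val_mul, hk]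
    funext i j
    rw [Matrix.mul_apply, Fin.sum_univ_one, hV']
    rfl

/-- the bilinear form -/
private noncomputable def ub_F (π : G → Subgroup.centralizer ({c} : Set G))
    (φ : (Fin (n + 2) → Subgroup.centralizer ({c} : Set G)) → B) (C : Subgroup G)
    (y : Fin (n + 2) → Subgroup.centralizer (C : Set G)) (v v' : (MonoidAlgebra B C)[T;T⁻¹]) : B :=
  TM ((c, 1) : G × Multiplicative ℤ) (fL π φ)
    (ub_l (fun i => ub_m (MonoidAlgebra.single
        ((ub_i C (y i.castSucc))⁻¹ * ub_i C (y i.succ)) (1 : B))) (ub_m (gz B C.subtype v))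
        (ub_m (gz B C.subtype v' *
          MonoidAlgebra.single ((ub_i C (y (Fin.last (n + 1))))⁻¹ * ub_i C (y 0)) (1 : B))))

private theorem ub_ne1 (i : Fin (n + 1)) : (i.castSucc.castSucc : Fin (n + 3)) ≠ (Fin.last (n + 1)).castSucc := by
  intro h
  have := congrArg Fin.val h
  have h2 := i.2
  rw [Fin.val_castSucc, Fin.val_castSucc, Fin.val_castSucc, Fin.val_last] at this
  omega

private theorem ub_cases {P : Fin (n + 3) → Prop} (h1 : ∀ i : Fin (n + 1), P i.castSucc.castSucc)
    (h2 : P (Fin.last (n + 1)).castSucc) (h3 : P (Fin.last (n + 2))) (j : Fin (n + 3)) : P j := by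
  refine Fin.lastCases h3 (fun j => ?_) j
  exact Fin.lastCases h2 h1 j

private theorem ub_F_add (hπ : ∀ (z : Subgroup.centralizer ({c} : Set G)) (g : G), π (z * g) = z * π g)
    (hφ : IsCoc (Subgroup.centralizer ({c} : Set G)) n φ) (C : Subgroup G)
    (y : Fin (n + 2) → Subgroup.centralizer (C : Set G)) (v w v' : (MonoidAlgebra B C)[T;T⁻¹]) :
    ub_F π φ C y (v + w) v' = ub_F π φ C y v v' + ub_F π φ C y w v' := by
  unfold ub_F
  refine ub_add_at (CI_fL hπ hφ.1) (Fin.last (n + 1)).castSucc _ _ _ ?_ ?_ ?_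
  · refine ub_cases ?_ ?_ ?_
    · intro i _
      rw [ub_l_cc, ub_l_cc]
    · intro h
      exact absurd rfl h
    · intro _
      rw [ub_l_l, ub_l_l]
  · refine ub_cases ?_ ?_ ?_
    · intro i _
      rw [ub_l_cc, ub_l_cc]
    · intro h
      exact absurd rfl h
    · intro _
      rw [ub_l_l, ub_l_l]
  · rw [ub_l_lc, ub_l_lc, ub_l_lc, map_add]
    rfl

private theorem ub_F_add' (hπ : ∀ (z : Subgroup.centralizer ({c} : Set G)) (g : G), π (z * g) = z * π g)
    (hφ : IsCoc (Subgroup.centralizer ({c} : Set G)) n φ) (C : Subgroup G)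
    (y : Fin (n + 2) → Subgroup.centralizer (C : Set G)) (v v' w' : (MonoidAlgebra B C)[T;T⁻¹]) :
    ub_F π φ C y v (v' + w') = ub_F π φ C y v v' + ub_F π φ C y v w' := by
  unfold ub_F
  refine ub_add_at (CI_fL hπ hφ.1) (Fin.last (n + 2)) _ _ _ ?_ ?_ ?_
  · refine ub_cases ?_ ?_ ?_
    · intro i _
      rw [ub_l_cc, ub_l_cc]
    · intro _
      rw [ub_l_lc, ub_l_lc]
    · intro h
      exact absurd rfl h
  · refine ub_cases ?_ ?_ ?_
    · intro i _
      rw [ub_l_cc, ub_l_cc]
    · intro _
      rw [ub_l_lc, ub_l_lc]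
    · intro h
      exact absurd rfl h
  · rw [ub_l_l, ub_l_l, ub_l_l, map_add, add_mul]
    rfl

private theorem ub_F_single (hπ : ∀ (z : Subgroup.centralizer ({c} : Set G)) (g : G), π (z * g) = z * π g)
    (hφ : IsCoc (Subgroup.centralizer ({c} : Set G)) n φ) (C : Subgroup G)
    (y : Fin (n + 2) → Subgroup.centralizer (C : Set G)) (k l : ℤ) (a b : C) (r s : B) :
    ub_F π φ C y (AddMonoidAlgebra.single k (MonoidAlgebra.single a r))
      (AddMonoidAlgebra.single l (MonoidAlgebra.single b s)) =
      if k + l = 0 then (k : B) * (r * s) * wq π φ C (a * b) y else 0 := by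
  unfold ub_F
  have h1 : ub_l (fun i : Fin (n + 1) => ub_m (MonoidAlgebra.single
        ((ub_i C (y i.castSucc))⁻¹ * ub_i C (y i.succ)) (1 : B)))
        (ub_m (gz B C.subtype (AddMonoidAlgebra.single k (MonoidAlgebra.single a r))))
        (ub_m (gz B C.subtype (AddMonoidAlgebra.single l (MonoidAlgebra.single b s)) *
          MonoidAlgebra.single ((ub_i C (y (Fin.last (n + 1))))⁻¹ * ub_i C (y 0)) (1 : B))) =
      fun j => ub_m (MonoidAlgebra.single (ub_h C y a b k l j) (ub_l (fun _ => (1 : B)) r s j)) := by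
    symm
    refine ub_l_ext _ _ _ _ ?_ ?_ ?_
    · intro i
      rw [ub_h, ub_l_cc, ub_l_cc]
    · rw [ub_h, ub_l_lc, ub_l_lc, gz_single]
      rfl
    · rw [ub_h, ub_l_l, ub_l_l, gz_single, MonoidAlgebra.single_mul_single, mul_one]
      rfl
  rw [h1, ub_mono (CI_fL hπ hφ.1), ub_wv hπ hφ, ub_prod_last, ub_prod_last]
  simp only [ub_l_cc, ub_l_lc, ub_l_l]
  rw [List.ofFn_const, List.prod_replicate, one_pow, one_mul]
  split_ifs
  · ring
  · rw [mul_zero]


private theorem ub_ind {C : Type*} [Group C] {P : (MonoidAlgebra B C)[T;T⁻¹] → Prop} (h0 : P 0)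
    (hadd : ∀ x y, P x → P y → P (x + y))
    (h1 : ∀ k a r, P (AddMonoidAlgebra.single k (MonoidAlgebra.single a r)))
    (x : (MonoidAlgebra B C)[T;T⁻¹]) : P x := by
  induction x using AddMonoidAlgebra.induction_linear with
  | zero => exact h0
  | add x y hx hy => exact hadd x y hx hy
  | single k x =>
    induction x using MonoidAlgebra.induction_linear with
    | zero =>
      rw [AddMonoidAlgebra.single_zero]
      exact h0
    | add x y hx hy =>
      rw [AddMonoidAlgebra.single_add]
      exact hadd _ _ hx hy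
    | single a r => exact h1 k a r

private theorem ub_F_eq (hπ : ∀ (z : Subgroup.centralizer ({c} : Set G)) (g : G), π (z * g) = z * π g)
    (hφ : IsCoc (Subgroup.centralizer ({c} : Set G)) n φ) (C : Subgroup G) [Fintype C]
    (y : Fin (n + 2) → Subgroup.centralizer (C : Set G)) (v v' : (MonoidAlgebra B C)[T;T⁻¹]) :
    ub_F π φ C y v v' = ∑ d : C, ((der _ v * v').coeff 0).coeff d * wq π φ C d y := by
  classical
  revert v'
  refine ub_ind (P := fun v => ∀ v', ub_F π φ C y v v' =
    ∑ d : C, ((der _ v * v').coeff 0).coeff d * wq π φ C d y) ?_ ?_ ?_ v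
  · intro v'
    have h := ub_F_add hπ hφ C y 0 0 v'
    rw [add_zero, left_eq_add] at h
    rw [h, map_zero (der (MonoidAlgebra B C)), zero_mul]
    symm
    refine Finset.sum_eq_zero fun d _ => ?_
    show (0 : B) * _ = 0
    rw [zero_mul]
  · intro v w hv hw v'
    rw [ub_F_add hπ hφ, hv, hw, ← Finset.sum_add_distrib]
    refine Finset.sum_congr rfl fun d _ => ?_
    rw [map_add, add_mul, AddMonoidAlgebra.coeff_add, Finsupp.add_apply, MonoidAlgebra.coeff_add,
      Finsupp.add_apply, add_mul]
  · intro k a r v'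
    refine ub_ind (P := fun v' => ub_F π φ C y (AddMonoidAlgebra.single k (MonoidAlgebra.single a r)) v' =
      ∑ d : C, ((der _ (AddMonoidAlgebra.single k (MonoidAlgebra.single a r)) * v').coeff 0).coeff d *
        wq π φ C d y) ?_ ?_ ?_ v'
    · have h := ub_F_add' hπ hφ C y (AddMonoidAlgebra.single k (MonoidAlgebra.single a r)) 0 0
      rw [add_zero, left_eq_add] at h
      rw [h, mul_zero]
      symm
      refine Finset.sum_eq_zero fun d _ => ?_
      show (0 : B) * _ = 0
      rw [zero_mul]
    · intro v w hv hw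
      rw [ub_F_add' hπ hφ, hv, hw, ← Finset.sum_add_distrib]
      refine Finset.sum_congr rfl fun d _ => ?_
      rw [mul_add, AddMonoidAlgebra.coeff_add, Finsupp.add_apply, MonoidAlgebra.coeff_add,
        Finsupp.add_apply, add_mul]
    · intro l b s
      rw [ub_F_single hπ hφ, Pool.Agent.H95.KM.der_single, AddMonoidAlgebra.single_mul_single, smul_mul_assoc,
        MonoidAlgebra.single_mul_single]
      simp only [AddMonoidAlgebra.coeff_single]
      by_cases hkl : k + l = 0
      · rw [if_pos hkl, hkl, Finsupp.single_eq_same, Finset.sum_eq_single (a * b)]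
        · rw [MonoidAlgebra.coeff_smul, Finsupp.smul_apply, MonoidAlgebra.coeff_single,
            Finsupp.single_eq_same, zsmul_eq_mul]
        · intro d _ hd
          rw [MonoidAlgebra.coeff_smul, Finsupp.smul_apply, MonoidAlgebra.coeff_single,
            Finsupp.single_eq_of_ne hd, smul_zero, zero_mul]
        · intro h
          exact absurd (Finset.mem_univ _) h
      · rw [if_neg hkl, Finsupp.single_eq_of_ne (Ne.symm hkl)]
        symm
        refine Finset.sum_eq_zero fun d _ => ?_
        show (0 : B) * _ = 0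
        rw [zero_mul]

theorem TT_unit (hπ : ∀ (z : Subgroup.centralizer ({c} : Set G)) (g : G), π (z * g) = z * π g)
    (hφ : IsCoc (Subgroup.centralizer ({c} : Set G)) n φ) (C : Subgroup G) [Fintype C]
    (v v' : (MonoidAlgebra B C)[T;T⁻¹])
    (V : GLm 1 (MonoidAlgebra B (G × Multiplicative ℤ)))
    (hV : ∀ i j, V.val i j = gz B C.subtype v) (hV' : ∀ i j, (V⁻¹).val i j = gz B C.subtype v')
    (y : Fin (n + 2) → Subgroup.centralizer (C : Set G)) :
    TT ((c, 1) : G × Multiplicative ℤ) (fL π φ)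
      (Fin.snoc (α := fun _ => GLm 1 (MonoidAlgebra B (G × Multiplicative ℤ)))
        (fun j => kC B C (y j)) (kC B C (y (Fin.last (n + 1))) * V)) =
      ∑ d : C, ((der _ v * v').coeff 0).coeff d * wq π φ C d y := by
  unfold TT
  rw [ub_lts C y V _ _ hV hV']
  exact ub_F_eq hπ hφ C y v v'


theorem TQ_unit (hπ : ∀ (z : Subgroup.centralizer ({c} : Set G)) (g : G), π (z * g) = z * π g)
    (hφ : IsCoc (Subgroup.centralizer ({c} : Set G)) n φ) (C : Subgroup G) [Fintype C]
    (v v' : (MonoidAlgebra B C)[T;T⁻¹])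
    (V : GLm 1 (MonoidAlgebra B (G × Multiplicative ℤ)))
    (hV : ∀ i j, V.val i j = gz B C.subtype v) (hV' : ∀ i j, (V⁻¹).val i j = gz B C.subtype v')
    (z : cyc (Subgroup.centralizer (C : Set G)) n) :
    TQ ((c, 1) : G × Multiplicative ℤ) (fL π φ)
      (ch 1 (prism (fun y => kC B C y) (fun y => kC B C y * V) (n + 1)
        (z : Cx ℤ (Subgroup.centralizer (C : Set G)) (n + 1)))) =
      (-1 : ℤ) ^ (n + 1) • ∑ d : C, ((der _ v * v').coeff 0).coeff d *
        HG.ev hφ (trc n c C d (HG.mk z)) := by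
  classical
  have hVk : ∀ w : Subgroup.centralizer (C : Set G), V * kC B C w = kC B C w * V := by
    intro w
    apply Units.ext
    rw [Units.val_mul, Units.val_mul]
    funext i j
    rw [Matrix.mul_apply, Matrix.mul_apply, Fin.sum_univ_one, Fin.sum_univ_one, hV, hV]
    unfold kC
    rw [kp_val, kp_val]
    exact gz_comm B C.subtype (Subgroup.centralizer (C : Set G)).subtype (cent_comm C) w v
  have hb : ∀ (x y : Subgroup.centralizer (C : Set G)) (g : G × Multiplicative ℤ),
      cof ((kC B C x * V)⁻¹ * (kC B C y * V)).val g ≠ 0 → dg g = 0 := by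
    intro x y g hg
    have h1 : (kC B C x * V)⁻¹ * (kC B C y * V) = kC B C (x⁻¹ * y) := by
      rw [← hVk x, ← hVk y, _root_.mul_inv_rev, mul_assoc, inv_mul_cancel_left, map_mul, map_inv]
    rw [h1, ub_kC] at hg
    have h2 : g = ub_i C (x⁻¹ * y) := by
      by_contra hne
      apply hg
      ext i j
      show (MonoidAlgebra.single (ub_i C (x⁻¹ * y)) (1 : B) :
        MonoidAlgebra B (G × Multiplicative ℤ)).coeff g = 0
      rw [MonoidAlgebra.coeff_single, Finsupp.single_eq_of_ne hne]
    rw [h2]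
    rfl
  rw [TQ_prism hπ hφ (fun y => kC B C y) (fun y => kC B C y * V) hb]
  congr 1
  have h2 : (fun x : Fin (n + 2) → Subgroup.centralizer (C : Set G) =>
      TT ((c, 1) : G × Multiplicative ℤ) (fL π φ)
        (Fin.snoc (α := fun _ => GLm 1 (MonoidAlgebra B (G × Multiplicative ℤ)))
          (fun j => kC B C (x j)) (kC B C (x (Fin.last (n + 1))) * V))) =
      fun x => ∑ d : C, ((der _ v * v').coeff 0).coeff d * wq π φ C d x := by
    funext x
    exact TT_unit hπ hφ C v v' V hV hV' x
  rw [h2, Finsupp.linearCombination_apply, Finsupp.sum]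
  simp only [Finset.smul_sum]
  rw [Finset.sum_comm]
  refine Finset.sum_congr rfl fun d _ => ?_
  rw [← lc_wq hφ C d z, Finsupp.linearCombination_apply, Finsupp.sum, Finset.mul_sum]
  refine Finset.sum_congr rfl fun x _ => ?_
  rw [mul_smul_comm]


end

section

variable {O : Type} [CommRing O] [IsDomain O] (N : ℕ) [NeZero N] [HasEnoughRootsOfUnity O N]
  {L : Type} [Field L] [CharZero L] (fL : O →+* L) {C : Type v} [Group C] [Fintype C]
  [Fintype (C →* Oˣ)] (hC : ∀ a b : C, a * b = b * a) (hN : Nat.card C ∣ N)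

include hC hN in
theorem der_coeff_vL (k : (C →* Oˣ) → ℤ) (d : C) :
    ((der _ (vL fL k) * vL fL (-k)).coeff 0).coeff d =
      ∑ χ : C →* Oˣ, (k χ : L) * ((Fintype.card C : L)⁻¹ * fL (((χ d)⁻¹ : Oˣ) : O)) := by
  classical
  have h := der_vL (N := N) fL hC hN (-k)
  rw [neg_neg] at h
  rw [h, cst_apply]
  simp only [Pi.neg_apply, neg_smul, Finset.sum_neg_distrib, neg_neg]
  rw [AddMonoidAlgebra.coeff_single, Finsupp.single_eq_same]
  have h2 : ∀ s : Finset (C →* Oˣ), (∑ χ ∈ s, k χ • oneChi fL χ).coeff d =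
      ∑ χ ∈ s, (k χ : L) * ((Fintype.card C : L)⁻¹ * fL (((χ d)⁻¹ : Oˣ) : O)) := by
    intro s
    induction s using Finset.induction_on with
    | empty => simp
    | insert a s ha ih =>
      rw [Finset.sum_insert ha, Finset.sum_insert ha, MonoidAlgebra.coeff_add, Finsupp.add_apply, ih]
      congr 1
      have h3 : (oneChi fL a).coeff d = (Fintype.card C : L)⁻¹ * fL (((a d)⁻¹ : Oˣ) : O) := by
        rw [oneChi]
        have h4 : ∀ t : Finset C, (∑ e ∈ t, (MonoidAlgebra.single e
            ((Fintype.card C : L)⁻¹ * fL (((a e)⁻¹ : Oˣ) : O)) : MonoidAlgebra L C)).coeff d =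
            if d ∈ t then (Fintype.card C : L)⁻¹ * fL (((a d)⁻¹ : Oˣ) : O) else 0 := by
          intro t
          induction t using Finset.induction_on with
          | empty => simp
          | insert e t he iht =>
            rw [Finset.sum_insert he, MonoidAlgebra.coeff_add, Finsupp.add_apply, iht,
              MonoidAlgebra.coeff_single, Finsupp.single_apply]
            by_cases hde : e = d
            · subst hde
              rw [if_pos rfl, if_neg he, if_pos (Finset.mem_insert_self _ _), add_zero]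
            · rw [if_neg hde, zero_add]
              by_cases hdt : d ∈ t
              · rw [if_pos hdt, if_pos (Finset.mem_insert_of_mem hdt)]
              · rw [if_neg hdt, if_neg]
                intro h5
                rcases Finset.mem_insert.1 h5 with h6 | h6
                · exact hde h6.symm
                · exact hdt h6
        rw [h4, if_pos (Finset.mem_univ d)]
      rw [← h3, MonoidAlgebra.coeff_smul, Finsupp.smul_apply, zsmul_eq_mul]
  exact h2 _

end

end Pool.Agent.H16.KN
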