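import Pool.Agent.H71.FQ.KQ

/-!
# Project KN: chains of tuples of invertible matrices modulo block sums

`QC A k` : integral combinations of tuples `(N; x_0, …, x_k)` of matrices in `GL_N(A)`, modulo
`(g x_0, …, g x_k) = (x_0, …, x_k)` and `(blk x y) = (x) + (y)`; `qbd` is the boundary.  `ofKQ` maps `KQ A n` to the
homology of degree `n + 1` of this complex.

PROOFS.  `qbd`: lift of `∑ (-1)^i • t (x without x_i)`; `blk` of the faces is the face of `blk`.
`ofKQ`: `KQ.lift (fun N => ..)`; on `HG (GLm N A) n` the class of a cycle `z` goes to the class of `ch N (n+1) z`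
(`ch` sends `coi` to `0` and commutes with the boundaries); the block relation holds for every single tuple.
-/

set_option autoImplicit false

open Matrix

universe u v w

namespace Pool.Agent.H16.KN

open Pool.Agent.H71.FQ

section

variable (A : Type u) [Ring A] (k : ℕ)

/-- the tuples of `k + 1` invertible matrices of the same size -/
abbrev Gen : Type u := Σ N : ℕ, (Fin (k + 1) → GLm N A)

/-- the relations -/
noncomputable def qrel : AddSubgroup (Gen A k →₀ ℤ) :=
  AddSubgroup.closure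
    ({c | ∃ (N : ℕ) (g : GLm N A) (x : Fin (k + 1) → GLm N A),
      c = Finsupp.single (⟨N, fun j => g * x j⟩ : Gen A k) 1 - Finsupp.single (⟨N, x⟩ : Gen A k) 1} ∪
    {c | ∃ (N M : ℕ) (x : Fin (k + 1) → GLm N A) (y : Fin (k + 1) → GLm M A),
      c = Finsupp.single (⟨N + M, fun j => blk N M A (x j, y j)⟩ : Gen A k) 1 -
        (Finsupp.single (⟨N, x⟩ : Gen A k) 1 + Finsupp.single (⟨M, y⟩ : Gen A k) 1)})

/-- The chains with `k + 1` vertices. -/
def QC : Type u := (Gen A k →₀ ℤ) ⧸ qrel A k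

noncomputable instance instQC : AddCommGroup (QC A k) :=
  QuotientAddGroup.Quotient.addCommGroup (qrel A k)

variable {A k}

/-- the class of a tuple -/
noncomputable def QC.t (N : ℕ) (x : Fin (k + 1) → GLm N A) : QC A k :=
  QuotientAddGroup.mk' (qrel A k) (Finsupp.single (⟨N, x⟩ : Gen A k) 1)

theorem QC.t_inv (N : ℕ) (g : GLm N A) (x : Fin (k + 1) → GLm N A) :
    QC.t N (fun j => g * x j) = QC.t N x := by
  rw [← sub_eq_zero]
  show QuotientAddGroup.mk' (qrel A k) _ - QuotientAddGroup.mk' (qrel A k) _ = 0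
  rw [← map_sub, QuotientAddGroup.mk'_apply, QuotientAddGroup.eq_zero_iff]
  exact AddSubgroup.subset_closure (Or.inl ⟨N, g, x, rfl⟩)

theorem QC.t_blk (N M : ℕ) (x : Fin (k + 1) → GLm N A) (y : Fin (k + 1) → GLm M A) :
    QC.t (N + M) (fun j => blk N M A (x j, y j)) = QC.t N x + QC.t M y := by
  rw [← sub_eq_zero]
  show QuotientAddGroup.mk' (qrel A k) _ -
    (QuotientAddGroup.mk' (qrel A k) _ + QuotientAddGroup.mk' (qrel A k) _) = 0
  rw [← map_add, ← map_sub, QuotientAddGroup.mk'_apply, QuotientAddGroup.eq_zero_iff]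
  exact AddSubgroup.subset_closure (Or.inr ⟨N, M, x, y, rfl⟩)

private theorem qc_zsmul {P : QC A k → Prop} (h0 : P 0) (ha : ∀ a b, P a → P b → P (a + b))
    (hn : ∀ a, P a → P (-a)) {a : QC A k} (h : P a) (r : ℤ) : P (r • a) := by
  induction r using Int.induction_on with
  | zero => rwa [zero_smul]
  | succ i ih =>
    rw [add_smul, one_smul]
    exact ha _ _ ih h
  | pred i ih =>
    rw [sub_smul, one_smul, sub_eq_add_neg]
    exact ha _ _ ih (hn _ h)

private theorem qc_single (s : Gen A k) (r : ℤ) :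
    (QuotientAddGroup.mk' (qrel A k) (Finsupp.single s r) : QC A k) = r • QC.t s.1 s.2 := by
  have h : Finsupp.single s r = r • (Finsupp.single s 1 : Gen A k →₀ ℤ) := by
    rw [Finsupp.smul_single, smul_eq_mul, mul_one]
  rw [h]
  exact map_zsmul (QuotientAddGroup.mk' (qrel A k)) r (Finsupp.single s 1)

theorem QC.induction {P : QC A k → Prop} (h0 : P 0) (ht : ∀ N x, P (QC.t N x))
    (ha : ∀ a b, P a → P b → P (a + b)) (hn : ∀ a, P a → P (-a)) (w : QC A k) : P w := by
  obtain ⟨c, rfl⟩ := QuotientAddGroup.mk'_surjective (qrel A k) w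
  induction c using Finsupp.induction_linear with
  | zero =>
    rw [map_zero]
    exact h0
  | add a b iha ihb =>
    rw [map_add]
    exact ha _ _ iha ihb
  | single s r =>
    rw [qc_single]
    exact qc_zsmul h0 ha hn (ht s.1 s.2) r

theorem QC.hom_ext {M : Type*} [AddCommGroup M] {f g : QC A k →+ M}
    (h : ∀ N x, f (QC.t N x) = g (QC.t N x)) : f = g :=
  AddMonoidHom.ext fun w => QC.induction (P := fun w => f w = g w) (by rw [map_zero, map_zero]) h
    (fun a b ha hb => by rw [map_add, map_add, ha, hb]) (fun a ha => by rw [map_neg, map_neg, ha]) w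

private theorem qc_lift_single {M : Type*} [AddCommGroup M] (F : ∀ N, (Fin (k + 1) → GLm N A) → M)
    (s : Gen A k) : (Finsupp.liftAddHom fun s : Gen A k => (zmultiplesHom M) (F s.1 s.2))
      (Finsupp.single s 1) = F s.1 s.2 := by
  rw [Finsupp.liftAddHom_apply_single, zmultiplesHom_apply, one_zsmul]

private theorem qc_rel {M : Type*} [AddCommGroup M] (F : ∀ N, (Fin (k + 1) → GLm N A) → M)
    (hinv : ∀ N (g : GLm N A) x, F N (fun j => g * x j) = F N x)
    (hblk : ∀ N M' (x : Fin (k + 1) → GLm N A) (y : Fin (k + 1) → GLm M' A),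
      F (N + M') (fun j => blk N M' A (x j, y j)) = F N x + F M' y) :
    qrel A k ≤ (Finsupp.liftAddHom fun s : Gen A k => (zmultiplesHom M) (F s.1 s.2)).ker := by
  rw [qrel, AddSubgroup.closure_le]
  rintro _ (⟨N, g, x, rfl⟩ | ⟨N, M', x, y, rfl⟩)
  · show (Finsupp.liftAddHom fun s : Gen A k => (zmultiplesHom M) (F s.1 s.2)) _ = 0
    rw [map_sub, qc_lift_single, qc_lift_single, sub_eq_zero]
    exact hinv N g x
  · show (Finsupp.liftAddHom fun s : Gen A k => (zmultiplesHom M) (F s.1 s.2)) _ = 0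
    rw [map_sub, map_add, qc_lift_single, qc_lift_single, qc_lift_single, sub_eq_zero]
    exact hblk N M' x y

/-- homomorphisms out of `QC A k` -/
noncomputable def QC.lift {M : Type*} [AddCommGroup M] (F : ∀ N, (Fin (k + 1) → GLm N A) → M)
    (hinv : ∀ N (g : GLm N A) x, F N (fun j => g * x j) = F N x)
    (hblk : ∀ N M' (x : Fin (k + 1) → GLm N A) (y : Fin (k + 1) → GLm M' A),
      F (N + M') (fun j => blk N M' A (x j, y j)) = F N x + F M' y) : QC A k →+ M :=
  QuotientAddGroup.lift (qrel A k)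
    (Finsupp.liftAddHom fun s : Gen A k => (zmultiplesHom M) (F s.1 s.2)) (qc_rel F hinv hblk)

theorem QC.lift_t {M : Type*} [AddCommGroup M] (F : ∀ N, (Fin (k + 1) → GLm N A) → M)
    (hinv : ∀ N (g : GLm N A) x, F N (fun j => g * x j) = F N x)
    (hblk : ∀ N M' (x : Fin (k + 1) → GLm N A) (y : Fin (k + 1) → GLm M' A),
      F (N + M') (fun j => blk N M' A (x j, y j)) = F N x + F M' y) (N : ℕ)
    (x : Fin (k + 1) → GLm N A) : QC.lift F hinv hblk (QC.t N x) = F N x :=
  qc_lift_single F ⟨N, x⟩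

private theorem qc_bd_inv (N : ℕ) (g : GLm N A) (x : Fin (k + 2) → GLm N A) :
    (∑ i : Fin (k + 2), (-1 : ℤ) ^ (i : ℕ) • QC.t N fun j => (fun j => g * x j) (i.succAbove j)) =
      ∑ i : Fin (k + 2), (-1 : ℤ) ^ (i : ℕ) • QC.t N fun j => x (i.succAbove j) := by
  refine Finset.sum_congr rfl fun i _ => ?_
  exact congrArg _ (QC.t_inv N g fun j => x (i.succAbove j))

private theorem qc_bd_blk (N M' : ℕ) (x : Fin (k + 2) → GLm N A) (y : Fin (k + 2) → GLm M' A) :
    (∑ i : Fin (k + 2), (-1 : ℤ) ^ (i : ℕ) •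
      QC.t (N + M') fun j => (fun j => blk N M' A (x j, y j)) (i.succAbove j)) =
      (∑ i : Fin (k + 2), (-1 : ℤ) ^ (i : ℕ) • QC.t N fun j => x (i.succAbove j)) +
        ∑ i : Fin (k + 2), (-1 : ℤ) ^ (i : ℕ) • QC.t M' fun j => y (i.succAbove j) := by
  rw [← Finset.sum_add_distrib]
  refine Finset.sum_congr rfl fun i _ => ?_
  rw [← smul_add]
  exact congrArg _ (QC.t_blk N M' (fun j => x (i.succAbove j)) fun j => y (i.succAbove j))

/-- **The boundary.** -/
noncomputable def qbd : QC A (k + 1) →+ QC A k :=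
  QC.lift (fun N x => ∑ i : Fin (k + 2), (-1 : ℤ) ^ (i : ℕ) • QC.t N fun j => x (i.succAbove j))
    qc_bd_inv qc_bd_blk

theorem qbd_t (N : ℕ) (x : Fin (k + 2) → GLm N A) : qbd (QC.t N x) =
    ∑ i : Fin (k + 2), (-1 : ℤ) ^ (i : ℕ) • QC.t N fun j => x (i.succAbove j) :=
  QC.lift_t _ _ _ N x

private theorem qc_map_inv {A' : Type v} [Ring A'] (f : A →+* A') (N : ℕ) (g : GLm N A)
    (x : Fin (k + 1) → GLm N A) : (QC.t N fun j => mapGL f N ((fun j => g * x j) j)) =
      QC.t N fun j => mapGL f N (x j) := by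
  have h : (fun j => mapGL f N ((fun j => g * x j) j)) =
      fun j => mapGL f N g * (fun j => mapGL f N (x j)) j := by
    funext j
    exact map_mul (mapGL f N) g (x j)
  rw [h, QC.t_inv]

private theorem qc_map_blk {A' : Type v} [Ring A'] (f : A →+* A') (N M' : ℕ)
    (x : Fin (k + 1) → GLm N A) (y : Fin (k + 1) → GLm M' A) :
    (QC.t (N + M') fun j => mapGL f (N + M') ((fun j => blk N M' A (x j, y j)) j)) =
      (QC.t N fun j => mapGL f N (x j)) + QC.t M' fun j => mapGL f M' (y j) := by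
  have h : (fun j => mapGL f (N + M') ((fun j => blk N M' A (x j, y j)) j)) =
      fun j => blk N M' A' ((fun j => mapGL f N (x j)) j, (fun j => mapGL f M' (y j)) j) := by
    funext j
    exact DFunLike.congr_fun (mapGL_comp_blk f N M') (x j, y j)
  rw [h, QC.t_blk]

/-- functoriality -/
noncomputable def QC.map {A' : Type v} [Ring A'] (f : A →+* A') : QC A k →+ QC A' k :=
  QC.lift (fun N x => QC.t N fun j => mapGL f N (x j)) (qc_map_inv f) (qc_map_blk f)

theorem QC.map_t {A' : Type v} [Ring A'] (f : A →+* A') (N : ℕ) (x : Fin (k + 1) → GLm N A) :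
    QC.map f (QC.t N x) = QC.t N fun j => mapGL f N (x j) :=
  QC.lift_t _ _ _ N x

theorem QC.map_map {A' : Type v} [Ring A'] {A'' : Type w} [Ring A''] (f : A →+* A') (g : A' →+* A'')
    (w : QC A k) : QC.map g (QC.map f w) = QC.map (g.comp f) w := by
  have h : (QC.map g).comp (QC.map f) = (QC.map (g.comp f) : QC A k →+ QC A'' k) := by
    refine QC.hom_ext fun N x => ?_
    rw [AddMonoidHom.comp_apply, QC.map_t, QC.map_t, QC.map_t]
    rfl
  exact DFunLike.congr_fun h w

theorem QC.map_bd {A' : Type v} [Ring A'] (f : A →+* A') (w : QC A (k + 1)) :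
    QC.map f (qbd w) = qbd (QC.map f w) := by
  have h : (QC.map f).comp (qbd : QC A (k + 1) →+ QC A k) = qbd.comp (QC.map f) := by
    refine QC.hom_ext fun N x => ?_
    rw [AddMonoidHom.comp_apply, AddMonoidHom.comp_apply, QC.map_t, qbd_t, qbd_t, map_sum]
    refine Finset.sum_congr rfl fun i _ => ?_
    rw [map_zsmul, QC.map_t]
  exact DFunLike.congr_fun h w

/-- chains of `GL_N(A)` -/
noncomputable def ch (N : ℕ) : Cx ℤ (GLm N A) k →+ QC A k :=
  (Finsupp.linearCombination ℤ fun x : Fin (k + 1) → GLm N A => QC.t N x).toAddMonoidHom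

theorem ch_single (N : ℕ) (x : Fin (k + 1) → GLm N A) :
    ch N (Finsupp.single x 1) = QC.t N x := by
  show Finsupp.linearCombination ℤ (fun x : Fin (k + 1) → GLm N A => QC.t N x)
    (Finsupp.single x 1) = QC.t N x
  rw [Finsupp.linearCombination_single, one_smul]

theorem ch_coi (N : ℕ) {c : Cx ℤ (GLm N A) k} (hc : c ∈ coi (GLm N A) k) : ch N c = 0 :=
  inv_coi (φ := fun x : Fin (k + 1) → GLm N A => QC.t N x) (QC.t_inv N) hc

/-- homomorphisms on chains which agree on the tuples agree -/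
private theorem qc_ext {X : Type*} {M : Type*} [AddCommGroup M] {m : ℕ} {f g : Cx ℤ X m →+ M}
    (h : ∀ x, f (Finsupp.single x 1) = g (Finsupp.single x 1)) (c : Cx ℤ X m) : f c = g c :=
  cx_ext (f := f.toIntLinearMap) (g := g.toIntLinearMap) h c

theorem ch_bd (N : ℕ) (c : Cx ℤ (GLm N A) (k + 1)) :
    qbd (ch N c) = ch N (bd ℤ (GLm N A) k c) := by
  refine qc_ext (f := qbd.comp (ch N)) (g := (ch N).comp (bd ℤ (GLm N A) k).toAddMonoidHom) ?_ c
  intro x
  show qbd (ch N (Finsupp.single x 1)) = ch N (bd ℤ (GLm N A) k (Finsupp.single x 1))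
  rw [ch_single, qbd_t, bd_single, map_sum]
  refine Finset.sum_congr rfl fun i _ => ?_
  rw [map_zsmul, ch_single]

theorem map_ch {A' : Type v} [Ring A'] (f : A →+* A') (N : ℕ) (c : Cx ℤ (GLm N A) k) :
    QC.map f (ch N c) = ch N (push ℤ (mapGL f N) k c) := by
  refine qc_ext (f := (QC.map f).comp (ch N))
    (g := (ch N).comp (push ℤ (mapGL f N) k).toAddMonoidHom) ?_ c
  intro x
  show QC.map f (ch N (Finsupp.single x 1)) = ch N (push ℤ (mapGL f N) k (Finsupp.single x 1))
  rw [ch_single, QC.map_t, push_single, ch_single]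

/-- a functional on `ch` -/
theorem lift_ch {M : Type*} [AddCommGroup M] (F : ∀ N, (Fin (k + 1) → GLm N A) → M)
    (hinv : ∀ N (g : GLm N A) x, F N (fun j => g * x j) = F N x)
    (hblk : ∀ N M' (x : Fin (k + 1) → GLm N A) (y : Fin (k + 1) → GLm M' A),
      F (N + M') (fun j => blk N M' A (x j, y j)) = F N x + F M' y) (N : ℕ)
    (c : Cx ℤ (GLm N A) k) :
    QC.lift F hinv hblk (ch N c) = Finsupp.linearCombination ℤ (F N) c := by
  refine qc_ext (f := (QC.lift F hinv hblk).comp (ch N))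
    (g := (Finsupp.linearCombination ℤ (F N)).toAddMonoidHom) ?_ c
  intro x
  show QC.lift F hinv hblk (ch N (Finsupp.single x 1)) =
    Finsupp.linearCombination ℤ (F N) (Finsupp.single x 1)
  rw [ch_single, QC.lift_t, Finsupp.linearCombination_single, one_smul]

end

section

variable (A : Type u) [Ring A] (n : ℕ)

/-- the quotient of the chains of degree `n + 1` by the boundaries -/
def QH : Type u := QC A (n + 1) ⧸ (qbd : QC A (n + 2) →+ QC A (n + 1)).range

noncomputable instance instQH : AddCommGroup (QH A n) :=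
  QuotientAddGroup.Quotient.addCommGroup (qbd : QC A (n + 2) →+ QC A (n + 1)).range

variable {A n}

/-- the class of a chain -/
noncomputable def QH.mk : QC A (n + 1) →+ QH A n :=
  QuotientAddGroup.mk' (qbd : QC A (n + 2) →+ QC A (n + 1)).range

theorem QH.mk_surjective : Function.Surjective (QH.mk : QC A (n + 1) →+ QH A n) :=
  QuotientAddGroup.mk'_surjective _

theorem QH.mk_eq_zero {w : QC A (n + 1)} : QH.mk w = 0 ↔ ∃ v, qbd v = w := by
  have h := QuotientAddGroup.eq_zero_iff (N := (qbd : QC A (n + 2) →+ QC A (n + 1)).range) w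
  exact h.trans AddMonoidHom.mem_range

private theorem qc_bnd (N : ℕ) {c : Cx ℤ (GLm N A) (n + 1)} (hc : c ∈ bnd (GLm N A) n) :
    QH.mk (ch N c) = 0 := by
  obtain ⟨_, ⟨b, rfl⟩, d, hd, rfl⟩ := Submodule.mem_sup.1 hc
  rw [map_add, ch_coi N hd, add_zero, QH.mk_eq_zero]
  exact ⟨ch N b, ch_bd N b⟩

/-- the class of a cycle of `GL_N(A)` goes to the class of its image -/
private noncomputable def qc_hom (N : ℕ) : HG (GLm N A) n →+ QH A n :=
  (Submodule.liftQ ((bnd (GLm N A) n).comap (cyc (GLm N A) n).subtype)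
    ((QH.mk.comp (ch N)).toIntLinearMap.comp (cyc (GLm N A) n).subtype)
    fun _ hc => qc_bnd N hc).toAddMonoidHom

private theorem qc_hom_mk (N : ℕ) (z : cyc (GLm N A) n) :
    qc_hom N (HG.mk z) = QH.mk (ch N (z : Cx ℤ (GLm N A) (n + 1))) := rfl

private theorem qc_hom_blk (N M' : ℕ) (w : HG (GLm N A × GLm M' A) n) :
    qc_hom (N + M') (HG.map n (blk N M' A) w) =
      qc_hom N (HG.map n (MonoidHom.fst (GLm N A) (GLm M' A)) w) +
        qc_hom M' (HG.map n (MonoidHom.snd (GLm N A) (GLm M' A)) w) := by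
  obtain ⟨z, rfl⟩ := HG.mk_surjective w
  rw [HG.map_mk, HG.map_mk, HG.map_mk, qc_hom_mk, qc_hom_mk, qc_hom_mk, ← map_add]
  congr 1
  refine qc_ext
    (f := (ch (N + M')).comp (push ℤ (blk N M' A) (n + 1)).toAddMonoidHom)
    (g := (ch N).comp (push ℤ (MonoidHom.fst (GLm N A) (GLm M' A)) (n + 1)).toAddMonoidHom +
      (ch M').comp (push ℤ (MonoidHom.snd (GLm N A) (GLm M' A)) (n + 1)).toAddMonoidHom) ?_
    (z : Cx ℤ (GLm N A × GLm M' A) (n + 1))
  intro x
  show ch (N + M') (push ℤ (blk N M' A) (n + 1) (Finsupp.single x 1)) =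
    ch N (push ℤ (MonoidHom.fst (GLm N A) (GLm M' A)) (n + 1) (Finsupp.single x 1)) +
      ch M' (push ℤ (MonoidHom.snd (GLm N A) (GLm M' A)) (n + 1) (Finsupp.single x 1))
  rw [push_single, push_single, push_single, ch_single, ch_single, ch_single]
  exact QC.t_blk N M' (fun j => (x j).1) fun j => (x j).2

/-- the map on homology -/
noncomputable def ofKQ : KQ A n →+ QH A n :=
  KQ.lift (fun N => qc_hom N) qc_hom_blk

theorem ofKQ_cls (N : ℕ) (z : cyc (GLm N A) n) :
    ofKQ (KQ.cls A n N (HG.mk z)) = QH.mk (ch N (z : Cx ℤ (GLm N A) (n + 1))) :=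
  KQ.lift_cls _ _ N (HG.mk z)

private theorem qc_sum {A' : Type v} [Ring A'] (f : A →+* A') (G : SumH A n →+ QH A' n)
    (h : ∀ N x, ∃ a : QC A (n + 1), G (incH A n N x) = QH.mk (QC.map f a)) (y : SumH A n) :
    ∃ a : QC A (n + 1), G y = QH.mk (QC.map f a) := by
  induction y using DirectSum.induction_on with
  | zero => exact ⟨0, (map_zero G).trans (by rw [map_zero, map_zero])⟩
  | of N x => exact h N x
  | add a b iha ihb =>
    obtain ⟨c, hc⟩ := iha
    obtain ⟨d, hd⟩ := ihb
    exact ⟨c + d, (map_add G a b).trans ((congrArg₂ (fun u v => u + v) hc hd).trans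
      (by rw [map_add, map_add]))⟩

/-- every element of `KQ A n` is represented by a chain, compatibly with ring homomorphisms -/
theorem ofKQ_map {A' : Type v} [Ring A'] (f : A →+* A') (x : KQ A n) :
    ∃ a : QC A (n + 1), ofKQ (KQ.map f x) = QH.mk (QC.map f a) := by
  obtain ⟨y, rfl⟩ := QuotientAddGroup.mk'_surjective (blkRel A n) x
  refine qc_sum f ((ofKQ.comp (KQ.map f)).comp (QuotientAddGroup.mk' (blkRel A n))) ?_ y
  intro N h
  obtain ⟨z, rfl⟩ := HG.mk_surjective h
  refine ⟨ch N (z : Cx ℤ (GLm N A) (n + 1)), ?_⟩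
  rw [map_ch, ← ofKQ_cls N ⟨push ℤ (mapGL f N) (n + 1) z, push_cyc (mapGL f N) z.2⟩,
    ← HG.map_mk, ← KQ.map_cls]
  rfl

end

end Pool.Agent.H16.KN
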