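import Pool.Agent.H16.KN.GZ
import Pool.Agent.H16.KN.QC
import Pool.Agent.H16.KN.Pris
import Pool.Agent.H39.KL.Tp

/-!
# Project KN, joint part: the chain of the product of `y ∈ H_{n+1}(G)` with `t`

PROOFS.  `pri_eq_prism`: on tuples by induction on `m`: `pri u` satisfies the recursion of `prism` (model: `pri_cone`,
`priT_cons_zero`, `priT_cons_succ` in `FU/Pri.lean`, private there); or both have the same explicit formula.
`ofKQ_tp_mono1`: `mono1`, `tp_cls`, `HG.map_mk`, `HG.cr_mk`, `KQ.map_cls`, `HG.map_mk`, `ofKQ_cls`; `push_pri`, `push_push`,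
`pri_eq_prism`, `push_prism`; the vertex maps agree entrywise (`gz_single`).
-/

set_option autoImplicit false

open Matrix
open scoped LaurentPolynomial

universe u v w

namespace Pool.Agent.H16.KN

open Pool.Agent.H71.FQ Pool.Agent.H16.FU Pool.Agent.H39.KL

section

variable {X : Type u} {Y : Type v}

private theorem j1_prism_zero (a b : X → Y) (x : Fin 1 → X) :
    prism a b 0 (Finsupp.single x 1) = Finsupp.single ![a (x 0), b (x 0)] 1 := by
  rw [prism, Finsupp.linearCombination_single, one_smul]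

private theorem j1_prism_succ (a b : X → Y) (k : ℕ) (x : Fin (k + 2) → X) :
    prism a b (k + 1) (Finsupp.single x 1) =
      cone ℤ (a (x 0)) (k + 1) (Finsupp.single (fun j => b (x j)) 1) -
        cone ℤ (a (x 0)) (k + 1) (prism a b k (Finsupp.single (fun j => x j.succ) 1)) := by
  rw [prism, Finsupp.linearCombination_single, one_smul]

private theorem j1_prism_pre {W : Type w} (a b : X → Y) (s : W → X) (k : ℕ) (c : Cx ℤ W k) :
    prism a b k (push ℤ s k c) = prism (fun x => a (s x)) (fun x => b (s x)) k c := by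
  induction k with
  | zero =>
    refine cx_ext (f := (prism a b 0).comp (push ℤ s 0))
      (g := prism (fun x => a (s x)) (fun x => b (s x)) 0) ?_ c
    intro x
    rw [LinearMap.comp_apply, push_single, j1_prism_zero, j1_prism_zero]
  | succ k ih =>
    refine cx_ext (f := (prism a b (k + 1)).comp (push ℤ s (k + 1)))
      (g := prism (fun x => a (s x)) (fun x => b (s x)) (k + 1)) ?_ c
    intro x
    rw [LinearMap.comp_apply, push_single, j1_prism_succ, j1_prism_succ, ← ih, push_single]

private theorem j1_prism_cone (a b : X → Y) (k : ℕ) (x : X) (c : Cx ℤ X k) :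
    prism a b (k + 1) (cone ℤ x k c) = cone ℤ (a x) (k + 1) (push ℤ b (k + 1) (cone ℤ x k c)) -
      cone ℤ (a x) (k + 1) (prism a b k c) := by
  refine cx_ext (f := (prism a b (k + 1)).comp (cone ℤ x k))
    (g := ((cone ℤ (a x) (k + 1)).comp ((push ℤ b (k + 1)).comp (cone ℤ x k))) -
      (cone ℤ (a x) (k + 1)).comp (prism a b k)) ?_ c
  intro z
  simp only [LinearMap.comp_apply, LinearMap.sub_apply]
  rw [cone_single, j1_prism_succ, push_single]
  rfl

end

section

variable {Λ : Type u} [Group Λ]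

private theorem j1_cons_zero (u y : Λ) {m : ℕ} (z : Fin (m + 1) → Λ) :
    priT u (Fin.cons y z : Fin (m + 2) → Λ) 0 =
      (Fin.cons y fun j => (Fin.cons y z : Fin (m + 2) → Λ) j * u : Fin (m + 3) → Λ) := by
  funext j
  refine Fin.cases ?_ (fun k => ?_) j
  · unfold priT
    rw [if_neg (by simp)]
    simp
  · unfold priT
    rw [if_pos (by simp)]
    simp

private theorem j1_cons_succ (u y : Λ) {m : ℕ} (z : Fin (m + 1) → Λ) (i : Fin (m + 1)) :
    priT u (Fin.cons y z : Fin (m + 2) → Λ) i.succ =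
      (Fin.cons y (priT u z i) : Fin (m + 3) → Λ) := by
  funext j
  refine Fin.cases ?_ (fun k => ?_) j
  · unfold priT
    rw [if_neg (by simp)]
    simp
  · rw [Fin.cons_succ]
    unfold priT
    rw [Fin.succ_predAbove_succ, Fin.cons_succ]
    have h : i.succ.castSucc < k.succ ↔ i.castSucc < k := by
      rw [← Fin.succ_castSucc, Fin.succ_lt_succ_iff]
    by_cases h1 : i.castSucc < k
    · rw [if_pos h1, if_pos (h.2 h1)]
    · rw [if_neg h1, if_neg (fun h2 => h1 (h.1 h2))]

private theorem j1_pri_cone (u y : Λ) (m : ℕ) (c : Cx ℤ Λ m) :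
    pri u (m + 1) (cone ℤ y m c) =
      cone ℤ y (m + 1) (push ℤ (fun y => y * u) (m + 1) (cone ℤ y m c)) -
        cone ℤ y (m + 1) (pri u m c) := by
  refine cx_ext (f := (pri u (m + 1)).comp (cone ℤ y m))
    (g := (cone ℤ y (m + 1)).comp ((push ℤ (fun y => y * u) (m + 1)).comp (cone ℤ y m)) -
      (cone ℤ y (m + 1)).comp (pri u m)) ?_ c
  intro z
  simp only [LinearMap.comp_apply, LinearMap.sub_apply]
  rw [cone_single, push_single, cone_single, pri_single, pri_single, Fin.sum_univ_succ, map_sum,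
    sub_eq_add_neg, ← Finset.sum_neg_distrib, j1_cons_zero, Fin.val_zero, pow_zero, one_smul]
  congr 1
  refine Finset.sum_congr rfl fun i _ => ?_
  rw [j1_cons_succ, map_smul, cone_single, Fin.val_succ, pow_succ, mul_neg_one, neg_smul]

private theorem j1_pri_zero (u : Λ) (x : Fin 1 → Λ) :
    pri u 0 (Finsupp.single x 1) = Finsupp.single ![x 0, x 0 * u] 1 := by
  rw [pri_single, Fin.sum_univ_one, Fin.val_zero, pow_zero, one_smul]
  congr 1
  funext j
  refine Fin.cases ?_ (fun k => ?_) j
  · unfold priT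
    rw [if_neg (by simp)]
    rw [Subsingleton.elim (α := Fin 1) ((0 : Fin 1).predAbove 0) 0]
    rfl
  · unfold priT
    rw [if_pos (by simp)]
    rw [Subsingleton.elim (α := Fin 1) ((0 : Fin 1).predAbove k.succ) 0]
    rw [Subsingleton.elim (α := Fin 1) k 0]
    rfl

end

theorem pri_eq_prism {Λ : Type u} [Group Λ] (u : Λ) (m : ℕ) (c : Cx ℤ Λ m) :
    pri u m c = prism (fun x => x) (fun x => x * u) m c := by
  induction m with
  | zero =>
    refine cx_ext (f := pri u 0) (g := prism (fun x => x) (fun x => x * u) 0) ?_ c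
    intro x
    rw [j1_pri_zero, j1_prism_zero]
  | succ m ih =>
    refine cx_ext (f := pri u (m + 1)) (g := prism (fun x => x) (fun x => x * u) (m + 1)) ?_ c
    intro x
    have h1 : (Finsupp.single x 1 : Cx ℤ Λ (m + 1)) =
        cone ℤ (x 0) m (Finsupp.single (fun j => x j.succ) 1) := by
      rw [cone_single]
      congr 1
      exact (Fin.cons_self_tail x).symm
    rw [h1, j1_pri_cone, j1_prism_cone, ih]

section

variable (B : Type) [CommRing B] (G : Type u) [Group G] {n : ℕ}

/-- the elements of `G` as `1 × 1` matrices over `B[G × ℤ]` -/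
noncomputable def kG : G →* GLm 1 (MonoidAlgebra B (G × Multiplicative ℤ)) :=
  scal 1 (gk B (MonoidHom.id G))

/-- the generator of `ℤ` as a `1 × 1` matrix -/
noncomputable def tG : GLm 1 (MonoidAlgebra B (G × Multiplicative ℤ)) :=
  scal 1 (grpHom B (G × Multiplicative ℤ)) ((1 : G), Multiplicative.ofAdd (1 : ℤ))

theorem ofKQ_tp_mono1 (y : cyc G n) :
    ofKQ (KQ.map (gz B (MonoidHom.id G)) (tp (MonoidAlgebra B G) n (mono1 B G n (HG.mk y)))) =
      QH.mk (ch 1 (prism (fun x => kG B G x) (fun x => kG B G x * tG B G) (n + 1)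
        (y : Cx ℤ G (n + 1)))) := by
  have e0 : KQ.map (gz B (MonoidHom.id G)) (tp (MonoidAlgebra B G) n (mono1 B G n (HG.mk y))) =
      KQ.cls _ (n + 1) 1 (HG.map (n + 1) (mapGL (gz B (MonoidHom.id G)) 1)
        (HG.cr (cS (MonoidAlgebra B G) 1) (tS (MonoidAlgebra B G) 1) (tS_comm (MonoidAlgebra B G) 1)
          (HG.map n (scal 1 (grpHom B G)) (HG.mk y)))) := by
    rw [mono1, AddMonoidHom.comp_apply, tp_cls, KQ.map_cls]
  rw [e0, HG.map_mk, HG.cr_mk, HG.map_mk, ofKQ_cls]
  congr 2
  show push ℤ (mapGL (gz B (MonoidHom.id G)) 1) (n + 2)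
      (pri (tS (MonoidAlgebra B G) 1) (n + 1) (push ℤ (cS (MonoidAlgebra B G) 1) (n + 1)
        (push ℤ (scal 1 (grpHom B G)) (n + 1) (y : Cx ℤ G (n + 1))))) = _
  rw [push_pri, push_push, push_push, pri_eq_prism, j1_prism_pre]
  have e1 : (fun x : G => mapGL (gz B (MonoidHom.id G)) 1 (cS (MonoidAlgebra B G) 1
      (scal 1 (grpHom B G) x))) = fun x => kG B G x := by
    funext x
    apply Units.ext
    refine Matrix.ext fun i j => ?_
    rw [mapGL_val, Matrix.map_apply]
    show gz B (MonoidHom.id G) (LaurentPolynomial.C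
        ((diagonal fun _ : Fin 1 => (MonoidAlgebra.single x 1 : MonoidAlgebra B G)) i j)) =
      (diagonal fun _ : Fin 1 => (MonoidAlgebra.single (x, 1) 1 :
        MonoidAlgebra B (G × Multiplicative ℤ))) i j
    rw [Subsingleton.elim i j, diagonal_apply_eq, diagonal_apply_eq]
    exact gz_single B (MonoidHom.id G) 0 x 1
  have e2 : mapGL (gz B (MonoidHom.id G)) 1 (tS (MonoidAlgebra B G) 1) = tG B G := by
    apply Units.ext
    refine Matrix.ext fun i j => ?_
    rw [mapGL_val, Matrix.map_apply]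
    show gz B (MonoidHom.id G)
        ((diagonal fun _ : Fin 1 => (LaurentPolynomial.T 1 : (MonoidAlgebra B G)[T;T⁻¹])) i j) =
      (diagonal fun _ : Fin 1 => (MonoidAlgebra.single ((1 : G), Multiplicative.ofAdd (1 : ℤ)) 1 :
        MonoidAlgebra B (G × Multiplicative ℤ))) i j
    rw [Subsingleton.elim i j, diagonal_apply_eq, diagonal_apply_eq]
    exact gz_single B (MonoidHom.id G) 1 1 1
  rw [e2]
  have e3 : ∀ F : G → GLm 1 (MonoidAlgebra B (G × Multiplicative ℤ)), F = (fun x => kG B G x) →
      prism (fun x => F x) (fun x => F x * tG B G) (n + 1) (y : Cx ℤ G (n + 1)) =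
        prism (fun x => kG B G x) (fun x => kG B G x * tG B G) (n + 1) (y : Cx ℤ G (n + 1)) := by
    intro F hF
    subst hF
    rfl
  exact e3 _ e1

end

end Pool.Agent.H16.KN
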