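import Pool.Agent.H16.KN.J1
import Pool.Agent.H16.KN.EvB

/-!
# Project KN, joint part: the value of the functional of the unit element

PROOF of `TQ_yt`.  `TQ_prism` (`c = 1`; `(b x)⁻¹ * b y = kG (x⁻¹ y)`, degree `0`) and the value of
`TT ((1, 1)) (fL π φ)` on `(kG x_0, …, kG x_{n+1}, kG x_{n+1} * tG)`: by `TM_eq` there is one word, its product is `1`, and with
`u = (π 1)⁻¹ x_0` (`π u = (π 1)⁻¹ x_0 (π 1)`, choose `u` such that `π u = x_0`) the value is `φ (i x_0, …, i x_{n+1})`,
`i : G → Z_G(1)`, up to right multiplication; or apply `TQ_unit` for `C = ⊥`, `v = T`, `v' = T⁻¹`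
(`der v * v' = 1`), `trc n 1 ⊥ 1 = HG.map n ..` (`trc_eq`), and the isomorphism of `G` with the centralizer of `⊥`
(`push_prism`, `prism_push`).
-/

set_option autoImplicit false

open Matrix
open scoped LaurentPolynomial

universe u v w

namespace Pool.Agent.H16.KN

open Pool.Agent.H71.FQ Pool.Agent.H16.FU Pool.Agent.H39.KL

section

variable {G : Type u} [Group G]

/-- the inclusion of `G` in the centralizer of `1` -/
def toC1 (G : Type u) [Group G] : G →* Subgroup.centralizer ({1} : Set G) where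
  toFun g := ⟨g, by
    rw [Subgroup.mem_centralizer_iff]
    intro a ha
    rw [Set.mem_singleton_iff.1 ha, one_mul, mul_one]⟩
  map_one' := rfl
  map_mul' _ _ := rfl

private def j2_c (G : Type u) [Group G] : G →* Subgroup.centralizer ((⊥ : Subgroup G) : Set G) where
  toFun g := ⟨g, by
    rw [Subgroup.mem_centralizer_iff]
    intro a ha
    have h : a = 1 := Subgroup.mem_bot.1 ha
    rw [h, one_mul, mul_one]⟩
  map_one' := rfl
  map_mul' _ _ := rfl

private theorem j2_prism_zero {X : Type*} {Y : Type*} (a b : X → Y) (x : Fin 1 → X) :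
    prism a b 0 (Finsupp.single x 1) = Finsupp.single ![a (x 0), b (x 0)] 1 := by
  rw [prism, Finsupp.linearCombination_single, one_smul]

private theorem j2_prism_succ {X : Type*} {Y : Type*} (a b : X → Y) (k : ℕ) (x : Fin (k + 2) → X) :
    prism a b (k + 1) (Finsupp.single x 1) =
      cone ℤ (a (x 0)) (k + 1) (Finsupp.single (fun j => b (x j)) 1) -
        cone ℤ (a (x 0)) (k + 1) (prism a b k (Finsupp.single (fun j => x j.succ) 1)) := by
  rw [prism, Finsupp.linearCombination_single, one_smul]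

private theorem j2_prism_pre {W : Type*} {X : Type*} {Y : Type*} (a b : X → Y) (s : W → X) (k : ℕ)
    (c : Cx ℤ W k) :
    prism a b k (push ℤ s k c) = prism (fun x => a (s x)) (fun x => b (s x)) k c := by
  induction k with
  | zero =>
    refine cx_ext (f := (prism a b 0).comp (push ℤ s 0))
      (g := prism (fun x => a (s x)) (fun x => b (s x)) 0) ?_ c
    intro x
    rw [LinearMap.comp_apply, push_single, j2_prism_zero, j2_prism_zero]
  | succ k ih =>
    refine cx_ext (f := (prism a b (k + 1)).comp (push ℤ s (k + 1)))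
      (g := prism (fun x => a (s x)) (fun x => b (s x)) (k + 1)) ?_ c
    intro x
    rw [LinearMap.comp_apply, push_single, j2_prism_succ, j2_prism_succ, ← ih, push_single]

private theorem j2_eq {X : Type*} {Y : Type*} (a a' b b' : X → Y) (ha : ∀ x, a x = a' x)
    (hb : ∀ x, b x = b' x) (k : ℕ) (c : Cx ℤ X k) : prism a b k c = prism a' b' k c := by
  have h1 : a = a' := funext ha
  have h2 : b = b' := funext hb
  subst h1
  subst h2
  rfl

section

variable (B : Type) [CommRing B]

private theorem j2_kC (x : G) : kC B (⊥ : Subgroup G) (j2_c G x) = kG B G x := by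
  apply Units.ext
  refine Matrix.ext fun i j => ?_
  rw [kC, kp_val, gk_val, Subsingleton.elim i j]
  exact (diagonal_apply_eq (fun _ : Fin 1 => (MonoidAlgebra.single (x, 1) 1 :
    MonoidAlgebra B (G × Multiplicative ℤ))) j).symm

private theorem j2_tG (i j : Fin 1) : (tG B G).val i j =
    gz B (⊥ : Subgroup G).subtype (AddMonoidAlgebra.single 1 (MonoidAlgebra.single 1 1)) := by
  rw [gz_single, Subsingleton.elim i j]
  exact diagonal_apply_eq (fun _ : Fin 1 => (MonoidAlgebra.single ((1 : G),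
    Multiplicative.ofAdd (1 : ℤ)) 1 : MonoidAlgebra B (G × Multiplicative ℤ))) j

private theorem j2_tG_inv (i j : Fin 1) : ((tG B G)⁻¹).val i j =
    gz B (⊥ : Subgroup G).subtype (AddMonoidAlgebra.single (-1) (MonoidAlgebra.single 1 1)) := by
  rw [gz_single, Subsingleton.elim i j, tG, ← map_inv]
  have h : (((1 : G), Multiplicative.ofAdd (1 : ℤ)) : G × Multiplicative ℤ)⁻¹ =
      ((⊥ : Subgroup G).subtype 1, Multiplicative.ofAdd (-1 : ℤ)) := by
    refine Prod.ext ?_ rfl
    exact inv_one
  rw [h]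
  exact diagonal_apply_eq (fun _ : Fin 1 => (MonoidAlgebra.single
    ((⊥ : Subgroup G).subtype 1, Multiplicative.ofAdd (-1 : ℤ)) 1 :
      MonoidAlgebra B (G × Multiplicative ℤ))) j

private theorem j2_der (d : (⊥ : Subgroup G)) :
    ((Pool.Agent.H95.KM.der _ (AddMonoidAlgebra.single 1 (MonoidAlgebra.single 1 1) :
      (MonoidAlgebra B (⊥ : Subgroup G))[T;T⁻¹]) *
      AddMonoidAlgebra.single (-1) (MonoidAlgebra.single 1 1)).coeff 0).coeff d = 1 := by
  rw [Pool.Agent.H95.KM.der_single, one_smul, AddMonoidAlgebra.single_mul_single,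
    MonoidAlgebra.single_mul_single, mul_one, mul_one, add_neg_cancel]
  rw [Subsingleton.elim d 1]
  simp

end

variable {B : Type} [CommRing B] {n : ℕ} {π : G → Subgroup.centralizer ({1} : Set G)}
  {φ : (Fin (n + 2) → Subgroup.centralizer ({1} : Set G)) → B}

theorem TQ_yt (hπ : ∀ (z : Subgroup.centralizer ({1} : Set G)) (g : G), π (z * g) = z * π g)
    (hφ : IsCoc (Subgroup.centralizer ({1} : Set G)) n φ) (y : cyc G n) :
    TQ ((1, 1) : G × Multiplicative ℤ) (fL π φ)
      (ch 1 (prism (fun x => kG B G x) (fun x => kG B G x * tG B G) (n + 1)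
        (y : Cx ℤ G (n + 1)))) =
      (-1 : ℤ) ^ (n + 1) • HG.ev hφ (HG.map n (toC1 G) (HG.mk y)) := by
  have h := TQ_unit hπ hφ (⊥ : Subgroup G) _ _ (tG B G) (j2_tG B) (j2_tG_inv B)
    ⟨push ℤ (j2_c G) (n + 1) (y : Cx ℤ G (n + 1)), push_cyc (j2_c G) y.2⟩
  have h1 : (ch 1 (prism (fun x => kG B G x) (fun x => kG B G x * tG B G) (n + 1)
      (y : Cx ℤ G (n + 1))) : QC (MonoidAlgebra B (G × Multiplicative ℤ)) (n + 2)) =
      ch 1 (prism (fun y => kC B (⊥ : Subgroup G) y) (fun y => kC B (⊥ : Subgroup G) y * tG B G)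
        (n + 1) (push ℤ (j2_c G) (n + 1) (y : Cx ℤ G (n + 1)))) := by
    refine congrArg (ch 1) ?_
    rw [j2_prism_pre]
    exact j2_eq _ _ _ _ (fun x => (j2_kC B x).symm)
      (fun x => congrArg (fun z => z * tG B G) (j2_kC B x).symm) _ _
  rw [h1]
  refine h.trans ?_
  congr 1
  rw [Fintype.sum_subsingleton _ (1 : (⊥ : Subgroup G)), j2_der, one_mul]
  have hm : (1 : G) * 1 * (1 : G)⁻¹ ∈ (⊥ : Subgroup G) := by
    rw [mul_one, one_mul, inv_one]
    exact Subgroup.one_mem _
  rw [trc_eq (1 : G) (by rw [mul_one, one_mul, inv_one]; rfl) hm, ← HG.map_mk]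
  have h3 : (cnj (1 : G) 1 (⊥ : Subgroup G) hm).comp (j2_c G) = toC1 G := by
    refine MonoidHom.ext fun g => Subtype.ext ?_
    change (1 : G)⁻¹ * g * 1 = g
    rw [inv_one, one_mul, mul_one]
  rw [← h3]
  rw [HG.map_map]

end

end Pool.Agent.H16.KN
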