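import Pool.Agent.H71.FU0.E1
import Pool.Agent.H16.KN.J1
import Pool.Agent.H16.KN.EvA

/-!
# Project KN, joint part in degree zero: the class of `t`

PROOFS.  `ofKQ_tOne`: `tOne` is `KQ.cls .. 1 (e1 U)` (`kq1_mk`; `K1.unit` is `K1.mk` of the `1 × 1` matrix), `map_e1`, `e1` is
the class of the cycle `(1, U)` up to the convention in `FU0/E1.lean` (if the cycle there is `(1, U)` the representative is
`Finsupp.single ![1, U] 1`), `ofKQ_cls`, `ch_single`.
`TQ_one_bd`: `TQ_bd`, `dl_pL`, `dl (fun _ => 1) = 0` on two variables.  `TQ_tOne`: `TQ_t`, `TM_eq`: the only word is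
`(t, t⁻¹)`, its product is `1`, the difference of the degrees is `1`.
-/

set_option autoImplicit false

open Matrix
open scoped LaurentPolynomial

universe u v w

namespace Pool.Agent.H16.KN

open Pool.Agent.H71.FQ Pool.Agent.H16.FU Pool.Agent.H39.KL
open Pool.Agent.H71.FU0 (kq1 kq1_mk e1)
open Pool.Agent.H95.WH (K1 K1.unit K1.map)
open Pool.Agent.H95.KM (lau)

section

/-- the class of `t` in `KQ (A[t, t⁻¹]) 0` -/
noncomputable def tOne (A : Type u) [Ring A] : KQ A[T;T⁻¹] 0 :=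
  kq1 (K1.unit (Pool.Agent.H8.KZ.uT A))

theorem map_tOne {A : Type u} [Ring A] {A' : Type v} [Ring A'] (f : A →+* A') :
    KQ.map (lau f) (tOne A) = tOne A' := by
  rw [tOne, Pool.Agent.H71.FU0.map_kq1, K1.map_unit, tOne]
  congr 2
  apply Units.ext
  show lau f (AddMonoidAlgebra.single 1 1) = AddMonoidAlgebra.single 1 1
  rw [Pool.Agent.H95.KM.lau_single, map_one]

/-- **The assembly map** on the parts `H_0(G; ℤ)` and `K₋₁` of the rational source in degree zero. -/
noncomputable def asm0 (G : Type v) [Group G] : ℤ × HnKm1 ℤ G 0 →+ LKQ (MonoidAlgebra ℤ G) 0 :=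
  (zmultiplesHom (LKQ (MonoidAlgebra ℤ G) 0) (LKQ.mk (tOne (MonoidAlgebra ℤ G)))).coprod
    (asmKm1 ℤ 0 G)

variable (B : Type) [CommRing B] (G : Type u) [Group G]

theorem ofKQ_tOne :
    ofKQ (KQ.map (gz B (MonoidHom.id G)) (tOne (MonoidAlgebra B G))) =
      QH.mk (QC.t 1 ![1, tG B G]) := by
  rw [tOne, K1.unit, kq1_mk, KQ.map_cls, Pool.Agent.H71.FU0.map_e1]
  have e2 : mapGL (gz B (MonoidHom.id G)) 1
      (Units.map (Matrix.scalar (Fin 1) : (MonoidAlgebra B G)[T;T⁻¹] →+*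
        Matrix (Fin 1) (Fin 1) (MonoidAlgebra B G)[T;T⁻¹]).toMonoidHom
          (Pool.Agent.H8.KZ.uT (MonoidAlgebra B G))) = tG B G := by
    apply Units.ext
    refine Matrix.ext fun i j => ?_
    rw [mapGL_val, Matrix.map_apply]
    show gz B (MonoidHom.id G)
        ((diagonal fun _ : Fin 1 => (AddMonoidAlgebra.single 1 1 : (MonoidAlgebra B G)[T;T⁻¹])) i j) =
      (diagonal fun _ : Fin 1 => (MonoidAlgebra.single ((1 : G), Multiplicative.ofAdd (1 : ℤ)) 1 :
        MonoidAlgebra B (G × Multiplicative ℤ))) i j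
    rw [Subsingleton.elim i j, diagonal_apply_eq, diagonal_apply_eq]
    exact gz_single B (MonoidHom.id G) 1 1 1
  have e3 : (e1 (mapGL (gz B (MonoidHom.id G)) 1
      (Units.map (Matrix.scalar (Fin 1) : (MonoidAlgebra B G)[T;T⁻¹] →+*
        Matrix (Fin 1) (Fin 1) (MonoidAlgebra B G)[T;T⁻¹]).toMonoidHom
          (Pool.Agent.H8.KZ.uT (MonoidAlgebra B G)))) : HG (GLm 1 (MonoidAlgebra B
            (G × Multiplicative ℤ))) 0) =
      HG.mk ⟨Finsupp.single (![1, tG B G] : Fin (0 + 2) → _) 1, Pool.Agent.H71.FU0.cyc0 _⟩ := by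
    rw [← e2]
    rfl
  rw [e3, ofKQ_cls]
  show QH.mk (ch 1 (Finsupp.single (![1, tG B G] : Fin (0 + 2) → _) 1)) = _
  rw [ch_single]

variable {B G}

omit [CommRing B] in
private theorem j5_dg_mul (x y : G × Multiplicative ℤ) : dg (x * y) = dg x + dg y := rfl

private theorem j5_CI : CI ((1, 1) : G × Multiplicative ℤ)
    (pL (fun _ : Fin (0 + 1) → G × Multiplicative ℤ => (1 : B)) (ldg B)) := by
  intro g _ v
  unfold pL ldg
  rw [j5_dg_mul, j5_dg_mul]
  congr 2
  ring

omit [Group G] in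
private theorem j5_dl (v : Fin (0 + 3) → G × Multiplicative ℤ) :
    dl (pL (fun _ : Fin (0 + 1) → G × Multiplicative ℤ => (1 : B)) (ldg B)) v = 0 := by
  rw [dl_pL _ _ (fun a b d => by
    unfold ldg
    push_cast
    ring)]
  have h : ∀ w : Fin (0 + 2) → G × Multiplicative ℤ,
      dl (fun _ : Fin (0 + 1) → G × Multiplicative ℤ => (1 : B)) w = 0 := by
    intro w
    show ∑ i : Fin 2, (-1 : ℤ) ^ (i : ℕ) • (1 : B) = 0
    rw [Fin.sum_univ_two]
    simp
  unfold pL
  rw [h, zero_mul]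

theorem TQ_one_bd (v : QC (MonoidAlgebra B (G × Multiplicative ℤ)) 2) :
    TQ ((1, 1) : G × Multiplicative ℤ)
      (pL (fun _ : Fin (0 + 1) → G × Multiplicative ℤ => (1 : B)) (ldg B)) (qbd v) = 0 := by
  rw [TQ_bd j5_CI]
  have h : dl (pL (fun _ : Fin (0 + 1) → G × Multiplicative ℤ => (1 : B)) (ldg B)) =
      fun v : Fin (0 + 3) → G × Multiplicative ℤ => (0 : B) * (fun _ => 0) v := by
    funext v
    rw [j5_dl, zero_mul]
  rw [h]
  exact (TQ_smul _ (fun _ => (0 : B)) 0 v).trans (zero_mul _)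

private theorem j5_cof_self (x : G × Multiplicative ℤ) :
    cof (diagonal fun _ : Fin 1 => (MonoidAlgebra.single x 1 :
      MonoidAlgebra B (G × Multiplicative ℤ))) x = 1 := by
  refine Matrix.ext fun i j => ?_
  rw [Subsingleton.elim i j]
  show (diagonal (fun _ : Fin 1 => (MonoidAlgebra.single x 1 :
      MonoidAlgebra B (G × Multiplicative ℤ))) j j).coeff x = _
  rw [diagonal_apply_eq, MonoidAlgebra.coeff_single, Finsupp.single_eq_same, Matrix.one_apply_eq]

private theorem j5_cof_ne {x y : G × Multiplicative ℤ} (h : y ≠ x) :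
    cof (diagonal fun _ : Fin 1 => (MonoidAlgebra.single x 1 :
      MonoidAlgebra B (G × Multiplicative ℤ))) y = 0 := by
  refine Matrix.ext fun i j => ?_
  rw [Subsingleton.elim i j]
  show (diagonal (fun _ : Fin 1 => (MonoidAlgebra.single x 1 :
      MonoidAlgebra B (G × Multiplicative ℤ))) j j).coeff y = _
  rw [diagonal_apply_eq, MonoidAlgebra.coeff_single, Finsupp.single_eq_of_ne h]
  rfl

private theorem j5_wv
    {S : Finset (G × Multiplicative ℤ)} (h0 : ((1 : G), Multiplicative.ofAdd (1 : ℤ)) ∈ S)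
    (h1 : ((1 : G), Multiplicative.ofAdd (1 : ℤ))⁻¹ ∈ S) :
    wv ((1, 1) : G × Multiplicative ℤ)
      (pL (fun _ : Fin (0 + 1) → G × Multiplicative ℤ => (1 : B)) (ldg B))
      (fun j => ((![⟨_, h0⟩, ⟨_, h1⟩] : Fin (1 + 1) → S) j : G × Multiplicative ℤ)) = 1 := by
  rw [wv_eq j5_CI _ 1]
  · show (1 : B) * ldg B _ _ = 1
    rw [one_mul]
    show ((dg (1 * (((1 : G), Multiplicative.ofAdd (1 : ℤ)) * 1)) -
      dg ((1 : G × Multiplicative ℤ) * 1) : ℤ) : B) = 1
    rw [one_mul, mul_one, one_mul]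
    have h2 : dg ((1 : G), Multiplicative.ofAdd (1 : ℤ)) = 1 := rfl
    have h3 : dg (1 : G × Multiplicative ℤ) = 0 := rfl
    rw [h2, h3, sub_zero, Int.cast_one]
  · rw [List.ofFn_succ, List.ofFn_succ, List.ofFn_zero, List.prod_cons, List.prod_cons,
      List.prod_nil, mul_one]
    show 1 * (((1 : G), Multiplicative.ofAdd (1 : ℤ)) *
      ((1 : G), Multiplicative.ofAdd (1 : ℤ))⁻¹) * (1 : G × Multiplicative ℤ)⁻¹ = (1, 1)
    rw [mul_inv_cancel, one_mul, inv_one, one_mul]
    rfl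

theorem TQ_tOne :
    TQ ((1, 1) : G × Multiplicative ℤ)
      (pL (fun _ : Fin (0 + 1) → G × Multiplicative ℤ => (1 : B)) (ldg B))
      (QC.t 1 ![1, tG B G]) = 1 := by
  classical
  have ht : (tG B G).val = diagonal fun _ : Fin 1 =>
      (MonoidAlgebra.single ((1 : G), Multiplicative.ofAdd (1 : ℤ)) 1 :
        MonoidAlgebra B (G × Multiplicative ℤ)) := rfl
  have ht' : ((tG B G)⁻¹).val = diagonal fun _ : Fin 1 =>
      (MonoidAlgebra.single ((1 : G), Multiplicative.ofAdd (1 : ℤ))⁻¹ 1 :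
        MonoidAlgebra B (G × Multiplicative ℤ)) := by
    unfold tG
    rw [← map_inv]
    rfl
  have l0 : lts (![1, tG B G] : Fin (1 + 1) → GLm 1 (MonoidAlgebra B (G × Multiplicative ℤ))) 0 =
      (tG B G).val := by
    show ((1 : GLm 1 (MonoidAlgebra B (G × Multiplicative ℤ)))⁻¹ * tG B G).val = _
    rw [inv_one, one_mul]
  have l1 : lts (![1, tG B G] : Fin (1 + 1) → GLm 1 (MonoidAlgebra B (G × Multiplicative ℤ))) 1 =
      ((tG B G)⁻¹).val := by
    show ((tG B G)⁻¹ * (1 : GLm 1 (MonoidAlgebra B (G × Multiplicative ℤ)))).val = _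
    rw [mul_one]
  have c0 : ∀ y, y ≠ ((1 : G), Multiplicative.ofAdd (1 : ℤ)) →
      cof (lts (![1, tG B G] : Fin (1 + 1) → GLm 1 (MonoidAlgebra B (G × Multiplicative ℤ))) 0) y =
        0 := by
    intro y hy
    rw [l0, ht]
    exact j5_cof_ne hy
  have c1 : ∀ y, y ≠ ((1 : G), Multiplicative.ofAdd (1 : ℤ))⁻¹ →
      cof (lts (![1, tG B G] : Fin (1 + 1) → GLm 1 (MonoidAlgebra B (G × Multiplicative ℤ))) 1) y =
        0 := by
    intro y hy
    rw [l1, ht']
    exact j5_cof_ne hy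
  have d0 : cof (lts (![1, tG B G] : Fin (1 + 1) → GLm 1 (MonoidAlgebra B (G × Multiplicative ℤ))) 0)
      ((1 : G), Multiplicative.ofAdd (1 : ℤ)) = 1 := by
    rw [l0, ht]
    exact j5_cof_self _
  have d1 : cof (lts (![1, tG B G] : Fin (1 + 1) → GLm 1 (MonoidAlgebra B (G × Multiplicative ℤ))) 1)
      ((1 : G), Multiplicative.ofAdd (1 : ℤ))⁻¹ = 1 := by
    rw [l1, ht']
    exact j5_cof_self _
  have h0 : ((1 : G), Multiplicative.ofAdd (1 : ℤ)) ∈
      ({((1 : G), Multiplicative.ofAdd (1 : ℤ)), ((1 : G), Multiplicative.ofAdd (1 : ℤ))⁻¹} :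
        Finset (G × Multiplicative ℤ)) := Finset.mem_insert_self _ _
  have h1 : ((1 : G), Multiplicative.ofAdd (1 : ℤ))⁻¹ ∈
      ({((1 : G), Multiplicative.ofAdd (1 : ℤ)), ((1 : G), Multiplicative.ofAdd (1 : ℤ))⁻¹} :
        Finset (G × Multiplicative ℤ)) := Finset.mem_insert_of_mem (Finset.mem_singleton_self _)
  have hS : ∀ j, ∀ x, cof (lts (![1, tG B G] : Fin (1 + 1) →
      GLm 1 (MonoidAlgebra B (G × Multiplicative ℤ))) j) x ≠ 0 →
      x ∈ ({((1 : G), Multiplicative.ofAdd (1 : ℤ)), ((1 : G), Multiplicative.ofAdd (1 : ℤ))⁻¹} :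
        Finset (G × Multiplicative ℤ)) := by
    intro j x hx
    refine Fin.cases (motive := fun j => cof (lts (![1, tG B G] : Fin (1 + 1) →
      GLm 1 (MonoidAlgebra B (G × Multiplicative ℤ))) j) x ≠ 0 → _) (fun hx => ?_) (fun k hx => ?_)
      j hx
    · by_contra h
      refine hx (c0 x fun h' => h ?_)
      rw [h']
      exact h0
    · rw [Subsingleton.elim (α := Fin 1) k 0] at hx
      by_contra h
      refine hx (c1 x fun h' => h ?_)
      rw [h']
      exact h1
  rw [TQ_t]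
  unfold TT
  rw [TM_eq j5_CI _ _ hS]
  rw [Finset.sum_eq_single (![⟨_, h0⟩, ⟨_, h1⟩] : Fin (1 + 1) →
    ({((1 : G), Multiplicative.ofAdd (1 : ℤ)), ((1 : G), Multiplicative.ofAdd (1 : ℤ))⁻¹} :
        Finset (G × Multiplicative ℤ)))]
  · rw [List.ofFn_succ, List.ofFn_succ, List.ofFn_zero, List.prod_cons, List.prod_cons,
      List.prod_nil, mul_one]
    have e1 : cof (lts (![1, tG B G] : Fin (1 + 1) →
        GLm 1 (MonoidAlgebra B (G × Multiplicative ℤ))) 0)
          ((1 : G), Multiplicative.ofAdd (1 : ℤ)) *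
        cof (lts (![1, tG B G] : Fin (1 + 1) →
        GLm 1 (MonoidAlgebra B (G × Multiplicative ℤ))) 1)
          ((1 : G), Multiplicative.ofAdd (1 : ℤ))⁻¹ = 1 := by
      rw [d0, d1, one_mul]
    have e2 : Matrix.trace (1 : Matrix (Fin 1) (Fin 1) B) = 1 := by
      rw [Matrix.trace_one, Fintype.card_fin, Nat.cast_one]
    exact (congrArg₂ (fun a b => a * b) ((congrArg Matrix.trace e1).trans e2)
      (j5_wv h0 h1)).trans (mul_one (1 : B))
  · intro g _ hg
    rw [List.ofFn_succ, List.ofFn_succ, List.ofFn_zero, List.prod_cons, List.prod_cons,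
      List.prod_nil, mul_one]
    have hg' : (g 0 : G × Multiplicative ℤ) ≠ ((1 : G), Multiplicative.ofAdd (1 : ℤ)) ∨
        (g 1 : G × Multiplicative ℤ) ≠ ((1 : G), Multiplicative.ofAdd (1 : ℤ))⁻¹ := by
      by_contra hc
      rw [not_or, not_not, not_not] at hc
      apply hg
      funext j
      refine Fin.cases ?_ (fun k => ?_) j
      · exact Subtype.ext hc.1
      · rw [Subsingleton.elim (α := Fin 1) k 0]
        exact Subtype.ext hc.2
    rcases hg' with hg' | hg'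
    · have := c0 _ hg'
      rw [this, zero_mul, Matrix.trace_zero, zero_mul]
    · have := c1 _ hg'
      have h2 : (Fin.succ 0 : Fin (1 + 1)) = 1 := rfl
      rw [h2, this, mul_zero, Matrix.trace_zero, zero_mul]
  · intro h
    exact absurd (Finset.mem_univ _) h

end

end Pool.Agent.H16.KN
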