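import Pool.Agent.H16.KN.Rot2
import Pool.Agent.H16.KN.Deg
import Pool.Agent.H16.KN.Coch

/-!
# Project KN: the key claim

`fL π φ` is the cochain `(x_0, …, x_{n+2}) ↦ φ (π x_0, …, π x_{n+1}) (deg x_{n+2} - deg x_{n+1})` of `G × ℤ`.

PROOF of `key`.  By `hmeas` get `μ`.  Let `a : ℕ`; `TR_dvd_ev` (for `(c, 1)` in `G × Multiplicative ℤ`) gives `m`, `q = p ^ m`;
`ψ, β` from `hmeas`.  With `v̄ = fun j b => (v j b).1`, `λ0 a b = deg (b 0) - deg (a 0)`, `mn a = min over the coordinates
of deg`, `λm a b = mn b - mn a`, `e a = deg (a 0) - mn a` on `Fin q → G × Multiplicative ℤ`: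
`μ ^ (n + 2) • (fL on the first coordinates) = pL ψ̄ λm + (-1) ^ (n + 1) dl (pE ψ̄ e) - μ dl (pL β̄ λ0)` by `dl_pL`, `dl_pE`
(`dl ψ = 0`, `λ0 a b - λm a b = e b - e a`).  `TR_first`, `TR_add`, `TR_smul`, `TR_bd`: the last two terms give `TR` of
`pE ψ̄ e`, `pL β̄ λ0` on `qbd w ∈ QC0`, which vanish by `TR_half`; the first one is divisible by `p ^ (a + 1)` (`mn` is
invariant under `sig q (c, 1)`).  So `p ^ (a + 1) ∣ μ ^ (n + 2) * TQ (fL) w` for all `a`; `hsep`.
-/

set_option autoImplicit false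

open Matrix

universe u v w

namespace Pool.Agent.H16.KN

open Pool.Agent.H71.FQ

section

variable {G : Type u} [Group G] {B : Type v} [CommRing B] {n : ℕ} {c : G}

/-- the difference of the degrees -/
def ldg (B : Type v) [CommRing B] (a b : G × Multiplicative ℤ) : B := ((dg b - dg a : ℤ) : B)

private theorem dg_mul (g x : G × Multiplicative ℤ) : dg (g * x) = dg g + dg x := rfl

private theorem ldg_mul (g a b : G × Multiplicative ℤ) : ldg B (g * a) (g * b) = ldg B a b := by
  unfold ldg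
  rw [dg_mul, dg_mul]
  congr 1
  ring

private theorem comm_fst {g : G × Multiplicative ℤ}
    (hg : g * ((c, 1) : G × Multiplicative ℤ) = ((c, 1) : G × Multiplicative ℤ) * g) :
    g.1 * c = c * g.1 := congrArg Prod.fst hg

private theorem pi_fst {π : G → Subgroup.centralizer ({c} : Set G)}
    (hπ : ∀ (z : Subgroup.centralizer ({c} : Set G)) (g : G), π (z * g) = z * π g)
    {g : G} (hg : g * c = c * g) (x : G) :
    π (g * x) = (⟨g, Subgroup.mem_centralizer_singleton_iff.2 hg⟩ :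
      Subgroup.centralizer ({c} : Set G)) * π x := hπ ⟨g, _⟩ x

/-- the cochain of `G × ℤ` defined by a cochain of the centralizer -/
def fL (π : G → Subgroup.centralizer ({c} : Set G))
    (φ : (Fin (n + 2) → Subgroup.centralizer ({c} : Set G)) → B) :
    (Fin (n + 3) → G × Multiplicative ℤ) → B :=
  pL (fun v : Fin (n + 2) → G × Multiplicative ℤ => φ fun j => π (v j).1) (ldg B)

/-- products of invariant cochains with the degree are invariant -/
private theorem CI_pL {k : ℕ} {π : G → Subgroup.centralizer ({c} : Set G)}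
    (hπ : ∀ (z : Subgroup.centralizer ({c} : Set G)) (g : G), π (z * g) = z * π g)
    {φ : (Fin (k + 1) → Subgroup.centralizer ({c} : Set G)) → B}
    (hφ : ∀ (g : Subgroup.centralizer ({c} : Set G)) x, φ (fun j => g * x j) = φ x) :
    CI ((c, 1) : G × Multiplicative ℤ)
      (pL (fun v : Fin (k + 1) → G × Multiplicative ℤ => φ fun j => π (v j).1) (ldg B)) := by
  intro g hg v
  unfold pL
  rw [ldg_mul]
  congr 1
  have h1 : (fun j : Fin (k + 1) => π (g * v j.castSucc).1) = fun j : Fin (k + 1) =>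
      (⟨g.1, Subgroup.mem_centralizer_singleton_iff.2 (comm_fst hg)⟩ :
        Subgroup.centralizer ({c} : Set G)) * π (v j.castSucc).1 := by
    funext j
    exact pi_fst hπ (comm_fst hg) (v j.castSucc).1
  show φ (fun j : Fin (k + 1) => π (g * v j.castSucc).1) = φ fun j => π (v j.castSucc).1
  rw [h1]
  exact hφ _ _

theorem CI_fL {π : G → Subgroup.centralizer ({c} : Set G)}
    (hπ : ∀ (z : Subgroup.centralizer ({c} : Set G)) (g : G), π (z * g) = z * π g)
    {φ : (Fin (n + 2) → Subgroup.centralizer ({c} : Set G)) → B}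
    (hφ : ∀ (g : Subgroup.centralizer ({c} : Set G)) x, φ (fun j => g * x j) = φ x) :
    CI ((c, 1) : G × Multiplicative ℤ) (fL π φ) := CI_pL hπ hφ

/-- the minimum of the degrees -/
private noncomputable def mn {q : ℕ} [NeZero q] (a : Fin q → G × Multiplicative ℤ) : ℤ :=
  Finset.univ.inf' ⟨0, Finset.mem_univ _⟩ fun t => dg (a t)

private theorem mn_le {q : ℕ} [NeZero q] (a : Fin q → G × Multiplicative ℤ) (t : Fin q) :
    mn a ≤ dg (a t) := Finset.inf'_le _ (Finset.mem_univ t)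

private theorem le_mn {q : ℕ} [NeZero q] {a : Fin q → G × Multiplicative ℤ} {d : ℤ}
    (h : ∀ t, d ≤ dg (a t)) : d ≤ mn a := (Finset.le_inf'_iff _ _).2 fun t _ => h t

private theorem mn_mul {q : ℕ} [NeZero q] (g : G × Multiplicative ℤ)
    (a : Fin q → G × Multiplicative ℤ) : mn (fun t => g * a t) = dg g + mn a := by
  refine le_antisymm ?_ (le_mn fun t => ?_)
  · have h1 : mn (fun t => g * a t) - dg g ≤ mn a := by
      refine le_mn fun t => ?_
      have h2 := mn_le (fun t => g * a t) t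
      rw [dg_mul] at h2
      linarith
    linarith
  · rw [dg_mul]
    have h2 := mn_le a t
    linarith

private theorem mn_const {q : ℕ} [NeZero q] {a : Fin q → G × Multiplicative ℤ} {d : ℤ}
    (h : ∀ t, dg (a t) = d) : mn a = d := by
  refine le_antisymm ?_ (le_mn fun t => (h t).ge)
  exact (mn_le a 0).trans (h 0).le

private theorem mn_sig_ge {q : ℕ} [NeZero q] (a : Fin q → G × Multiplicative ℤ) :
    mn a ≤ mn (sig q ((c, 1) : G × Multiplicative ℤ) a) := by
  refine le_mn fun t => ?_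
  unfold sig
  by_cases h : (t : ℕ) + 1 < q
  · rw [dif_pos h]
    exact mn_le a _
  · rw [dif_neg h, dg_mul]
    have h1 : dg ((c, 1) : G × Multiplicative ℤ) = 0 := rfl
    rw [h1, zero_add]
    exact mn_le a _

private theorem mn_iter_ge {q : ℕ} [NeZero q] (a : Fin q → G × Multiplicative ℤ) (k : ℕ) :
    mn a ≤ mn ((sig q ((c, 1) : G × Multiplicative ℤ))^[k] a) := by
  induction k with
  | zero => exact le_rfl
  | succ k ih =>
    rw [Function.iterate_succ_apply']
    exact ih.trans (mn_sig_ge _)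

private theorem mn_sig {q : ℕ} [NeZero q] (a : Fin q → G × Multiplicative ℤ) :
    mn (sig q ((c, 1) : G × Multiplicative ℤ) a) = mn a := by
  refine le_antisymm ?_ (mn_sig_ge a)
  obtain ⟨k, hk⟩ : ∃ k, q = k + 1 := ⟨q - 1, by have := NeZero.pos q; omega⟩
  have h1 := mn_iter_ge (c := c) (sig q ((c, 1) : G × Multiplicative ℤ) a) k
  rw [← Function.iterate_succ_apply] at h1
  have h2 : (sig q ((c, 1) : G × Multiplicative ℤ))^[k.succ] a = lmul ((c, 1) : G × Multiplicative ℤ) a := by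
    rw [← sig_iterate q ((c, 1) : G × Multiplicative ℤ) a]
    have h3 : k.succ = q := hk.symm
    rw [h3]
  rw [h2] at h1
  have h4 : mn (lmul ((c, 1) : G × Multiplicative ℤ) a) = mn a := by
    have h5 := mn_mul ((c, 1) : G × Multiplicative ℤ) a
    have h6 : dg ((c, 1) : G × Multiplicative ℤ) = 0 := rfl
    rw [h6, zero_add] at h5
    exact h5
  rw [h4] at h1
  exact h1

private theorem fst_sig {q : ℕ} (a : Fin q → G × Multiplicative ℤ) (t : Fin q) :
    (sig q ((c, 1) : G × Multiplicative ℤ) a t).1 = sig q c (fun b => (a b).1) t := by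
  unfold sig
  by_cases h : (t : ℕ) + 1 < q
  · rw [dif_pos h, dif_pos h]
  · rw [dif_neg h, dif_neg h]
    rfl

private theorem orderOf_c1 : orderOf ((c, 1) : G × Multiplicative ℤ) = orderOf c := by
  rw [Prod.orderOf_mk, orderOf_one, Nat.lcm_one_right]

section aux

variable {q : ℕ} [NeZero q]

/-- a cochain of tuples of `G` as a cochain of tuples of `G × ℤ` -/
private def up {k : ℕ} (ψ : (Fin k → Fin q → G) → B) (v : Fin k → Fin q → G × Multiplicative ℤ) : B :=
  ψ fun j b => (v j b).1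

private def l0 (B : Type v) [CommRing B] (a b : Fin q → G × Multiplicative ℤ) : B :=
  ((dg (b 0) - dg (a 0) : ℤ) : B)

private noncomputable def lm (B : Type v) [CommRing B] (a b : Fin q → G × Multiplicative ℤ) : B :=
  ((mn b - mn a : ℤ) : B)

private noncomputable def ee (B : Type v) [CommRing B] (a : Fin q → G × Multiplicative ℤ) : B :=
  ((dg (a 0) - mn a : ℤ) : B)

private theorem l0_add (a b d : Fin q → G × Multiplicative ℤ) : l0 B a b + l0 B b d = l0 B a d := by
  unfold l0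
  push_cast
  ring

private theorem l0_eq (x y : Fin q → G × Multiplicative ℤ) :
    l0 B x y = lm B x y + (ee B y - ee B x) := by
  unfold l0 lm ee
  push_cast
  ring

private theorem l0_mul (g : G × Multiplicative ℤ) (a b : Fin q → G × Multiplicative ℤ) :
    l0 B (fun t => g * a t) (fun t => g * b t) = l0 B a b := by
  unfold l0
  rw [dg_mul, dg_mul]
  congr 1
  ring

private theorem lm_mul (g : G × Multiplicative ℤ) (a b : Fin q → G × Multiplicative ℤ) :
    lm B (fun t => g * a t) (fun t => g * b t) = lm B a b := by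
  unfold lm
  rw [mn_mul, mn_mul]
  congr 1
  ring

private theorem ee_mul (g : G × Multiplicative ℤ) (a : Fin q → G × Multiplicative ℤ) :
    ee B (fun t => g * a t) = ee B a := by
  unfold ee
  rw [mn_mul, dg_mul]
  congr 1
  ring

private theorem lm_sig (a b : Fin q → G × Multiplicative ℤ) :
    lm B (sig q ((c, 1) : G × Multiplicative ℤ) a) (sig q ((c, 1) : G × Multiplicative ℤ) b) =
      lm B a b := by
  unfold lm
  rw [mn_sig, mn_sig]

private theorem up_mul {k : ℕ} {ψ : (Fin k → Fin q → G) → B}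
    (hψ : ∀ g : G, g * c = c * g → ∀ v, ψ (fun j b => g * v j b) = ψ v)
    {g : G × Multiplicative ℤ}
    (hg : g * ((c, 1) : G × Multiplicative ℤ) = ((c, 1) : G × Multiplicative ℤ) * g)
    (v : Fin k → Fin q → G × Multiplicative ℤ) : up ψ (fun j b => g * v j b) = up ψ v :=
  hψ g.1 (comm_fst hg) fun j b => (v j b).1

private theorem up_sig {k : ℕ} {ψ : (Fin k → Fin q → G) → B}
    (hψ : ∀ v, ψ (fun j => sig q c (v j)) = ψ v) (v : Fin k → Fin q → G × Multiplicative ℤ) :
    up ψ (fun j => sig q ((c, 1) : G × Multiplicative ℤ) (v j)) = up ψ v := by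
  unfold up
  have h1 : (fun (j : Fin k) (b : Fin q) => (sig q ((c, 1) : G × Multiplicative ℤ) (v j) b).1) =
      fun j => sig q c fun b => (v j b).1 := by
    funext j b
    exact fst_sig (v j) b
  rw [h1]
  exact hψ fun j b => (v j b).1

private theorem split {μ : ℕ} {π : G → Subgroup.centralizer ({c} : Set G)}
    {φ : (Fin (n + 2) → Subgroup.centralizer ({c} : Set G)) → B}
    {ψ : (Fin (n + 2) → Fin q → G) → B} {β : (Fin (n + 1) → Fin q → G) → B}
    (hψc : ∀ v, dl ψ v = 0)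
    (heq : ∀ v, (μ : B) ^ (n + 2) * φ (fun j => π (v j 0)) = ψ v - (μ : B) * dl β v)
    (v : Fin (n + 3) → Fin q → G × Multiplicative ℤ) :
    (μ : B) ^ (n + 2) * fL π φ (fun j => v j 0) =
      pL (up ψ) (lm B) v + ((-(-1) ^ (n + 2)) * dl (pE (up ψ) (ee B)) v +
        (-(μ : B)) * dl (pL (up β) (l0 B)) v) := by
  have h1 := heq fun j b => (v j.castSucc b).1
  have h2 := dl_pL (up β) (l0 B) l0_add v
  have h3 := dl_pE (up ψ) (ee B) v
  have h0 : dl (up ψ) v = 0 := hψc fun j b => (v j b).1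
  rw [h0, zero_mul, zero_add] at h3
  rw [h2, h3]
  have h4 : fL π φ (fun j => v j 0) = φ (fun j => π (v j.castSucc 0).1) *
      l0 B (v (Fin.last (n + 1)).castSucc) (v (Fin.last (n + 2))) := rfl
  have h5 : pL (up ψ) (lm B) v = ψ (fun j b => (v j.castSucc b).1) *
      lm B (v (Fin.last (n + 1)).castSucc) (v (Fin.last (n + 2))) := rfl
  have h6 : pL (up ψ) (fun a b => ee B a - ee B b) v = ψ (fun j b => (v j.castSucc b).1) *
      (ee B (v (Fin.last (n + 1)).castSucc) - ee B (v (Fin.last (n + 2)))) := rfl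
  have h7 : pL (dl (up β)) (l0 B) v = dl β (fun j b => (v j.castSucc b).1) *
      l0 B (v (Fin.last (n + 1)).castSucc) (v (Fin.last (n + 2))) := rfl
  have h9 : ((-1 : B) ^ (n + 2)) * (-1) ^ (n + 2) = 1 := by
    rw [← mul_pow, neg_one_mul, neg_neg, one_pow]
  have h10 : (-(-1 : B) ^ (n + 2)) * ((-1) ^ (n + 1 + 1) * pL (up ψ) (fun a b => ee B a - ee B b) v) =
      -pL (up ψ) (fun a b => ee B a - ee B b) v := by
    have h11 : (-(-1 : B) ^ (n + 2)) *
        ((-1) ^ (n + 1 + 1) * pL (up ψ) (fun a b => ee B a - ee B b) v) =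
      -((((-1 : B) ^ (n + 2)) * (-1) ^ (n + 2)) * pL (up ψ) (fun a b => ee B a - ee B b) v) := by ring
    rw [h11, h9, one_mul]
  rw [h10, h4, h5, h6, h7, ← mul_assoc, h1,
    l0_eq (v (Fin.last (n + 1)).castSucc) (v (Fin.last (n + 2)))]
  ring

private theorem TQ_eq {μ : ℕ} {π : G → Subgroup.centralizer ({c} : Set G)}
    (hπ : ∀ (z : Subgroup.centralizer ({c} : Set G)) (g : G), π (z * g) = z * π g)
    {φ : (Fin (n + 2) → Subgroup.centralizer ({c} : Set G)) → B}
    (hφ : ∀ (g : Subgroup.centralizer ({c} : Set G)) x, φ (fun j => g * x j) = φ x)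
    {ψ : (Fin (n + 2) → Fin q → G) → B} {β : (Fin (n + 1) → Fin q → G) → B}
    (hψi : ∀ g : G, g * c = c * g → ∀ v, ψ (fun j b => g * v j b) = ψ v)
    (hβi : ∀ g : G, g * c = c * g → ∀ v, β (fun j b => g * v j b) = β v)
    (hψc : ∀ v, dl ψ v = 0)
    (heq : ∀ v, (μ : B) ^ (n + 2) * φ (fun j => π (v j 0)) = ψ v - (μ : B) * dl β v)
    {w : QC (MonoidAlgebra B (G × Multiplicative ℤ)) (n + 2)} (hw : qbd w ∈ QC0 G B (n + 1)) :
    (μ : B) ^ (n + 2) * TQ ((c, 1) : G × Multiplicative ℤ) (fL π φ) w =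
      TR q ((c, 1) : G × Multiplicative ℤ) (pL (up ψ) (lm B)) w := by
  rw [← TR_first q (CI_fL hπ hφ) w, ← TR_smul q]
  have h1 : (fun v : Fin (n + 3) → Fin q → G × Multiplicative ℤ =>
      (μ : B) ^ (n + 2) * fL π φ (fun j => v j 0)) = fun v =>
      pL (up ψ) (lm B) v + ((-(-1) ^ (n + 2)) * dl (pE (up ψ) (ee B)) v +
        (-(μ : B)) * dl (pL (up β) (l0 B)) v) := funext (split hψc heq)
  have hpE : CIq ((c, 1) : G × Multiplicative ℤ) q (pE (up ψ) (ee B)) := by
    intro g hg v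
    unfold pE
    rw [up_mul hψi hg, ee_mul]
  have hpL : CIq ((c, 1) : G × Multiplicative ℤ) q (pL (up β) (l0 B)) := by
    intro g hg v
    unfold pL
    rw [up_mul hβi hg, l0_mul]
  rw [h1, TR_add q, TR_add q, TR_smul q, TR_smul q, ← TR_bd q hpE, ← TR_bd q hpL,
    TR_half q hpE (fun v hv => ?_) hw, TR_half q hpL (fun v hv => ?_) hw, mul_zero, mul_zero,
    add_zero, add_zero]
  · unfold pL l0
    rw [hv (Fin.last (n + 1)) (Fin.last n).castSucc 0 0, sub_self, Int.cast_zero, mul_zero]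
  · unfold pE ee
    rw [mn_const fun t => hv (Fin.last (n + 1)) (Fin.last (n + 1)) t 0, sub_self, Int.cast_zero,
      mul_zero]

end aux

theorem key {p : ℕ} [Fact p.Prime] [IsDomain B] [CharZero B]
    (hsep : ∀ b : B, (∀ a : ℕ, (p : B) ^ a ∣ b) → b = 0) (hc : IsOfFinOrder c)
    (hpc : p ∣ orderOf c) {π : G → Subgroup.centralizer ({c} : Set G)}
    (hπ : ∀ (z : Subgroup.centralizer ({c} : Set G)) (g : G), π (z * g) = z * π g)
    {φ : (Fin (n + 2) → Subgroup.centralizer ({c} : Set G)) → B}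
    (hφ : IsCoc (Subgroup.centralizer ({c} : Set G)) n φ) (hmeas : Meas p c π φ)
    {w : QC (MonoidAlgebra B (G × Multiplicative ℤ)) (n + 2)} (hw : qbd w ∈ QC0 G B (n + 1)) :
    TQ ((c, 1) : G × Multiplicative ℤ) (fL π φ) w = 0 := by
  obtain ⟨μ, hμ, hM⟩ := hmeas
  have hc1 : IsOfFinOrder ((c, 1) : G × Multiplicative ℤ) := by
    rw [← orderOf_pos_iff, orderOf_c1]
    exact hc.orderOf_pos
  have hpc1 : p ∣ orderOf ((c, 1) : G × Multiplicative ℤ) := by
    rw [orderOf_c1]
    exact hpc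
  have main : ∀ a : ℕ, (p : B) ^ (a + 1) ∣
      (μ : B) ^ (n + 2) * TQ ((c, 1) : G × Multiplicative ℤ) (fL π φ) w := by
    intro a
    obtain ⟨m, hm⟩ := TR_dvd_ev hc1 hpc1 w a
    obtain ⟨ψ, β, hψi, hψr, hψc, hβi, heq⟩ := hM m
    have heq' : ∀ v : Fin (n + 2) → Fin (p ^ m) → G,
        (μ : B) ^ (n + 2) * φ (fun j => π (v j 0)) = ψ v - (μ : B) * dl β v := fun v =>
      heq (NeZero.pos (p ^ m)) v
    rw [TQ_eq hπ hφ.inv hψi hβi hψc heq' hw]
    refine hm m le_rfl _ (fun g hg v => ?_) fun v => ?_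
    · unfold pL
      rw [up_mul hψi hg, lm_mul]
    · unfold pL
      rw [up_sig hψr, lm_sig]
  have h0 : (μ : B) ^ (n + 2) * TQ ((c, 1) : G × Multiplicative ℤ) (fL π φ) w = 0 :=
    hsep _ fun a => (pow_dvd_pow _ (Nat.le_succ a)).trans (main a)
  rcases mul_eq_zero.1 h0 with h | h
  · exact absurd h (pow_ne_zero _ (Nat.cast_ne_zero.2 hμ))
  · exact h

/-- `fL` of a coboundary vanishes if the boundary is in `QC0` -/
theorem TQ_fL_dl {π : G → Subgroup.centralizer ({c} : Set G)}
    (hπ : ∀ (z : Subgroup.centralizer ({c} : Set G)) (g : G), π (z * g) = z * π g)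
    {ψ : (Fin (n + 1) → Subgroup.centralizer ({c} : Set G)) → B}
    (hψ : ∀ (g : Subgroup.centralizer ({c} : Set G)) x, ψ (fun j => g * x j) = ψ x)
    {w : QC (MonoidAlgebra B (G × Multiplicative ℤ)) (n + 2)} (hw : qbd w ∈ QC0 G B (n + 1)) :
    TQ ((c, 1) : G × Multiplicative ℤ) (fL π (dl ψ)) w = 0 := by
  have h1 : fL π (dl ψ) = dl (pL (fun v : Fin (n + 1) → G × Multiplicative ℤ =>
      ψ fun j => π (v j).1) (ldg B)) := by
    funext v
    rw [dl_pL _ _ (fun a b d => by
      show ((dg b - dg a : ℤ) : B) + ((dg d - dg b : ℤ) : B) = ((dg d - dg a : ℤ) : B)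
      push_cast
      ring)]
    rfl
  have h2 : CI ((c, 1) : G × Multiplicative ℤ)
      (pL (fun v : Fin (n + 1) → G × Multiplicative ℤ => ψ fun j => π (v j).1) (ldg B)) :=
    CI_pL hπ hψ
  rw [h1, ← TQ_bd h2]
  refine TQ_half h2 (fun v hv => ?_) hw
  unfold pL ldg
  rw [hv (Fin.last (n + 1)) (Fin.last n).castSucc, sub_self, Int.cast_zero, mul_zero]

end

end Pool.Agent.H16.KN
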