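import Pool.Agent.H16.KN.LinAN

/-!
# Project KN, module LinBN: the functionals vanish on the relations

The version of `Pool/Agent/H8/KZ/LinB.lean` for symbols with homology classes `z ∈ H_{k+1}(Z_G(D); ℤ)`.
`linalgN` : general form (a set `T` of Galois automorphisms); `linalgN'` : the form used in KN (`T` one element).
-/

set_option autoImplicit false

open NumberField

universe u v w

namespace Pool.Agent.H16.KN

open Pool.Agent.H95.KM
open Pool.Agent.H8.KZ (galN gO permPr)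
open Pool.Agent.H71.FQ (HG HG.map centConj)

section linBaux

/-- the coefficient of the element `d` of `C i` -/
private noncomputable def linBu {L : Type} [Field L] [NumberField L] {N : ℕ} [NeZero N]
    {G : Type v} [Group G] {ι : Type} (C : ι → Good G N) [∀ i, Fintype (C i).1]
    (n : ∀ i, ((C i).1 →* (𝓞 L)ˣ) → Pr (𝓞 L) N → ℤ) (c : G)
    (j : Σ i, ((C i).1 →* (𝓞 L)ˣ) × (C i).1) (m : Pr (𝓞 L) N) : L :=
  open Classical in
  if IsConj c (j.2.2 : G) then (n j.1 j.2.1 m : L) * ((Fintype.card (C j.1).1 : L)⁻¹ *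
    algebraMap (𝓞 L) L (((j.2.1 j.2.2)⁻¹ : (𝓞 L)ˣ) : 𝓞 L)) else 0

private theorem linB_class {L : Type} [Field L] [NumberField L] (N : ℕ) [NeZero N]
    {G : Type v} [Group G] {k : ℕ} (pr : Pr (𝓞 L) N → ℕ)
    [Fintype (Pr (𝓞 L) N)] {ι : Type} [Fintype ι] (C : ι → Good G N)
    [∀ i, Fintype (C i).1] [∀ i, Fintype ((C i).1 →* (𝓞 L)ˣ)] [Fintype (L ≃ₐ[ℚ] L)]
    (n : ∀ i, ((C i).1 →* (𝓞 L)ˣ) → Pr (𝓞 L) N → ℤ)
    (z : ∀ i, HG (Subgroup.centralizer ((C i).1 : Set G)) k) (c : G)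
    (hh : Pr (𝓞 L) N → (HG (Subgroup.centralizer ({c} : Set G)) k →+ L))
    (hgal : ∀ m (σ : L ≃ₐ[ℚ] L) y, permPr (gO σ) N m = m → σ (hh m y) = hh m y)
    (hvan : ∀ m, ¬ pr m ∣ orderOf c → ∀ y, hh m y = 0)
    (hsum : ∀ y, ∑ m, hh m y = 0)
    (hrel : ∃ (r : ℕ) (w : Fin r → L)
      (a : Fin r → HG (Subgroup.centralizer ({c} : Set G)) k), ∀ m : Pr (𝓞 L) N,
        pr m ∣ orderOf c →
        ∃ (p : ℕ) (T : Type) (_ : Fintype T) (_ : Nonempty T) (σ : T → (L ≃ₐ[ℚ] L)),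
          PSepA p (HG (Subgroup.centralizer ({c} : Set G)) k) ∧
          (∀ t, permPr (gO (σ t)) N m = m) ∧
          ∀ lam : HG (Subgroup.centralizer ({c} : Set G)) k →+ ℚ,
            (∀ y, ¬ p ∣ (lam y).den) →
            ∑ t, σ t (∑ i, ∑ χ : (C i).1 →* (𝓞 L)ˣ, (n i χ m : L) *
              ((Fintype.card (C i).1 : L)⁻¹ * ∑ d : (C i).1,
                algebraMap (𝓞 L) L (((χ d)⁻¹ : (𝓞 L)ˣ) : 𝓞 L) *
                  ((lam (trc k c (C i).1 d (z i)) : ℚ) : L))) =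
            ∑ t, σ t (∑ s, w s * ((lam (a s) : ℚ) : L))) :
    ∑ g : L ≃ₐ[ℚ] L, g (∑ m, ∑ j : (Σ i, ((C i).1 →* (𝓞 L)ˣ) × (C i).1),
      linBu C n c j m * hh m (trc k c (C j.1).1 j.2.2 (z j.1))) = 0 := by
  classical
  obtain ⟨r, w, a, hrel⟩ := hrel
  refine class_zeroA (X := HG (Subgroup.centralizer ({c} : Set G)) k) (L := L)
    (Γ := L ≃ₐ[ℚ] L)
    (fun g => (g : L ≃ₐ[ℚ] L).toRingEquiv.toRingHom) (fun g g' x => rfl) hh hsum
    (K := Σ i, ((C i).1 →* (𝓞 L)ˣ) × (C i).1) (linBu C n c)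
    (fun j => trc k c (C j.1).1 j.2.2 (z j.1)) w a ?_
  intro m
  by_cases hm : pr m ∣ orderOf c
  · right
    obtain ⟨p, T, iT, nT, σ, hp, hσ, hl⟩ := hrel m hm
    refine ⟨p, T, iT, nT, σ, hp, fun t y => hgal m (σ t) y (hσ t), ?_⟩
    intro lam hlam
    have h2 := hl lam hlam
    have h3 : (∑ j : (Σ i, ((C i).1 →* (𝓞 L)ˣ) × (C i).1),
        linBu C n c j m * ((lam (trc k c (C j.1).1 j.2.2 (z j.1)) : ℚ) : L)) =
        ∑ i, ∑ χ : (C i).1 →* (𝓞 L)ˣ, (n i χ m : L) *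
            ((Fintype.card (C i).1 : L)⁻¹ * ∑ d : (C i).1,
              algebraMap (𝓞 L) L (((χ d)⁻¹ : (𝓞 L)ˣ) : 𝓞 L) *
                ((lam (trc k c (C i).1 d (z i)) : ℚ) : L)) := by
      rw [Fintype.sum_sigma]
      refine Finset.sum_congr rfl fun i _ => ?_
      rw [Fintype.sum_prod_type]
      refine Finset.sum_congr rfl fun χ _ => ?_
      rw [Finset.mul_sum, Finset.mul_sum]
      refine Finset.sum_congr rfl fun d _ => ?_
      unfold linBu
      by_cases hcd : IsConj c (d : G)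
      · rw [if_pos hcd]
        ring
      · rw [if_neg hcd, trc_of_not hcd]
        simp
    rw [← h3] at h2
    exact h2
  · left
    exact hvan m hm

end linBaux

open Classical in
theorem linalgN {L : Type} [Field L] [NumberField L] (N : ℕ) [NeZero N]
    [HasEnoughRootsOfUnity (𝓞 L) N] {G : Type v} [Group G] {k : ℕ} (pr : Pr (𝓞 L) N → ℕ)
    [Fintype (Pr (𝓞 L) N)] (Λ : FunN L N G k pr) {ι : Type} [Fintype ι] (C : ι → Good G N)
    [∀ i, Fintype (C i).1] [∀ i, Fintype ((C i).1 →* (𝓞 L)ˣ)]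
    (n : ∀ i, ((C i).1 →* (𝓞 L)ˣ) → Pr (𝓞 L) N → ℤ)
    (z : ∀ i, HG (Subgroup.centralizer ((C i).1 : Set G)) k)
    (hrel : ∀ (c : G), IsOfFinOrder c → ∃ (r : ℕ) (w : Fin r → L)
      (a : Fin r → HG (Subgroup.centralizer ({c} : Set G)) k), ∀ m : Pr (𝓞 L) N,
        pr m ∣ orderOf c →
        ∃ (p : ℕ) (T : Type) (_ : Fintype T) (_ : Nonempty T) (σ : T → (L ≃ₐ[ℚ] L)),
          PSepA p (HG (Subgroup.centralizer ({c} : Set G)) k) ∧
          (∀ t, permPr (gO (σ t)) N m = m) ∧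
          ∀ lam : HG (Subgroup.centralizer ({c} : Set G)) k →+ ℚ,
            (∀ y, ¬ p ∣ (lam y).den) →
            ∑ t, σ t (∑ i, ∑ χ : (C i).1 →* (𝓞 L)ˣ, (n i χ m : L) *
              ((Fintype.card (C i).1 : L)⁻¹ * ∑ d : (C i).1,
                algebraMap (𝓞 L) L (((χ d)⁻¹ : (𝓞 L)ˣ) : 𝓞 L) *
                  ((lam (trc k c (C i).1 d (z i)) : ℚ) : L))) =
            ∑ t, σ t (∑ s, w s * ((lam (a s) : ℚ) : L))) :
    ∑ i, Λ.F (C i) (n i) (z i) = 0 := by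
  classical
  let _ : Fintype (L ≃ₐ[ℚ] L) := Fintype.ofFinite _
  obtain ⟨hh, hgal, hvan, hsum, hexp⟩ := exists_hhN N pr Λ
  -- the finite set of classes
  obtain ⟨Q, hQ⟩ : ∃ Q : Finset (ConjClasses G), Q = Finset.univ.biUnion fun i =>
      Finset.univ.image fun d : (C i).1 => ConjClasses.mk (d : G) := ⟨_, rfl⟩
  have hmemQ : ∀ (i : ι) (d : (C i).1), ConjClasses.mk (d : G) ∈ Q := by
    intro i d
    rw [hQ, Finset.mem_biUnion]
    exact ⟨i, Finset.mem_univ i, Finset.mem_image_of_mem _ (Finset.mem_univ d)⟩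
  have hrep : ∀ γ : ConjClasses G, ∃ c : G, ConjClasses.mk c = γ := fun γ => γ.exists_rep
  choose rp hrp using hrep
  have hconj : ∀ (γ : ConjClasses G) (x : G), IsConj (rp γ) x ↔ γ = ConjClasses.mk x := by
    intro γ x
    rw [← ConjClasses.mk_eq_mk_iff_isConj, hrp]
  have hmain : ((∑ i, Λ.F (C i) (n i) (z i) : ℚ) : L) = ∑ γ ∈ Q,
      ∑ m, ∑ j : (Σ i, ((C i).1 →* (𝓞 L)ˣ) × (C i).1),
        linBu C n (rp γ) j m * hh (rp γ) m (trc k (rp γ) (C j.1).1 j.2.2 (z j.1)) := by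
    rw [Rat.cast_sum, Finset.sum_comm]
    have h1 : ∀ i, (Λ.F (C i) (n i) (z i) : L) = ∑ m, ∑ χ : (C i).1 →* (𝓞 L)ˣ, ∑ d : (C i).1,
        ∑ γ ∈ Q, linBu C n (rp γ) ⟨i, χ, d⟩ m *
          hh (rp γ) m (trc k (rp γ) (C i).1 d (z i)) := by
      intro i
      rw [hexp (fun d => rp (ConjClasses.mk d)) (fun d => (hconj _ _).2 rfl) (C i) (n i) (z i)]
      refine Finset.sum_congr rfl fun m _ => Finset.sum_congr rfl fun χ _ => ?_
      rw [Finset.mul_sum, Finset.mul_sum]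
      refine Finset.sum_congr rfl fun d _ => ?_
      rw [Finset.sum_eq_single (ConjClasses.mk (d : G))]
      · unfold linBu
        have h3 : IsConj (rp (ConjClasses.mk (d : G))) (d : G) := (hconj _ _).2 rfl
        rw [if_pos h3]
        ring
      · intro γ _ hγ
        unfold linBu
        rw [if_neg (fun h3 => hγ ((hconj _ _).1 h3)), zero_mul]
      · intro h3
        exact absurd (hmemQ i d) h3
    rw [Finset.sum_congr rfl fun i _ => h1 i, Finset.sum_comm]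
    refine Finset.sum_congr rfl fun m _ => ?_
    rw [Finset.sum_comm (s := Q), Fintype.sum_sigma]
    refine Finset.sum_congr rfl fun i _ => ?_
    rw [Fintype.sum_prod_type]
  -- the sum over the Galois group
  have hz : ∑ g : L ≃ₐ[ℚ] L, g ((∑ i, Λ.F (C i) (n i) (z i) : ℚ) : L) = 0 := by
    rw [hmain]
    simp only [map_sum (_ : L ≃ₐ[ℚ] L) _ Q]
    rw [Finset.sum_comm]
    refine Finset.sum_eq_zero fun γ hγ => ?_
    rw [hQ, Finset.mem_biUnion] at hγ
    obtain ⟨i₀, -, hγ⟩ := hγ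
    obtain ⟨d₀, -, hd₀⟩ := Finset.mem_image.1 hγ
    have hcd : IsConj (rp γ) (d₀ : G) := (hconj _ _).2 hd₀.symm
    have hord : orderOf (rp γ) = orderOf (d₀ : G) := by
      obtain ⟨g, hg⟩ := isConj_iff.1 hcd
      have h4 : SemiconjBy g (rp γ) (d₀ : G) := by
        unfold SemiconjBy
        rw [← hg]; group
      exact h4.orderOf_eq
    have hpos : 0 < orderOf (rp γ) := by
      rw [hord, Subgroup.orderOf_coe]
      exact orderOf_pos d₀
    have hfin : IsOfFinOrder (rp γ) := orderOf_pos_iff.1 hpos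
    have h5 := linB_class N pr C n z (rp γ) (hh (rp γ)) ?_ (hvan (rp γ)) (hsum (rp γ))
      (hrel (rp γ) hfin)
    · exact h5
    · intro m σ y hm
      rw [← hgal (rp γ) m σ y, hm]
  have h6 : (Fintype.card (L ≃ₐ[ℚ] L) : L) * ((∑ i, Λ.F (C i) (n i) (z i) : ℚ) : L) = 0 := by
    rw [← hz, ← nsmul_eq_mul, ← Finset.card_univ, ← Finset.sum_const]
    refine Finset.sum_congr rfl fun g _ => ?_
    rw [map_ratCast]
  have h7 : (Fintype.card (L ≃ₐ[ℚ] L) : L) ≠ 0 := by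
    have : Fintype.card (L ≃ₐ[ℚ] L) ≠ 0 := Fintype.card_ne_zero
    exact_mod_cast this
  have h8 := (mul_eq_zero.1 h6).resolve_left h7
  exact_mod_cast h8

theorem permPr_refl' {O : Type} [CommRing O] (N : ℕ) (m : Pr O N) :
    permPr (RingEquiv.refl O) N m = m := by
  apply MaximalSpectrum.ext
  apply Ideal.ext
  intro x
  obtain ⟨a, rfl⟩ := Ideal.Quotient.mk_surjective x
  exact Pool.Agent.H8.KZ.mem_permPr_mk (RingEquiv.refl O) N m a

/-- The form without Galois automorphisms: for every `c` of finite order one class `W = ∑ w s • a s` in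
`H_{k+1}(Z_G(c)) ⊗ L` for all `m` above the prime divisors of the order of `c`. -/
theorem linalgN' {L : Type} [Field L] [NumberField L] (N : ℕ) [NeZero N]
    [HasEnoughRootsOfUnity (𝓞 L) N] {G : Type v} [Group G] {k : ℕ} (pr : Pr (𝓞 L) N → ℕ)
    [Fintype (Pr (𝓞 L) N)] (Λ : FunN L N G k pr) {ι : Type} [Fintype ι] (C : ι → Good G N)
    [∀ i, Fintype (C i).1] [∀ i, Fintype ((C i).1 →* (𝓞 L)ˣ)]
    (n : ∀ i, ((C i).1 →* (𝓞 L)ˣ) → Pr (𝓞 L) N → ℤ)
    (z : ∀ i, HG (Subgroup.centralizer ((C i).1 : Set G)) k)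
    (hrel : ∀ (c : G), IsOfFinOrder c → ∃ (r : ℕ) (w : Fin r → L)
      (a : Fin r → HG (Subgroup.centralizer ({c} : Set G)) k), ∀ m : Pr (𝓞 L) N,
        pr m ∣ orderOf c →
        ∃ p : ℕ, PSepA p (HG (Subgroup.centralizer ({c} : Set G)) k) ∧
          ∀ lam : HG (Subgroup.centralizer ({c} : Set G)) k →+ ℚ,
            (∀ y, ¬ p ∣ (lam y).den) →
            ∑ i, ∑ χ : (C i).1 →* (𝓞 L)ˣ, (n i χ m : L) *
              ((Fintype.card (C i).1 : L)⁻¹ * ∑ d : (C i).1,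
                algebraMap (𝓞 L) L (((χ d)⁻¹ : (𝓞 L)ˣ) : 𝓞 L) *
                  ((lam (trc k c (C i).1 d (z i)) : ℚ) : L)) =
            ∑ s, w s * ((lam (a s) : ℚ) : L)) :
    ∑ i, Λ.F (C i) (n i) (z i) = 0 := by
  refine linalgN N pr Λ C n z ?_
  intro c hc
  obtain ⟨r, w, a, h⟩ := hrel c hc
  refine ⟨r, w, a, fun m hm => ?_⟩
  obtain ⟨p, hp, hl⟩ := h m hm
  refine ⟨p, Unit, inferInstance, inferInstance, fun _ => 1, hp, fun _ => ?_, ?_⟩
  · have h1 : gO (1 : L ≃ₐ[ℚ] L) = RingEquiv.refl (𝓞 L) := by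
      apply RingEquiv.ext
      intro x
      apply RingOfIntegers.ext
      rfl
    rw [h1]
    exact permPr_refl' N m
  · intro lam hlam
    simp only [Finset.univ_unique, Finset.sum_singleton, AlgEquiv.one_apply]
    exact hl lam hlam

end Pool.Agent.H16.KN
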