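import Pool.Agent.H16.KN.DefsA

/-!
# Project KN: the symbols
-/

set_option autoImplicit false

universe u v w

namespace Pool.Agent.H16.KN

open Pool.Agent.H95.KM (Km1 ind)
open Pool.Agent.H95.WH (FamSub conjHom FinSub)
open Pool.Agent.H71.FQ (HG HG.map centConj)

variable {k : Type u} [Ring k] {G : Type v} [Group G] {n : ℕ}

/-- The projection. -/
noncomputable def toHn (k : Type u) [Ring k] (G : Type v) [Group G] (n : ℕ) :
    FreeAbelianGroup (SymN k G n) →+ HnKm1 k G n := QuotientAddGroup.mk' (SymRel k G n)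

/-- The symbol `[F, x, z]`. -/
noncomputable def sym (F : FamSub G FinSub) (x : Km1 (MonoidAlgebra k F.1))
    (z : HG (Subgroup.centralizer (F.1 : Set G)) n) : HnKm1 k G n :=
  QuotientAddGroup.mk (FreeAbelianGroup.of ⟨F, x, z⟩)

theorem toHn_eq_zero {w : FreeAbelianGroup (SymN k G n)} (h : w ∈ SymRel k G n) :
    toHn k G n w = 0 :=
  (QuotientAddGroup.eq_zero_iff _).2 h

theorem sym_add (F : FamSub G FinSub) (x y : Km1 (MonoidAlgebra k F.1))
    (z : HG (Subgroup.centralizer (F.1 : Set G)) n) :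
    sym F (x + y) z = sym F x z + sym F y z := by
  have h : toHn k G n (symX k G n F x y z) = 0 :=
    toHn_eq_zero (AddSubgroup.subset_closure (Or.inl (Or.inl ⟨F, x, y, z, rfl⟩)))
  unfold symX at h
  rw [map_sub, map_add, sub_eq_zero] at h
  exact h

theorem sym_addz (F : FamSub G FinSub) (x : Km1 (MonoidAlgebra k F.1))
    (z z' : HG (Subgroup.centralizer (F.1 : Set G)) n) :
    sym F x (z + z') = sym F x z + sym F x z' := by
  have h : toHn k G n (symZ k G n F x z z') = 0 :=
    toHn_eq_zero (AddSubgroup.subset_closure (Or.inl (Or.inr ⟨F, x, z, z', rfl⟩)))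
  unfold symZ at h
  rw [map_sub, map_add, sub_eq_zero] at h
  exact h

theorem sym_conj (F F' : FamSub G FinSub) (g : G) (h : ∀ x ∈ F.1, g * x * g⁻¹ ∈ F'.1)
    (x : Km1 (MonoidAlgebra k F.1)) (z : HG (Subgroup.centralizer (F'.1 : Set G)) n) :
    sym F' (ind k (conjHom g F.1 F'.1 h) x) z = sym F x (HG.map n (centConj g F.1 F'.1 h) z) := by
  have h' : toHn k G n (symC k G n F F' g h x z) = 0 :=
    toHn_eq_zero (AddSubgroup.subset_closure (Or.inr ⟨F, F', g, h, x, z, rfl⟩))
  unfold symC at h'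
  rw [map_sub, sub_eq_zero] at h'
  exact h'

/-- the symbol as a homomorphism in the `K₋₁`-variable -/
noncomputable def symH (F : FamSub G FinSub) (z : HG (Subgroup.centralizer (F.1 : Set G)) n) :
    Km1 (MonoidAlgebra k F.1) →+ HnKm1 k G n :=
  AddMonoidHom.mk' (fun x => sym F x z) (fun x y => sym_add F x y z)

theorem symH_apply (F : FamSub G FinSub) (x : Km1 (MonoidAlgebra k F.1))
    (z : HG (Subgroup.centralizer (F.1 : Set G)) n) : symH F z x = sym F x z := rfl

/-- the symbol as a homomorphism in the homology variable -/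
noncomputable def symHz (F : FamSub G FinSub) (x : Km1 (MonoidAlgebra k F.1)) :
    HG (Subgroup.centralizer (F.1 : Set G)) n →+ HnKm1 k G n :=
  AddMonoidHom.mk' (fun z => sym F x z) (fun z z' => sym_addz F x z z')

theorem symHz_apply (F : FamSub G FinSub) (x : Km1 (MonoidAlgebra k F.1))
    (z : HG (Subgroup.centralizer (F.1 : Set G)) n) : symHz F x z = sym F x z := rfl

theorem sym_induction {P : HnKm1 k G n → Prop} (h0 : P 0)
    (h1 : ∀ (F : FamSub G FinSub) (x : Km1 (MonoidAlgebra k F.1))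
      (z : HG (Subgroup.centralizer (F.1 : Set G)) n), P (sym F x z))
    (h2 : ∀ a b, P a → P b → P (a + b)) (h3 : ∀ a, P a → P (-a)) (w : HnKm1 k G n) : P w := by
  obtain ⟨y, rfl⟩ : ∃ y, toHn k G n y = w := QuotientAddGroup.mk_surjective w
  induction y using FreeAbelianGroup.induction_on with
  | zero => rw [map_zero]; exact h0
  | of s => exact h1 s.F s.x s.z
  | neg s _ =>
    rw [map_neg]
    exact h3 _ (h1 s.F s.x s.z)
  | add x y hx hy => rw [map_add]; exact h2 _ _ hx hy

/-- Homomorphisms out of `HnKm1`. -/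
noncomputable def HnKm1.lift {M : Type w} [AddCommGroup M]
    (f : ∀ F : FamSub G FinSub, Km1 (MonoidAlgebra k F.1) →+
      HG (Subgroup.centralizer (F.1 : Set G)) n →+ M)
    (hf : ∀ (F F' : FamSub G FinSub) (g : G) (h : ∀ x ∈ F.1, g * x * g⁻¹ ∈ F'.1)
      (x : Km1 (MonoidAlgebra k F.1)) (z : HG (Subgroup.centralizer (F'.1 : Set G)) n),
      f F' (ind k (conjHom g F.1 F'.1 h) x) z = f F x (HG.map n (centConj g F.1 F'.1 h) z)) :
    HnKm1 k G n →+ M :=
  QuotientAddGroup.lift (SymRel k G n) (FreeAbelianGroup.lift fun s : SymN k G n => f s.F s.x s.z)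
    (by
      rw [SymRel, AddSubgroup.closure_le]
      rintro w ((⟨F, x, y, z, rfl⟩ | ⟨F, x, z, z', rfl⟩) | ⟨F, F', g, h, x, z, rfl⟩)
      · change FreeAbelianGroup.lift _ _ = 0
        rw [symX, symOf, symOf, symOf, map_sub, map_add, FreeAbelianGroup.lift_apply_of,
          FreeAbelianGroup.lift_apply_of, FreeAbelianGroup.lift_apply_of, map_add,
          AddMonoidHom.add_apply, sub_self]
      · change FreeAbelianGroup.lift _ _ = 0
        rw [symZ, symOf, symOf, symOf, map_sub, map_add, FreeAbelianGroup.lift_apply_of,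
          FreeAbelianGroup.lift_apply_of, FreeAbelianGroup.lift_apply_of, map_add, sub_self]
      · change FreeAbelianGroup.lift _ _ = 0
        rw [symC, symOf, symOf, map_sub, FreeAbelianGroup.lift_apply_of,
          FreeAbelianGroup.lift_apply_of, sub_eq_zero]
        exact hf F F' g h x z)

theorem HnKm1.lift_sym {M : Type w} [AddCommGroup M]
    (f : ∀ F : FamSub G FinSub, Km1 (MonoidAlgebra k F.1) →+
      HG (Subgroup.centralizer (F.1 : Set G)) n →+ M)
    (hf : ∀ (F F' : FamSub G FinSub) (g : G) (h : ∀ x ∈ F.1, g * x * g⁻¹ ∈ F'.1)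
      (x : Km1 (MonoidAlgebra k F.1)) (z : HG (Subgroup.centralizer (F'.1 : Set G)) n),
      f F' (ind k (conjHom g F.1 F'.1 h) x) z = f F x (HG.map n (centConj g F.1 F'.1 h) z))
    (F : FamSub G FinSub) (x : Km1 (MonoidAlgebra k F.1))
    (z : HG (Subgroup.centralizer (F.1 : Set G)) n) :
    HnKm1.lift f hf (sym F x z) = f F x z := by
  have h : FreeAbelianGroup.lift (fun s : SymN k G n => f s.F s.x s.z)
      (FreeAbelianGroup.of ⟨F, x, z⟩) = f F x z := FreeAbelianGroup.lift_apply_of _ _
  exact h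

/-- the inclusion of the centralizers for `D ≤ F` -/
def centIncl (D F : Subgroup G) (h : D ≤ F) :
    Subgroup.centralizer (F : Set G) →* Subgroup.centralizer (D : Set G) :=
  Subgroup.inclusion (Subgroup.centralizer_le h)

/-- Restriction to a subgroup. -/
theorem sym_incl (F D : FamSub G FinSub) (h : D.1 ≤ F.1) (x : Km1 (MonoidAlgebra k D.1))
    (z : HG (Subgroup.centralizer (F.1 : Set G)) n) :
    sym F (ind k (Subgroup.inclusion h) x) z = sym D x (HG.map n (centIncl D.1 F.1 h) z) := by
  have h1 : ∀ x ∈ D.1, (1 : G) * x * (1 : G)⁻¹ ∈ F.1 := by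
    intro x hx
    rw [one_mul, inv_one, mul_one]
    exact h hx
  have h2 := sym_conj (k := k) D F 1 h1 x z
  have h3 : conjHom (1 : G) D.1 F.1 h1 = Subgroup.inclusion h := by
    apply MonoidHom.ext
    intro a
    apply Subtype.ext
    change (1 : G) * a * (1 : G)⁻¹ = a
    rw [one_mul, inv_one, mul_one]
  have h4 : centConj (1 : G) D.1 F.1 h1 = centIncl D.1 F.1 h := by
    apply MonoidHom.ext
    intro z'
    apply Subtype.ext
    change (1 : G)⁻¹ * z' * 1 = z'
    rw [inv_one, one_mul, mul_one]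
  rw [h3, h4] at h2
  exact h2

end Pool.Agent.H16.KN
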