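import Pool.Agent.H16.KN.LinDN
import Pool.Agent.H16.KN.SymN
import Pool.Agent.H8.KZ.Gal
import Pool.Agent.H95.KM.Main

/-!
# Project KN, module ThN: the functionals given by the classes `Θ(n)` and the transfer

The version of `Pool/Agent/H8/KZ/ThZ.lean` for symbols with homology classes.
-/

set_option autoImplicit false

open NumberField

universe u v w

namespace Pool.Agent.H16.KN

open Pool.Agent.H95.KM
open Pool.Agent.H95.WH (conjHom FinSub)
open Pool.Agent.H8.KZ (galN gO permPr mem_permPr permPr_trans Theta_gal_ext)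
open Pool.Agent.H71.FQ (HG HG.map centConj)

private theorem thz_galN_add {O : Type} [CommRing O] (N : ℕ) {C : Type v} [Group C] (σ : O ≃+* O)
    (n n' : (C →* Oˣ) → Pr O N → ℤ) : galN N σ (n + n') = galN N σ n + galN N σ n' := rfl

private theorem thz_galN_comp {O : Type} [CommRing O] (N : ℕ) {C C' : Type v} [Group C] [Group C']
    (σ : O ≃+* O) (c : C →* C') (n : (C →* Oˣ) → Pr O N → ℤ) :
    galN N σ (fun (χ : C' →* Oˣ) m => n (χ.comp c) m) = fun χ m => galN N σ n (χ.comp c) m := rfl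

private theorem thz_galN_const {O : Type} [CommRing O] (N : ℕ) {C : Type v} [Group C]
    (σ : O ≃+* O) (f : (C →* Oˣ) → ℤ) :
    galN N σ (fun χ (_ : Pr O N) => f χ) =
      fun χ (_ : Pr O N) => f ((Units.map (σ.symm : O →* O)).comp χ) := rfl

private theorem thz_galN_van {O : Type} [CommRing O] (N : ℕ) {C : Type v} [Group C]
    (σ : O ≃+* O) (n : (C →* Oˣ) → Pr O N → ℤ) (c : ℕ)
    (h : ∀ χ m, n χ m ≠ 0 → (c : Amod O N) ∉ m.asIdeal) :
    ∀ χ m, galN N σ n χ m ≠ 0 → (c : Amod O N) ∉ m.asIdeal := by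
  intro χ m hne hmem
  apply h _ _ hne
  rw [← mem_permPr σ N, map_natCast, Equiv.apply_symm_apply]
  exact hmem

private theorem thz_gO_mul {L : Type} [Field L] [NumberField L] (σ τ : L ≃ₐ[ℚ] L) :
    gO (σ * τ) = (gO τ).trans (gO σ) := by
  apply RingEquiv.ext
  intro x
  apply RingOfIntegers.ext
  rfl

private theorem thz_galN_mul {L : Type} [Field L] [NumberField L] (N : ℕ) {C : Type v} [Group C]
    (σ τ : L ≃ₐ[ℚ] L) (n : (C →* (𝓞 L)ˣ) → Pr (𝓞 L) N → ℤ) :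
    galN N (gO σ) (galN N (gO τ) n) = galN N (gO (σ * τ)) n := by
  funext χ m
  have h1 : (permPr (gO (σ * τ)) N).symm m =
      (permPr (gO τ) N).symm ((permPr (gO σ) N).symm m) := by
    rw [Equiv.symm_apply_eq, thz_gO_mul, permPr_trans, Equiv.apply_symm_apply,
      Equiv.apply_symm_apply]
  have h2 : (Units.map ((gO (σ * τ)).symm : 𝓞 L →* 𝓞 L)).comp χ =
      (Units.map ((gO τ).symm : 𝓞 L →* 𝓞 L)).comp
        ((Units.map ((gO σ).symm : 𝓞 L →* 𝓞 L)).comp χ) := by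
    rw [thz_gO_mul]
    rfl
  unfold galN
  rw [h1, h2]

section term

variable {L : Type} [Field L] [NumberField L] (N : ℕ) [NeZero N]
  [HasEnoughRootsOfUnity (𝓞 L) N] [Finite (Amod (𝓞 L) N)] {G : Type v} [Group G] {k : ℕ}
  (φ : HnKm1 ℤ G k →+ ℚ)
  (res : ∀ (H : Type v) [Group H], Km1 (MonoidAlgebra (𝓞 L) H) →+ Km1 (MonoidAlgebra ℤ H))

/-- the term of the sum -/
private noncomputable def thz_tm (D : Good G N) (n : (D.1 →* (𝓞 L)ˣ) → Pr (𝓞 L) N → ℤ)
    (z : HG (Subgroup.centralizer (D.1 : Set G)) k) : ℚ :=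
  haveI : Finite D.1 := D.2.1.1
  φ (sym (⟨D.1, D.2.1.1⟩ : Pool.Agent.H95.WH.FamSub G FinSub)
    (res D.1 (Theta N D.1 (comm_of_cyclic D.2.1.2) D.2.2 n)) z)

private theorem thz_tm_add (D : Good G N) (n n' : (D.1 →* (𝓞 L)ˣ) → Pr (𝓞 L) N → ℤ)
    (z : HG (Subgroup.centralizer (D.1 : Set G)) k) :
    thz_tm N φ res D (n + n') z = thz_tm N φ res D n z + thz_tm N φ res D n' z := by
  have : Finite D.1 := D.2.1.1
  unfold thz_tm
  rw [Theta_add, map_add, sym_add, map_add]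

private theorem thz_tm_mul (D : Good G N) (n : (D.1 →* (𝓞 L)ˣ) → Pr (𝓞 L) N → ℤ)
    (z z' : HG (Subgroup.centralizer (D.1 : Set G)) k) :
    thz_tm N φ res D n (z + z') = thz_tm N φ res D n z + thz_tm N φ res D n z' := by
  unfold thz_tm
  rw [sym_addz, map_add]

private theorem thz_tm_zero (D : Good G N) (n : (D.1 →* (𝓞 L)ˣ) → Pr (𝓞 L) N → ℤ)
    (z : HG (Subgroup.centralizer (D.1 : Set G)) k) (h : haveI : Finite D.1 := D.2.1.1
      Theta N D.1 (comm_of_cyclic D.2.1.2) D.2.2 n = 0) :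
    thz_tm N φ res D n z = 0 := by
  have : Finite D.1 := D.2.1.1
  unfold thz_tm
  rw [h, map_zero]
  change φ (symH (⟨D.1, D.2.1.1⟩ : Pool.Agent.H95.WH.FamSub G FinSub) z 0) = 0
  rw [map_zero, map_zero]

private theorem thz_tm_nat
    (hnat : ∀ (H H' : Type v) [Group H] [Group H'] (f : H →* H')
      (x : Km1 (MonoidAlgebra (𝓞 L) H)), res H' (ind (𝓞 L) f x) = ind ℤ f (res H x))
    (D D' : Good G N) (g : G) (h : ∀ x ∈ D.1, g * x * g⁻¹ ∈ D'.1)
    (n : (D.1 →* (𝓞 L)ˣ) → Pr (𝓞 L) N → ℤ) (z : HG (Subgroup.centralizer (D'.1 : Set G)) k) :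
    thz_tm N φ res D' (fun χ m => n (χ.comp (conjHom g D.1 D'.1 h)) m) z =
      thz_tm N φ res D n (HG.map k (centConj g D.1 D'.1 h) z) := by
  have : Finite D.1 := D.2.1.1
  have : Finite D'.1 := D'.2.1.1
  unfold thz_tm
  rw [Theta_map N D.1 (comm_of_cyclic D.2.1.2) D.2.2 D'.1, hnat]
  congr 1
  exact sym_conj (⟨D.1, D.2.1.1⟩ : Pool.Agent.H95.WH.FamSub G FinSub) ⟨D'.1, D'.2.1.1⟩ g h _ z

private theorem thz_tm_val (d : ℕ)
    (hres : ∀ (H : Type v) [Group H] (x : Km1 (MonoidAlgebra ℤ H)),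
      res H (Km1.map (MonoidAlgebra.mapRingHom H (Int.castRingHom (𝓞 L))) x) = d • x)
    (D : Good G N) (hD : Finite D.1) (n : (D.1 →* (𝓞 L)ˣ) → Pr (𝓞 L) N → ℤ)
    (z : HG (Subgroup.centralizer (D.1 : Set G)) k) (x : Km1 (MonoidAlgebra ℤ D.1))
    (hx : Km1.map (MonoidAlgebra.mapRingHom D.1 (Int.castRingHom (𝓞 L))) x =
      Theta N D.1 (comm_of_cyclic D.2.1.2) D.2.2 n) :
    thz_tm N φ res D n z =
      (d : ℚ) * φ (sym (⟨D.1, hD⟩ : Pool.Agent.H95.WH.FamSub G FinSub) x z) := by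
  unfold thz_tm
  rw [← hx, hres]
  change φ (symH (⟨D.1, hD⟩ : Pool.Agent.H95.WH.FamSub G FinSub) z (d • x)) = _
  rw [map_nsmul, map_nsmul, nsmul_eq_mul]
  rfl

end term

theorem exists_funN {L : Type} [Field L] [NumberField L] (N : ℕ) [NeZero N]
    [HasEnoughRootsOfUnity (𝓞 L) N] [Finite (Amod (𝓞 L) N)] {G : Type v} [Group G] {k : ℕ}
    (φ : HnKm1 ℤ G k →+ ℚ) (d : ℕ)
    (res : ∀ (H : Type v) [Group H], Km1 (MonoidAlgebra (𝓞 L) H) →+ Km1 (MonoidAlgebra ℤ H))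
    (hres : ∀ (H : Type v) [Group H] (x : Km1 (MonoidAlgebra ℤ H)),
      res H (Km1.map (MonoidAlgebra.mapRingHom H (Int.castRingHom (𝓞 L))) x) = d • x)
    (hnat : ∀ (H H' : Type v) [Group H] [Group H'] (f : H →* H')
      (x : Km1 (MonoidAlgebra (𝓞 L) H)), res H' (ind (𝓞 L) f x) = ind ℤ f (res H x)) :
    ∃ Λ : FunN L N G k (fun m => ringChar (Amod (𝓞 L) N ⧸ m.asIdeal)),
      ∀ (D : Good G N) (hD : Finite D.1) (n : (D.1 →* (𝓞 L)ˣ) → Pr (𝓞 L) N → ℤ)
        (z : HG (Subgroup.centralizer (D.1 : Set G)) k) (x : Km1 (MonoidAlgebra ℤ D.1)),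
        Km1.map (MonoidAlgebra.mapRingHom D.1 (Int.castRingHom (𝓞 L))) x =
          Theta N D.1 (comm_of_cyclic D.2.1.2) D.2.2 n →
        Λ.F D n z = (Fintype.card (L ≃ₐ[ℚ] L) : ℚ) * d *
          φ (sym (⟨D.1, hD⟩ : Pool.Agent.H95.WH.FamSub G FinSub) x z) := by
  refine ⟨{ F := fun D n z => ∑ σ : L ≃ₐ[ℚ] L, thz_tm N φ res D (galN N (gO σ) n) z
            add := ?_
            addz := ?_
            nat := ?_
            const := ?_
            van := ?_
            gal := ?_ }, ?_⟩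
  · intro D n n' z
    rw [← Finset.sum_add_distrib]
    apply Finset.sum_congr rfl
    intro σ _
    rw [thz_galN_add, thz_tm_add]
  · intro D n z z'
    rw [← Finset.sum_add_distrib]
    apply Finset.sum_congr rfl
    intro σ _
    rw [thz_tm_mul]
  · intro D D' g h n z
    apply Finset.sum_congr rfl
    intro σ _
    rw [thz_galN_comp]
    exact thz_tm_nat N φ res hnat D D' g h (galN N (gO σ) n) z
  · intro D k z
    apply Finset.sum_eq_zero
    intro σ _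
    have : Finite D.1 := D.2.1.1
    rw [thz_galN_const]
    exact thz_tm_zero N φ res D _ z (Theta_const N D.1 _ _ _)
  · intro D n z h
    apply Finset.sum_eq_zero
    intro σ _
    have : Finite D.1 := D.2.1.1
    refine thz_tm_zero N φ res D _ z (Theta_vanish N D.1 _ _ _ (thz_galN_van N (gO σ) n _ ?_))
    intro χ m hne hmem
    apply h χ m hne
    rw [← ringChar.spec, ← map_natCast (Ideal.Quotient.mk m.asIdeal)]
    exact Ideal.Quotient.eq_zero_iff_mem.2 hmem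
  · intro D τ n z
    have h1 : ∀ σ : L ≃ₐ[ℚ] L, thz_tm N φ res D (galN N (gO σ) (galN N (gO τ) n)) z =
        thz_tm N φ res D (galN N (gO (Equiv.mulRight τ σ)) n) z := by
      intro σ
      rw [thz_galN_mul]
      rfl
    change ∑ σ : L ≃ₐ[ℚ] L, thz_tm N φ res D (galN N (gO σ) (galN N (gO τ) n)) z =
      ∑ σ : L ≃ₐ[ℚ] L, thz_tm N φ res D (galN N (gO σ) n) z
    rw [Finset.sum_congr rfl (fun σ _ => h1 σ)]
    exact Equiv.sum_comp (Equiv.mulRight τ)
      (fun σ : L ≃ₐ[ℚ] L => thz_tm N φ res D (galN N (gO σ) n) z)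
  · intro D hD n z x hx
    have h1 : ∀ σ : L ≃ₐ[ℚ] L, thz_tm N φ res D (galN N (gO σ) n) z =
        (d : ℚ) * φ (sym (⟨D.1, hD⟩ : Pool.Agent.H95.WH.FamSub G FinSub) x z) := fun σ =>
      thz_tm_val N φ res d hres D hD _ z x
        (Theta_gal_ext D.1 (comm_of_cyclic D.2.1.2) D.2.2 (gO σ) n x hx)
    change ∑ σ : L ≃ₐ[ℚ] L, thz_tm N φ res D (galN N (gO σ) n) z = _
    rw [Finset.sum_congr rfl (fun σ _ => h1 σ), Finset.sum_const, Finset.card_univ, nsmul_eq_mul,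
      mul_assoc]

end Pool.Agent.H16.KN
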