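import Pool.Agent.H16.KN.Defs2
import Pool.Agent.H16.KN.LinBN
import Pool.Agent.H16.KN.ThN
import Pool.Agent.H16.KN.ArtN
import Pool.Agent.H71.DB.Elim

/-!
# Project KN, module MainA: the kernel of the assembly map on the `K₋₁`-part is a torsion group, if the relations hold

The version of `asm_torsion` (`Pool/Agent/H8/KZ/MainZ.lean`) for symbols with homology classes; `HasRel G k` is the
statement on the relations which is proved in `MainN`.
-/

set_option autoImplicit false

open NumberField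

universe u v w

namespace Pool.Agent.H16.KN

open Pool.Agent.H95.KM hiding FamSub
open Pool.Agent.H95.WH (FamSub FinSub)
open Pool.Agent.H71.FQ (HG HG.map centConj cent_comm)

/-- The relations: if the sum of the values of the assembly map (over the ring of integers of the `N`-th cyclotomic
field) on the symbols `[C i, Θ(n i), z i]` vanishes then for every `c` of finite order there is one class
`W = ∑ w s • a s` such that for all `m` above the divisors of the order of `c` the sum of the values of the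
coefficient functions on the transports of the `z i` is `W`, as far as `p`-integral homomorphisms can see. -/
def HasRel (G : Type v) [Group G] (k : ℕ) : Prop :=
  ∀ (N : ℕ) [NeZero N] [HasEnoughRootsOfUnity (𝓞 (CyclotomicField N ℚ)) N]
    [Finite (Amod (𝓞 (CyclotomicField N ℚ)) N)] (ι : Type) [Fintype ι] (C : ι → Good G N)
    [∀ i, Fintype (C i).1] [∀ i, Fintype ((C i).1 →* (𝓞 (CyclotomicField N ℚ))ˣ)]
    (n : ∀ i, ((C i).1 →* (𝓞 (CyclotomicField N ℚ))ˣ) → Pr (𝓞 (CyclotomicField N ℚ)) N → ℤ)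
    (z : ∀ i, HG (Subgroup.centralizer ((C i).1 : Set G)) k),
    haveI : ∀ i, Finite (C i).1 := fun i => (C i).2.1.1
    ∑ i, pr (𝓞 (CyclotomicField N ℚ)) k (C i).1.subtype
      (Subgroup.centralizer ((C i).1 : Set G)).subtype (cent_comm (C i).1)
      (Theta N (C i).1 (comm_of_cyclic (C i).2.1.2) (C i).2.2 (n i)) (z i) = 0 →
    ∀ c : G, IsOfFinOrder c → ∃ (r : ℕ) (w : Fin r → CyclotomicField N ℚ)
      (a : Fin r → HG (Subgroup.centralizer ({c} : Set G)) k),
      ∀ m : Pr (𝓞 (CyclotomicField N ℚ)) N,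
        ringChar (Amod (𝓞 (CyclotomicField N ℚ)) N ⧸ m.asIdeal) ∣ orderOf c →
        ∃ p : ℕ, PSepA p (HG (Subgroup.centralizer ({c} : Set G)) k) ∧
          ∀ lam : HG (Subgroup.centralizer ({c} : Set G)) k →+ ℚ,
            (∀ y, ¬ p ∣ (lam y).den) →
            ∑ i, ∑ χ : (C i).1 →* (𝓞 (CyclotomicField N ℚ))ˣ,
              (n i χ m : CyclotomicField N ℚ) *
              ((Fintype.card (C i).1 : CyclotomicField N ℚ)⁻¹ * ∑ d : (C i).1,
                algebraMap (𝓞 (CyclotomicField N ℚ)) (CyclotomicField N ℚ)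
                  (((χ d)⁻¹ : (𝓞 (CyclotomicField N ℚ))ˣ) : 𝓞 (CyclotomicField N ℚ)) *
                  ((lam (trc k c (C i).1 d (z i)) : ℚ) : CyclotomicField N ℚ)) =
            ∑ s, w s * ((lam (a s) : ℚ) : CyclotomicField N ℚ)

theorem asm_torsionN (G : Type v) [Group G] (k : ℕ) (hrel : HasRel G k)
    (w : HnKm1 ℤ G k) (h : asmKm1 ℤ k G w = 0) : ∃ m : ℤ, m ≠ 0 ∧ m • w = 0 := by
  classical
  by_contra hcon
  push Not at hcon
  obtain ⟨M, r, C, hf, x, z, hM, hcyc, hMw⟩ := exists_cycN w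
  obtain ⟨φ, hφ⟩ := Pool.Agent.H71.DB.exists_hom_rat
    (∑ i, sym (⟨C i, hf i⟩ : FamSub G FinSub) (x i) (z i)) (by
      intro m hm h0
      rw [← hMw, ← mul_smul] at h0
      exact hcon (m * M) (mul_ne_zero hm hM) h0)
  obtain ⟨N, hN⟩ : ∃ N : ℕ, N = ∏ i, Nat.card (C i) := ⟨_, rfl⟩
  have hN0 : NeZero N := ⟨by
    rw [hN, Finset.prod_ne_zero_iff]
    intro i _
    exact Nat.card_pos.ne'⟩
  have hdvd : ∀ i, Nat.card (C i) ∣ N := fun i => by
    rw [hN]
    exact Finset.dvd_prod_of_mem _ (Finset.mem_univ i)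
  have h1 : HasEnoughRootsOfUnity (𝓞 (CyclotomicField N ℚ)) N := enough_roots N
  have h2 : Finite (Amod (𝓞 (CyclotomicField N ℚ)) N) := finite_Amod (𝓞 (CyclotomicField N ℚ)) N
  obtain ⟨d, res, hd, hres, hnat⟩ := exists_transfer.{v} (𝓞 (CyclotomicField N ℚ))
  obtain ⟨Λ, hΛ⟩ := exists_funN (L := CyclotomicField N ℚ) N φ d res hres hnat
  have hsurj : ∀ i, ∃ n, Km1.map (MonoidAlgebra.mapRingHom (C i)
      (Int.castRingHom (𝓞 (CyclotomicField N ℚ)))) (x i) =
      Theta N (C i) (comm_of_cyclic (hcyc i)) (hdvd i) n := fun i => Theta_surj N _ _ _ _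
  choose n hn using hsurj
  have : ∀ i, Fintype (C i) := fun i => Fintype.ofFinite _
  have hdual : ∀ i, Finite ((C i) →* (𝓞 (CyclotomicField N ℚ))ˣ) := fun i =>
    finite_dual (O := 𝓞 (CyclotomicField N ℚ)) N (comm_of_cyclic (hcyc i)) (hdvd i)
  have : ∀ i, Fintype ((C i) →* (𝓞 (CyclotomicField N ℚ))ˣ) := fun i => Fintype.ofFinite _
  have hsum : ∑ i, pr (𝓞 (CyclotomicField N ℚ)) k (C i).subtype
      (Subgroup.centralizer (C i : Set G)).subtype (cent_comm (C i))
      (Theta N (C i) (comm_of_cyclic (hcyc i)) (hdvd i) (n i)) (z i) = 0 := by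
    have h3 : ∑ i, pr ℤ k (C i).subtype (Subgroup.centralizer (C i : Set G)).subtype
        (cent_comm (C i)) (x i) (z i) = 0 := by
      have h4 : asmKm1 ℤ k G (M • w) = 0 := by rw [map_zsmul, h, smul_zero]
      rw [hMw, map_sum] at h4
      rw [← h4]
      refine Finset.sum_congr rfl fun i _ => ?_
      exact (asmKm1_sym ℤ k G (⟨C i, hf i⟩ : FamSub G FinSub) (x i) (z i)).symm
    have h5 := congrArg (LKQ.map (n := k) (MonoidAlgebra.mapRingHom G
      (Int.castRingHom (𝓞 (CyclotomicField N ℚ))))) h3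
    rw [map_sum, map_zero] at h5
    rw [← h5]
    refine Finset.sum_congr rfl fun i _ => ?_
    rw [map_pr, hn i]
  have key := linalgN' N (fun m => ringChar (Amod (𝓞 (CyclotomicField N ℚ)) N ⧸ m.asIdeal)) Λ
    (fun i => (⟨C i, ⟨hf i, hcyc i⟩, hdvd i⟩ : Good G N)) n z
    (hrel N (Fin r) (fun i => (⟨C i, ⟨hf i, hcyc i⟩, hdvd i⟩ : Good G N)) n z hsum)
  have h6 : ∀ i, Λ.F (⟨C i, ⟨hf i, hcyc i⟩, hdvd i⟩ : Good G N) (n i) (z i) =
      (Fintype.card (CyclotomicField N ℚ ≃ₐ[ℚ] CyclotomicField N ℚ) : ℚ) * d *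
        φ (sym (⟨C i, hf i⟩ : FamSub G FinSub) (x i) (z i)) := fun i =>
    hΛ (⟨C i, ⟨hf i, hcyc i⟩, hdvd i⟩ : Good G N) (hf i) (n i) (z i) (x i) (hn i)
  rw [Finset.sum_congr rfl fun i _ => h6 i, ← Finset.mul_sum, ← map_sum] at key
  rcases mul_eq_zero.1 key with h7 | h7
  · rcases mul_eq_zero.1 h7 with h8 | h8
    · exact Fintype.card_ne_zero (Nat.cast_eq_zero.1 h8)
    · exact hd.ne' (Nat.cast_eq_zero.1 h8)
  · exact hφ h7

/-- Rational injectivity from the relations. -/
theorem ratInj_of_hasRel (G : Type v) [Group G] (k : ℕ) (hrel : HasRel G k) :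
    Pool.Agent.H71.FQ.RatInj (asmKm1 ℤ k G) := by
  apply Pool.Agent.H95.KM.lTensor_injective
  intro w h
  exact asm_torsionN G k hrel w h

/-- The sum of the values of the assembly map vanishes iff it comes from `R[G][t]` and `R[G][t⁻¹]`. -/
theorem pr_Theta_eq {O : Type} [CommRing O] [IsDomain O] [CharZero O] (N : ℕ)
    [NeZero N] [HasEnoughRootsOfUnity O N] [Finite (Amod O N)] {G : Type v} [Group G]
    (C : Subgroup G) [Finite C] (hC : ∀ a b : C, a * b = b * a) (hN : Nat.card C ∣ N) {k : ℕ}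
    (n : (C →* Oˣ) → Pr O N → ℤ) (z : HG (Subgroup.centralizer (C : Set G)) k) [Finite (C →* Oˣ)] :
    pr O k C.subtype (Subgroup.centralizer (C : Set G)).subtype (cent_comm C)
      (Theta N C hC hN n) z =
    LKQ.mk (Pool.Agent.H71.FQ.asm k (lau (MonoidAlgebra.mapDomainRingHom O C.subtype))
      ((lgrp O G).comp (Subgroup.centralizer (C : Set G)).subtype)
      (lgrp_comm O C.subtype (Subgroup.centralizer (C : Set G)).subtype (cent_comm C))
      ((sqC (RingHom.id O) N C hC hN).lauSq.dl (uN n)) z) := rfl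

end Pool.Agent.H16.KN
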