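import Pool.Agent.H16.KN.Coch

/-!
# Project KN: the cochains of the measures in degree one, without a bound for the torsion

PROOF. `φ (x, y) = h y - h x` with `h : Z → B` a homomorphism, which kills the elements of finite order. If an
element of the centralizer `Z` of `c` acts on a tuple of length `q` as a power of the shift `σ = sig q c`, its
order divides `q * orderOf c` (`pow_of_shift`); so `h` extends to a function `l` of the tuples with
`l (z v) = h z + l v`, `l (σ v) = l v` (`exists_lam`). Take `μ = 1`, `ψ (v, w) = l w - l v`,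
`β v = l v - h (π (v 0))`.
-/

set_option autoImplicit false

open Matrix

universe u v w

namespace Pool.Agent.H16.KN

open Pool.Agent.H71.FQ

private theorem zp_smul {X : Type v} {Z : Type w} [Group Z] [MulAction Z X] (σ : Equiv.Perm X)
    (hσ : ∀ (z : Z) (x : X), σ (z • x) = z • σ x) (z : Z) (j : ℤ) (y : X) :
    (σ ^ j) (z • y) = z • (σ ^ j) y := by
  have hcomm : Commute (MulAction.toPermHom Z X z) σ := by
    ext y
    exact (hσ z y).symm
  have h1 := (hcomm.zpow_right j).eq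
  exact (congrArg (fun f : Equiv.Perm X => f y) h1).symm

private theorem zp_add {X : Type v} (σ : Equiv.Perm X) (i j : ℤ) (y : X) :
    (σ ^ (i + j)) y = (σ ^ i) ((σ ^ j) y) := by
  rw [_root_.zpow_add, Equiv.Perm.mul_apply]

/-- a homomorphism which kills the stabilisers extends to the orbits -/
private theorem exists_lam {X : Type v} {Z : Type w} [Group Z] [MulAction Z X] (σ : Equiv.Perm X)
    (hσ : ∀ (z : Z) (x : X), σ (z • x) = z • σ x) {B : Type u} [AddCommGroup B] (h : Z → B)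
    (hmul : ∀ a b, h (a * b) = h a + h b)
    (hst : ∀ (z : Z) (x : X) (j : ℤ), z • x = (σ ^ j) x → h z = 0) :
    ∃ l : X → B, (∀ z x, l (z • x) = h z + l x) ∧ ∀ x, l (σ x) = l x := by
  classical
  have key : ∀ (z₁ z₂ : Z) (j₁ j₂ : ℤ) (r : X), z₁ • (σ ^ j₁) r = z₂ • (σ ^ j₂) r → h z₁ = h z₂ := by
    intro z₁ z₂ j₁ j₂ r h1
    have h2 : (z₂⁻¹ * z₁) • r = (σ ^ (j₂ - j₁)) r := by
      have h3 := congrArg (fun y => z₂⁻¹ • (σ ^ (-j₁)) y) h1
      simp only [zp_smul σ hσ, ← zp_add, inv_smul_smul] at h3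
      rw [neg_add_cancel, zpow_zero, ← mul_smul, neg_add_eq_sub] at h3
      exact h3
    have h3 := hst _ _ _ h2
    have h4 := hmul z₂ (z₂⁻¹ * z₁)
    rw [mul_inv_cancel_left, h3, add_zero] at h4
    exact h4
  let s : Setoid X :=
    { r := fun x y => ∃ (z : Z) (j : ℤ), y = z • (σ ^ j) x
      iseqv :=
        { refl := fun x => ⟨1, 0, by rw [zpow_zero, one_smul]; rfl⟩
          symm := by
            rintro x y ⟨z, j, rfl⟩
            refine ⟨z⁻¹, -j, ?_⟩
            rw [zp_smul σ hσ, inv_smul_smul, ← zp_add, neg_add_cancel, zpow_zero]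
            rfl
          trans := by
            rintro x y w ⟨z, j, rfl⟩ ⟨z', j', rfl⟩
            refine ⟨z' * z, j' + j, ?_⟩
            rw [zp_smul σ hσ, ← zp_add, mul_smul] } }
  have hr : ∀ x : X, ∃ (z : Z) (j : ℤ), x = z • (σ ^ j) (Quotient.out (Quotient.mk s x)) := fun x =>
    Quotient.exact (Quotient.out_eq (Quotient.mk s x))
  choose zz jj hzj using hr
  refine ⟨fun x => h (zz x), fun z x => ?_, fun x => ?_⟩
  · have h1 : Quotient.mk s (z • x) = Quotient.mk s x :=
      (Quotient.sound ⟨z, 0, by rw [zpow_zero]; rfl⟩ : Quotient.mk s x = Quotient.mk s (z • x)).symm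
    have h2 := hzj (z • x)
    rw [h1] at h2
    have h3 := hzj x
    have h4 : (z * zz x) • (σ ^ jj x) (Quotient.out (Quotient.mk s x)) =
        zz (z • x) • (σ ^ jj (z • x)) (Quotient.out (Quotient.mk s x)) := by
      rw [mul_smul, ← h3]
      exact h2
    show h (zz (z • x)) = h z + h (zz x)
    rw [← hmul]
    exact (key _ _ _ _ _ h4).symm
  · have h1 : Quotient.mk s (σ x) = Quotient.mk s x :=
      (Quotient.sound ⟨1, 1, by rw [zpow_one, one_smul]⟩ : Quotient.mk s x = Quotient.mk s (σ x)).symm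
    have h2 := hzj (σ x)
    rw [h1] at h2
    have h3 := hzj x
    have h4 : zz x • (σ ^ (1 + jj x)) (Quotient.out (Quotient.mk s x)) =
        zz (σ x) • (σ ^ jj (σ x)) (Quotient.out (Quotient.mk s x)) := by
      rw [zp_add, ← zp_smul σ hσ, ← h3, zpow_one]
      exact h2
    exact (key _ _ _ _ _ h4).symm

/-- elements which act as a power of the shift have finite order -/
private theorem pow_of_shift {G : Type u} [Group G] {q : ℕ} (hq : 0 < q) {c : G} (z : Subgroup.centralizer ({c} : Set G))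
    (σ : Equiv.Perm (Fin q → G)) (hσa : ∀ v, σ v = sig q c v) (v : Fin q → G) (j : ℤ)
    (h1 : z • v = (σ ^ j) v) : z ^ (q * orderOf c) = 1 := by
  have hsmul : ∀ (z : Subgroup.centralizer ({c} : Set G)) (v : Fin q → G), z • v = lmul (z : G) v := fun z v => rfl
  have hσ : ∀ (z : Subgroup.centralizer ({c} : Set G)) (v : Fin q → G), σ (z • v) = z • σ v := by
    intro z v
    rw [hsmul, hsmul, hσa, hσa]
    exact sig_lmul c z (Subgroup.mem_centralizer_singleton_iff.1 z.2) v
  have hσq : ∀ v, (σ ^ (q : ℤ)) v = lmul c v := by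
    intro v
    rw [zpow_natCast, ← Equiv.Perm.iterate_eq_pow]
    have h2 : (σ : (Fin q → G) → (Fin q → G)) = sig q c := funext hσa
    rw [h2]
    exact sig_iterate _ c v
  have hit : ∀ n : ℕ, (z ^ n) • v = (σ ^ (j * n)) v := by
    intro n
    induction n with
    | zero =>
      rw [pow_zero, one_smul, Nat.cast_zero, mul_zero, zpow_zero]
      rfl
    | succ n ih =>
      rw [pow_succ, mul_smul, h1, ← zp_smul σ hσ, ih, ← zp_add]
      push_cast
      rw [mul_add, mul_one, add_comm]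
  have h2 : ∀ (k : ℤ) (w : Fin q → G), (σ ^ ((q : ℤ) * k)) w = lmul (c ^ k) w := by
    have h11 : σ ^ (q : ℤ) = MulAction.toPermHom G (Fin q → G) c := by
      ext1 w
      exact hσq w
    intro k w
    rw [_root_.zpow_mul, h11, ← map_zpow]
    rfl
  have h3 := hit (q * orderOf c)
  have h4 : j * ((q * orderOf c : ℕ) : ℤ) = (q : ℤ) * ((orderOf c : ℤ) * j) := by
    push_cast
    ring
  rw [h4, h2, _root_.zpow_mul, zpow_natCast, pow_orderOf_eq_one, _root_.one_zpow] at h3
  have h5 : ((z ^ (q * orderOf c) : Subgroup.centralizer ({c} : Set G)) : G) * v ⟨0, hq⟩ = 1 * v ⟨0, hq⟩ :=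
    congrFun h3 ⟨0, hq⟩
  exact Subtype.ext (mul_right_cancel h5)

theorem meas_zero {G : Type u} [Group G] {B : Type v} [CommRing B] [IsDomain B] [CharZero B] {p : ℕ}
    (hp : p.Prime) {c : G} (hc : IsOfFinOrder c) (π : G → Subgroup.centralizer ({c} : Set G))
    (hπ : ∀ (z : Subgroup.centralizer ({c} : Set G)) (g : G), π (z * g) = z * π g)
    {φ : (Fin (0 + 2) → Subgroup.centralizer ({c} : Set G)) → B}
    (hφ : IsCoc (Subgroup.centralizer ({c} : Set G)) 0 φ) : Meas p c π φ := by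
  -- the homomorphism
  have h3 : ∀ x y z : Subgroup.centralizer ({c} : Set G), φ ![y, z] - φ ![x, z] + φ ![x, y] = 0 := by
    intro x y z
    have h1 := hφ.coc ![x, y, z]
    rw [Fin.sum_univ_three] at h1
    have e0 : (fun j : Fin (0 + 2) => (![x, y, z] : Fin (0 + 3) → _) ((0 : Fin (0 + 3)).succAbove j)) = ![y, z] := by
      funext j
      fin_cases j <;> rfl
    have e1 : (fun j : Fin (0 + 2) => (![x, y, z] : Fin (0 + 3) → _) ((1 : Fin (0 + 3)).succAbove j)) = ![x, z] := by
      funext j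
      fin_cases j <;> rfl
    have e2 : (fun j : Fin (0 + 2) => (![x, y, z] : Fin (0 + 3) → _) ((2 : Fin (0 + 3)).succAbove j)) = ![x, y] := by
      funext j
      fin_cases j <;> rfl
    have h2 : (-1 : ℤ) ^ 0 • φ ![y, z] + (-1 : ℤ) ^ 1 • φ ![x, z] + (-1 : ℤ) ^ 2 • φ ![x, y] = 0 := by
      rw [← e0, ← e1, ← e2]
      exact h1
    rw [pow_zero, pow_one, one_smul, neg_one_smul, neg_one_sq, one_smul] at h2
    rw [sub_eq_add_neg]
    exact h2
  have hinv : ∀ g x y : Subgroup.centralizer ({c} : Set G), φ ![g * x, g * y] = φ ![x, y] := by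
    intro g x y
    have h1 := hφ.inv g ![x, y]
    have e0 : (fun j : Fin (0 + 2) => g * (![x, y] : Fin (0 + 2) → _) j) = ![g * x, g * y] := by
      funext j
      fin_cases j <;> rfl
    rw [← e0]
    exact h1
  set h : Subgroup.centralizer ({c} : Set G) → B := fun z => φ ![1, z] with hh
  have hmul : ∀ a b, h (a * b) = h a + h b := by
    intro a b
    have h1 := h3 1 a (a * b)
    have h2 := hinv a 1 b
    rw [mul_one] at h2
    rw [h2] at h1
    show φ ![1, a * b] = φ ![1, a] + φ ![1, b]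
    linear_combination -h1
  have hone : h 1 = 0 := by
    have h1 := hmul 1 1
    rw [mul_one] at h1
    linear_combination -h1
  have hpow : ∀ (z : Subgroup.centralizer ({c} : Set G)) (n : ℕ), h (z ^ n) = n * h z := by
    intro z n
    induction n with
    | zero => rw [pow_zero, hone, Nat.cast_zero, zero_mul]
    | succ n ih =>
      rw [pow_succ, hmul, ih]
      push_cast
      ring
  have hdif : ∀ x y : Subgroup.centralizer ({c} : Set G), φ ![x, y] = h y - h x := by
    intro x y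
    have h1 := hinv x 1 (x⁻¹ * y)
    rw [mul_one, mul_inv_cancel_left] at h1
    have h2 := hmul x (x⁻¹ * y)
    rw [mul_inv_cancel_left] at h2
    rw [h1]
    show h (x⁻¹ * y) = h y - h x
    rw [h2]
    ring
  have hdif' : ∀ w : Fin (0 + 2) → Subgroup.centralizer ({c} : Set G), φ w = h (w 1) - h (w 0) := by
    intro w
    have e0 : w = ![w 0, w 1] := by
      funext j
      fin_cases j <;> rfl
    rw [e0, hdif]
    rfl
  have hord : ∀ (z : Subgroup.centralizer ({c} : Set G)) (N : ℕ), N ≠ 0 → z ^ N = 1 → h z = 0 := by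
    intro z N hN hz
    have h1 := hpow z N
    rw [hz, hone] at h1
    exact (mul_eq_zero.1 h1.symm).resolve_left (Nat.cast_ne_zero.2 hN)
  refine ⟨1, one_ne_zero, fun m => ?_⟩
  have hq : 0 < p ^ m := Nat.pow_pos hp.pos
  let σ : Equiv.Perm (Fin (p ^ m) → G) := Equiv.ofBijective (sig (p ^ m) c) (sig_bijective _ c)
  have hσa : ∀ v, σ v = sig (p ^ m) c v := fun v => rfl
  have hsmul : ∀ (z : Subgroup.centralizer ({c} : Set G)) (v : Fin (p ^ m) → G), z • v = lmul (z : G) v :=
    fun z v => rfl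
  have hσ : ∀ (z : Subgroup.centralizer ({c} : Set G)) (v : Fin (p ^ m) → G), σ (z • v) = z • σ v := by
    intro z v
    rw [hsmul, hsmul, hσa, hσa]
    exact sig_lmul c z (Subgroup.mem_centralizer_singleton_iff.1 z.2) v
  obtain ⟨l, hl1, hl2⟩ := exists_lam σ hσ h hmul (fun z x j hz => hord z (p ^ m * orderOf c)
    (Nat.mul_ne_zero hq.ne' hc.orderOf_pos.ne') (pow_of_shift hq z σ hσa x j hz))
  have hl1' : ∀ (g : G) (hg : g * c = c * g) (w : Fin (p ^ m) → G), l (fun b => g * w b) =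
      h ⟨g, Subgroup.mem_centralizer_singleton_iff.2 hg⟩ + l w := fun g hg w => hl1 ⟨g, _⟩ w
  refine ⟨fun v => l (v 1) - l (v 0), fun v => l (v 0) - h (π (v 0 ⟨0, hq⟩)), ?_, ?_, ?_, ?_, ?_⟩
  · intro g hg v
    show l (fun b => g * v 1 b) - l (fun b => g * v 0 b) = l (v 1) - l (v 0)
    rw [hl1' g hg, hl1' g hg]
    ring
  · intro v
    show l (sig (p ^ m) c (v 1)) - l (sig (p ^ m) c (v 0)) = l (v 1) - l (v 0)
    rw [← hσa, ← hσa, hl2, hl2]
  · intro v
    unfold dl
    rw [Fin.sum_univ_three]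
    show (-1 : ℤ) ^ 0 • (l (v 2) - l (v 1)) + (-1 : ℤ) ^ 1 • (l (v 2) - l (v 0)) +
      (-1 : ℤ) ^ 2 • (l (v 1) - l (v 0)) = 0
    rw [pow_zero, pow_one, one_smul, neg_one_smul, neg_one_sq, one_smul]
    ring
  · intro g hg v
    show l (fun b => g * v 0 b) - h (π (g * v 0 ⟨0, hq⟩)) = l (v 0) - h (π (v 0 ⟨0, hq⟩))
    have h1 := hπ ⟨g, Subgroup.mem_centralizer_singleton_iff.2 hg⟩ (v 0 ⟨0, hq⟩)
    rw [hl1' g hg, show π (g * v 0 ⟨0, hq⟩) = _ from h1, hmul]
    ring
  · intro h0 v
    unfold dl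
    rw [Fin.sum_univ_two, hdif']
    show ((1 : ℕ) : B) ^ (0 + 2) * (h (π (v 1 ⟨0, h0⟩)) - h (π (v 0 ⟨0, h0⟩))) = (l (v 1) - l (v 0)) -
      ((1 : ℕ) : B) * ((-1 : ℤ) ^ 0 • (l (v 1) - h (π (v 1 ⟨0, hq⟩))) +
        (-1 : ℤ) ^ 1 • (l (v 0) - h (π (v 0 ⟨0, hq⟩))))
    rw [pow_zero, pow_one, one_smul, neg_one_smul, Nat.cast_one, one_pow, one_mul, one_mul]
    ring

end Pool.Agent.H16.KN
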