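import Pool.Agent.H16.KN.Rel
import Pool.Agent.H16.KN.Meas0
import Pool.Agent.H16.KN.MainA
import Pool.Agent.H8.KZ.Loc2

/-!
# Project KN, module MainN: rational injectivity of the assembly map on the `K₋₁`-part in all degrees

PROOF of `hasRel_of`.  `relN` for the symbols (`pr_Theta_eq`, `map_sum`) gives `r, w, a`.  For `m` with
`ringChar (Amod O N ⧸ m.asIdeal) ∣ orderOf c`: `p = ringChar ..` is a prime in `m` (as in `mainz_rel`);
`exists_loc2` gives `Om, f, j, ..`; the measures are `meas_of_exp` (if the `p`-torsion has bounded exponent) and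
`meas_zero` (`k = 0`).
-/

set_option autoImplicit false

open NumberField

universe u v w

namespace Pool.Agent.H16.KN

open Pool.Agent.H95.KM
open Pool.Agent.H71.FQ (HG HG.map centConj cent_comm)
open Pool.Agent.H8.KZ (exists_loc2)

open Classical in
theorem hasRel_of {G : Type v} [Group G] (k : ℕ)
    (hexp : k = 0 ∨ ∀ p : ℕ, p.Prime →
      ∃ r : ℕ, ∀ g : G, (∃ j : ℕ, g ^ p ^ j = 1) → g ^ p ^ r = 1)
    (hG : ∀ (p : ℕ) (c : G), p.Prime → IsOfFinOrder c → p ∣ orderOf c →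
      PSepA p (HG (Subgroup.centralizer ({c} : Set G)) k)) : HasRel G k := by
  intro N _ _ _ ι _ C _ _ n z h c hc
  have hfL : Function.Injective (algebraMap (𝓞 (CyclotomicField N ℚ)) (CyclotomicField N ℚ)) :=
    FaithfulSMul.algebraMap_injective _ _
  have hfin : ∀ i, Finite (C i).1 := fun i => (C i).2.1.1
  have h' : LKQ.mk (∑ i, Pool.Agent.H71.FQ.asm k
      (lau (MonoidAlgebra.mapDomainRingHom (𝓞 (CyclotomicField N ℚ)) (C i).1.subtype))
      ((lgrp (𝓞 (CyclotomicField N ℚ)) G).comp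
        (Subgroup.centralizer ((C i).1 : Set G)).subtype)
      (lgrp_comm (𝓞 (CyclotomicField N ℚ)) (C i).1.subtype
        (Subgroup.centralizer ((C i).1 : Set G)).subtype (cent_comm (C i).1))
      ((sqC (RingHom.id (𝓞 (CyclotomicField N ℚ))) N (C i).1 (comm_of_cyclic (C i).2.1.2)
        (C i).2.2).lauSq.dl (uN (n i))) (z i)) = 0 := by
    rw [map_sum]
    exact h
  obtain ⟨r, w, a, hwa⟩ := relN N (algebraMap (𝓞 (CyclotomicField N ℚ)) (CyclotomicField N ℚ))
    hfL (fun i => (C i).1) (fun i => comm_of_cyclic (C i).2.1.2) (fun i => (C i).2.2) z n h' c hc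
  refine ⟨r, w, a, ?_⟩
  intro m hm
  have hmax := m.isMaximal
  have hp : (ringChar (Amod (𝓞 (CyclotomicField N ℚ)) N ⧸ m.asIdeal)).Prime := by
    have hfin : Finite (Amod (𝓞 (CyclotomicField N ℚ)) N ⧸ m.asIdeal) :=
      Finite.of_surjective _ Ideal.Quotient.mk_surjective
    have hne : ringChar (Amod (𝓞 (CyclotomicField N ℚ)) N ⧸ m.asIdeal) ≠ 0 := by
      intro h0
      rw [h0, zero_dvd_iff] at hm
      exact hc.orderOf_pos.ne' hm
    have : CharP (Amod (𝓞 (CyclotomicField N ℚ)) N ⧸ m.asIdeal)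
        (ringChar (Amod (𝓞 (CyclotomicField N ℚ)) N ⧸ m.asIdeal)) := ringChar.charP _
    rcases CharP.char_is_prime_or_zero (Amod (𝓞 (CyclotomicField N ℚ)) N ⧸ m.asIdeal)
      (ringChar (Amod (𝓞 (CyclotomicField N ℚ)) N ⧸ m.asIdeal)) with h | h
    · exact h
    · exact absurd h hne
  have hpm : ((ringChar (Amod (𝓞 (CyclotomicField N ℚ)) N ⧸ m.asIdeal) : ℕ) :
      Amod (𝓞 (CyclotomicField N ℚ)) N) ∈ m.asIdeal := by
    rw [← Ideal.Quotient.eq_zero_iff_mem, map_natCast]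
    exact ringChar.Nat.cast_ringChar
  obtain ⟨p, hpe⟩ : ∃ p, p = ringChar (Amod (𝓞 (CyclotomicField N ℚ)) N ⧸ m.asIdeal) := ⟨_, rfl⟩
  rw [← hpe] at hp hpm hm
  have : Fact p.Prime := ⟨hp⟩
  obtain ⟨Om, i1, i2, i3, f, j, hjf, hj, hsepa, hk, hunit, -, -⟩ := exists_loc2 N
    (algebraMap (𝓞 (CyclotomicField N ℚ)) (CyclotomicField N ℚ)) hfL m
  refine ⟨p, hG p c hp hc hm, ?_⟩
  intro lam hlam
  have hu : ∀ q : ℕ, ¬ p ∣ q → IsUnit (q : Om) := by
    intro q hq
    rw [← map_natCast f q]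
    apply hunit
    intro hqm
    apply hmax.ne_top
    rw [Ideal.eq_top_iff_one]
    have hcop : Nat.Coprime p q := (Nat.Prime.coprime_iff_not_dvd hp).2 hq
    obtain ⟨a, b, hab⟩ : IsCoprime (p : ℤ) (q : ℤ) := Nat.isCoprime_iff_coprime.2 hcop
    have h1 : (a : Amod (𝓞 (CyclotomicField N ℚ)) N) * p + b * q = 1 := by
      exact_mod_cast congrArg (fun x : ℤ => (x : Amod (𝓞 (CyclotomicField N ℚ)) N)) hab
    rw [← h1]
    refine m.asIdeal.add_mem (m.asIdeal.mul_mem_left _ hpm) (m.asIdeal.mul_mem_left _ ?_)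
    rw [map_natCast] at hqm
    exact hqm
  refine hwa m Om f j hjf hj hk p (hsepa p hpm) hu hm ?_ lam hlam
  intro π hπ φ hφ
  rcases hexp with rfl | hexp
  · exact meas_zero hp hc π hπ hφ
  · obtain ⟨e, he⟩ := hexp p hp
    exact meas_of_exp hp e he hc π hπ hφ

/-- **Rational injectivity of the assembly map on the `K₋₁`-part.** -/
theorem main (G : Type v) [Group G] (k : ℕ)
    (hexp : k = 0 ∨ ∀ p : ℕ, p.Prime →
      ∃ r : ℕ, ∀ g : G, (∃ j : ℕ, g ^ p ^ j = 1) → g ^ p ^ r = 1)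
    (hG : ∀ p : ℕ, p.Prime → ∀ C : Subgroup G, Finite C → IsCyclic C → p ∣ Nat.card C →
      PSepA p (HG (Subgroup.centralizer (C : Set G)) k)) :
    Pool.Agent.H71.FQ.RatInj (asmKm1 ℤ k G) := by
  refine ratInj_of_hasRel G k (hasRel_of k hexp ?_)
  intro p c hp hc hpc
  have h1 := hG p hp (Subgroup.zpowers c) (finite_zpowers.2 hc) inferInstance
    (by rw [Nat.card_zpowers]; exact hpc)
  have h2 : Subgroup.centralizer ((Subgroup.zpowers c : Subgroup G) : Set G) =
      Subgroup.centralizer ({c} : Set G) := by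
    rw [Subgroup.zpowers_eq_closure, Subgroup.centralizer_closure]
  rw [h2] at h1
  exact h1

end Pool.Agent.H16.KN
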