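import Pool.Agent.H16.KN.Deg
import Pool.Agent.H71.FJ.K0

/-!
# Project KN: auxiliary statements for the relations

PROOFS.  `const_mem`: `ch N (push (fun _ => 1) z)` is an integral combination of the constant tuple `1`, which is a half
tuple (`1⁻¹ * 1 = 1` is supported in degree `0`).
`exists_lift_lam`: `lam y = num / den`, `p ∤ den`: `lam' y = num * (unit of den)⁻¹`; additivity because `j` is injective.
`exists_VD`: `X Y' = X Y v = v` (a `1 × 1` matrix); the inverse of `1 - E + Y X'` is `1 - E + Y' X` (`Y X' = Y v' X`,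
`E Y = Y`, `X E = X`, `X' E = X'`, `E Y' = Y'`).
-/

set_option autoImplicit false

open Matrix

universe u v w

namespace Pool.Agent.H16.KN

open Pool.Agent.H71.FQ
open Pool.Agent.H71.FJ (K0 K0.mk IdemMat)

theorem const_mem {B : Type u} [CommRing B] {G : Type v} [Group G] {X : Type w} {k : ℕ} (N : ℕ)
    (z : Cx ℤ X k) : (ch N (push ℤ (fun _ => 1) k z) :
      QC (MonoidAlgebra B (G × Multiplicative ℤ)) k) ∈ QC0 G B k := by
  classical
  have h1 : (QC.t N (fun _ : Fin (k + 1) => (1 : GLm N (MonoidAlgebra B (G × Multiplicative ℤ))))) ∈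
      QC0 G B k := by
    refine AddSubgroup.subset_closure ⟨N, _, Or.inl fun i j => ?_, rfl⟩
    intro x hx
    have h2 : (((1 : GLm N (MonoidAlgebra B (G × Multiplicative ℤ)))⁻¹ * 1 :
      GLm N (MonoidAlgebra B (G × Multiplicative ℤ)))).val = 1 := by
      rw [inv_one, one_mul]
      rfl
    rw [h2] at hx
    by_contra hlt
    apply hx
    ext i j
    change ((1 : Matrix (Fin N) (Fin N) (MonoidAlgebra B (G × Multiplicative ℤ))) i j).coeff x = 0
    by_cases hij : i = j
    · subst hij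
      rw [Matrix.one_apply_eq, MonoidAlgebra.one_def, MonoidAlgebra.coeff_single,
        Finsupp.single_apply, if_neg]
      rintro rfl
      exact hlt le_rfl
    · rw [Matrix.one_apply_ne hij]
      rfl
  induction z using Finsupp.induction_linear with
  | zero => rw [map_zero, map_zero]; exact AddSubgroup.zero_mem _
  | add a b ha hb => rw [map_add, map_add]; exact AddSubgroup.add_mem _ ha hb
  | single x r =>
    have h3 : Finsupp.single x r = r • (Finsupp.single x 1 : Cx ℤ X k) := by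
      rw [Finsupp.smul_single, smul_eq_mul, mul_one]
    rw [h3, map_zsmul, map_zsmul, push_single, ch_single]
    exact AddSubgroup.zsmul_mem _ h1 r

/-- `p`-integral homomorphisms to `ℚ` lift to `Om` -/
theorem exists_lift_lam {X : Type u} [AddCommGroup X] {Om : Type v} [CommRing Om] {L : Type w}
    [Field L] [CharZero L] (j : Om →+* L) (hj : Function.Injective j) {p : ℕ}
    (hunit : ∀ q : ℕ, ¬ p ∣ q → IsUnit (q : Om)) (lam : X →+ ℚ) (h : ∀ y, ¬ p ∣ (lam y).den) :
    ∃ lam' : X →+ Om, ∀ y, j (lam' y) = ((lam y : ℚ) : L) := by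
  have h1 : ∀ y, ∃ a : Om, j a = ((lam y : ℚ) : L) := by
    intro y
    obtain ⟨u, hu⟩ := hunit _ (h y)
    refine ⟨((lam y).num : Om) * (u⁻¹ : Omˣ), ?_⟩
    rw [map_mul, map_intCast]
    have h2 : j ((u⁻¹ : Omˣ) : Om) * ((lam y).den : L) = 1 := by
      rw [← map_natCast j, ← hu, ← map_mul, Units.inv_mul, map_one]
    have h3 : ((lam y).den : L) ≠ 0 := Nat.cast_ne_zero.2 (lam y).den_ne_zero
    rw [Rat.cast_def, eq_div_iff h3, mul_assoc, h2, mul_one]
  choose f hf using h1
  refine ⟨AddMonoidHom.mk' f fun x y => ?_, hf⟩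
  apply hj
  rw [map_add, hf, hf, hf, map_add, Rat.cast_add]

private theorem vd_mul {P : Type u} [Ring P] {N : ℕ} {e : Matrix (Fin N) (Fin N) P}
    (he : e * e = e) {X X' : Matrix (Fin 1) (Fin N) P} {Y Y' : Matrix (Fin N) (Fin 1) P}
    (hYX : Y * X = e) (hXY' : X' * Y' = 1) (hYX' : Y' * X' = e) :
    (1 - e + Y * X') * (1 - e + Y' * X) = 1 := by
  have h1 : (1 - e) * Y' = 0 := by
    rw [Matrix.sub_mul, Matrix.one_mul, ← hYX', Matrix.mul_assoc, hXY', Matrix.mul_one, sub_self]
  have h2 : X' * (1 - e) = 0 := by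
    rw [Matrix.mul_sub, Matrix.mul_one, ← hYX', ← Matrix.mul_assoc, hXY', Matrix.one_mul, sub_self]
  have h3 : (1 - e) * (1 - e) = 1 - e := by
    rw [mul_sub, mul_one, sub_mul, one_mul, he, sub_self, sub_zero]
  rw [Matrix.add_mul, Matrix.mul_add, Matrix.mul_add, h3, ← Matrix.mul_assoc (1 - e), h1,
    Matrix.zero_mul, Matrix.mul_assoc Y X' (1 - e), h2, Matrix.mul_zero,
    Matrix.mul_assoc Y X' (Y' * X), ← Matrix.mul_assoc X' Y' X, hXY', Matrix.one_mul, hYX]
  abel

/-- the matrices of the comparison -/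
theorem exists_VD {P : Type u} [Ring P] {A : Type v} [Ring A] (φ : P →+* A) (E : IdemMat P)
    (X X' : Matrix (Fin 1) (Fin E.n) P) (Y Y' : Matrix (Fin E.n) (Fin 1) P)
    (hXY : X * Y = 1) (hYX : Y * X = E.mat) (hXY' : X' * Y' = 1) (hYX' : Y' * X' = E.mat)
    (v v' : P) (hv : v * v' = 1) (hv' : v' * v = 1) (hX : ∀ i k, X' i k = v' * X i k)
    (hY : ∀ k i, Y' k i = Y k i * v) :
    ∃ (V : GLm 1 A) (D : GLm E.n A), V.val = (X * Y').map φ ∧ (∀ i j, V.val i j = φ v) ∧
      (∀ i j, (V⁻¹).val i j = φ v') ∧ D.val = (1 - E.mat + Y * X').map φ := by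
  have hone : ∀ i j : Fin 1, (1 : Matrix (Fin 1) (Fin 1) P) i j = 1 := by
    intro i j
    rw [Subsingleton.elim i j, Matrix.one_apply_eq]
  have h1 : ∀ a b : A, a * b = 1 → (Matrix.of fun _ _ : Fin 1 => a) * (Matrix.of fun _ _ : Fin 1 => b) =
      1 := by
    intro a b hab
    ext i j
    rw [Matrix.mul_apply, Fin.sum_univ_one, Matrix.of_apply, Matrix.of_apply, hab,
      Subsingleton.elim i j, Matrix.one_apply_eq]
  refine ⟨⟨Matrix.of fun _ _ => φ v, Matrix.of fun _ _ => φ v', h1 _ _ (by rw [← map_mul, hv, map_one]),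
    h1 _ _ (by rw [← map_mul, hv', map_one])⟩,
    ⟨(1 - E.mat + Y * X').map φ, (1 - E.mat + Y' * X).map φ, ?_, ?_⟩, ?_, fun _ _ => rfl,
    fun _ _ => rfl, rfl⟩
  · rw [← Matrix.map_mul, vd_mul E.idem hYX hXY' hYX', Matrix.map_one φ (map_zero φ) (map_one φ)]
  · rw [← Matrix.map_mul, vd_mul E.idem hYX' hXY hYX, Matrix.map_one φ (map_zero φ) (map_one φ)]
  · ext i j
    change φ v = φ ((X * Y') i j)
    congr 1
    have h2 : (X * Y') i j = (X * Y) i j * v := by
      rw [Matrix.mul_apply, Matrix.mul_apply, Finset.sum_mul]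
      refine Finset.sum_congr rfl fun k _ => ?_
      rw [hY, mul_assoc]
    rw [h2, hXY, hone, one_mul]

end Pool.Agent.H16.KN
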