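import Pool.Agent.H71.FQ.Uct

/-!
# Project KN: homomorphisms from homology to any group come from cocycles

PROOFS.  `free_sub`: well-order `X` (`exists_wellOrder`).  For `x : X` let `I x ⊆ ℤ` be the ideal of the coefficients at
`x` of the elements of `D` supported in `{y | y ≤ x}`; `I x = (a x)`, choose `d x ∈ D` with coefficient `a x` at `x`
and supported in `{y ≤ x}`, for the `x` with `a x ≠ 0`.  The `d x` are a basis: linearly independent (look at the
largest index), spanning by well-founded induction on the largest element of the support of `d ∈ D`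
(`Finset.max'`).
`exists_extension'`: `C ⧸ Z` embeds in a free abelian group, hence is free, so `Z → C` splits.
`exists_cocycle'`: copy of `exists_cocycle` in `FQ/Uct.lean` with `exists_extension'`: `bd` followed by the projection
to the chains of degree `n` modulo `coi`, which embed in `Cx ℤ Γ n` by `nrm`.
-/

set_option autoImplicit false

universe u v w

namespace Pool.Agent.H16.KN

open Pool.Agent.H71.FQ

/-- leading coefficients at `x` of the elements of `D` supported below `x` -/
private def leadIdeal {X : Type u} [LinearOrder X] (D : Submodule ℤ (X →₀ ℤ)) (x : X) : Ideal ℤ where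
  carrier := {m | ∃ d ∈ D, (∀ y, x < y → d y = 0) ∧ d x = m}
  zero_mem' := ⟨0, D.zero_mem, fun _ _ => rfl, rfl⟩
  add_mem' := by
    rintro a b ⟨d, hd, hd1, rfl⟩ ⟨e, he, he1, rfl⟩
    refine ⟨d + e, D.add_mem hd he, fun y hy => ?_, rfl⟩
    rw [Finsupp.add_apply, hd1 y hy, he1 y hy, add_zero]
  smul_mem' := by
    rintro k a ⟨d, hd, hd1, rfl⟩
    refine ⟨k • d, D.smul_mem k hd, fun y hy => ?_, rfl⟩
    rw [Finsupp.smul_apply, hd1 y hy, smul_zero]

/-- subgroups of free abelian groups (of any rank) are free -/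
theorem free_sub (X : Type u) (D : Submodule ℤ (X →₀ ℤ)) : Module.Free ℤ D := by
  classical
  obtain ⟨_, _⟩ := exists_wellFoundedLT X
  have hprin : ∀ x : X, ∃ d : X →₀ ℤ, d ∈ D ∧ (∀ y, x < y → d y = 0) ∧
      leadIdeal D x = Ideal.span {d x} := by
    intro x
    obtain ⟨a, ha⟩ := (IsPrincipalIdealRing.principal (leadIdeal D x)).principal
    have hmem : a ∈ leadIdeal D x := by
      rw [ha]
      exact Submodule.mem_span_singleton_self a
    obtain ⟨d, hd, hd1, hd2⟩ := hmem
    refine ⟨d, hd, hd1, ?_⟩
    rw [hd2]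
    exact ha
  choose d hdD hd1 hd2 using hprin
  let J : Set X := {x | d x x ≠ 0}
  let v : J → D := fun x => ⟨d x, hdD x⟩
  have hli : LinearIndependent ℤ v := by
    rw [linearIndependent_iff]
    intro l hl
    by_contra hne
    have hsupp : l.support.Nonempty := Finsupp.support_nonempty_iff.2 hne
    let x0 : J := l.support.max' hsupp
    have hx0 : x0 ∈ l.support := Finset.max'_mem _ _
    have hle : ∀ x ∈ l.support, x ≤ x0 := fun x hx => Finset.le_max' _ _ hx
    have h1 : ((Finsupp.linearCombination ℤ v l : D) : X →₀ ℤ) (x0 : X) = 0 := by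
      rw [hl]
      rfl
    rw [Finsupp.linearCombination_apply, Finsupp.sum] at h1
    rw [AddSubmonoidClass.coe_finsetSum, Finsupp.finsetSum_apply] at h1
    rw [Finset.sum_eq_single x0] at h1
    · have h2 : l x0 * d x0 x0 = 0 := h1
      rcases mul_eq_zero.1 h2 with h3 | h3
      · exact (Finsupp.mem_support_iff.1 hx0) h3
      · exact x0.2 h3
    · intro b hb hb0
      have hlt : b < x0 := lt_of_le_of_ne (hle b hb) hb0
      show l b * d b x0 = 0
      rw [hd1 b x0 hlt, mul_zero]
    · intro h
      exact absurd hx0 h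
  have hspan : ∀ x : X, ∀ e : D, (∀ y, x < y → (e : X →₀ ℤ) y = 0) →
      e ∈ Submodule.span ℤ (Set.range v) := by
    intro x
    induction x using WellFoundedLT.induction with
    | ind x ih =>
      have key : ∀ e : D, (∀ y, x ≤ y → (e : X →₀ ℤ) y = 0) →
          e ∈ Submodule.span ℤ (Set.range v) := by
        intro e he
        by_cases h0 : (e : X →₀ ℤ) = 0
        · have : e = 0 := Subtype.ext h0
          rw [this]
          exact Submodule.zero_mem _
        · have hs : (e : X →₀ ℤ).support.Nonempty := Finsupp.support_nonempty_iff.2 h0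
          have hm := Finset.max'_mem _ hs
          refine ih ((e : X →₀ ℤ).support.max' hs) ?_ e ?_
          · by_contra hlt
            exact (Finsupp.mem_support_iff.1 hm) (he _ (not_lt.1 hlt))
          · intro y hy
            by_contra hne
            exact absurd (Finset.le_max' _ y (Finsupp.mem_support_iff.2 hne)) (not_le.2 hy)
      intro e he
      have hmem : (e : X →₀ ℤ) x ∈ leadIdeal D x := ⟨e, e.2, he, rfl⟩
      rw [hd2 x, Ideal.mem_span_singleton'] at hmem
      obtain ⟨k, hk⟩ := hmem
      by_cases hx : d x x = 0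
      · refine key e ?_
        intro y hy
        rcases hy.eq_or_lt with rfl | hy
        · rw [← hk, hx, mul_zero]
        · exact he y hy
      · have hv : (v ⟨x, hx⟩ : D) ∈ Submodule.span ℤ (Set.range v) :=
          Submodule.subset_span ⟨⟨x, hx⟩, rfl⟩
        have h1 : e - k • v ⟨x, hx⟩ ∈ Submodule.span ℤ (Set.range v) := by
          refine key _ ?_
          intro y hy
          show (e : X →₀ ℤ) y - k * d x y = 0
          rcases hy.eq_or_lt with rfl | hy
          · rw [hk, sub_self]
          · rw [he y hy, hd1 x y hy, mul_zero, sub_zero]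
        have h2 := Submodule.add_mem _ h1 (Submodule.smul_mem _ k hv)
        rwa [sub_add_cancel] at h2
  have htop : ⊤ ≤ Submodule.span ℤ (Set.range v) := by
    intro e _
    by_cases h0 : (e : X →₀ ℤ) = 0
    · have : e = 0 := Subtype.ext h0
      rw [this]
      exact Submodule.zero_mem _
    · have hs : (e : X →₀ ℤ).support.Nonempty := Finsupp.support_nonempty_iff.2 h0
      refine hspan ((e : X →₀ ℤ).support.max' hs) e ?_
      intro y hy
      by_contra hne
      exact absurd (Finset.le_max' _ y (Finsupp.mem_support_iff.2 hne)) (not_le.2 hy)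
  exact Module.Free.of_basis (Module.Basis.mk hli htop)

/-- extension of homomorphisms from the kernel of a homomorphism to a free group -/
theorem exists_extension' {C : Type u} [AddCommGroup C] {X : Type v} (g : C →+ (X →₀ ℤ))
    {A : Type w} [AddCommGroup A] (f : g.ker →+ A) : ∃ F : C →+ A, ∀ z : g.ker, F z = f z := by
  let G : C →ₗ[ℤ] (X →₀ ℤ) := g.toIntLinearMap
  have hfree : Module.Free ℤ (LinearMap.range G) := free_sub X _
  obtain ⟨s, hs⟩ := Module.projective_lifting_property G.rangeRestrict LinearMap.id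
    G.surjective_rangeRestrict
  have hs' : ∀ e : LinearMap.range G, G.rangeRestrict (s e) = e := fun e => LinearMap.congr_fun hs e
  have hmem : ∀ c : C, c - s (G.rangeRestrict c) ∈ g.ker := by
    intro c
    have h1 : G.rangeRestrict (c - s (G.rangeRestrict c)) = 0 := by
      rw [map_sub, hs', sub_self]
    exact congrArg Subtype.val h1
  refine ⟨AddMonoidHom.mk' (fun c => f ⟨c - s (G.rangeRestrict c), hmem c⟩) ?_, ?_⟩
  · intro a b
    rw [← map_add]
    congr 1
    apply Subtype.ext
    show a + b - s (G.rangeRestrict (a + b)) =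
      (a - s (G.rangeRestrict a)) + (b - s (G.rangeRestrict b))
    rw [map_add, map_add]
    abel
  · intro z
    show f ⟨(z : C) - s (G.rangeRestrict z), hmem z⟩ = f z
    congr 1
    apply Subtype.ext
    have h0 : G.rangeRestrict (z : C) = 0 := Subtype.ext z.2
    show (z : C) - s (G.rangeRestrict z) = z
    rw [h0, map_zero, sub_zero]

/-- **Every homomorphism from `H_{n+1}(Γ; ℤ)` to an abelian group is the evaluation of a cocycle.** -/
theorem exists_cocycle' {Γ : Type v} [Group Γ] {n : ℕ} {A : Type w} [AddCommGroup A]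
    (f : HG Γ n →+ A) :
    ∃ (φ : (Fin (n + 2) → Γ) → A) (hφ : IsCoc Γ n φ), ∀ x, HG.ev hφ x = f x := by
  let g : Cx ℤ Γ (n + 1) →+ ((Fin (n + 1) → Γ) →₀ ℤ) :=
    ((nrm Γ n).comp (bd ℤ Γ n)).toAddMonoidHom
  have hker : ∀ c : Cx ℤ Γ (n + 1), c ∈ g.ker ↔ c ∈ cyc Γ n := by
    intro c
    constructor
    · intro h
      have h1 : nrm Γ n (bd ℤ Γ n c) = 0 := h
      have h2 := sub_nrm_mem (bd ℤ Γ n c)
      rw [h1, sub_zero] at h2
      exact h2
    · intro h
      exact nrm_coi (show bd ℤ Γ n c ∈ coi Γ n from h)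
  let f0 : g.ker →+ A := AddMonoidHom.mk' (fun z => f (HG.mk ⟨z.1, (hker z.1).1 z.2⟩)) (by
    intro a b
    rw [← map_add, ← HG.mk_add]
    rfl)
  have hf0 : ∀ z : g.ker, f0 z = f (HG.mk ⟨z.1, (hker z.1).1 z.2⟩) := fun z => rfl
  obtain ⟨F, hF⟩ := exists_extension' g f0
  have hF' : ∀ (c : Cx ℤ Γ (n + 1)) (hc : c ∈ cyc Γ n), F c = f (HG.mk ⟨c, hc⟩) :=
    fun c hc => hF ⟨c, (hker c).2 hc⟩
  have hF0 : ∀ c : Cx ℤ Γ (n + 1), c ∈ bnd Γ n → F c = 0 := by
    intro c hc
    rw [hF' c (bnd_le_cyc hc)]
    have h0 : (0 : HG Γ n) = HG.mk 0 := rfl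
    have h1 : HG.mk ⟨c, bnd_le_cyc hc⟩ = (0 : HG Γ n) := by
      rw [h0, HG.mk_eq_iff]
      show c - 0 ∈ bnd Γ n
      rw [sub_zero]
      exact hc
    rw [h1, map_zero]
  have hcoc : IsCoc Γ n fun x => F (Finsupp.single x 1) := by
    constructor
    · intro g x
      rw [← sub_eq_zero, ← map_sub]
      exact hF0 _ (Submodule.mem_sup_right (Submodule.subset_span ⟨g, x, rfl⟩))
    · intro x
      have h1 := hF0 (bd ℤ Γ (n + 1) (Finsupp.single x 1))
        (Submodule.mem_sup_left (LinearMap.mem_range_self _ _))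
      rw [bd_single, map_sum] at h1
      simp only [map_zsmul] at h1
      exact h1
  refine ⟨_, hcoc, ?_⟩
  intro x
  obtain ⟨z, rfl⟩ := HG.mk_surjective x
  rw [HG.ev_mk, lc_addHom]
  exact hF' z z.2

end Pool.Agent.H16.KN
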