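import Pool.Agent.H16.KN.WW
import Pool.Agent.H16.KN.Chn
import Pool.Agent.H16.KN.EvB
import Pool.Agent.H16.KN.UctF
import Pool.Agent.H16.KN.RelA

/-!
# Project KN: the relations

Model of the statement: `rel_two` in `Pool/Agent/H8/KZ/RelD.lean`.

PROOF of `relN`.  `choose` `E i, xA i, yA i` from `exists_triv`; `z i = HG.mk (ζ i)`; `exists_chain` (over `O`) gives `w`.
`Lw = QC.map (mapRingHom (G × ℤ) fL) w`; for `R = O, Om, L` let `syC R ..` be the chains of the symbols (`map_syC`).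
(1) Over `L`: `WL = Lw + ∑ i, PM (gz L ..) (gk L ..) _ ((E i).map (lau ..fL)) (xA i) (yA i) .. (ζ i)` has `qbd WL ∈ QC0 G L` by
    `qbd_PM`, `QC0_map`, `QC.map_bd` and `const_mem` (`ch N (push (fun _ => 1) ζ) ∈ QC0`).  `exists_class` (for a fixed `π` from
    `exists_pi c`) gives `r, ω, a`.  Take `w s = (-1) ^ k * ω s` (`k` the degree).
(2) Let `m, Om, f, j, p, ..` be given, `xB i, yB i` from `exists_triv`.  `WB = QC.map (mapRingHom .. f) w +
    ∑ i, PM (gz Om ..) .. ((E i).map (lau ..f)) (xB i) (yB i) .. (ζ i)` has `qbd WB ∈ QC0 G Om`.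
(3) `lam' : HG Z_c k →+ Om` with `j (lam' y) = lam y` (`exists_lift_lam`: numerator times the inverse of the denominator,
    additive because `j` is injective); `exists_cocycle'` gives a cocycle `φ` with values in `Om`, `HG.ev φ = lam'`.
    `key`: `TQ (fL π φ) WB = 0`; apply `j` (`TQ_map`, `QC.map_map`, `map_PM`, `map_syC`): with `φL = fun x => j (φ x)`,
    `TQ (fL π φL) (Lw + ∑ i, PM .. (xB i).map j (yB i).map j ..) = 0`.
(4) `PM_cmp` for `X = xA i, Y = yA i`, `X' = (xB i).map (lau ..j)`, `Y' = (yB i).map (lau ..j)`: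
    `X Y' = xA yA vL(n) = vL(n)`, so `V = gz (vL n)` with inverse `gz (vL (-n))`, and `D = 1 - E + Y X'` with inverse
    `1 - E + Y' X` (`exists_VD`); `TQ_fL_bd`, `TQ_const`, `TQ_unit`, `der_coeff_vL`:
    `TQ (PM') - TQ (PM) = (-1) ^ (k + 1) * ∑ d, (∑ χ, n χ m * (|C|⁻¹ * fL (χ d)⁻¹)) * lam (trc .. d (z i))`.
(5) Sum over `i`: `0 = TQ (fL π φL) WL + (-1) ^ (k + 1) * (left side)`, and `TQ (fL π φL) WL = ∑ s, ω s * lam (a s)`.
-/

set_option autoImplicit false

open Matrix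
open scoped LaurentPolynomial

universe u v w

namespace Pool.Agent.H16.KN

open Pool.Agent.H71.FQ
open Pool.Agent.H95.KM
open Pool.Agent.H71.FJ (K0 K0.mk IdemMat)

section aux

variable {R : Type} [CommRing R] {G : Type v} [Group G] {k : ℕ}

/-- the chain of a trivialization -/
private noncomputable def rlP (C : Subgroup G) (E : IdemMat (MonoidAlgebra R C)[T;T⁻¹])
    (X : Matrix (Fin 1) (Fin E.n) (MonoidAlgebra R C)[T;T⁻¹])
    (Y : Matrix (Fin E.n) (Fin 1) (MonoidAlgebra R C)[T;T⁻¹]) (hXY : X * Y = 1)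
    (hYX : Y * X = E.mat) (z : Cx ℤ (Subgroup.centralizer (C : Set G)) k) :
    QC (MonoidAlgebra R (G × Multiplicative ℤ)) (k + 1) :=
  PM (gz R C.subtype) (gk R (Subgroup.centralizer (C : Set G)).subtype)
    (gz_comm R C.subtype (Subgroup.centralizer (C : Set G)).subtype (cent_comm C)) E X Y hXY hYX z

private theorem rlP_congr (C : Subgroup G) {N : ℕ}
    {e e' : Matrix (Fin N) (Fin N) (MonoidAlgebra R C)[T;T⁻¹]} (he : e * e = e)
    (he' : e' * e' = e') (h : e = e')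
    {X X' : Matrix (Fin 1) (Fin N) (MonoidAlgebra R C)[T;T⁻¹]}
    {Y Y' : Matrix (Fin N) (Fin 1) (MonoidAlgebra R C)[T;T⁻¹]} (hX : X = X') (hY : Y = Y')
    (hXY : X * Y = 1) (hYX : Y * X = e) (hXY' : X' * Y' = 1) (hYX' : Y' * X' = e')
    (z : Cx ℤ (Subgroup.centralizer (C : Set G)) k) :
    rlP C ⟨N, e, he⟩ X Y hXY hYX z = rlP C ⟨N, e', he'⟩ X' Y' hXY' hYX' z := by
  subst h
  subst hX
  subst hY
  rfl

private theorem rlP_bd (C : Subgroup G) (E : IdemMat (MonoidAlgebra R C)[T;T⁻¹])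
    (X : Matrix (Fin 1) (Fin E.n) (MonoidAlgebra R C)[T;T⁻¹])
    (Y : Matrix (Fin E.n) (Fin 1) (MonoidAlgebra R C)[T;T⁻¹]) (hXY : X * Y = 1)
    (hYX : Y * X = E.mat) (z : cyc (Subgroup.centralizer (C : Set G)) k) :
    qbd (rlP C E X Y hXY hYX (z : Cx ℤ (Subgroup.centralizer (C : Set G)) (k + 1))) +
      syC R C E (z : Cx ℤ (Subgroup.centralizer (C : Set G)) (k + 1)) ∈ QC0 G R (k + 1) := by
  have h := qbd_PM (gz R C.subtype) (gk R (Subgroup.centralizer (C : Set G)).subtype)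
    (gz_comm R C.subtype (Subgroup.centralizer (C : Set G)).subtype (cent_comm C)) E X Y hXY hYX z
  have e : qbd (rlP C E X Y hXY hYX (z : Cx ℤ (Subgroup.centralizer (C : Set G)) (k + 1))) +
      syC R C E (z : Cx ℤ (Subgroup.centralizer (C : Set G)) (k + 1)) = _ := h
  rw [e]
  exact AddSubgroup.sub_mem _ (const_mem _ _) (const_mem _ _)

private theorem rlP_map {R' : Type} [CommRing R'] (j : R →+* R') (C : Subgroup G)
    (E : IdemMat (MonoidAlgebra R C)[T;T⁻¹])
    (X : Matrix (Fin 1) (Fin E.n) (MonoidAlgebra R C)[T;T⁻¹])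
    (Y : Matrix (Fin E.n) (Fin 1) (MonoidAlgebra R C)[T;T⁻¹]) (hXY : X * Y = 1)
    (hYX : Y * X = E.mat)
    (hXY' : X.map (lau (MonoidAlgebra.mapRingHom C j)) *
      Y.map (lau (MonoidAlgebra.mapRingHom C j)) = 1)
    (hYX' : Y.map (lau (MonoidAlgebra.mapRingHom C j)) *
      X.map (lau (MonoidAlgebra.mapRingHom C j)) =
        (E.map (lau (MonoidAlgebra.mapRingHom C j))).mat)
    (z : Cx ℤ (Subgroup.centralizer (C : Set G)) k) :
    QC.map (MonoidAlgebra.mapRingHom (G × Multiplicative ℤ) j) (rlP C E X Y hXY hYX z) =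
      rlP C (E.map (lau (MonoidAlgebra.mapRingHom C j)))
        (X.map (lau (MonoidAlgebra.mapRingHom C j)))
        (Y.map (lau (MonoidAlgebra.mapRingHom C j))) hXY' hYX' z :=
  map_PM (gz R C.subtype) (gk R (Subgroup.centralizer (C : Set G)).subtype)
    (gz_comm R C.subtype (Subgroup.centralizer (C : Set G)).subtype (cent_comm C)) E
    (gz R' C.subtype) (gk R' (Subgroup.centralizer (C : Set G)).subtype)
    (gz_comm R' C.subtype (Subgroup.centralizer (C : Set G)).subtype (cent_comm C))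
    (lau (MonoidAlgebra.mapRingHom C j)) (MonoidAlgebra.mapRingHom (G × Multiplicative ℤ) j)
    (fun b => map_gz j C.subtype b)
    (fun γ => map_gk j (Subgroup.centralizer (C : Set G)).subtype γ) X Y hXY hYX hXY' hYX' z

private theorem rl_mem0 {M : Type*} [AddCommGroup M] {S : AddSubgroup M} {a b c : M}
    (h : a - b ∈ S) (h' : c + b ∈ S) : a + c ∈ S := by
  have e : a + c = a - b + (c + b) := by abel
  rw [e]
  exact AddSubgroup.add_mem _ h h'

private theorem rl_mem {O : Type} [CommRing O] (f : O →+* R) {ι : Type} [Fintype ι]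
    (C : ι → Subgroup G) (E : ∀ i, IdemMat (MonoidAlgebra O (C i))[T;T⁻¹])
    (ζ : ∀ i, cyc (Subgroup.centralizer (C i : Set G)) k)
    {w : QC (MonoidAlgebra O (G × Multiplicative ℤ)) (k + 2)}
    (hw : qbd w - ∑ i, syC O (C i) (E i) (ζ i : Cx ℤ _ (k + 1)) ∈ QC0 G O (k + 1))
    (X : ∀ i, Matrix (Fin 1) (Fin (E i).n) (MonoidAlgebra R (C i))[T;T⁻¹])
    (Y : ∀ i, Matrix (Fin (E i).n) (Fin 1) (MonoidAlgebra R (C i))[T;T⁻¹])
    (hXY : ∀ i, X i * Y i = 1)
    (hYX : ∀ i, Y i * X i = ((E i).map (lau (MonoidAlgebra.mapRingHom (C i) f))).mat) :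
    qbd (QC.map (MonoidAlgebra.mapRingHom (G × Multiplicative ℤ) f) w +
      ∑ i, rlP (C i) ((E i).map (lau (MonoidAlgebra.mapRingHom (C i) f))) (X i) (Y i) (hXY i)
        (hYX i) (ζ i : Cx ℤ (Subgroup.centralizer (C i : Set G)) (k + 1))) ∈
      QC0 G R (k + 1) := by
  have h1 := QC0_map f hw
  rw [map_sub, map_sum, QC.map_bd] at h1
  have e : ∑ i, QC.map (MonoidAlgebra.mapRingHom (G × Multiplicative ℤ) f)
      (syC O (C i) (E i) (ζ i : Cx ℤ (Subgroup.centralizer (C i : Set G)) (k + 1))) =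
      ∑ i, syC R (C i) ((E i).map (lau (MonoidAlgebra.mapRingHom (C i) f)))
        (ζ i : Cx ℤ (Subgroup.centralizer (C i : Set G)) (k + 1)) :=
    Finset.sum_congr rfl fun i _ => map_syC f (C i) (E i) _
  rw [e] at h1
  have h2 : ∑ i, (qbd (rlP (C i) ((E i).map (lau (MonoidAlgebra.mapRingHom (C i) f))) (X i) (Y i)
        (hXY i) (hYX i) (ζ i : Cx ℤ (Subgroup.centralizer (C i : Set G)) (k + 1))) +
      syC R (C i) ((E i).map (lau (MonoidAlgebra.mapRingHom (C i) f)))
        (ζ i : Cx ℤ (Subgroup.centralizer (C i : Set G)) (k + 1))) ∈ QC0 G R (k + 1) :=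
    AddSubgroup.sum_mem _ fun i _ => rlP_bd (C i)
      ((E i).map (lau (MonoidAlgebra.mapRingHom (C i) f))) (X i) (Y i) (hXY i) (hYX i) (ζ i)
  rw [Finset.sum_add_distrib] at h2
  rw [map_add, map_sum]
  exact rl_mem0 h1 h2

private theorem rl_fL {R' : Type} [CommRing R'] (j : R →+* R') {c : G}
    (π : G → Subgroup.centralizer ({c} : Set G))
    (φ : (Fin (k + 2) → Subgroup.centralizer ({c} : Set G)) → R) :
    (fun v => j (fL π φ v)) = fL π (fun x => j (φ x)) := by
  funext v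
  show j (_ * ldg R _ _) = _ * ldg R' _ _
  rw [map_mul, ldg, map_intCast]
  rfl

/-- the comparison of two trivializations -/
private theorem rl_cmp {c : G} {π : G → Subgroup.centralizer ({c} : Set G)}
    (hπ : ∀ (z : Subgroup.centralizer ({c} : Set G)) (g : G), π (z * g) = z * π g)
    {φ : (Fin (k + 2) → Subgroup.centralizer ({c} : Set G)) → R}
    (hφ : IsCoc (Subgroup.centralizer ({c} : Set G)) k φ) (C : Subgroup G) [Fintype C]
    (E : IdemMat (MonoidAlgebra R C)[T;T⁻¹])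
    (X X' : Matrix (Fin 1) (Fin E.n) (MonoidAlgebra R C)[T;T⁻¹])
    (Y Y' : Matrix (Fin E.n) (Fin 1) (MonoidAlgebra R C)[T;T⁻¹]) (hXY : X * Y = 1)
    (hYX : Y * X = E.mat) (hXY' : X' * Y' = 1) (hYX' : Y' * X' = E.mat)
    (v v' : (MonoidAlgebra R C)[T;T⁻¹]) (hv : v * v' = 1) (hv' : v' * v = 1)
    (hX : ∀ i l, X' i l = v' * X i l) (hY : ∀ l i, Y' l i = Y l i * v)
    (z : cyc (Subgroup.centralizer (C : Set G)) k) :
    TQ ((c, 1) : G × Multiplicative ℤ) (fL π φ) (rlP C E X' Y' hXY' hYX'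
        (z : Cx ℤ (Subgroup.centralizer (C : Set G)) (k + 1))) =
      TQ ((c, 1) : G × Multiplicative ℤ) (fL π φ) (rlP C E X Y hXY hYX
        (z : Cx ℤ (Subgroup.centralizer (C : Set G)) (k + 1))) +
      (-1 : ℤ) ^ (k + 1) • ∑ d : C, ((der _ v * v').coeff 0).coeff d *
        HG.ev hφ (trc k c C d (HG.mk z)) := by
  obtain ⟨V, D, hV, hV1, hV2, hD⟩ := exists_VD (gz R C.subtype) E X X' Y Y' hXY hYX hXY' hYX'
    v v' hv hv' hX hY
  obtain ⟨y, hy⟩ := PM_cmp (gz R C.subtype) (gk R (Subgroup.centralizer (C : Set G)).subtype)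
    (gz_comm R C.subtype (Subgroup.centralizer (C : Set G)).subtype (cent_comm C)) E X Y hXY hYX
    X' Y' hXY' hYX' V hV D hD z
  have h1 := congrArg (TQ ((c, 1) : G × Multiplicative ℤ) (fL π φ)) hy
  rw [TQ_fL_bd hπ hφ, map_sub, map_sub, map_sub, TQ_const hπ hφ, sub_zero] at h1
  have h2 := TQ_unit hπ hφ C v v' V hV1 hV2 z
  have h3 : TQ ((c, 1) : G × Multiplicative ℤ) (fL π φ) (rlP C E X' Y' hXY' hYX'
        (z : Cx ℤ (Subgroup.centralizer (C : Set G)) (k + 1))) -
      TQ ((c, 1) : G × Multiplicative ℤ) (fL π φ) (rlP C E X Y hXY hYX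
        (z : Cx ℤ (Subgroup.centralizer (C : Set G)) (k + 1))) -
      TQ ((c, 1) : G × Multiplicative ℤ) (fL π φ)
      (ch 1 (prism (fun y => kC R C y) (fun y => kC R C y * V) (k + 1)
        (z : Cx ℤ (Subgroup.centralizer (C : Set G)) (k + 1)))) = 0 := h1
  rw [h2] at h3
  rw [← sub_eq_zero, ← sub_sub]
  exact h3

private theorem rl_coc {R' : Type} [CommRing R'] {Γ : Type v} [Group Γ] (j : R →+* R')
    {φ : (Fin (k + 2) → Γ) → R} (hφ : IsCoc Γ k φ) : IsCoc Γ k fun x => j (φ x) where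
  inv g x := congrArg j (hφ.inv g x)
  coc x := by
    have h := congrArg j (hφ.coc x)
    rw [map_sum, map_zero] at h
    simp only [map_zsmul] at h
    exact h

private theorem rl_map_map {O R' : Type} [CommRing O] [CommRing R'] (f : O →+* R) (j : R →+* R')
    {fL : O →+* R'} (h : j.comp f = fL) (C : Subgroup G)
    (E : IdemMat (MonoidAlgebra O C)[T;T⁻¹]) :
    ((E.map (lau (MonoidAlgebra.mapRingHom C f))).map (lau (MonoidAlgebra.mapRingHom C j))).mat =
      (E.map (lau (MonoidAlgebra.mapRingHom C fL))).mat := by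
  subst h
  refine Matrix.ext fun a b => ?_
  show lau (MonoidAlgebra.mapRingHom C j) (lau (MonoidAlgebra.mapRingHom C f) (E.mat a b)) =
    lau (MonoidAlgebra.mapRingHom C (j.comp f)) (E.mat a b)
  rw [← RingHom.comp_apply, ← lau_comp]
  congr 2
  exact (MonoidAlgebra.mapRingHom_comp _ _).symm

private theorem rl_sign {L : Type*} [Field L] (k : ℕ) (x y : L)
    (h : x + (-1) ^ (k + 1) * y = 0) : y = (-1) ^ k * x := by
  have hs : ((-1 : L) ^ k) * (-1) ^ k = 1 := by
    rw [← mul_pow, neg_one_mul, neg_neg, one_pow]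
  have hx : x = (-1) ^ k * y := by
    rw [pow_succ] at h
    linear_combination h
  rw [hx, ← mul_assoc, hs, one_mul]

end aux

open Classical in
/-- **The relations.** -/
theorem relN {O : Type} [CommRing O] [IsDomain O] [CharZero O] (N : ℕ) [NeZero N]
    [HasEnoughRootsOfUnity O N] [Finite (Amod O N)] {L : Type} [Field L] [CharZero L]
    (fL : O →+* L) (hfL : Function.Injective fL) {G : Type v} [Group G] {k : ℕ}
    {ι : Type} [Fintype ι] (C : ι → Subgroup G) [∀ i, Fintype (C i)]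
    [∀ i, Fintype (C i →* Oˣ)] (hC : ∀ i, ∀ a b : C i, a * b = b * a)
    (hN : ∀ i, Nat.card (C i) ∣ N) (z : ∀ i, HG (Subgroup.centralizer (C i : Set G)) k)
    (n : ∀ i, (C i →* Oˣ) → Pr O N → ℤ)
    (h : LKQ.mk (∑ i, asm k (lau (MonoidAlgebra.mapDomainRingHom O (C i).subtype))
      ((lgrp O G).comp (Subgroup.centralizer (C i : Set G)).subtype)
      (lgrp_comm O (C i).subtype (Subgroup.centralizer (C i : Set G)).subtype (cent_comm (C i)))
      ((sqC (RingHom.id O) N (C i) (hC i) (hN i)).lauSq.dl (uN (n i))) (z i)) = 0)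
    (c : G) (hc : IsOfFinOrder c) :
    ∃ (r : ℕ) (w : Fin r → L) (a : Fin r → HG (Subgroup.centralizer ({c} : Set G)) k),
      ∀ (m : Pr O N) (Om : Type) [CommRing Om] [IsDomain Om] [CharZero Om] (f : O →+* Om)
        (j : Om →+* L), j.comp f = fL → Function.Injective j →
        (∀ (m' : Pr O N) (r : O), Ideal.Quotient.mk (Ideal.span {(N : O)}) r = kappa O N m' →
          Ideal.Quotient.mk (Ideal.span {(N : Om)}) (f r) = if m' = m then 1 else 0) →
        ∀ (p : ℕ) [Fact p.Prime], (∀ b : Om, (∀ e : ℕ, (p : Om) ^ e ∣ b) → b = 0) →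
          (∀ q : ℕ, ¬ p ∣ q → IsUnit (q : Om)) → p ∣ orderOf c →
          (∀ π : G → Subgroup.centralizer ({c} : Set G),
            (∀ (y : Subgroup.centralizer ({c} : Set G)) (g : G), π (y * g) = y * π g) →
            ∀ φ : (Fin (k + 2) → Subgroup.centralizer ({c} : Set G)) → Om,
              IsCoc (Subgroup.centralizer ({c} : Set G)) k φ → Meas p c π φ) →
          ∀ lam : HG (Subgroup.centralizer ({c} : Set G)) k →+ ℚ,
            (∀ y, ¬ p ∣ (lam y).den) →
            ∑ i, ∑ χ : C i →* Oˣ, (n i χ m : L) * ((Fintype.card (C i) : L)⁻¹ *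
              ∑ d : C i, fL (((χ d)⁻¹ : Oˣ) : O) * ((lam (trc k c (C i) d (z i)) : ℚ) : L)) =
            ∑ s, w s * ((lam (a s) : ℚ) : L) := by
  choose E xA yA hdl hxyA hyxA hloc using fun i =>
    exists_triv N fL hfL (C i) (hC i) (hN i) (n i)
  choose ζ hζ using fun i => HG.mk_surjective (z i)
  obtain ⟨π, hπ⟩ := exists_pi c
  have h' : LKQ.mk (∑ i, asm k (lau (MonoidAlgebra.mapDomainRingHom O (C i).subtype))
      ((lgrp O G).comp (Subgroup.centralizer (C i : Set G)).subtype)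
      (lgrp_comm O (C i).subtype (Subgroup.centralizer (C i : Set G)).subtype (cent_comm (C i)))
      (K0.mk (E i) - K0.mk (oneE _)) (HG.mk (ζ i))) = 0 := by
    rw [← h]
    congr 1
    refine Finset.sum_congr rfl fun i _ => ?_
    rw [hdl i, hζ i]
  obtain ⟨w, hw⟩ := exists_chain C E ζ h'
  have hWL := rl_mem fL C E ζ hw xA yA hxyA hyxA
  obtain ⟨r, ω, a, hωa⟩ := exists_class hπ hWL
  refine ⟨r, fun s => (-1) ^ k * ω s, a, ?_⟩
  intro m Om _ _ _ f j hjf hj hkap p _ hsep hunit hpc hmeas lam hlam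
  choose xB yB hxyB hyxB hxBA hyBA using fun i => hloc i m Om f j hjf hj hkap
  have hWB := rl_mem f C E ζ hw xB yB hxyB hyxB
  obtain ⟨lam', hlam'⟩ := exists_lift_lam j hj hunit lam hlam
  obtain ⟨φ, hφ, hev⟩ := exists_cocycle' lam'
  have hkey := key hsep hc hpc hπ hφ (hmeas π hπ φ hφ) hWB
  -- the cocycle over `L`
  have hφL : IsCoc (Subgroup.centralizer ({c} : Set G)) k fun x => j (φ x) := rl_coc j hφ
  have hevL : ∀ y, HG.ev hφL y = ((lam y : ℚ) : L) := by
    intro y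
    rw [HG.ev_comp hφ j.toAddMonoidHom hφL y, hev]
    exact hlam' y
  have h1 := congrArg j hkey
  rw [← TQ_map j (CI_fL hπ hφ.inv), map_zero, rl_fL] at h1
  -- the comparison
  have hX : ∀ i, ((xB i).map (lau (MonoidAlgebra.mapRingHom (C i) j))) *
      ((yB i).map (lau (MonoidAlgebra.mapRingHom (C i) j))) = 1 := by
    intro i
    rw [← Matrix.map_mul, hxyB i, Matrix.map_one _ (map_zero _) (map_one _)]
  have hY : ∀ i, ((yB i).map (lau (MonoidAlgebra.mapRingHom (C i) j))) *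
      ((xB i).map (lau (MonoidAlgebra.mapRingHom (C i) j))) =
        (((E i).map (lau (MonoidAlgebra.mapRingHom (C i) f))).map
          (lau (MonoidAlgebra.mapRingHom (C i) j))).mat := by
    intro i
    rw [← Matrix.map_mul, hyxB i]
    rfl
  have hEE : ∀ i, (((E i).map (lau (MonoidAlgebra.mapRingHom (C i) f))).map
      (lau (MonoidAlgebra.mapRingHom (C i) j))).mat =
        ((E i).map (lau (MonoidAlgebra.mapRingHom (C i) fL))).mat := fun i =>
    rl_map_map f j hjf (C i) (E i)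
  have hYL : ∀ i, ((yB i).map (lau (MonoidAlgebra.mapRingHom (C i) j))) *
      ((xB i).map (lau (MonoidAlgebra.mapRingHom (C i) j))) =
        ((E i).map (lau (MonoidAlgebra.mapRingHom (C i) fL))).mat := fun i =>
    (hY i).trans (hEE i)
  have hmap : QC.map (MonoidAlgebra.mapRingHom (G × Multiplicative ℤ) j)
      (QC.map (MonoidAlgebra.mapRingHom (G × Multiplicative ℤ) f) w +
        ∑ i, rlP (C i) ((E i).map (lau (MonoidAlgebra.mapRingHom (C i) f))) (xB i) (yB i)
          (hxyB i) (hyxB i) (ζ i : Cx ℤ (Subgroup.centralizer (C i : Set G)) (k + 1))) =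
      QC.map (MonoidAlgebra.mapRingHom (G × Multiplicative ℤ) fL) w +
        ∑ i, rlP (C i) ((E i).map (lau (MonoidAlgebra.mapRingHom (C i) fL)))
          ((xB i).map (lau (MonoidAlgebra.mapRingHom (C i) j)))
          ((yB i).map (lau (MonoidAlgebra.mapRingHom (C i) j))) (hX i) (hYL i)
          (ζ i : Cx ℤ (Subgroup.centralizer (C i : Set G)) (k + 1)) := by
    rw [map_add, map_sum, QC.map_map, ← MonoidAlgebra.mapRingHom_comp, hjf]
    congr 1
    refine Finset.sum_congr rfl fun i _ => ?_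
    rw [rlP_map j (C i) ((E i).map (lau (MonoidAlgebra.mapRingHom (C i) f))) (xB i) (yB i)
      (hxyB i) (hyxB i) (hX i) (hY i)]
    exact rlP_congr (C i) (((E i).map (lau (MonoidAlgebra.mapRingHom (C i) f))).map
      (lau (MonoidAlgebra.mapRingHom (C i) j))).idem
      ((E i).map (lau (MonoidAlgebra.mapRingHom (C i) fL))).idem (hEE i) rfl rfl (hX i) (hY i)
      (hX i) (hYL i) _
  rw [hmap, map_add, map_sum] at h1
  have hcmp : ∀ i, TQ ((c, 1) : G × Multiplicative ℤ)
      (Pool.Agent.H16.KN.fL π fun x => j (φ x))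
      (rlP (C i) ((E i).map (lau (MonoidAlgebra.mapRingHom (C i) fL)))
          ((xB i).map (lau (MonoidAlgebra.mapRingHom (C i) j)))
          ((yB i).map (lau (MonoidAlgebra.mapRingHom (C i) j))) (hX i) (hYL i)
          (ζ i : Cx ℤ (Subgroup.centralizer (C i : Set G)) (k + 1))) =
      TQ ((c, 1) : G × Multiplicative ℤ) (Pool.Agent.H16.KN.fL π fun x => j (φ x))
        (rlP (C i) ((E i).map (lau (MonoidAlgebra.mapRingHom (C i) fL))) (xA i) (yA i)
          (hxyA i) (hyxA i) (ζ i : Cx ℤ (Subgroup.centralizer (C i : Set G)) (k + 1))) +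
      (-1 : ℤ) ^ (k + 1) • ∑ d : C i, (∑ χ : C i →* Oˣ, (n i χ m : L) *
        ((Fintype.card (C i) : L)⁻¹ * fL (((χ d)⁻¹ : Oˣ) : O))) *
          ((lam (trc k c (C i) d (z i)) : ℚ) : L) := by
    intro i
    have hv : vL fL (fun χ : C i →* Oˣ => n i χ m) * vL fL (-fun χ : C i →* Oˣ => n i χ m) = 1 := by
      rw [vL_mul fL (hC i) (hN i), add_neg_cancel, vL_zero fL (hC i) (hN i)]
    have hv' : vL fL (-fun χ : C i →* Oˣ => n i χ m) * vL fL (fun χ : C i →* Oˣ => n i χ m) = 1 := by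
      rw [vL_mul fL (hC i) (hN i), neg_add_cancel, vL_zero fL (hC i) (hN i)]
    rw [rl_cmp hπ hφL (C i) ((E i).map (lau (MonoidAlgebra.mapRingHom (C i) fL))) (xA i)
      ((xB i).map (lau (MonoidAlgebra.mapRingHom (C i) j))) (yA i)
      ((yB i).map (lau (MonoidAlgebra.mapRingHom (C i) j))) (hxyA i) (hyxA i) (hX i) (hYL i)
      (vL fL (fun χ : C i →* Oˣ => n i χ m)) (vL fL (-fun χ : C i →* Oˣ => n i χ m)) hv hv'
      (hxBA i) (hyBA i) (ζ i)]
    congr 2
    refine Finset.sum_congr rfl fun d _ => ?_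
    rw [hevL, hζ i]
    congr 1
    first
      | exact der_coeff_vL N fL (hC i) (hN i) _ _
      | exact der_coeff_vL fL (hC i) (hN i) _ _
      | exact der_coeff_vL fL _ _
  rw [Finset.sum_congr rfl fun i _ => hcmp i, Finset.sum_add_distrib, ← add_assoc, ← map_sum,
    ← map_add, hωa _ hφL, ← Finset.smul_sum] at h1
  have h2 : ∑ s, ω s * HG.ev hφL (a s) = ∑ s, ω s * ((lam (a s) : ℚ) : L) :=
    Finset.sum_congr rfl fun s _ => by rw [hevL]
  rw [h2, zsmul_eq_mul, Int.cast_pow, Int.cast_neg, Int.cast_one] at h1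
  have h3 : ∑ i, ∑ χ : C i →* Oˣ, (n i χ m : L) * ((Fintype.card (C i) : L)⁻¹ *
      ∑ d : C i, fL (((χ d)⁻¹ : Oˣ) : O) * ((lam (trc k c (C i) d (z i)) : ℚ) : L)) =
      ∑ i, ∑ d : C i, (∑ χ : C i →* Oˣ, (n i χ m : L) *
        ((Fintype.card (C i) : L)⁻¹ * fL (((χ d)⁻¹ : Oˣ) : O))) *
          ((lam (trc k c (C i) d (z i)) : ℚ) : L) := by
    refine Finset.sum_congr rfl fun i _ => ?_
    simp only [Finset.sum_mul, Finset.mul_sum]
    rw [Finset.sum_comm]
    refine Finset.sum_congr rfl fun d _ => Finset.sum_congr rfl fun χ _ => ?_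
    ring
  have h4 : ∑ s, (-1 : L) ^ k * ω s * ((lam (a s) : ℚ) : L) =
      (-1) ^ k * ∑ s, ω s * ((lam (a s) : ℚ) : L) := by
    rw [Finset.mul_sum]
    exact Finset.sum_congr rfl fun s _ => mul_assoc _ _ _
  rw [h3, h4]
  exact rl_sign k _ _ h1

end Pool.Agent.H16.KN
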