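import Pool.Agent.H16.KN.TTc
import Pool.Agent.H16.KN.Cnt
import Pool.Agent.H71.FQ.Nu

/-!
# Project KN: divisibility of the functionals of rotation invariant functions

PROOF of `TR_dvd`.  The letters of `rep q x` are those of `x` repeated: `lts (rep q x) t = lts x (t mod (k + 1))`.  By
`TM_eq` the value is the sum over `w : Fin q → (Fin (k + 1) → S)` of `F w`, the trace of the product of the coefficients
times `wv c (flat q Φ) g`, `g` the word of `w`.  `F` is invariant under `rotF 1`: cyclic invariance of the trace, and for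
`u g u⁻¹ = c`, `A` the product of the first block: `(u A) (rotated g) (u A)⁻¹ = c` and the vertices of the rotated word
are `sig q c` of the vertices (`RIq`).  If `rotF (p ^ a) w = w` then the product of `g` is
(the product of the first `p ^ a` blocks) ^ `p ^ (m - a)`, so `wv = 0` by `hroot`.  `cyc_sum_dvd`.
-/

set_option autoImplicit false

open Matrix

universe u v w

namespace Pool.Agent.H16.KN

open Pool.Agent.H71.FQ

section

variable {G : Type u} [Group G] {B : Type v} [CommRing B] {k : ℕ}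

/-- rotation invariance -/
def RIq (c : G) (q : ℕ) (Φ : (Fin (k + 1) → Fin q → G) → B) : Prop :=
  ∀ v, Φ (fun j => sig q c (v j)) = Φ v

instance instNZp (p m : ℕ) [Fact p.Prime] : NeZero (p ^ m) :=
  ⟨pow_ne_zero m (Fact.out : p.Prime).ne_zero⟩

/-! ### Words of blocks -/

/-- the word of the blocks `w 0, …, w (q - 1)` -/
private def wd {X : Type w} (q : ℕ) (w : Fin q → Fin (k + 1) → X) (t : Fin (q * (k + 1))) : X :=
  w (finProdFinEquiv.symm t).1 (finProdFinEquiv.symm t).2

private theorem ofFn_wd {X : Type w} (q : ℕ) (w : Fin q → Fin (k + 1) → X) :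
    List.ofFn (wd q w) = (List.ofFn fun b => List.ofFn (w b)).flatten := by
  rw [List.ofFn_mul]
  congr 1
  congr 1
  funext i
  congr 1
  funext j
  have h : (finProdFinEquiv.symm (⟨(i : ℕ) * (k + 1) + j, by
      have h1 : ((i : ℕ) + 1) * (k + 1) ≤ q * (k + 1) := Nat.mul_le_mul_right _ i.2
      have h2 := j.2
      have h3 : ((i : ℕ) + 1) * (k + 1) = (i : ℕ) * (k + 1) + (k + 1) := by ring
      omega⟩ : Fin (q * (k + 1)))) = (i, j) := by
    rw [Equiv.symm_apply_eq]
    apply Fin.ext
    rw [finProdFinEquiv_apply_val]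
    show (i : ℕ) * (k + 1) + j = (j : ℕ) + (k + 1) * i
    ring
  rw [wd, h]

private theorem wd_rot {X : Type w} (n : ℕ) (w : Fin (n + 1) → Fin (k + 1) → X) :
    ∃ L : List X, List.ofFn (wd (n + 1) w) = List.ofFn (w 0) ++ L ∧
      List.ofFn (wd (n + 1) (rotF 1 w)) = L ++ List.ofFn (w 0) := by
  refine ⟨(List.ofFn fun i : Fin n => List.ofFn (w i.succ)).flatten, ?_, ?_⟩
  · rw [ofFn_wd, List.ofFn_succ, List.flatten_cons]
  · rw [ofFn_wd, List.ofFn_succ', List.concat_eq_append, List.flatten_append]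
    have h1 : ∀ i : Fin n, rotF 1 w i.castSucc = w i.succ := by
      intro i
      show w (finRotate (n + 1) i.castSucc) = w i.succ
      congr 1
      rw [finRotate_apply]
      exact Fin.coeSucc_eq_succ
    have h2 : rotF 1 w (Fin.last n) = w 0 := by
      show w (finRotate (n + 1) (Fin.last n)) = w 0
      rw [finRotate_last]
    simp only [h1, h2, List.flatten_cons, List.flatten_nil, List.append_nil]

/-! ### Rotation of the words -/

omit [CommRing B] in
private theorem CI_flat {c : G} {q : ℕ} {Φ : (Fin (k + 1) → Fin q → G) → B} (hΦ : CIq c q Φ) :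
    CI c (flat q Φ) := fun g hg _ => hΦ g hg _

private theorem wv_rot {q : ℕ} (hq : q ≠ 0) {c : G} {Φ : (Fin (k + 1) → Fin q → G) → B}
    (hΦ : CIq c q Φ) (hr : RIq c q Φ) (w : Fin q → Fin (k + 1) → G) :
    wv c (flat q Φ) (wd q (rotF 1 w)) = wv c (flat q Φ) (wd q w) := by
  obtain ⟨n, rfl⟩ := Nat.exists_eq_succ_of_ne_zero hq
  obtain ⟨L, h1, h2⟩ := wd_rot n w
  have hA : (List.ofFn (w 0)).length = k + 1 := List.length_ofFn
  have hL : L.length = (k + 1) * n := by
    have h3 := congrArg List.length h1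
    rw [List.length_ofFn, List.length_append, hA] at h3
    have h4 : (n + 1) * (k + 1) = (k + 1) + (k + 1) * n := by ring
    omega
  generalize List.ofFn (w 0) = A at *
  by_cases h : ∃ u, u * (List.ofFn (wd (n + 1) w)).prod * u⁻¹ = c
  · obtain ⟨u, hu⟩ := h
    have hu' : (u * A.prod) * (List.ofFn (wd (n + 1) (rotF 1 w))).prod * (u * A.prod)⁻¹ = c := by
      rw [h2, List.prod_append, ← hu, h1, List.prod_append]
      group
    rw [wv_eq (CI_flat hΦ) _ _ hu', wv_eq (CI_flat hΦ) _ _ hu]
    have hcu : u * (A.prod * L.prod) = c * u := by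
      rw [← hu, h1, List.prod_append]
      group
    show Φ _ = Φ _
    rw [← hr fun (j : Fin (k + 1)) (b : Fin (n + 1)) => vtx u (wd (n + 1) w) (finProdFinEquiv (b, j))]
    congr 1
    funext j b
    show vtx (u * A.prod) (wd (n + 1) (rotF 1 w)) (finProdFinEquiv (b, j)) =
      sig (n + 1) c (fun b => vtx u (wd (n + 1) w) (finProdFinEquiv (b, j))) b
    have hj : (j : ℕ) < k + 1 := j.2
    unfold vtx sig
    rw [h1, h2]
    simp only [finProdFinEquiv_apply_val]
    by_cases hb : (b : ℕ) + 1 < n + 1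
    · have h5 : (k + 1) * ((b : ℕ) + 1) ≤ (k + 1) * n := Nat.mul_le_mul_left _ (by omega)
      have h6 : (k + 1) * ((b : ℕ) + 1) = (k + 1) * b + (k + 1) := by ring
      have h7 : (A ++ L).take ((j : ℕ) + (k + 1) * ((b : ℕ) + 1)) =
          A ++ L.take ((j : ℕ) + (k + 1) * b) := by
        rw [List.take_append, List.take_of_length_le (by rw [hA]; omega), hA]
        congr 2
        omega
      rw [dif_pos hb, List.take_append_of_le_length (by rw [hL]; omega), h7, List.prod_append,
        mul_assoc]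
    · have h5 : (b : ℕ) = n := by have := b.2; omega
      have h7 : (L ++ A).take ((j : ℕ) + (k + 1) * n) = L ++ A.take (j : ℕ) := by
        rw [List.take_append, List.take_of_length_le (by rw [hL]; omega), hL]
        congr 2
        omega
      have h8 : (A ++ L).take ((j : ℕ) + (k + 1) * 0) = A.take (j : ℕ) := by
        rw [mul_zero, add_zero, List.take_append_of_le_length (by rw [hA]; omega)]
      rw [dif_neg hb, h5, h7]
      show _ = c * (u * ((A ++ L).take ((j : ℕ) + (k + 1) * 0)).prod)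
      rw [h8, List.prod_append, ← mul_assoc, mul_assoc u, hcu, mul_assoc]
  · rw [wv_zero c _ (wd (n + 1) w) fun u hu => h ⟨u, hu⟩, wv_zero c]
    intro u hu
    apply h
    refine ⟨u * A.prod⁻¹, ?_⟩
    rw [← hu, h1, h2, List.prod_append, List.prod_append]
    group

private theorem trace_rot {q : ℕ} (hq : q ≠ 0) {N : ℕ}
    (w : Fin q → Fin (k + 1) → Matrix (Fin N) (Fin N) B) :
    (List.ofFn (wd q (rotF 1 w))).prod.trace = (List.ofFn (wd q w)).prod.trace := by
  obtain ⟨n, rfl⟩ := Nat.exists_eq_succ_of_ne_zero hq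
  obtain ⟨L, h1, h2⟩ := wd_rot n w
  rw [h1, h2, List.prod_append, List.prod_append, Matrix.trace_mul_comm]

/-! ### Periodic words -/

private theorem prod_periodic {M : Type w} [Monoid M] (f : ℕ → M) (r s : ℕ)
    (hf : ∀ i, f (i + r) = f i) :
    ((List.range (s * r)).map f).prod = ((List.range r).map f).prod ^ s := by
  induction s with
  | zero => simp
  | succ s ih =>
    have h : (s + 1) * r = r + s * r := by ring
    rw [h, List.range_add, List.map_append, List.prod_append, pow_succ', List.map_map]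
    congr 1
    rw [← ih]
    congr 2
    funext i
    show f (r + i) = f i
    rw [add_comm, hf]

private theorem rot_iter (n k : ℕ) (i : Fin (n + 1)) :
    (((finRotate (n + 1))^[k] i : Fin (n + 1)) : ℕ) = ((i : ℕ) + k) % (n + 1) := by
  induction k with
  | zero => simp [Nat.mod_eq_of_lt i.2]
  | succ k ih =>
    rw [Function.iterate_succ_apply', finRotate_apply, Fin.val_add, ih, Fin.val_one', ← Nat.add_mod,
      add_assoc]

private theorem periodic {q r s : ℕ} (hq : q ≠ 0) (hrs : q = s * r) (S : Finset G)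
    (w : Fin q → Fin (k + 1) → G) (hw : rotF r w = w) (hS : ∀ b j, w b j ∈ S) :
    ∃ l : List G, (∀ g ∈ l, g ∈ S) ∧ l.length = r * (k + 1) ∧
      (List.ofFn (wd q w)).prod = l.prod ^ s := by
  obtain ⟨n, rfl⟩ := Nat.exists_eq_succ_of_ne_zero hq
  have hm : ∀ i : ℕ, i % (n + 1) < n + 1 := fun i => Nat.mod_lt _ n.succ_pos
  obtain ⟨v, hv⟩ : ∃ v : ℕ → Fin (k + 1) → G, v = fun i => w ⟨i % (n + 1), hm i⟩ := ⟨_, rfl⟩
  have hvr : ∀ i, v (i + r) = v i := by
    intro i
    rw [hv]
    have h := congrFun hw ⟨i % (n + 1), hm i⟩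
    show w ⟨(i + r) % (n + 1), hm _⟩ = w ⟨i % (n + 1), hm i⟩
    rw [← h]
    show _ = w ((finRotate (n + 1))^[r] ⟨i % (n + 1), hm i⟩)
    congr 1
    apply Fin.ext
    rw [rot_iter]
    show (i + r) % (n + 1) = (i % (n + 1) + r) % (n + 1)
    rw [Nat.mod_add_mod]
  refine ⟨((List.range r).map fun i => List.ofFn (v i)).flatten, ?_, ?_, ?_⟩
  · intro g hg
    obtain ⟨l, hl, hgl⟩ := List.mem_flatten.1 hg
    obtain ⟨i, -, rfl⟩ := List.mem_map.1 hl
    obtain ⟨j, rfl⟩ := List.mem_ofFn.1 hgl
    rw [hv]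
    exact hS _ _
  · rw [List.length_flatten, List.map_map]
    have h : (List.length ∘ fun i => List.ofFn (v i)) = fun _ : ℕ => k + 1 := by
      funext i
      exact List.length_ofFn
    rw [h, List.map_const', List.sum_replicate, List.length_range, smul_eq_mul]
  · rw [ofFn_wd, List.prod_flatten, List.prod_flatten, List.map_map]
    have h := prod_periodic (fun i => (List.ofFn (v i)).prod) r s fun i => by rw [hvr]
    have h2 : (List.map List.prod (List.ofFn fun b => List.ofFn (w b))) =
        (List.range (s * r)).map fun i => (List.ofFn (v i)).prod := by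
      rw [← hrs, List.map_ofFn]
      refine List.ext_getElem (by simp) fun i h3 h4 => ?_
      rw [List.getElem_ofFn, List.getElem_map, List.getElem_range]
      have h5 : i < n + 1 := by simpa using h3
      rw [hv]
      show (List.ofFn (w ⟨i, _⟩)).prod = (List.ofFn (w ⟨i % (n + 1), _⟩)).prod
      simp only [Nat.mod_eq_of_lt h5]
    rw [h2, h]
    rfl

/-! ### The letters of the repeated tuple -/

private theorem lts_rep (q : ℕ) [NeZero q] {N : ℕ} (x : Fin (k + 1) → GLm N (MonoidAlgebra B G))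
    (t : Fin (q * (k + 1))) : lts (rep q x) t = lts x (finProdFinEquiv.symm t).2 := by
  have h : (finProdFinEquiv.symm (t + 1)).2 = (finProdFinEquiv.symm t).2 + 1 := by
    apply Fin.ext
    show ((t + 1 : Fin (q * (k + 1))) : ℕ) % (k + 1) = _
    rw [Fin.val_add, Fin.val_add, Fin.val_one', Fin.val_one', Nat.add_mod_mod, Nat.add_mod_mod,
      Nat.mod_mul_left_mod]
    show ((t : ℕ) + 1) % (k + 1) = ((t : ℕ) % (k + 1) + 1) % (k + 1)
    rw [Nat.mod_add_mod]
  unfold lts rep
  rw [h]

theorem TR_dvd {p : ℕ} [Fact p.Prime] (m a : ℕ) (ha : a ≤ m) {c : G}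
    {Φ : (Fin (k + 1) → Fin (p ^ m) → G) → B} (hΦ : CIq c (p ^ m) Φ) (hr : RIq c (p ^ m) Φ) {N : ℕ}
    (x : Fin (k + 1) → GLm N (MonoidAlgebra B G)) (S : Finset G)
    (hS : ∀ j, ∀ g, cof (lts x j) g ≠ 0 → g ∈ S)
    (hroot : ∀ l : List G, (∀ g ∈ l, g ∈ S) → l.length = p ^ a * (k + 1) →
      ∀ u : G, u * l.prod ^ p ^ (m - a) * u⁻¹ ≠ c) :
    (p : B) ^ (a + 1) ∣ TR (p ^ m) c Φ (QC.t N x) := by
  have hq : p ^ m ≠ 0 := pow_ne_zero m (Fact.out : p.Prime).ne_zero
  rw [TR_t]
  unfold TT
  rw [TM_eq (CI_flat hΦ) _ S fun t g hg => hS _ g (by rw [← lts_rep (p ^ m) x t]; exact hg)]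
  have h1 : (∑ g : Fin (p ^ m * (k + 1)) → S,
      ((List.ofFn fun j => cof (lts (rep (p ^ m) x) j) (g j : G)).prod).trace *
        wv c (flat (p ^ m) Φ) (fun j => (g j : G))) =
      ∑ w : Fin (p ^ m) → Fin (k + 1) → S,
        (List.ofFn (wd (p ^ m) fun b j => cof (lts x j) (w b j : G))).prod.trace *
          wv c (flat (p ^ m) Φ) (wd (p ^ m) fun b j => (w b j : G)) := by
    rw [← ((Equiv.arrowCongr finProdFinEquiv (Equiv.refl S)).symm.trans
      (Equiv.curry (Fin (p ^ m)) (Fin (k + 1)) S)).symm.sum_comp]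
    refine Finset.sum_congr rfl fun w _ => ?_
    refine congrArg₂ (fun (L : List (Matrix (Fin N) (Fin N) B)) (t : B) => L.prod.trace * t) ?_ rfl
    refine congrArg List.ofFn (funext fun t => ?_)
    rw [lts_rep]
    rfl
  rw [h1]
  refine cyc_sum_dvd (Fact.out : p.Prime) m a ha _ (fun w => ?_) fun w hw => ?_
  · have h2 := wv_rot hq hΦ hr fun b j => (w b j : G)
    have h3 := trace_rot hq fun b j => cof (lts x j) (w b j : G)
    exact congrArg₂ (fun s t : B => s * t) h3 h2
  · obtain ⟨l, hl, hlen, hp⟩ := periodic (r := p ^ a) (s := p ^ (m - a)) hq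
      (by rw [← pow_add, Nat.sub_add_cancel ha]) S (fun b j => (w b j : G))
      (by
        funext b j
        exact congrArg Subtype.val (congrFun (congrFun hw b) j)) (fun b j => (w b j).2)
    rw [wv_zero, mul_zero]
    intro u
    rw [hp]
    exact hroot l hl hlen u

end

end Pool.Agent.H16.KN
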