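import Pool.Agent.H16.KN.Rot

/-!
# Project KN: divisibility of the functionals of rotation invariant functions, second part

PROOF of `TR_dvd_ev`.  `QC.induction`; for a tuple, `S` from `exists_supp`; the set of the products of
`p ^ a (k + 1)` elements of `S` is finite; if `u h ^ (p ^ (m - a)) u⁻¹ = c` then `h` has finite order and
`p ^ (m - a + 1) ∣ orderOf h` (`p ∣ orderOf (h ^ (p ^ (m - a)))`), impossible for large `m`.
-/

set_option autoImplicit false

open Matrix

universe u v w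

namespace Pool.Agent.H16.KN

open Pool.Agent.H71.FQ

/-- if `p` divides the order of `h ^ (p ^ s)`, the order of `h` is at least `p ^ (s + 1)` -/
private theorem le_orderOf {G : Type u} [Group G] {p : ℕ} (hp : p.Prime) {h : G} {s : ℕ}
    (hf : IsOfFinOrder (h ^ p ^ s)) (hd : p ∣ orderOf (h ^ p ^ s)) :
    IsOfFinOrder h ∧ p ^ (s + 1) ≤ orderOf h := by
  have hne : p ^ s ≠ 0 := pow_ne_zero _ hp.ne_zero
  have hh : IsOfFinOrder h := by
    obtain ⟨n, hn, hn1⟩ := isOfFinOrder_iff_pow_eq_one.1 hf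
    refine isOfFinOrder_iff_pow_eq_one.2 ⟨p ^ s * n, Nat.mul_pos (Nat.pos_of_ne_zero hne) hn, ?_⟩
    rw [pow_mul]
    exact hn1
  refine ⟨hh, ?_⟩
  have ho : 0 < orderOf h := hh.orderOf_pos
  rw [orderOf_pow' h hne] at hd
  obtain ⟨t, ht, h1⟩ := (Nat.dvd_prime_pow hp).1 (Nat.gcd_dvd_right (orderOf h) (p ^ s))
  rw [h1] at hd
  have h2 : p ^ t ∣ orderOf h := by
    rw [← h1]
    exact Nat.gcd_dvd_left _ _
  have h3 : p ^ (t + 1) ∣ orderOf h := by
    obtain ⟨e, he⟩ := h2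
    rw [he, Nat.mul_div_cancel_left _ (pow_pos hp.pos t)] at hd
    rw [he, pow_succ]
    exact Nat.mul_dvd_mul_left _ hd
  rcases Nat.lt_or_ge t s with h4 | h4
  · have h5 : p ^ (t + 1) ∣ p ^ t := by
      rw [← h1]
      exact Nat.dvd_gcd h3 (pow_dvd_pow p h4)
    have h6 := Nat.le_of_dvd (pow_pos hp.pos t) h5
    have h7 : p ^ t < p ^ (t + 1) := Nat.pow_lt_pow_right hp.one_lt (Nat.lt_succ_self t)
    exact absurd h6 (not_le.2 h7)
  · have h5 : t = s := le_antisymm ht h4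
    rw [← h5]
    exact Nat.le_of_dvd ho h3

section

variable {G : Type u} [Group G] {B : Type v} [CommRing B] {k : ℕ}

theorem TR_dvd_ev {p : ℕ} [Fact p.Prime] {c : G} (hc : IsOfFinOrder c) (hpc : p ∣ orderOf c)
    (w : QC (MonoidAlgebra B G) k) (a : ℕ) :
    ∃ m0 : ℕ, ∀ m, m0 ≤ m → ∀ Φ : (Fin (k + 1) → Fin (p ^ m) → G) → B, CIq c (p ^ m) Φ →
      RIq c (p ^ m) Φ → (p : B) ^ (a + 1) ∣ TR (p ^ m) c Φ w := by
  classical
  have hp : p.Prime := Fact.out
  induction w using QC.induction with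
  | h0 =>
    refine ⟨0, fun m _ Φ _ _ => ?_⟩
    rw [map_zero]
    exact dvd_zero _
  | ha x y hx hy =>
    obtain ⟨m1, h1⟩ := hx
    obtain ⟨m2, h2⟩ := hy
    refine ⟨max m1 m2, fun m hm Φ hΦ hr => ?_⟩
    rw [map_add]
    exact dvd_add (h1 m ((le_max_left _ _).trans hm) Φ hΦ hr) (h2 m ((le_max_right _ _).trans hm) Φ hΦ hr)
  | hn x hx =>
    obtain ⟨m1, h1⟩ := hx
    refine ⟨m1, fun m hm Φ hΦ hr => ?_⟩
    rw [map_neg]
    exact (dvd_neg).2 (h1 m hm Φ hΦ hr)
  | ht N x =>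
    obtain ⟨S, hS⟩ := exists_supp (lts x)
    -- the products of `p ^ a (k + 1)` elements
    obtain ⟨M, hM⟩ : ∃ M : ℕ, ∀ l : List G, (∀ g ∈ l, g ∈ S) → l.length = p ^ a * (k + 1) →
        orderOf l.prod ≤ M := by
      have hfin : (Set.range fun f : Fin (p ^ a * (k + 1)) → S => orderOf (List.ofFn fun i => (f i : G)).prod).Finite :=
        Set.finite_range _
      obtain ⟨M, hM⟩ := hfin.bddAbove
      refine ⟨M, fun l hl hlen => hM ⟨fun i => ⟨l.get (i.cast hlen.symm), hl _ (List.get_mem _ _)⟩, ?_⟩⟩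
      have h1 : (List.ofFn fun i : Fin (p ^ a * (k + 1)) => l.get (i.cast hlen.symm)) = l := by
        apply List.ext_get
        · rw [List.length_ofFn, hlen]
        · intro n h1 h2
          simp
      show orderOf (List.ofFn fun i : Fin (p ^ a * (k + 1)) => l.get (i.cast hlen.symm)).prod = _
      rw [h1]
    refine ⟨a + M, fun m hm Φ hΦ hr => ?_⟩
    refine TR_dvd m a (le_of_add_le_left hm) hΦ hr x S hS fun l hl hlen u hu => ?_
    have h1 : l.prod ^ p ^ (m - a) = u⁻¹ * c * u := by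
      rw [← hu]
      group
    have h2 : orderOf (u⁻¹ * c * u) = orderOf c := by
      have h3 : u⁻¹ * c * u = MulAut.conj u⁻¹ c := by simp
      rw [h3]
      exact MulEquiv.orderOf_eq (MulAut.conj u⁻¹) c
    have h3 : IsOfFinOrder (l.prod ^ p ^ (m - a)) := by
      rw [← orderOf_pos_iff, h1, h2]
      exact hc.orderOf_pos
    have h4 := le_orderOf hp h3 (by rw [h1, h2]; exact hpc)
    have h5 := hM l hl hlen
    have h6 : m - a + 1 < p ^ (m - a + 1) := Nat.lt_pow_self hp.one_lt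
    omega

end

end Pool.Agent.H16.KN
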