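import Pool.Agent.H16.KN.QC
import Pool.Agent.H16.KN.DetL
import Pool.Agent.H71.FQ.Asm

/-!
# Project KN: the chain of a symbol

`sy φ κ E z` is the chain `rho E (z) - rho 1 (z)`.

PROOFS.  `ofKQ_asm`: `asm_mk`, `HG.map_mk`, `ofKQ_cls`.  `map_sy`: `map_ch`, `push_push`, entrywise.
`ch_push_left`: `push_lmul_sub_mem`, `ch_coi`.  `ch_push_blk`: on tuples, `QC.t_blk`.
-/

set_option autoImplicit false

open Matrix

universe u v w

namespace Pool.Agent.H16.KN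

open Pool.Agent.H71.FQ
open Pool.Agent.H71.FJ (K0 K0.mk IdemMat)

section

variable {P : Type u} [Ring P] {A : Type v} [Ring A] {Γ : Type w} [Group Γ] {k : ℕ}

/-- the chain of `[E] - [1]` -/
noncomputable def sy (φ : P →+* A) (κ : Γ →* Aˣ) (hκ : ∀ γ b, φ b * (κ γ : A) = κ γ * φ b)
    (E : IdemMat P) (z : Cx ℤ Γ k) : QC A k :=
  ch E.n (push ℤ (rho φ κ hκ E) k z) - ch 1 (push ℤ (rho φ κ hκ (oneE P)) k z)

theorem ofKQ_asm (φ : P →+* A) (κ : Γ →* Aˣ) (hκ : ∀ γ b, φ b * (κ γ : A) = κ γ * φ b)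
    (E : IdemMat P) (z : cyc Γ k) :
    ofKQ (asm k φ κ hκ (K0.mk E - K0.mk (oneE P)) (HG.mk z)) =
      QH.mk (sy φ κ hκ E (z : Cx ℤ Γ (k + 1))) := by
  rw [map_sub, AddMonoidHom.sub_apply, map_sub, asm_mk, asm_mk, HG.map_mk, HG.map_mk]
  rw [sy, map_sub]
  exact congrArg₂ (fun a b => a - b) (ofKQ_cls E.n ⟨push ℤ (rho φ κ hκ E) (k + 1) z, push_cyc _ z.2⟩)
    (ofKQ_cls 1 ⟨push ℤ (rho φ κ hκ (oneE P)) (k + 1) z, push_cyc _ z.2⟩)

/-- the images of the values of `rho` -/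
private theorem sy_rho {P' : Type*} [Ring P'] {A' : Type*} [Ring A'] (φ : P →+* A) (κ : Γ →* Aˣ)
    (hκ : ∀ γ b, φ b * (κ γ : A) = κ γ * φ b) (φ' : P' →+* A') (κ' : Γ →* A'ˣ)
    (hκ' : ∀ γ b, φ' b * (κ' γ : A') = κ' γ * φ' b) (g : P →+* P') (f : A →+* A')
    (h : ∀ b, f (φ b) = φ' (g b)) (h' : ∀ γ, f (κ γ : A) = κ' γ) (E : IdemMat P) (γ : Γ) :
    mapGL f E.n (rho φ κ hκ E γ) = rho φ' κ' hκ' (E.map g) γ := by
  apply Units.ext
  refine Matrix.ext fun i j => ?_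
  rw [mapGL_val, rho_val, rho_val]
  change f ((1 : Matrix (Fin E.n) (Fin E.n) A) i j + φ (E.mat i j) * ((κ γ : A) - 1)) =
    (1 : Matrix (Fin E.n) (Fin E.n) A') i j + φ' (g (E.mat i j)) * ((κ' γ : A') - 1)
  rw [map_add, map_mul, map_sub, map_one, h, h']
  refine congrArg (fun a => a + φ' (g (E.mat i j)) * ((κ' γ : A') - 1)) ?_
  by_cases hij : i = j
  · rw [hij, Matrix.one_apply_eq, Matrix.one_apply_eq, map_one]
  · rw [Matrix.one_apply_ne hij, Matrix.one_apply_ne hij, map_zero]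

private theorem sy_map_ch {P' : Type*} [Ring P'] {A' : Type*} [Ring A'] (φ : P →+* A) (κ : Γ →* Aˣ)
    (hκ : ∀ γ b, φ b * (κ γ : A) = κ γ * φ b) (φ' : P' →+* A') (κ' : Γ →* A'ˣ)
    (hκ' : ∀ γ b, φ' b * (κ' γ : A') = κ' γ * φ' b) (g : P →+* P') (f : A →+* A')
    (h : ∀ b, f (φ b) = φ' (g b)) (h' : ∀ γ, f (κ γ : A) = κ' γ) (E : IdemMat P) (z : Cx ℤ Γ k) :
    QC.map f (ch E.n (push ℤ (rho φ κ hκ E) k z)) =
      ch E.n (push ℤ (rho φ' κ' hκ' (E.map g)) k z) := by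
  rw [map_ch, push_push]
  exact congrArg (fun F : Γ → GLm E.n A' => ch E.n (push ℤ F k z))
    (funext fun γ => sy_rho φ κ hκ φ' κ' hκ' g f h h' E γ)

theorem map_sy {P' : Type*} [Ring P'] {A' : Type*} [Ring A'] (φ : P →+* A) (κ : Γ →* Aˣ)
    (hκ : ∀ γ b, φ b * (κ γ : A) = κ γ * φ b) (φ' : P' →+* A') (κ' : Γ →* A'ˣ)
    (hκ' : ∀ γ b, φ' b * (κ' γ : A') = κ' γ * φ' b) (g : P →+* P') (f : A →+* A')
    (h : ∀ b, f (φ b) = φ' (g b)) (h' : ∀ γ, f (κ γ : A) = κ' γ) (E : IdemMat P) (z : Cx ℤ Γ k) :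
    QC.map f (sy φ κ hκ E z) = sy φ' κ' hκ' (E.map g) z := by
  rw [sy, sy, map_sub]
  refine congrArg₂ (fun a b => a - b) (sy_map_ch φ κ hκ φ' κ' hκ' g f h h' E z) ?_
  have h1 : (oneE P).map g = oneE P' := by
    show (⟨1, (1 : Matrix (Fin 1) (Fin 1) P).map g, _⟩ : IdemMat P') = ⟨1, 1, _⟩
    congr 1
    exact Matrix.map_one _ (map_zero g) (map_one g)
  have h2 := sy_map_ch φ κ hκ φ' κ' hκ' g f h h' (oneE P) z
  refine h2.trans ?_
  have h3 : ∀ (E : IdemMat P'), E = oneE P' → ∀ (hn : E.n = 1),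
      ch E.n (push ℤ (rho φ' κ' hκ' E) k z) = ch 1 (push ℤ (rho φ' κ' hκ' (oneE P')) k z) := by
    intro E hE hn
    subst hE
    rfl
  exact h3 _ h1 rfl

/-- left translates have the same class -/
theorem ch_push_left (N : ℕ) (g : GLm N A) (c : Cx ℤ (GLm N A) k) :
    ch N (push ℤ (fun y => g * y) k c) = ch N c := by
  rw [← sub_eq_zero, ← map_sub]
  exact ch_coi N (push_lmul_sub_mem g c)

/-- block sums of vertex maps -/
theorem ch_push_blk {X : Type*} (N M : ℕ) (a : X → GLm N A) (b : X → GLm M A) (c : Cx ℤ X k) :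
    ch (N + M) (push ℤ (fun y => blk N M A (a y, b y)) k c) =
      ch N (push ℤ a k c) + ch M (push ℤ b k c) := by
  refine cx_ext
    (f := ((ch (N + M)).comp (push ℤ (fun y => blk N M A (a y, b y)) k).toAddMonoidHom).toIntLinearMap)
    (g := ((ch N).comp (push ℤ a k).toAddMonoidHom +
      (ch M).comp (push ℤ b k).toAddMonoidHom).toIntLinearMap) ?_ c
  intro x
  show ch (N + M) (push ℤ (fun y => blk N M A (a y, b y)) k (Finsupp.single x 1)) =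
    ch N (push ℤ a k (Finsupp.single x 1)) + ch M (push ℤ b k (Finsupp.single x 1))
  rw [push_single, push_single, push_single, ch_single, ch_single, ch_single]
  exact QC.t_blk N M (fun j => a (x j)) fun j => b (x j)

end

end Pool.Agent.H16.KN
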