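import Pool.Agent.H71.FQ.TB
import Pool.Agent.H71.FQ.KQ

/-!
# Project KN: the trace cochains

`φ` a function of `K` variables in `G`, invariant under the centralizer of `c` (`CI`).  `TM c φ b` is the sum over the
words `g_0, …, g_{K-1}` of the coefficient of `tr (b_0 ⋯ b_{K-1})` times `φ (u, u g_0, u g_0 g_1, …)`, where
`u (g_0 ⋯ g_{K-1}) u⁻¹ = c` (zero if there is no such `u`).  `TT c φ x` is its value on the letters
`x_j⁻¹ x_{j+1}` (`j` cyclic) of a tuple of invertible matrices.

PROOFS.  `TM_eq`: `TB` with `q = 1` is `lam (wf c ..) (∏ io j (b j))`; `io j (b j) = ∑ x ∈ S, single (let1 x j) (cof (b j) x)`;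
expand the product (e.g. by induction on `K`, or `MultilinearMap.mkPiAlgebraFin .. map_sum`); for the word
`W = ∏ let1 (g j) j`: `prd W = ∏ g j`, `cnt j W = 1`, `occ j W y = [y * g 0 * ⋯ * g (j-1)]`.  The other statements
follow from `TM_eq` or from `TB_blk`, `TB_sum`, `lam_map`, `wf_map`.
-/

set_option autoImplicit false

open Matrix

universe u v w

namespace Pool.Agent.H16.KN

open Pool.Agent.H71.FQ

section

variable {G : Type u} [Group G] {B : Type v} [CommRing B] {K : ℕ}

/-- invariance under the centralizer of `c` -/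
def CI (c : G) (φ : (Fin K → G) → B) : Prop :=
  ∀ g : G, g * c = c * g → ∀ x, φ (fun j => g * x j) = φ x

/-- the vertices `u, u g_0, u g_0 g_1, …` -/
def vtx (u : G) (g : Fin K → G) (j : Fin K) : G := u * ((List.ofFn g).take j).prod

open Classical in
/-- the value of `φ` on a word -/
noncomputable def wv (c : G) (φ : (Fin K → G) → B) (g : Fin K → G) : B :=
  if h : ∃ u : G, u * (List.ofFn g).prod * u⁻¹ = c then φ (vtx h.choose g) else 0

theorem wv_eq {c : G} {φ : (Fin K → G) → B} (hφ : CI c φ) (g : Fin K → G) (u : G)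
    (hu : u * (List.ofFn g).prod * u⁻¹ = c) : wv c φ g = φ (vtx u g) := by
  have h : ∃ u : G, u * (List.ofFn g).prod * u⁻¹ = c := ⟨u, hu⟩
  rw [wv, dif_pos h]
  generalize hw : h.choose = w
  have hw' : w * (List.ofFn g).prod * w⁻¹ = c := by rw [← hw]; exact h.choose_spec
  have e : vtx w g = fun j => (w * u⁻¹) * vtx u g j := by
    funext j
    unfold vtx
    group
  rw [e]
  refine hφ _ ?_ _
  calc w * u⁻¹ * c = w * u⁻¹ * (u * (List.ofFn g).prod * u⁻¹) := by rw [hu]
    _ = (w * (List.ofFn g).prod * w⁻¹) * (w * u⁻¹) := by group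
    _ = c * (w * u⁻¹) := by rw [hw']

theorem wv_zero (c : G) (φ : (Fin K → G) → B) (g : Fin K → G)
    (h : ∀ u : G, u * (List.ofFn g).prod * u⁻¹ ≠ c) : wv c φ g = 0 := by
  rw [wv, dif_neg]
  rintro ⟨u, hu⟩
  exact h u hu

/-- the value on a cyclic word of matrices -/
noncomputable def TM (c : G) (φ : (Fin K → G) → B) {N : ℕ}
    (b : Fin K → Matrix (Fin N) (Fin N) (MonoidAlgebra B G)) : B :=
  TB c (fun v : Fin K → Fin 1 → G => φ fun j => v j 0) b

omit [CommRing B] in
private theorem isInv_one {c : G} {φ : (Fin K → G) → B} (hφ : CI c φ) :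
    IsInv c (fun v : Fin K → Fin 1 → G => φ fun j => v j 0) := by
  refine ⟨fun g hg v => ?_, fun v => ?_⟩
  · exact hφ g hg fun j => v j 0
  · exact hφ c rfl fun j => v j 0

private theorem io_eq_sum {N : ℕ} (l : ℕ) (a : Matrix (Fin N) (Fin N) (MonoidAlgebra B G))
    (S : Finset G) (hS : ∀ x, cof a x ≠ 0 → x ∈ S) :
    (io l a : FR G (Fin N) B) = ∑ x : S, MonoidAlgebra.single (let1 (x : G) l) (cof a (x : G)) := by
  classical
  symm
  apply eq_io
  · intro x
    rw [MonoidAlgebra.coeff_sum, Finsupp.finsetSum_apply]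
    by_cases hx : x ∈ S
    · rw [Finset.sum_eq_single (⟨x, hx⟩ : S)]
      · rw [MonoidAlgebra.coeff_single, Finsupp.single_eq_same]
      · intro y _ hy
        rw [MonoidAlgebra.coeff_single, Finsupp.single_eq_of_ne]
        intro h
        exact hy (Subtype.ext (let1_injective l h).symm)
      · intro h
        exact absurd (Finset.mem_univ _) h
    · have h0 : cof a x = 0 := by
        by_contra h
        exact hx (hS x h)
      rw [h0]
      refine Finset.sum_eq_zero fun y _ => ?_
      rw [MonoidAlgebra.coeff_single, Finsupp.single_eq_of_ne]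
      intro h
      apply hx
      rw [let1_injective l h]
      exact y.2
  · intro W hW
    rw [MonoidAlgebra.coeff_sum, Finsupp.finsetSum_apply]
    refine Finset.sum_eq_zero fun y _ => ?_
    rw [MonoidAlgebra.coeff_single, Finsupp.single_eq_of_ne]
    intro h
    exact hW y h

private theorem prod_single {R : Type*} [Semiring R] {M : Type*} [Monoid M] {n : ℕ}
    (w : Fin n → M) (A : Fin n → R) :
    (List.ofFn fun j => (MonoidAlgebra.single (w j) (A j) : MonoidAlgebra R M)).prod =
      MonoidAlgebra.single (List.ofFn w).prod (List.ofFn A).prod := by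
  induction n with
  | zero => simp [MonoidAlgebra.one_def]
  | succ n ih =>
    rw [List.ofFn_succ, List.prod_cons, ih, List.ofFn_succ, List.prod_cons, List.ofFn_succ,
      List.prod_cons, MonoidAlgebra.single_mul_single]

private theorem prd_word {n : ℕ} (g : Fin n → G) (l : Fin n → ℕ) :
    prd (List.ofFn fun j => let1 (g j) (l j)).prod = (List.ofFn g).prod := by
  rw [map_list_prod, List.map_ofFn]
  rfl

private theorem occ_word {n : ℕ} (g : Fin n → G) (i : ℕ) (y : G) :
    occ i (List.ofFn fun j : Fin n => let1 (g j) (j : ℕ)).prod y =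
      if i < n then [y * ((List.ofFn g).take i).prod] else [] := by
  induction n with
  | zero =>
    rw [List.ofFn_zero, List.prod_nil, if_neg (Nat.not_lt_zero i)]
    rfl
  | succ n ih =>
    have h1 : (List.ofFn fun j : Fin (n + 1) => let1 (g j) (j : ℕ)) =
        (List.ofFn fun j : Fin n => let1 (g j.castSucc) (j : ℕ)) ++ [let1 (g (Fin.last n)) n] := by
      rw [List.ofFn_succ', List.concat_eq_append]
      rfl
    have h2 : List.ofFn g = (List.ofFn fun j : Fin n => g j.castSucc) ++ [g (Fin.last n)] := by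
      rw [List.ofFn_succ', List.concat_eq_append]
    rw [h1, List.prod_append, List.prod_singleton, occ_mul, ih fun j => g j.castSucc, occ_let1,
      prd_word (fun j : Fin n => g j.castSucc) fun j => (j : ℕ), h2]
    rcases lt_trichotomy i n with h | h | h
    · rw [if_pos h, if_neg (by omega), if_pos (by omega), List.append_nil,
        List.take_append_of_le_length (by rw [List.length_ofFn]; exact h.le)]
    · subst h
      rw [if_neg (lt_irrefl _), if_pos rfl, if_pos (by omega), List.nil_append,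
        List.take_append_of_le_length (by rw [List.length_ofFn]), List.take_of_length_le
          (by rw [List.length_ofFn])]
    · rw [if_neg (by omega), if_neg (by omega), if_neg (by omega), List.append_nil]

private theorem wf_word {c : G} {φ : (Fin K → G) → B} (hφ : CI c φ) (g : Fin K → G) :
    wf c (fun v : Fin K → Fin 1 → G => φ fun j => v j 0) (fun j : Fin K => (j : ℕ))
      (List.ofFn fun j : Fin K => let1 (g j) (j : ℕ)).prod = wv c φ g := by
  have hcnt : ∀ j : Fin K, cnt (j : ℕ) (List.ofFn fun j : Fin K => let1 (g j) (j : ℕ)).prod = 1 := by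
    intro j
    rw [cnt, occ_word, if_pos j.2]
    rfl
  by_cases h : ∃ u : G, u * (List.ofFn g).prod * u⁻¹ = c
  · obtain ⟨u, hu⟩ := h
    rw [wv_eq hφ g u hu, wf_eq (isInv_one hφ) _ _ hcnt u (by rw [prd_word]; exact hu)]
    show φ _ = φ _
    congr 1
    funext j
    rw [rd, occ_word, if_pos j.2]
    rfl
  · rw [wv_zero c φ g fun u hu => h ⟨u, hu⟩]
    refine wf_of_prd _ _ _ ?_
    intro y hy
    rw [prd_word] at hy
    exact h ⟨y, hy⟩

/-- **The explicit formula.** -/
theorem TM_eq {c : G} {φ : (Fin K → G) → B} (hφ : CI c φ) {N : ℕ}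
    (b : Fin K → Matrix (Fin N) (Fin N) (MonoidAlgebra B G)) (S : Finset G)
    (hS : ∀ j, ∀ x, cof (b j) x ≠ 0 → x ∈ S) :
    TM c φ b = ∑ g : Fin K → S,
      ((List.ofFn fun j => cof (b j) (g j : G)).prod).trace * wv c φ (fun j => (g j : G)) := by
  classical
  unfold TM TB
  rw [pow_one]
  have h1 : (List.ofFn fun j : Fin K => (io (j : ℕ) (b j) : FR G (Fin N) B)).prod =
      ∑ g : Fin K → S, MonoidAlgebra.single (List.ofFn fun j : Fin K => let1 (g j : G) (j : ℕ)).prod
        (List.ofFn fun j => cof (b j) (g j : G)).prod := by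
    have h2 : (fun j : Fin K => (io (j : ℕ) (b j) : FR G (Fin N) B)) = fun j : Fin K =>
        ∑ x : S, MonoidAlgebra.single (let1 (x : G) (j : ℕ)) (cof (b j) (x : G)) := by
      funext j
      exact io_eq_sum (j : ℕ) (b j) S (hS j)
    rw [h2]
    have h3 := MultilinearMap.map_sum (MultilinearMap.mkPiAlgebraFin ℕ K (FR G (Fin N) B))
      (fun (j : Fin K) (x : S) =>
        (MonoidAlgebra.single (let1 (x : G) (j : ℕ)) (cof (b j) (x : G)) : FR G (Fin N) B))
    simp only [MultilinearMap.mkPiAlgebraFin_apply] at h3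
    rw [h3]
    refine Finset.sum_congr rfl fun g _ => ?_
    exact prod_single _ _
  rw [h1, map_sum]
  refine Finset.sum_congr rfl fun g _ => ?_
  rw [lam_single, wf_word hφ]

omit [Group G] in
theorem exists_supp {N : ℕ} (b : Fin K → Matrix (Fin N) (Fin N) (MonoidAlgebra B G)) :
    ∃ S : Finset G, ∀ j, ∀ x, cof (b j) x ≠ 0 → x ∈ S := by
  classical
  refine ⟨Finset.univ.biUnion fun j => Finset.univ.biUnion fun i => Finset.univ.biUnion fun i' =>
    (b j i i').coeff.support, ?_⟩
  intro j x hx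
  have h : ∃ i i', (b j i i').coeff x ≠ 0 := by
    by_contra h
    push Not at h
    apply hx
    ext i i'
    exact h i i'
  obtain ⟨i, i', h⟩ := h
  simp only [Finset.mem_biUnion, Finset.mem_univ, true_and]
  exact ⟨j, i, i', Finsupp.mem_support_iff.2 h⟩

theorem TM_sum {κ : Type*} (s : Finset κ) (a : κ → ℤ) (c : G) (φ : κ → (Fin K → G) → B) {N : ℕ}
    (b : Fin K → Matrix (Fin N) (Fin N) (MonoidAlgebra B G)) :
    TM c (fun v => ∑ i ∈ s, a i • φ i v) b = ∑ i ∈ s, a i • TM c (φ i) b :=
  TB_sum s a c (fun i (v : Fin K → Fin 1 → G) => φ i fun j => v j 0) b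

theorem TM_add (c : G) (φ ψ : (Fin K → G) → B) {N : ℕ}
    (b : Fin K → Matrix (Fin N) (Fin N) (MonoidAlgebra B G)) :
    TM c (fun v => φ v + ψ v) b = TM c φ b + TM c ψ b := by
  have h := TM_sum (Finset.univ : Finset (Fin 2)) (fun _ => 1) c (fun i => ![φ, ψ] i) b
  simpa [Fin.sum_univ_two] using h

theorem TM_smul (c : G) (φ : (Fin K → G) → B) (r : B) {N : ℕ}
    (b : Fin K → Matrix (Fin N) (Fin N) (MonoidAlgebra B G)) :
    TM c (fun v => r * φ v) b = r * TM c φ b := by
  unfold TM TB
  rw [lam_apply, lam_apply, Finsupp.sum, Finsupp.sum, Finset.mul_sum]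
  refine Finset.sum_congr rfl fun W _ => ?_
  have h : wf c (fun v : Fin K → Fin 1 → G => r * φ fun j => v j 0) (fun j : Fin K => (j : ℕ)) W =
      r * wf c (fun v : Fin K → Fin 1 → G => φ fun j => v j 0) (fun j : Fin K => (j : ℕ)) W := by
    by_cases h : (∀ j : Fin K, cnt (j : ℕ) W = 1) ∧ ∃ u : G, u * prd W * u⁻¹ = c
    · rw [wf, dif_pos h, wf, dif_pos h]
    · rw [wf, dif_neg h, wf, dif_neg h, mul_zero]
  rw [h]
  ring

theorem TM_map {B' : Type w} [CommRing B'] (f : B →+* B') {c : G} {φ : (Fin K → G) → B}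
    (hφ : CI c φ) {N : ℕ} (b : Fin K → Matrix (Fin N) (Fin N) (MonoidAlgebra B G)) :
    TM c (fun v => f (φ v)) (fun j => (b j).map (MonoidAlgebra.mapRingHom G f)) =
      f (TM c φ b) := by
  have _ := hφ
  unfold TM TB
  rw [← lam_map]
  congr 2
  funext W
  exact wf_map f (fun v : Fin K → Fin 1 → G => φ fun j => v j 0) _ W

/-- the letters of a tuple -/
noncomputable def lts [NeZero K] {N : ℕ} (x : Fin K → GLm N (MonoidAlgebra B G)) (j : Fin K) :
    Matrix (Fin N) (Fin N) (MonoidAlgebra B G) := ((x j)⁻¹ * x (j + 1)).val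

/-- The trace cochain. -/
noncomputable def TT [NeZero K] (c : G) (φ : (Fin K → G) → B) {N : ℕ}
    (x : Fin K → GLm N (MonoidAlgebra B G)) : B := TM c φ (lts x)

theorem TT_inv [NeZero K] (c : G) (φ : (Fin K → G) → B) {N : ℕ} (g : GLm N (MonoidAlgebra B G))
    (x : Fin K → GLm N (MonoidAlgebra B G)) : TT c φ (fun j => g * x j) = TT c φ x := by
  unfold TT
  congr 1
  funext j
  unfold lts
  congr 1
  group

theorem TT_blk [NeZero K] (c : G) (φ : (Fin K → G) → B) {N M : ℕ}
    (x : Fin K → GLm N (MonoidAlgebra B G)) (y : Fin K → GLm M (MonoidAlgebra B G)) :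
    TT c φ (fun j => blk N M (MonoidAlgebra B G) (x j, y j)) = TT c φ x + TT c φ y := by
  unfold TT TM
  rw [← TB_blk (Nat.pos_of_ne_zero (NeZero.ne K)) Nat.one_pos]
  congr 1
  funext j
  unfold lts
  rw [← map_inv, ← map_mul]
  rfl

theorem TT_map [NeZero K] {B' : Type w} [CommRing B'] (f : B →+* B') {c : G}
    {φ : (Fin K → G) → B} (hφ : CI c φ) {N : ℕ} (x : Fin K → GLm N (MonoidAlgebra B G)) :
    TT c (fun v => f (φ v)) (fun j => mapGL (MonoidAlgebra.mapRingHom G f) N (x j)) =
      f (TT c φ x) := by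
  unfold TT
  rw [← TM_map f hφ]
  congr 1
  funext j
  unfold lts
  rw [← map_inv, ← map_mul, mapGL_val]

end

end Pool.Agent.H16.KN
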