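import Pool.Agent.H16.KN.TTa
import Pool.Agent.H71.FQ.TCls

/-!
# Project KN: omission of vertices

`TT_face`: `TB_merge_zero` (`i = 0`) and `TB_merge_succ` of `FQ/TB.lean` with `q = 1` (`IsInv` for `q = 1`:
`sig 1 c v = lmul c v`, so `rot` follows from `CI` with `g = c`), and the product of the letters `x_i⁻¹ x_{i+1}`,
`x_{i+1}⁻¹ x_{i+2}`.
`TT_comp`: induction on `K'`: if `δ` is not the identity there is `i` not in the range, `δ = i.succAbove ∘ δ'`
with `δ'` strictly monotone.
-/

set_option autoImplicit false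

open Matrix

universe u v w

namespace Pool.Agent.H16.KN

open Pool.Agent.H71.FQ

section

variable {G : Type u} [Group G] {B : Type v} [CommRing B] {N : ℕ}

omit [CommRing B] in
private theorem isInv_one {K : ℕ} {c : G} {φ : (Fin K → G) → B} (hφ : CI c φ) :
    IsInv c (fun v : Fin K → Fin 1 → G => φ fun j => v j 0) := by
  refine ⟨fun g hg v => hφ g hg _, fun v => ?_⟩
  have h := hφ c rfl fun j => v j 0
  rw [← h]
  congr 1

theorem TT_face {k : ℕ} {c : G} {φ : (Fin (k + 1) → G) → B} (hφ : CI c φ)
    (x : Fin (k + 2) → GLm N (MonoidAlgebra B G)) (i : Fin (k + 2)) :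
    TT c (fun v : Fin (k + 2) → G => φ fun j => v (i.succAbove j)) x =
      TT c φ fun j => x (i.succAbove j) := by
  have hI := isInv_one hφ
  unfold TT TM
  induction i using Fin.cases with
  | zero =>
    simp only [Fin.zero_succAbove]
    refine (TB_merge_zero Nat.one_pos hI (lts x)).trans ?_
    congr 1
    funext j
    unfold lts
    beta_reduce
    by_cases hj : j = Fin.last k
    · rw [if_pos hj, ← Units.val_mul, hj, Fin.last_add_one,
        Fin.last_add_one, Fin.succ_last, zero_add, mul_assoc, mul_inv_cancel_left]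
      rfl
    · have h1 : (j + 1).succ = j.succ + 1 := by
        apply Fin.ext
        rw [Fin.val_succ, Fin.val_add_one, if_neg hj, Fin.val_add_one,
          if_neg (fun hc => hj (Fin.succ_injective _ (by rw [hc, Fin.succ_last]))), Fin.val_succ]
      rw [if_neg hj, h1]
  | succ i =>
    refine (TB_merge_succ Nat.one_pos hI (lts x) i).trans ?_
    congr 1
    funext j
    unfold lts
    beta_reduce
    rcases lt_trichotomy j i with hj | hj | hj
    · rw [if_pos hj, succAbove_add_one_of_lt hj,
        Fin.succAbove_of_castSucc_lt _ _ (by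
          rw [Fin.lt_def, Fin.val_castSucc, Fin.val_succ]
          have := Fin.lt_def.mp hj
          omega)]
    · subst hj
      rw [if_neg (lt_irrefl _), if_pos rfl, ← Units.val_mul,
        succAbove_add_one_of_le le_rfl, Fin.coeSucc_eq_succ, mul_assoc, mul_inv_cancel_left,
        Fin.succAbove_of_castSucc_lt _ _ Fin.castSucc_lt_succ]
    · rw [if_neg (not_lt.mpr hj.le), if_neg hj.ne', succAbove_add_one_of_le hj.le,
        Fin.succAbove_of_le_castSucc _ _ (by
          rw [Fin.le_def, Fin.val_castSucc, Fin.val_succ]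
          have := Fin.lt_def.mp hj
          omega)]

omit [CommRing B] in
private theorem CI.comp {K K' : ℕ} {c : G} {φ : (Fin K → G) → B} (hφ : CI c φ)
    (δ : Fin K → Fin K') : CI c (fun v : Fin K' → G => φ fun j => v (δ j)) :=
  fun g hg x => hφ g hg fun j => x (δ j)

private theorem exists_fac {K k : ℕ} (δ : Fin K → Fin (k + 2)) (hδ : StrictMono δ)
    (i : Fin (k + 2)) (hi : ∀ j, δ j ≠ i) :
    ∃ δ' : Fin K → Fin (k + 1), StrictMono δ' ∧ ∀ j, i.succAbove (δ' j) = δ j := by
  have h : ∀ j, ∃ y, i.succAbove y = δ j := fun j => Fin.exists_succAbove_eq (hi j)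
  choose δ' hδ' using h
  refine ⟨δ', fun a b hab => ?_, hδ'⟩
  have h1 := hδ hab
  rw [← hδ' a, ← hδ' b] at h1
  exact (Fin.strictMono_succAbove i).lt_iff_lt.1 h1

private theorem eq_id_of_surj {K K' : ℕ} (δ : Fin K → Fin K') (hδ : StrictMono δ)
    (hs : Function.Surjective δ) : ∃ h : K = K', δ = Fin.cast h := by
  have h : K = K' := by
    have h1 := Fintype.card_of_bijective ⟨hδ.injective, hs⟩
    rwa [Fintype.card_fin, Fintype.card_fin] at h1
  subst h
  refine ⟨rfl, ?_⟩
  have h2 : (hδ.orderIsoOfSurjective δ hs) = OrderIso.refl (Fin K) := Subsingleton.elim _ _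
  funext j
  have h3 := congrArg (fun e : Fin K ≃o Fin K => e j) h2
  exact h3

theorem TT_comp {K K' : ℕ} [NeZero K] [NeZero K'] {c : G} {φ : (Fin K → G) → B} (hφ : CI c φ)
    (δ : Fin K → Fin K') (hδ : StrictMono δ) (x : Fin K' → GLm N (MonoidAlgebra B G)) :
    TT c (fun v : Fin K' → G => φ fun j => v (δ j)) x = TT c φ fun j => x (δ j) := by
  by_cases hs : Function.Surjective δ
  · obtain ⟨h, rfl⟩ := eq_id_of_surj δ hδ hs
    subst h
    rfl
  · unfold Function.Surjective at hs
    push Not at hs
    obtain ⟨i, hi⟩ := hs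
    obtain ⟨k, rfl⟩ : ∃ k, K' = k + 2 := by
      have h1 : 0 < K := Nat.pos_of_ne_zero (NeZero.ne K)
      have h2 : K < K' := by
        have h3 : Fintype.card (Fin K) < Fintype.card (Fin K') :=
          Fintype.card_lt_of_injective_of_notMem δ hδ.injective (b := i)
            (by rintro ⟨j, hj⟩; exact hi j hj)
        rwa [Fintype.card_fin, Fintype.card_fin] at h3
      exact ⟨K' - 2, by omega⟩
    obtain ⟨δ', hδ', hf⟩ := exists_fac δ hδ i hi
    have ih := TT_comp hφ δ' hδ' fun j => x (i.succAbove j)
    have hface := TT_face (CI.comp hφ δ') x i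
    simp only [hf] at ih hface
    exact hface.trans ih
termination_by K'

end

end Pool.Agent.H16.KN
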