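import Pool.Agent.H16.KN.TTb
import Pool.Agent.H16.KN.QC

/-!
# Project KN: the trace functionals on `QC`

`TQ c φ : QC (B[G]) k → B` is the functional of a cochain `φ` of `k + 1` variables.  For a function `Φ` of `k + 1`
tuples of length `q` (vertex `j` in the blocks `0, …, q - 1`) `TR c q Φ` is the value of `Φ` on the tuple repeated `q`
times: `rep q x t = x (t mod (k + 1))`, `t < q (k + 1)`; `finProdFinEquiv (b, j) = j + (k + 1) b`.

PROOFS.  `TQ_bd`, `TR_bd`: `TT_face`, `TT_comp` (the block face `(b, j) ↦ (b, i.succAbove j)` is strictly monotone and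
`rep q x` composed with it is `rep q (x ∘ i.succAbove)`), `TM_sum`.  `TR_first`: `TT_comp` for `j ↦ (0, j)`.
-/

set_option autoImplicit false

open Matrix

universe u v w

namespace Pool.Agent.H16.KN

open Pool.Agent.H71.FQ

section

variable {G : Type u} [Group G] {B : Type v} [CommRing B] {k : ℕ}

/-- the coboundary -/
def dl {X : Type w} (φ : (Fin (k + 1) → X) → B) (v : Fin (k + 2) → X) : B :=
  ∑ i : Fin (k + 2), (-1 : ℤ) ^ (i : ℕ) • φ fun j => v (i.succAbove j)

/-- The functional of a cochain. -/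
noncomputable def TQ (c : G) (φ : (Fin (k + 1) → G) → B) : QC (MonoidAlgebra B G) k →+ B :=
  QC.lift (fun _ x => TT c φ x) (fun _ g x => TT_inv c φ g x) (fun _ _ x y => TT_blk c φ x y)

theorem TQ_t (c : G) (φ : (Fin (k + 1) → G) → B) (N : ℕ)
    (x : Fin (k + 1) → GLm N (MonoidAlgebra B G)) : TQ c φ (QC.t N x) = TT c φ x :=
  QC.lift_t _ _ _ N x

private theorem ext_fun {M : Type*} [AddCommGroup M] {A : Type*} [Ring A] {m : ℕ}
    (f g : QC A m →+ M) (h : ∀ N x, f (QC.t N x) = g (QC.t N x)) (w : QC A m) : f w = g w :=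
  DFunLike.congr_fun (QC.hom_ext h) w

theorem TQ_bd {c : G} {φ : (Fin (k + 1) → G) → B} (hφ : CI c φ)
    (w : QC (MonoidAlgebra B G) (k + 1)) : TQ c φ (qbd w) = TQ c (dl φ) w := by
  refine ext_fun ((TQ c φ).comp qbd) (TQ c (dl φ)) (fun N x => ?_) w
  rw [AddMonoidHom.comp_apply, qbd_t, map_sum, TQ_t]
  refine Eq.trans ?_ (TM_sum Finset.univ (fun i : Fin (k + 2) => (-1 : ℤ) ^ (i : ℕ)) c
    (fun (i : Fin (k + 2)) (v : Fin (k + 2) → G) => φ fun j => v (i.succAbove j)) (lts x)).symm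
  refine Finset.sum_congr rfl fun i _ => ?_
  rw [map_zsmul, TQ_t]
  congr 1
  exact (TT_face hφ x i).symm

theorem TQ_add (c : G) (φ ψ : (Fin (k + 1) → G) → B) (w : QC (MonoidAlgebra B G) k) :
    TQ c (fun v => φ v + ψ v) w = TQ c φ w + TQ c ψ w := by
  refine ext_fun (TQ c (fun v => φ v + ψ v)) (TQ c φ + TQ c ψ) (fun N x => ?_) w
  rw [AddMonoidHom.add_apply, TQ_t, TQ_t, TQ_t]
  exact TM_add c φ ψ (lts x)

theorem TQ_smul (c : G) (φ : (Fin (k + 1) → G) → B) (r : B) (w : QC (MonoidAlgebra B G) k) :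
    TQ c (fun v => r * φ v) w = r * TQ c φ w := by
  refine ext_fun (TQ c (fun v => r * φ v)) ((AddMonoidHom.mulLeft r).comp (TQ c φ))
    (fun N x => ?_) w
  rw [AddMonoidHom.comp_apply, AddMonoidHom.coe_mulLeft, TQ_t, TQ_t]
  exact TM_smul c φ r (lts x)

theorem TQ_map {B' : Type w} [CommRing B'] (f : B →+* B') {c : G} {φ : (Fin (k + 1) → G) → B}
    (hφ : CI c φ) (w : QC (MonoidAlgebra B G) k) :
    TQ c (fun v => f (φ v)) (QC.map (MonoidAlgebra.mapRingHom G f) w) = f (TQ c φ w) := by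
  refine ext_fun ((TQ c (fun v => f (φ v))).comp (QC.map (MonoidAlgebra.mapRingHom G f)))
    (f.toAddMonoidHom.comp (TQ c φ)) (fun N x => ?_) w
  rw [AddMonoidHom.comp_apply, AddMonoidHom.comp_apply, QC.map_t, TQ_t, TQ_t]
  exact TT_map f hφ x

instance instNZ (q k : ℕ) [NeZero q] : NeZero (q * (k + 1)) :=
  ⟨Nat.mul_ne_zero (NeZero.ne q) (Nat.succ_ne_zero k)⟩

/-- the tuple repeated `q` times -/
def rep (q : ℕ) {X : Type w} (x : Fin (k + 1) → X) (t : Fin (q * (k + 1))) : X :=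
  x (finProdFinEquiv.symm t).2

/-- functions of `k + 1` tuples of length `q` as functions of `q (k + 1)` variables -/
def flat (q : ℕ) {X : Type w} (Φ : (Fin (k + 1) → Fin q → X) → B) (y : Fin (q * (k + 1)) → X) : B :=
  Φ fun j b => y (finProdFinEquiv (b, j))

/-- invariance for functions of tuples -/
def CIq (c : G) (q : ℕ) (Φ : (Fin (k + 1) → Fin q → G) → B) : Prop :=
  ∀ g : G, g * c = c * g → ∀ v, Φ (fun j b => g * v j b) = Φ v

omit [CommRing B] in
private theorem CI_flat {c : G} {q : ℕ} {Φ : (Fin (k + 1) → Fin q → G) → B} (hΦ : CIq c q Φ) :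
    CI c (flat q Φ) := fun g hg _ => hΦ g hg _

/-- the block face -/
private def bf (q : ℕ) (i : Fin (k + 2)) (t : Fin (q * (k + 1))) : Fin (q * (k + 1 + 1)) :=
  finProdFinEquiv ((finProdFinEquiv.symm t).1, i.succAbove (finProdFinEquiv.symm t).2)

private theorem bf_mono (q : ℕ) (i : Fin (k + 2)) : StrictMono (bf q i : Fin (q * (k + 1)) → _) := by
  intro s t hst
  obtain ⟨⟨b, j⟩, rfl⟩ := finProdFinEquiv.surjective s
  obtain ⟨⟨b', j'⟩, rfl⟩ := finProdFinEquiv.surjective t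
  rw [bf, bf, Equiv.symm_apply_apply, Equiv.symm_apply_apply]
  simp only [Fin.lt_def, finProdFinEquiv_apply_val] at hst ⊢
  have h1 : (j : ℕ) < k + 1 := j.2
  have h2 : (j' : ℕ) < k + 1 := j'.2
  have h3 : (i.succAbove j : ℕ) < k + 2 := (i.succAbove j).2
  rcases lt_trichotomy (b : ℕ) (b' : ℕ) with h | h | h
  · have h4 : (k + 1 + 1) * ((b : ℕ) + 1) ≤ (k + 1 + 1) * (b' : ℕ) := Nat.mul_le_mul_left _ h
    have h5 : (k + 1 + 1) * ((b : ℕ) + 1) = (k + 1 + 1) * (b : ℕ) + (k + 2) := by ring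
    omega
  · rw [h] at hst ⊢
    have h6 : j < j' := by
      rw [Fin.lt_def]
      omega
    have h7 := Fin.strictMono_succAbove i h6
    rw [Fin.lt_def] at h7
    omega
  · exfalso
    have h4 : (k + 1) * ((b' : ℕ) + 1) ≤ (k + 1) * (b : ℕ) := Nat.mul_le_mul_left _ h
    have h5 : (k + 1) * ((b' : ℕ) + 1) = (k + 1) * (b' : ℕ) + (k + 1) := by ring
    omega

private theorem rep_bf (q : ℕ) {X : Type w} (x : Fin (k + 2) → X) (i : Fin (k + 2))
    (t : Fin (q * (k + 1))) : rep q x (bf q i t) = rep q (fun j => x (i.succAbove j)) t := by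
  rw [rep, bf, Equiv.symm_apply_apply, rep]

private theorem flat_dl (q : ℕ) {X : Type w} (Φ : (Fin (k + 1) → Fin q → X) → B) :
    flat q (dl Φ) = fun y : Fin (q * (k + 1 + 1)) → X =>
      ∑ i : Fin (k + 2), (-1 : ℤ) ^ (i : ℕ) • flat q Φ fun t => y (bf q i t) := by
  funext y
  simp only [flat, dl, bf, Equiv.symm_apply_apply]

variable (q : ℕ) [NeZero q]

/-- The functional of a function of tuples. -/
noncomputable def TR (c : G) (Φ : (Fin (k + 1) → Fin q → G) → B) : QC (MonoidAlgebra B G) k →+ B :=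
  QC.lift (fun _ x => TT c (flat q Φ) (rep q x))
    (fun _ g x => TT_inv c (flat q Φ) g (rep q x))
    (fun _ _ x y => TT_blk c (flat q Φ) (rep q x) (rep q y))

theorem TR_t (c : G) (Φ : (Fin (k + 1) → Fin q → G) → B) (N : ℕ)
    (x : Fin (k + 1) → GLm N (MonoidAlgebra B G)) :
    TR q c Φ (QC.t N x) = TT c (flat q Φ) (rep q x) :=
  QC.lift_t _ _ _ N x

theorem TR_bd {c : G} {Φ : (Fin (k + 1) → Fin q → G) → B} (hΦ : CIq c q Φ)
    (w : QC (MonoidAlgebra B G) (k + 1)) : TR q c Φ (qbd w) = TR q c (dl Φ) w := by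
  refine ext_fun ((TR q c Φ).comp qbd) (TR q c (dl Φ)) (fun N x => ?_) w
  rw [AddMonoidHom.comp_apply, qbd_t, map_sum, TR_t, flat_dl]
  refine Eq.trans ?_ (TM_sum Finset.univ (fun i : Fin (k + 2) => (-1 : ℤ) ^ (i : ℕ)) c
    (fun (i : Fin (k + 2)) (y : Fin (q * (k + 1 + 1)) → G) => flat q Φ fun t => y (bf q i t))
    (lts (rep q x))).symm
  refine Finset.sum_congr rfl fun i _ => ?_
  rw [map_zsmul, TR_t]
  congr 1
  have h := TT_comp (CI_flat hΦ) (bf q i) (bf_mono q i) (rep q x)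
  simp only [rep_bf] at h
  exact h.symm

theorem TR_add (c : G) (Φ Ψ : (Fin (k + 1) → Fin q → G) → B) (w : QC (MonoidAlgebra B G) k) :
    TR q c (fun v => Φ v + Ψ v) w = TR q c Φ w + TR q c Ψ w := by
  refine ext_fun (TR q c (fun v => Φ v + Ψ v)) (TR q c Φ + TR q c Ψ) (fun N x => ?_) w
  rw [AddMonoidHom.add_apply, TR_t, TR_t, TR_t]
  exact TM_add c (flat q Φ) (flat q Ψ) (lts (rep q x))

theorem TR_smul (c : G) (Φ : (Fin (k + 1) → Fin q → G) → B) (r : B)
    (w : QC (MonoidAlgebra B G) k) : TR q c (fun v => r * Φ v) w = r * TR q c Φ w := by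
  refine ext_fun (TR q c (fun v => r * Φ v)) ((AddMonoidHom.mulLeft r).comp (TR q c Φ))
    (fun N x => ?_) w
  rw [AddMonoidHom.comp_apply, AddMonoidHom.coe_mulLeft, TR_t, TR_t]
  exact TM_smul c (flat q Φ) r (lts (rep q x))

/-- **The first block.** -/
theorem TR_first {c : G} {φ : (Fin (k + 1) → G) → B} (hφ : CI c φ)
    (w : QC (MonoidAlgebra B G) k) :
    TR q c (fun v => φ fun j => v j 0) w = TQ c φ w := by
  refine ext_fun (TR q c (fun v => φ fun j => v j 0)) (TQ c φ) (fun N x => ?_) w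
  rw [TR_t, TQ_t]
  have hm : StrictMono fun j : Fin (k + 1) => (finProdFinEquiv ((0 : Fin q), j)) := by
    intro s t hst
    simp only [Fin.lt_def, finProdFinEquiv_apply_val] at hst ⊢
    omega
  have h := TT_comp hφ (fun j : Fin (k + 1) => (finProdFinEquiv ((0 : Fin q), j))) hm (rep q x)
  have h2 : (fun j : Fin (k + 1) => rep q x (finProdFinEquiv ((0 : Fin q), j))) = x := by
    funext j
    rw [rep, Equiv.symm_apply_apply]
  rw [h2] at h
  exact h

end

end Pool.Agent.H16.KN
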