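import Pool.Agent.H16.KN.Key
import Pool.Agent.H71.FQ.Uct

/-!
# Project KN: the value on the chains with boundary in `QC0` is a homology class with coefficients in `L`

PROOFS.
`exists_comb`: `QC.induction`; for a tuple `TQ_t`, `TT`, `TM_eq` (`CI_fL`), `exists_supp`: the value is
`∑ g, trace * wv (c, 1) (fL π φ) g`, and `wv` is `φ` of the tuple `fun j => π (vtx u g j.castSucc).1` times `ldg`, or `0`
(`u` does not depend on `φ`).
`exists_basis`: the `ℤ`-span of the values of `b` is finitely generated and torsion free; take a basis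
(`LinearIndependent.iff_fractionRing`).
`cyc_of_kill`: for a tuple `y` the function `ψ x = nrm x y` is invariant, its value on `bd c` is the coefficient of `y` in
`nrm (bd c)`; `lc_bd`, `sub_nrm_mem`.
`exists_class`: `b` from `exists_comb`, `ω`, `c` from `exists_basis`; for an invariant `ψ` with rational values `TQ_fL_dl`
(for `fun x => (ψ x : L)`) gives `∑ s, ω s * (linearCombination (dl ψ) (c s) : L) = 0`, so all
`linearCombination (dl ψ) (c s) = 0` by the linear independence: `c s ∈ cyc`; `a s = HG.mk (c s)`, `HG.ev_mk`.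
-/

set_option autoImplicit false

open Matrix

universe u v w

namespace Pool.Agent.H16.KN

open Pool.Agent.H71.FQ

section

variable {G : Type u} [Group G] {L : Type} [Field L] [CharZero L] {n : ℕ} {c : G}

omit [CharZero L] in
private theorem ww_tuple {π : G → Subgroup.centralizer ({c} : Set G)}
    (hπ : ∀ (z : Subgroup.centralizer ({c} : Set G)) (g : G), π (z * g) = z * π g)
    {N : ℕ} (x : Fin (n + 2 + 1) → GLm N (MonoidAlgebra L (G × Multiplicative ℤ))) :
    ∃ b : (Fin (n + 2) → Subgroup.centralizer ({c} : Set G)) →₀ L,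
      ∀ φ : (Fin (n + 2) → Subgroup.centralizer ({c} : Set G)) → L,
        (∀ (g : Subgroup.centralizer ({c} : Set G)) x, φ (fun j => g * x j) = φ x) →
        TT ((c, 1) : G × Multiplicative ℤ) (fL π φ) x = Finsupp.linearCombination L φ b := by
  classical
  obtain ⟨S, hS⟩ := exists_supp (lts x)
  have key : ∀ g : Fin (n + 2 + 1) → S,
      ∃ b : (Fin (n + 2) → Subgroup.centralizer ({c} : Set G)) →₀ L,
        ∀ φ : (Fin (n + 2) → Subgroup.centralizer ({c} : Set G)) → L,
          wv ((c, 1) : G × Multiplicative ℤ) (fL π φ) (fun j => (g j : G × Multiplicative ℤ)) =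
            Finsupp.linearCombination L φ b := by
    intro g
    by_cases h : ∃ u : G × Multiplicative ℤ,
        u * (List.ofFn fun j => (g j : G × Multiplicative ℤ)).prod * u⁻¹ =
          ((c, 1) : G × Multiplicative ℤ)
    · refine ⟨Finsupp.single (fun j : Fin (n + 2) =>
        π (vtx h.choose (fun j => (g j : G × Multiplicative ℤ)) j.castSucc).1)
        (ldg L (vtx h.choose (fun j => (g j : G × Multiplicative ℤ)) (Fin.last (n + 1)).castSucc)
          (vtx h.choose (fun j => (g j : G × Multiplicative ℤ)) (Fin.last (n + 1 + 1)))), ?_⟩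
      intro φ
      rw [wv, dif_pos h, Finsupp.linearCombination_single, smul_eq_mul, mul_comm]
      rfl
    · refine ⟨0, ?_⟩
      intro φ
      rw [wv, dif_neg h, map_zero]
  choose bb hbb using key
  refine ⟨∑ g : Fin (n + 2 + 1) → S,
    ((List.ofFn fun j => cof (lts x j) (g j : G × Multiplicative ℤ)).prod).trace • bb g, ?_⟩
  intro φ hφ
  unfold TT
  rw [TM_eq (CI_fL hπ hφ) (lts x) S hS, map_sum]
  refine Finset.sum_congr rfl fun g _ => ?_
  rw [map_smul, hbb, smul_eq_mul]

theorem exists_comb {π : G → Subgroup.centralizer ({c} : Set G)}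
    (hπ : ∀ (z : Subgroup.centralizer ({c} : Set G)) (g : G), π (z * g) = z * π g)
    (w : QC (MonoidAlgebra L (G × Multiplicative ℤ)) (n + 2)) :
    ∃ b : (Fin (n + 2) → Subgroup.centralizer ({c} : Set G)) →₀ L,
      ∀ φ : (Fin (n + 2) → Subgroup.centralizer ({c} : Set G)) → L,
        (∀ (g : Subgroup.centralizer ({c} : Set G)) x, φ (fun j => g * x j) = φ x) →
        TQ ((c, 1) : G × Multiplicative ℤ) (fL π φ) w = b.sum fun x r => r * φ x := by
  have main : ∃ b : (Fin (n + 2) → Subgroup.centralizer ({c} : Set G)) →₀ L,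
      ∀ φ : (Fin (n + 2) → Subgroup.centralizer ({c} : Set G)) → L,
        (∀ (g : Subgroup.centralizer ({c} : Set G)) x, φ (fun j => g * x j) = φ x) →
        TQ ((c, 1) : G × Multiplicative ℤ) (fL π φ) w = Finsupp.linearCombination L φ b := by
    refine QC.induction (P := fun w => ∃ b : (Fin (n + 2) → Subgroup.centralizer ({c} : Set G)) →₀ L,
      ∀ φ : (Fin (n + 2) → Subgroup.centralizer ({c} : Set G)) → L,
        (∀ (g : Subgroup.centralizer ({c} : Set G)) x, φ (fun j => g * x j) = φ x) →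
        TQ ((c, 1) : G × Multiplicative ℤ) (fL π φ) w = Finsupp.linearCombination L φ b) ?_ ?_ ?_ ?_ w
    · refine ⟨0, fun φ _ => ?_⟩
      rw [map_zero, map_zero]
    · intro N x
      obtain ⟨b, hb⟩ := ww_tuple hπ x
      refine ⟨b, fun φ hφ => ?_⟩
      rw [TQ_t]
      exact hb φ hφ
    · rintro a a' ⟨b, hb⟩ ⟨b', hb'⟩
      refine ⟨b + b', fun φ hφ => ?_⟩
      rw [map_add, map_add, hb φ hφ, hb' φ hφ]
    · rintro a ⟨b, hb⟩
      refine ⟨-b, fun φ hφ => ?_⟩
      rw [map_neg, map_neg, hb φ hφ]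
  obtain ⟨b, hb⟩ := main
  exact ⟨b, fun φ hφ => hb φ hφ⟩

theorem exists_basis {X : Type u} (b : X →₀ L) :
    ∃ (r : ℕ) (ω : Fin r → L) (c : Fin r → X →₀ ℤ),
      (∀ q : Fin r → ℚ, ∑ s, ω s * ((q s : ℚ) : L) = 0 → ∀ s, q s = 0) ∧
      ∀ φ : X → L, b.sum (fun x a => a * φ x) =
        ∑ s, ω s * Finsupp.linearCombination ℤ φ (c s) := by
  classical
  let M : Submodule ℤ L := Submodule.span ℤ ((fun x => b x) '' (b.support : Set X))
  have hfin : Module.Finite ℤ M :=
    Module.Finite.span_of_finite ℤ (b.support.finite_toSet.image _)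
  have htf : Module.IsTorsionFree ℤ M := inferInstance
  have hfree : Module.Free ℤ M := Module.free_of_finite_type_torsion_free'
  let e : Module.Basis (Fin (Module.finrank ℤ M)) ℤ M := Module.finBasis ℤ M
  have hmem : ∀ x, b x ∈ M := by
    intro x
    by_cases hx : b x = 0
    · rw [hx]
      exact M.zero_mem
    · exact Submodule.subset_span ⟨x, Finsupp.mem_support_iff.2 hx, rfl⟩
  let cc : Fin (Module.finrank ℤ M) → X →₀ ℤ := fun s =>
    Finsupp.onFinset b.support (fun x => e.repr ⟨b x, hmem x⟩ s) (by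
      intro x hx
      rw [Finsupp.mem_support_iff]
      intro h0
      apply hx
      have h1 : (⟨b x, hmem x⟩ : M) = 0 := Subtype.ext h0
      rw [h1, map_zero]
      rfl)
  refine ⟨Module.finrank ℤ M, fun s => (e s : L), cc, ?_, ?_⟩
  · intro q hq
    have hli : LinearIndependent ℤ (fun s => (e s : L)) :=
      e.linearIndependent.map' M.subtype (Submodule.ker_subtype M)
    have hli' : LinearIndependent ℚ (fun s => (e s : L)) :=
      (LinearIndependent.iff_fractionRing ℤ ℚ).1 hli
    rw [Fintype.linearIndependent_iff] at hli'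
    refine hli' q ?_
    rw [← hq]
    refine Finset.sum_congr rfl fun s _ => ?_
    rw [Rat.smul_def, mul_comm]
  · intro φ
    have h1 : ∀ s, Finsupp.linearCombination ℤ φ (cc s) =
        ∑ x ∈ b.support, ((e.repr ⟨b x, hmem x⟩ s : ℤ) : L) * φ x := by
      intro s
      rw [Finsupp.linearCombination_apply, Finsupp.onFinset_sum _ (fun x => zero_smul ℤ (φ x))]
      refine Finset.sum_congr rfl fun x _ => ?_
      rw [zsmul_eq_mul]
    have h2 : ∀ x, b x = ∑ s, (e s : L) * ((e.repr ⟨b x, hmem x⟩ s : ℤ) : L) := by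
      intro x
      have h3 := congrArg (M.subtype) (e.sum_repr ⟨b x, hmem x⟩)
      rw [map_sum] at h3
      refine Eq.trans h3.symm ?_
      refine Finset.sum_congr rfl fun s _ => ?_
      rw [map_smul, zsmul_eq_mul, mul_comm]
      rfl
    simp only [h1, Finset.mul_sum]
    rw [Finset.sum_comm, Finsupp.sum]
    refine Finset.sum_congr rfl fun x _ => ?_
    conv_lhs => rw [h2 x]
    rw [Finset.sum_mul]
    refine Finset.sum_congr rfl fun s _ => ?_
    ring

theorem cyc_of_kill {Γ : Type u} [Group Γ] {c : Cx ℤ Γ (n + 1)}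
    (h : ∀ ψ : (Fin (n + 1) → Γ) → ℚ, (∀ (g : Γ) x, ψ (fun j => g * x j) = ψ x) →
      Finsupp.linearCombination ℤ (dl ψ) c = 0) : c ∈ cyc Γ n := by
  have h0 : nrm Γ n (bd ℤ Γ n c) = 0 := by
    refine Finsupp.ext fun y => ?_
    let ψ : (Fin (n + 1) → Γ) → ℚ := fun x => ((nrm Γ n (Finsupp.single x 1) y : ℤ) : ℚ)
    have hψ : ∀ (g : Γ) x, ψ (fun j => g * x j) = ψ x := by
      intro g x
      show ((nrm Γ n (Finsupp.single (fun j => g * x j) 1) y : ℤ) : ℚ) =
        ((nrm Γ n (Finsupp.single x 1) y : ℤ) : ℚ)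
      rw [nrm_single, nrm_single]
      have e : (fun j => (g * x 0)⁻¹ * (g * x j)) = fun j => (x 0)⁻¹ * x j := by
        funext j
        group
      rw [e]
    have h1 : ∀ d : Cx ℤ Γ n, Finsupp.linearCombination ℤ ψ d = ((nrm Γ n d y : ℤ) : ℚ) := by
      intro d
      let F : Cx ℤ Γ n →ₗ[ℤ] ℚ :=
        ((Int.castAddHom ℚ).comp ((Finsupp.applyAddHom y).comp
          (nrm Γ n).toAddMonoidHom)).toIntLinearMap
      refine cx_ext (f := Finsupp.linearCombination ℤ ψ) (g := F) ?_ d
      intro x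
      rw [Finsupp.linearCombination_single, one_smul]
      rfl
    have h2 := h ψ hψ
    have h3 : Finsupp.linearCombination ℤ (dl ψ) c =
        Finsupp.linearCombination ℤ ψ (bd ℤ Γ n c) := (lc_bd ψ c).symm
    rw [h3, h1] at h2
    exact Int.cast_eq_zero.1 h2
  have h1 := sub_nrm_mem (bd ℤ Γ n c)
  rw [h0, sub_zero] at h1
  exact h1

/-- **The class.** -/
theorem exists_class {π : G → Subgroup.centralizer ({c} : Set G)}
    (hπ : ∀ (z : Subgroup.centralizer ({c} : Set G)) (g : G), π (z * g) = z * π g)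
    {w : QC (MonoidAlgebra L (G × Multiplicative ℤ)) (n + 2)} (hw : qbd w ∈ QC0 G L (n + 1)) :
    ∃ (r : ℕ) (ω : Fin r → L) (a : Fin r → HG (Subgroup.centralizer ({c} : Set G)) n),
      ∀ (φ : (Fin (n + 2) → Subgroup.centralizer ({c} : Set G)) → L)
        (hφ : IsCoc (Subgroup.centralizer ({c} : Set G)) n φ),
        TQ ((c, 1) : G × Multiplicative ℤ) (fL π φ) w = ∑ s, ω s * HG.ev hφ (a s) := by
  obtain ⟨b, hb⟩ := exists_comb (c := c) hπ w
  obtain ⟨r, ω, cc, hω, hcc⟩ := exists_basis b
  have hcyc : ∀ s, cc s ∈ cyc (Subgroup.centralizer ({c} : Set G)) n := by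
    intro s
    refine cyc_of_kill fun ψ hψ => ?_
    let ψL : (Fin (n + 1) → Subgroup.centralizer ({c} : Set G)) → L := fun x => ((ψ x : ℚ) : L)
    have hψL : ∀ (g : Subgroup.centralizer ({c} : Set G)) x,
        ψL (fun j => g * x j) = ψL x := fun g x => congrArg (fun t : ℚ => (t : L)) (hψ g x)
    have hdl : ∀ (g : Subgroup.centralizer ({c} : Set G)) x,
        dl ψL (fun j => g * x j) = dl ψL x := by
      intro g x
      unfold dl
      refine Finset.sum_congr rfl fun i _ => ?_
      rw [hψL g fun j => x (i.succAbove j)]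
    have h1 := TQ_fL_dl hπ hψL hw
    rw [hb _ hdl, hcc] at h1
    have h2 : ∀ s, Finsupp.linearCombination ℤ (dl ψL) (cc s) =
        ((Finsupp.linearCombination ℤ (dl ψ) (cc s) : ℚ) : L) := by
      intro s
      let F : Cx ℤ (Subgroup.centralizer ({c} : Set G)) (n + 1) →ₗ[ℤ] L :=
        ((Rat.castHom L).toAddMonoidHom.comp
          (Finsupp.linearCombination ℤ (dl ψ)).toAddMonoidHom).toIntLinearMap
      refine cx_ext (f := Finsupp.linearCombination ℤ (dl ψL)) (g := F) ?_ (cc s)
      intro x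
      have h3 : F (Finsupp.single x 1) =
          ((Finsupp.linearCombination ℤ (dl ψ) (Finsupp.single x 1) : ℚ) : L) := rfl
      rw [h3, Finsupp.linearCombination_single, Finsupp.linearCombination_single, one_smul, one_smul]
      unfold dl
      rw [Rat.cast_sum]
      refine Finset.sum_congr rfl fun i _ => ?_
      rw [zsmul_eq_mul, zsmul_eq_mul, Rat.cast_mul, Rat.cast_intCast]
    simp only [h2] at h1
    exact hω _ h1 s
  refine ⟨r, ω, fun s => HG.mk ⟨cc s, hcyc s⟩, ?_⟩
  intro φ hφ
  rw [hb φ hφ.inv, hcc φ]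
  exact Finset.sum_congr rfl fun s _ => by rw [HG.ev_mk]

end

end Pool.Agent.H16.KN
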